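import Pool.Agent.Lib.Pdaec8e.Spectral5

set_option autoImplicit false

open MeasureTheory Filter Topology
open scoped ComplexConjugate ENNReal InnerProductSpace

namespace Pool.Agent.Lib.Pdaec8e

noncomputable section

/-- Abstract data of a perturbed form. -/
structure FormData (P H X T Y : Type*) [AddCommGroup P] [Module ℂ P] [NormedAddCommGroup H] [InnerProductSpace ℂ H]
    [CompleteSpace H] [NormedAddCommGroup X] [InnerProductSpace ℂ X] [CompleteSpace X] [NormedAddCommGroup T]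
    [InnerProductSpace ℂ T] [CompleteSpace T] [NormedAddCommGroup Y] [InnerProductSpace ℂ Y] [CompleteSpace Y] where
  a : P →ₗ[ℂ] H
  d : Fin 2 → P →ₗ[ℂ] H
  t : P →ₗ[ℂ] T
  v : P →ₗ[ℂ] X
  V : H ≃ₗᵢ[ℂ] X
  J : X →L[ℂ] X
  S : Y →L[ℂ] X
  κ : ℝ
  α : ℝ
  hκ : 0 < κ
  denseV : DenseRange v
  hJ : IsSelfAdjoint J
  hJinj : Function.Injective J
  Jv : ∀ φ, J (v φ) = V (a φ)
  inner_v : ∀ φ χ, ⟪v φ, v χ⟫_ℂ = (κ : ℂ) ^ 2 * ⟪a φ, a χ⟫_ℂ + ∑ j, ⟪d j φ, d j χ⟫_ℂ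
  inner_t : ∀ φ χ, ⟪t φ, t χ⟫_ℂ = ⟪ContinuousLinearMap.adjoint S (v φ), ContinuousLinearMap.adjoint S (v χ)⟫_ℂ
  unitQ : IsUnit (1 - (α : ℂ) • (S ∘L ContinuousLinearMap.adjoint S))

namespace FormData

variable {P H X T Y : Type*} [AddCommGroup P] [Module ℂ P] [NormedAddCommGroup H] [InnerProductSpace ℂ H]
    [CompleteSpace H] [NormedAddCommGroup X] [InnerProductSpace ℂ X] [CompleteSpace X] [NormedAddCommGroup T]
    [InnerProductSpace ℂ T] [CompleteSpace T] [NormedAddCommGroup Y] [InnerProductSpace ℂ Y] [CompleteSpace Y]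

variable (D : FormData P H X T Y)

/-- closure of the graph -/
def Tr (ψ : H) (G : Fin 2 → H) (τ : T) : Prop :=
  ∃ φ : ℕ → P, Tendsto (fun n => D.a (φ n)) atTop (𝓝 ψ) ∧ (∀ j, Tendsto (fun n => D.d j (φ n)) atTop (𝓝 (G j))) ∧
    Tendsto (fun n => D.t (φ n)) atTop (𝓝 τ)

/-- closure of the graph with the auxiliary vector -/
def TrW (ψ : H) (G : Fin 2 → H) (τ : T) (w : X) : Prop :=
  ∃ φ : ℕ → P, Tendsto (fun n => D.a (φ n)) atTop (𝓝 ψ) ∧ (∀ j, Tendsto (fun n => D.d j (φ n)) atTop (𝓝 (G j))) ∧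
    Tendsto (fun n => D.t (φ n)) atTop (𝓝 τ) ∧ Tendsto (fun n => D.v (φ n)) atTop (𝓝 w)

lemma norm_v_sq (φ : P) : ‖D.v φ‖ ^ 2 = D.κ ^ 2 * ‖D.a φ‖ ^ 2 + ∑ j, ‖D.d j φ‖ ^ 2 := by
  have h := D.inner_v φ φ
  rw [inner_self_eq_norm_sq_to_K, inner_self_eq_norm_sq_to_K] at h
  simp_rw [inner_self_eq_norm_sq_to_K] at h
  have h2 : ((‖D.v φ‖ ^ 2 : ℝ) : ℂ) = ((D.κ ^ 2 * ‖D.a φ‖ ^ 2 + ∑ j, ‖D.d j φ‖ ^ 2 : ℝ) : ℂ) := by
    push_cast
    exact h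
  exact Complex.ofReal_injective h2

lemma norm_v_le (φ : P) : ‖D.v φ‖ ≤ D.κ * ‖D.a φ‖ + ∑ j, ‖D.d j φ‖ := by
  have h := D.norm_v_sq φ
  have hk := D.hκ
  rw [Fin.sum_univ_two] at h ⊢
  refine le_of_sq_le_sq ?_ (by positivity)
  rw [h]
  nlinarith [norm_nonneg (D.a φ), norm_nonneg (D.d 0 φ), norm_nonneg (D.d 1 φ), mul_nonneg hk.le (norm_nonneg (D.a φ)),
    mul_nonneg (mul_nonneg hk.le (norm_nonneg (D.a φ))) (norm_nonneg (D.d 0 φ)),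
    mul_nonneg (mul_nonneg hk.le (norm_nonneg (D.a φ))) (norm_nonneg (D.d 1 φ)),
    mul_nonneg (norm_nonneg (D.d 0 φ)) (norm_nonneg (D.d 1 φ))]

lemma norm_d_le (j : Fin 2) (φ : P) : ‖D.d j φ‖ ≤ ‖D.v φ‖ := by
  have h := D.norm_v_sq φ
  rw [Fin.sum_univ_two] at h
  refine le_of_sq_le_sq ?_ (norm_nonneg _)
  rw [h]
  fin_cases j
  · simp only [Fin.zero_eta]
    nlinarith [sq_nonneg (D.κ * ‖D.a φ‖), sq_nonneg ‖D.d 1 φ‖]
  · simp only [Fin.mk_one]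
    nlinarith [sq_nonneg (D.κ * ‖D.a φ‖), sq_nonneg ‖D.d 0 φ‖]

lemma norm_t (φ : P) : ‖D.t φ‖ = ‖ContinuousLinearMap.adjoint D.S (D.v φ)‖ := by
  have h := D.inner_t φ φ
  rw [inner_self_eq_norm_sq_to_K, inner_self_eq_norm_sq_to_K] at h
  have h2 : ((‖D.t φ‖ ^ 2 : ℝ) : ℂ) = ((‖ContinuousLinearMap.adjoint D.S (D.v φ)‖ ^ 2 : ℝ) : ℂ) := by
    push_cast
    exact h
  have h3 := Complex.ofReal_injective h2
  exact (sq_eq_sq₀ (norm_nonneg _) (norm_nonneg _)).mp h3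

omit [AddCommGroup P] [Module ℂ P] in
lemma cauchy_of_bound {A B : Type*} [NormedAddCommGroup A] [NormedAddCommGroup B] (f : P → A) (g : P → B)
    (C : ℝ) (h : ∀ φ χ, ‖g φ - g χ‖ ≤ C * ‖f φ - f χ‖) (u : ℕ → P) (hu : CauchySeq (fun n => f (u n))) :
    CauchySeq (fun n => g (u n)) := by
  rw [cauchySeq_iff_tendsto_dist_atTop_0] at hu ⊢
  have h1 := hu.const_mul C
  rw [mul_zero] at h1
  refine squeeze_zero (fun _ => dist_nonneg) (fun p => ?_) h1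
  rw [dist_eq_norm, dist_eq_norm]
  exact h _ _

lemma Tr_iff (ψ : H) (G : Fin 2 → H) (τ : T) : D.Tr ψ G τ ↔ ∃ w, D.TrW ψ G τ w := by
  constructor
  · rintro ⟨φ, h1, h2, h3⟩
    have hc : CauchySeq (fun n => D.v (φ n)) := by
      have c1 := h1.cauchySeq
      have c2 := fun j => (h2 j).cauchySeq
      rw [cauchySeq_iff_tendsto_dist_atTop_0] at c1 ⊢
      simp_rw [cauchySeq_iff_tendsto_dist_atTop_0] at c2
      have h4 := (c1.const_mul D.κ).add ((c2 0).add (c2 1))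
      rw [mul_zero, add_zero, zero_add] at h4
      refine squeeze_zero (fun _ => dist_nonneg) (fun p => ?_) h4
      rw [dist_eq_norm, dist_eq_norm, dist_eq_norm, dist_eq_norm, ← map_sub, ← map_sub, ← map_sub, ← map_sub]
      have := D.norm_v_le (φ p.1 - φ p.2)
      rwa [Fin.sum_univ_two] at this
    obtain ⟨w, hw⟩ := cauchySeq_tendsto_of_complete hc
    exact ⟨w, φ, h1, h2, h3, hw⟩
  · rintro ⟨w, φ, h1, h2, h3, _⟩
    exact ⟨φ, h1, h2, h3⟩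

lemma exists_TrW (w : X) : ∃ G τ, D.TrW (D.V.symm (D.J w)) G τ w := by
  obtain ⟨φ, hφ⟩ : ∃ φ : ℕ → P, Tendsto (fun n => D.v (φ n)) atTop (𝓝 w) := by
    have h1 : w ∈ closure (Set.range D.v) := D.denseV w
    obtain ⟨x, hx1, hx2⟩ := mem_closure_iff_seq_limit.mp h1
    choose φ hφ using hx1
    refine ⟨φ, ?_⟩
    simp_rw [hφ]
    exact hx2
  have hc := hφ.cauchySeq
  have h1 : Tendsto (fun n => D.a (φ n)) atTop (𝓝 (D.V.symm (D.J w))) := by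
    have h2 : ∀ n, D.a (φ n) = D.V.symm (D.J (D.v (φ n))) := by
      intro n
      rw [D.Jv, LinearIsometryEquiv.symm_apply_apply]
    simp_rw [h2]
    exact ((D.V.symm.continuous.comp D.J.continuous).tendsto w).comp hφ
  have h2 : ∀ j, ∃ g, Tendsto (fun n => D.d j (φ n)) atTop (𝓝 g) := by
    intro j
    refine cauchySeq_tendsto_of_complete (cauchy_of_bound (fun x => D.v x) (fun x => D.d j x) 1 (fun x y => ?_) φ hc)
    rw [← map_sub, ← map_sub, one_mul]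
    exact D.norm_d_le j _
  have h3 : ∃ τ, Tendsto (fun n => D.t (φ n)) atTop (𝓝 τ) := by
    refine cauchySeq_tendsto_of_complete (cauchy_of_bound (fun x => D.v x) (fun x => D.t x) ‖ContinuousLinearMap.adjoint D.S‖ (fun x y => ?_) φ hc)
    rw [← map_sub, ← map_sub, D.norm_t]
    exact ContinuousLinearMap.le_opNorm _ _
  choose G hG using h2
  obtain ⟨τ, hτ⟩ := h3
  exact ⟨G, τ, φ, h1, hG, hτ, hφ⟩

lemma TrW_V {ψ : H} {G : Fin 2 → H} {τ : T} {w : X} (h : D.TrW ψ G τ w) : D.V ψ = D.J w := by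
  obtain ⟨φ, h1, _, _, h4⟩ := h
  have e1 : Tendsto (fun n => D.V (D.a (φ n))) atTop (𝓝 (D.V ψ)) := (D.V.continuous.tendsto ψ).comp h1
  have e2 : Tendsto (fun n => D.J (D.v (φ n))) atTop (𝓝 (D.J w)) := (D.J.continuous.tendsto w).comp h4
  simp_rw [D.Jv] at e2
  exact tendsto_nhds_unique e1 e2

lemma TrW_inner {ψ ψ' : H} {G G' : Fin 2 → H} {τ τ' : T} {w w' : X} (h : D.TrW ψ G τ w) (h' : D.TrW ψ' G' τ' w') :
    ⟪w, w'⟫_ℂ = (D.κ : ℂ) ^ 2 * ⟪ψ, ψ'⟫_ℂ + ∑ j, ⟪G j, G' j⟫_ℂ ∧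
    ⟪τ, τ'⟫_ℂ = ⟪ContinuousLinearMap.adjoint D.S w, ContinuousLinearMap.adjoint D.S w'⟫_ℂ := by
  obtain ⟨φ, h1, h2, h3, h4⟩ := h
  obtain ⟨χ, k1, k2, k3, k4⟩ := h'
  constructor
  · have e1 : Tendsto (fun n => ⟪D.v (φ n), D.v (χ n)⟫_ℂ) atTop (𝓝 ⟪w, w'⟫_ℂ) := h4.inner k4
    have e2 : Tendsto (fun n => (D.κ : ℂ) ^ 2 * ⟪D.a (φ n), D.a (χ n)⟫_ℂ + ∑ j, ⟪D.d j (φ n), D.d j (χ n)⟫_ℂ) atTop
        (𝓝 ((D.κ : ℂ) ^ 2 * ⟪ψ, ψ'⟫_ℂ + ∑ j, ⟪G j, G' j⟫_ℂ)) :=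
      ((h1.inner k1).const_mul _).add (tendsto_finsetSum _ (fun j _ => (h2 j).inner (k2 j)))
    simp_rw [← D.inner_v] at e2
    exact tendsto_nhds_unique e1 e2
  · have e1 : Tendsto (fun n => ⟪D.t (φ n), D.t (χ n)⟫_ℂ) atTop (𝓝 ⟪τ, τ'⟫_ℂ) := h3.inner k3
    have c := (ContinuousLinearMap.adjoint D.S).continuous
    have e2 : Tendsto (fun n => ⟪ContinuousLinearMap.adjoint D.S (D.v (φ n)), ContinuousLinearMap.adjoint D.S (D.v (χ n))⟫_ℂ) atTop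
        (𝓝 ⟪ContinuousLinearMap.adjoint D.S w, ContinuousLinearMap.adjoint D.S w'⟫_ℂ) :=
      ((c.tendsto w).comp h4).inner ((c.tendsto w').comp k4)
    simp_rw [← D.inner_t] at e2
    exact tendsto_nhds_unique e1 e2

lemma TrW_const (χ : P) : D.TrW (D.a χ) (fun j => D.d j χ) (D.t χ) (D.v χ) :=
  ⟨fun _ => χ, tendsto_const_nhds, fun _ => tendsto_const_nhds, tendsto_const_nhds, tendsto_const_nhds⟩

/-- the quadratic part -/
def Q : X →L[ℂ] X := 1 - (D.α : ℂ) • (D.S ∘L ContinuousLinearMap.adjoint D.S)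

lemma inner_Q (x y : X) : ⟪x, D.Q y⟫_ℂ = ⟪x, y⟫_ℂ - (D.α : ℂ) *
    ⟪ContinuousLinearMap.adjoint D.S x, ContinuousLinearMap.adjoint D.S y⟫_ℂ := by
  rw [Q, sub_apply, one_apply_eq_self, smul_apply, ContinuousLinearMap.comp_apply, inner_sub_right, inner_smul_right,
    ContinuousLinearMap.adjoint_inner_left]

/-- the resolvent -/
def R : X →L[ℂ] X := D.J * Ring.inverse D.Q * D.J

lemma Q_selfAdjoint : IsSelfAdjoint D.Q := by
  have h1 : IsSelfAdjoint (D.S ∘L (ContinuousLinearMap.adjoint D.S)) := by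
    rw [IsSelfAdjoint, ContinuousLinearMap.star_eq_adjoint, ContinuousLinearMap.adjoint_comp, ContinuousLinearMap.adjoint_adjoint]
  have h2 : IsSelfAdjoint (D.α : ℂ) := Complex.conj_ofReal D.α
  exact (IsSelfAdjoint.one _).sub (h2.smul h1)

lemma R_selfAdjoint : IsSelfAdjoint D.R := by
  unfold R
  rw [IsSelfAdjoint, star_mul, star_mul, D.hJ.star_eq, ← Ring.inverse_star, D.Q_selfAdjoint.star_eq, mul_assoc]

lemma J_symm (x y : X) : ⟪D.J x, y⟫_ℂ = ⟪x, D.J y⟫_ℂ := by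
  have h2 := D.hJ
  rw [IsSelfAdjoint, ContinuousLinearMap.star_eq_adjoint] at h2
  conv_lhs => rw [← h2]
  rw [ContinuousLinearMap.adjoint_inner_left]

lemma R_injective : Function.Injective D.R := by
  have h1 := Ring.mul_inverse_cancel _ D.unitQ
  intro x y hxy
  have h2 : D.J (Ring.inverse D.Q (D.J x)) = D.J (Ring.inverse D.Q (D.J y)) := hxy
  have h3 := D.hJinj h2
  have h4 : (D.Q * Ring.inverse D.Q) (D.J x) = (D.Q * Ring.inverse D.Q) (D.J y) := by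
    rw [mul_apply_eq_comp, mul_apply_eq_comp, h3]
  have h5 : D.Q * Ring.inverse D.Q = 1 := h1
  rw [h5] at h4
  exact D.hJinj h4

/-- the form relation -/
def Rel (ψ f : H) : Prop := ∃ (G : Fin 2 → H) (τ : T), D.Tr ψ G τ ∧ ∀ (φ : H) (Φ : Fin 2 → H) (σ : T), D.Tr φ Φ σ →
      (∑ j : Fin 2, ⟪Φ j, G j⟫_ℂ) - (D.α : ℂ) * ⟪σ, τ⟫_ℂ = ⟪φ, f⟫_ℂ

theorem Rel_iff (ψ f : H) : D.Rel ψ f ↔ D.V ψ = D.R (D.V f + (D.κ : ℂ) ^ 2 • D.V ψ) := by
  have hQu : D.Q * Ring.inverse D.Q = 1 := Ring.mul_inverse_cancel _ D.unitQ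
  have hQu' : Ring.inverse D.Q * D.Q = 1 := Ring.inverse_mul_cancel _ D.unitQ
  constructor
  · rintro ⟨G, τ, hTr, h⟩
    obtain ⟨w, hw⟩ := (D.Tr_iff ψ G τ).mp hTr
    have hV := D.TrW_V hw
    have hQw : D.Q w = D.J (D.V f + (D.κ : ℂ) ^ 2 • D.V ψ) := by
      have hfun : (fun x : X => ⟪x, D.Q w⟫_ℂ) = (fun x : X => ⟪x, D.J (D.V f + (D.κ : ℂ) ^ 2 • D.V ψ)⟫_ℂ) := by
        have c1 : Continuous (fun x : X => ⟪x, D.Q w⟫_ℂ) := continuous_id.inner continuous_const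
        have c2 : Continuous (fun x : X => ⟪x, D.J (D.V f + (D.κ : ℂ) ^ 2 • D.V ψ)⟫_ℂ) := continuous_id.inner continuous_const
        refine D.denseV.equalizer c1 c2 ?_
        funext χ
        simp only [Function.comp_apply]
        have h1 := h _ _ _ ((D.Tr_iff _ _ _).mpr ⟨_, D.TrW_const χ⟩)
        obtain ⟨h2, h3⟩ := D.TrW_inner (D.TrW_const χ) hw
        rw [D.inner_Q, ← h3, h2, ← D.J_symm, D.Jv, inner_add_right, inner_smul_right,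
          LinearIsometryEquiv.inner_map_map, LinearIsometryEquiv.inner_map_map, ← h1]
        ring
      exact ext_inner_left ℂ (fun x => congrFun hfun x)
    rw [R, mul_apply_eq_comp, mul_apply_eq_comp, ← hQw, hV]
    have : Ring.inverse D.Q (D.Q w) = w := by
      have h6 : (Ring.inverse D.Q * D.Q) w = w := by rw [hQu']; rfl
      exact h6
    rw [this]
  · intro hψ
    set w := Ring.inverse D.Q (D.J (D.V f + (D.κ : ℂ) ^ 2 • D.V ψ)) with hw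
    have hQw : D.Q w = D.J (D.V f + (D.κ : ℂ) ^ 2 • D.V ψ) := by
      have h6 : (D.Q * Ring.inverse D.Q) (D.J (D.V f + (D.κ : ℂ) ^ 2 • D.V ψ)) = D.J (D.V f + (D.κ : ℂ) ^ 2 • D.V ψ) := by rw [hQu]; rfl
      exact h6
    have hψ' : D.V ψ = D.J w := hψ
    obtain ⟨G, τ, hG⟩ := D.exists_TrW w
    rw [← hψ', LinearIsometryEquiv.symm_apply_apply] at hG
    refine ⟨G, τ, (D.Tr_iff _ _ _).mpr ⟨w, hG⟩, fun φ Φ σ hφ => ?_⟩
    obtain ⟨w', hw'⟩ := (D.Tr_iff φ Φ σ).mp hφ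
    obtain ⟨h2, h3⟩ := D.TrW_inner hw' hG
    have h4 := D.TrW_V hw'
    have h5 : ⟪w', D.Q w⟫_ℂ = ⟪w', w⟫_ℂ - (D.α : ℂ) * ⟪σ, τ⟫_ℂ := by
      rw [D.inner_Q, ← h3]
    rw [hQw, ← D.J_symm, ← h4, inner_add_right, inner_smul_right, LinearIsometryEquiv.inner_map_map,
      LinearIsometryEquiv.inner_map_map, h2] at h5
    linear_combination -h5

end FormData

end

end Pool.Agent.Lib.Pdaec8e
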