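import Pool.Agent.Lib.Pdaec8e.AbsOp

set_option autoImplicit false

open MeasureTheory Filter Topology
open scoped ComplexConjugate ENNReal InnerProductSpace

namespace Pool.Agent.Lib.Pdaec8e

noncomputable section

namespace FormData

variable {P H X T Y : Type*} [AddCommGroup P] [Module ℂ P] [NormedAddCommGroup H] [InnerProductSpace ℂ H]
    [CompleteSpace H] [NormedAddCommGroup X] [InnerProductSpace ℂ X] [CompleteSpace X] [NormedAddCommGroup T]
    [InnerProductSpace ℂ T] [CompleteSpace T] [NormedAddCommGroup Y] [InnerProductSpace ℂ Y] [CompleteSpace Y]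

variable (D : FormData P H X T Y)

/-- the defining linear map of the graph -/
def grMap : (H × H) →ₗ[ℂ] X where
  toFun p := D.V p.1 - D.R (D.V p.2 + (D.κ : ℂ) ^ 2 • D.V p.1)
  map_add' p q := by
    simp only [Prod.fst_add, Prod.snd_add, map_add, smul_add, map_smul]
    module
  map_smul' c p := by
    simp only [Prod.smul_fst, Prod.smul_snd, map_smul, map_add, RingHom.id_apply]
    module

/-- graph of the operator -/
def gr : Submodule ℂ (H × H) := LinearMap.ker D.grMap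

lemma mem_gr (ψ f : H) : (ψ, f) ∈ D.gr ↔ D.V ψ = D.R (D.V f + (D.κ : ℂ) ^ 2 • D.V ψ) := by
  unfold gr
  rw [LinearMap.mem_ker]
  change D.V ψ - D.R (D.V f + (D.κ : ℂ) ^ 2 • D.V ψ) = 0 ↔ _
  rw [sub_eq_zero]

lemma gr_unique : ∀ x ∈ D.gr, x.1 = 0 → x.2 = 0 := by
  rintro ⟨ψ, f⟩ hx h0
  simp only at h0
  subst h0
  rw [mem_gr, map_zero, smul_zero, add_zero] at hx
  have h1 : D.R (D.V f) = D.R 0 := by rw [map_zero]; exact hx.symm
  have h2 := D.R_injective h1
  simpa using h2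

/-- the operator -/
def op : H →ₗ.[ℂ] H := D.gr.toLinearPMap

lemma op_graph : D.op.graph = D.gr := Submodule.toLinearPMap_graph_eq _ D.gr_unique

lemma R_symm (x y : X) : ⟪D.R x, y⟫_ℂ = ⟪x, D.R y⟫_ℂ := by
  have h2 := D.R_selfAdjoint
  rw [IsSelfAdjoint, ContinuousLinearMap.star_eq_adjoint] at h2
  conv_lhs => rw [← h2]
  rw [ContinuousLinearMap.adjoint_inner_left]

lemma mem_gr_of (h : X) : (D.V.symm (D.R h), D.V.symm h - (D.κ : ℂ) ^ 2 • D.V.symm (D.R h)) ∈ D.gr := by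
  rw [mem_gr]
  simp only [map_sub, map_smul, LinearIsometryEquiv.apply_symm_apply]
  congr 1
  module

lemma dense_domain : Dense (D.op.domain : Set H) := by
  rw [Submodule.dense_iff_topologicalClosure_eq_top, Submodule.topologicalClosure_eq_top_iff, Submodule.eq_bot_iff]
  intro y hy
  rw [Submodule.mem_orthogonal] at hy
  have h1 : ∀ h : X, ⟪D.R h, D.V y⟫_ℂ = 0 := by
    intro h
    have h2 : D.V.symm (D.R h) ∈ D.op.domain := by
      rw [LinearPMap.mem_domain_iff]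
      exact ⟨_, by rw [D.op_graph]; exact D.mem_gr_of h⟩
    have h3 := hy _ h2
    rw [← LinearIsometryEquiv.inner_map_map D.V, LinearIsometryEquiv.apply_symm_apply] at h3
    exact h3
  have h2 : D.R (D.V y) = 0 := by
    refine ext_inner_left ℂ (fun h => ?_)
    rw [← D.R_symm, h1 h, inner_zero_right]
  have h3 := D.R_injective (h2.trans (map_zero D.R).symm)
  simpa using h3

theorem op_selfAdjoint : IsSelfAdjoint D.op := by
  rw [LinearPMap.isSelfAdjoint_def]
  refine LinearPMap.eq_of_eq_graph ?_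
  rw [LinearPMap.adjoint_graph_eq_graph_adjoint D.dense_domain, D.op_graph]
  ext ⟨x1, x2⟩
  rw [Submodule.mem_adjoint_iff, mem_gr]
  simp only
  constructor
  · intro hx
    refine ext_inner_left ℂ (fun h => ?_)
    have h1 := hx _ _ (D.mem_gr_of h)
    rw [inner_sub_left, inner_smul_left, map_pow, Complex.conj_ofReal] at h1
    have e1 : ⟪D.V.symm h, x1⟫_ℂ = ⟪h, D.V x1⟫_ℂ := by
      rw [← LinearIsometryEquiv.inner_map_map D.V, LinearIsometryEquiv.apply_symm_apply]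
    have e2 : ⟪D.V.symm (D.R h), x1⟫_ℂ = ⟪h, D.R (D.V x1)⟫_ℂ := by
      rw [← LinearIsometryEquiv.inner_map_map D.V, LinearIsometryEquiv.apply_symm_apply, D.R_symm]
    have e3 : ⟪D.V.symm (D.R h), x2⟫_ℂ = ⟪h, D.R (D.V x2)⟫_ℂ := by
      rw [← LinearIsometryEquiv.inner_map_map D.V, LinearIsometryEquiv.apply_symm_apply, D.R_symm]
    rw [e1, e2, e3] at h1
    rw [map_add, map_smul, inner_add_right, inner_smul_right]
    linear_combination h1
  · intro hx a b hab
    rw [mem_gr] at hab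
    rw [← LinearIsometryEquiv.inner_map_map D.V b x1, ← LinearIsometryEquiv.inner_map_map D.V a x2]
    set h := D.V b + (D.κ : ℂ) ^ 2 • D.V a with hh
    set h' := D.V x2 + (D.κ : ℂ) ^ 2 • D.V x1 with hh'
    have e1 : ⟪h, D.V x1⟫_ℂ = ⟪D.V b, D.V x1⟫_ℂ + (D.κ : ℂ) ^ 2 * ⟪D.V a, D.V x1⟫_ℂ := by
      rw [hh, inner_add_left, inner_smul_left, map_pow, Complex.conj_ofReal]
    have e2 : ⟪D.V a, h'⟫_ℂ = ⟪D.V a, D.V x2⟫_ℂ + (D.κ : ℂ) ^ 2 * ⟪D.V a, D.V x1⟫_ℂ := by
      rw [hh', inner_add_right, inner_smul_right]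
    have e3 : ⟪h, D.V x1⟫_ℂ = ⟪D.V a, h'⟫_ℂ := by
      rw [hab, hx, D.R_symm]
    linear_combination e3 - e1 + e2

lemma mem_op_iff (f : H) (z : ℂ) (c : ℂ) :
    (∃ u : D.op.domain, D.op u - z • (u : H) = f ∧ ⟪f, (u : H)⟫_ℂ = c) ↔
      ∃ u : H, (u, f + z • u) ∈ D.gr ∧ ⟪f, u⟫_ℂ = c := by
  constructor
  · rintro ⟨u, hu, hc⟩
    refine ⟨u, ?_, hc⟩
    rw [← D.op_graph, LinearPMap.mem_graph_iff]
    exact ⟨u, rfl, by rw [← hu]; simp⟩
  · rintro ⟨u, hu, hc⟩
    rw [← D.op_graph, LinearPMap.mem_graph_iff] at hu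
    obtain ⟨y, hy1, hy2⟩ := hu
    simp only at hy1 hy2
    subst hy1
    exact ⟨y, by rw [hy2]; simp, hc⟩

theorem resolvent_iff (f : H) (z : ℂ) (hz : z.im ≠ 0) (c : ℂ) :
    (∃ u : D.op.domain, D.op u - z • (u : H) = f ∧ ⟪f, (u : H)⟫_ℂ = c) ↔
      ⟪D.V f, res D.R (D.κ ^ 2) z (D.V f)⟫_ℂ = c := by
  rw [D.mem_op_iff f z c]
  constructor
  · rintro ⟨u, hu, hc⟩
    rw [mem_gr] at hu
    have h1 : D.V u = res D.R (D.κ ^ 2) z (D.V f) := by
      refine res_unique D.R D.R_selfAdjoint (D.κ ^ 2) z hz (D.V f) (D.V u) ?_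
      conv_lhs => rw [hu]
      congr 1
      rw [map_add, map_smul]
      push_cast
      module
    rw [← h1, LinearIsometryEquiv.inner_map_map, hc]
  · intro hc
    refine ⟨D.V.symm (res D.R (D.κ ^ 2) z (D.V f)), ?_, ?_⟩
    · rw [mem_gr, LinearIsometryEquiv.apply_symm_apply, D.V.map_add, D.V.map_smul, LinearIsometryEquiv.apply_symm_apply]
      have h1 := res_eq D.R D.R_selfAdjoint (D.κ ^ 2) z hz (D.V f)
      set r := res D.R (D.κ ^ 2) z (D.V f) with hr
      have h2 : D.V f + z • r + (D.κ : ℂ) ^ 2 • r = D.V f + (((D.κ ^ 2 : ℝ) : ℂ) + z) • r := by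
        push_cast
        module
      rw [h2]
      exact h1
    · rw [← LinearIsometryEquiv.inner_map_map D.V, LinearIsometryEquiv.apply_symm_apply]
      exact hc

end FormData

end

end Pool.Agent.Lib.Pdaec8e
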