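import Pool.Agent.Lib.Pdaec8e.BOp

set_option autoImplicit false

open MeasureTheory Filter Topology
open scoped ComplexConjugate ENNReal InnerProductSpace Real

namespace Pool.Agent.Lib.Pdaec8e

noncomputable section

namespace FD

variable (F : FD)

/-- truncated plane waves -/
def psiN (κ : ℝ) (x : ℤ × ℝ) : F.E :=
  if rho2 0 0 x ≤ κ ^ 2 then (((Real.sqrt (om x))⁻¹ : ℝ) : ℂ) • F.eps x else 0

lemma aesm_psiN (κ : ℝ) : AEStronglyMeasurable (F.psiN κ) nu := by
  have h1 : Measurable (rho2 0 0) := measurable_rho2 0 0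
  have h2 : MeasurableSet {x : ℤ × ℝ | rho2 0 0 x ≤ κ ^ 2} := measurableSet_le h1 measurable_const
  have h3 : StronglyMeasurable (fun x : ℤ × ℝ => (((Real.sqrt (om x))⁻¹ : ℝ) : ℂ) • F.eps x) := by
    have h4 := continuous_om
    have h5 := F.continuous_eps
    have h6 : Continuous (fun x : ℤ × ℝ => (((Real.sqrt (om x))⁻¹ : ℝ) : ℂ) • F.eps x) := by
      have h7 : Continuous (fun x : ℤ × ℝ => (Real.sqrt (om x))⁻¹) :=
        (Real.continuous_sqrt.comp h4).inv₀ (fun x => (Real.sqrt_pos.mpr (om_pos x)).ne')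
      exact (Complex.continuous_ofReal.comp h7).smul h5
    exact h6.stronglyMeasurable
  exact (StronglyMeasurable.ite h2 h3 stronglyMeasurable_const).aestronglyMeasurable

lemma memLp_psiN (κ : ℝ) (hκ : 0 < κ) : MemLp (F.psiN κ) 2 nu := by
  refine memLp_two_of_lintegral _ (F.aesm_psiN κ) ?_
  have hL := F.hL
  have hb : ∀ x, ‖F.psiN κ x‖ₑ ^ 2 ≤ ENNReal.ofReal (F.L * Real.exp 1 * gw (1 / κ ^ 2) 0 0 x) := by
    intro x
    have hom := om_pos x
    have hg := (gw_pos (1 / κ ^ 2) 0 0 x).le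
    unfold psiN
    split_ifs with h
    · rw [← ofReal_norm, ← ENNReal.ofReal_pow (norm_nonneg _)]
      refine ENNReal.ofReal_le_ofReal ?_
      rw [norm_smul, mul_pow, F.norm_eps, Complex.norm_real, Real.norm_eq_abs, sq_abs, inv_pow, Real.sq_sqrt hom.le]
      have h1 : (om x)⁻¹ ≤ 1 := inv_le_one_of_one_le₀ (one_le_om x)
      have h2 : 1 ≤ Real.exp 1 * gw (1 / κ ^ 2) 0 0 x := by
        rw [gw_eq, ← Real.exp_add]
        refine Real.one_le_exp ?_
        have : 1 / κ ^ 2 * rho2 0 0 x ≤ 1 := by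
          rw [div_mul_eq_mul_div, one_mul, div_le_one (by positivity)]; exact h
        linarith
      calc (om x)⁻¹ * F.L ≤ 1 * F.L := mul_le_mul_of_nonneg_right h1 hL.le
        _ = F.L * 1 := by ring
        _ ≤ F.L * (Real.exp 1 * gw (1 / κ ^ 2) 0 0 x) := mul_le_mul_of_nonneg_left h2 hL.le
        _ = _ := by ring
    · simp
  refine (lintegral_mono hb).trans_lt ?_
  have hi := (integrable_gw (1 / κ ^ 2) 0 0 (by positivity)).const_mul (F.L * Real.exp 1)
  have := hi.lintegral_lt_top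
  exact this

lemma norm_B_sub_le (κ : ℝ) (hκ : 0 < κ) :
    ‖F.B - hs ((F.memLp_psiN κ hκ).toLp _)‖ ≤ Real.sqrt (2 * (π / (Real.sqrt F.c * κ))) := by
  have hpi := Real.pi_pos
  have hc := F.hc
  refine ContinuousLinearMap.opNorm_le_bound _ (Real.sqrt_nonneg _) (fun g => ?_)
  have hg := Lp.memLp g
  set h : V := (F.B - hs ((F.memLp_psiN κ hκ).toLp _)) g with hh
  have hcoe : h =ᵐ[nu] fun x => if rho2 0 0 x ≤ κ ^ 2 then 0 else F.Bfun g x := by
    rw [hh, sub_apply]
    filter_upwards [Lp.coeFn_sub (F.B g) (hs ((F.memLp_psiN κ hκ).toLp _) g), F.B_coe g,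
      hs_coe ((F.memLp_psiN κ hκ).toLp _) g, (F.memLp_psiN κ hκ).coeFn_toLp] with x h1 h2 h3 h4
    rw [h1, Pi.sub_apply, h2, h3, h4, psiN]
    split_ifs with hx
    · rw [inner_smul_left, F.inner_eps, Complex.conj_ofReal, Bfun, sub_self]
    · simp
  have h1 : ENNReal.ofReal (‖h‖ ^ 2) ≤ ENNReal.ofReal (2 * (π / (Real.sqrt F.c * κ)) * ‖g‖ ^ 2) := by
    rw [lintegral_sq_Lp]
    have h2 := F.lorentz_bound g hg κ 0 0 hκ
    calc ∫⁻ x, ‖h x‖ₑ ^ 2 ∂nu ≤ ∫⁻ x, 2 * (‖F.hat g x‖ₑ ^ 2 * ENNReal.ofReal (1 / (κ ^ 2 + rho2 0 0 x))) ∂nu := by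
          refine lintegral_mono_ae ?_
          filter_upwards [hcoe] with x hx
          rw [hx]
          split_ifs with hx2
          · simp
          · rw [not_le] at hx2
            have hr := rho2_nonneg 0 0 x
            have hom := om_pos x
            rw [Bfun, enorm_mul, mul_pow, mul_comm, ← mul_assoc, mul_comm (2 : ℝ≥0∞), mul_assoc]
            refine mul_le_mul_right ?_ _
            rw [← ofReal_norm, Complex.norm_real, Real.norm_eq_abs, abs_of_pos (by positivity),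
              ← ENNReal.ofReal_pow (by positivity), inv_pow, Real.sq_sqrt hom.le]
            have e2 : (2 : ℝ≥0∞) = ENNReal.ofReal 2 := by simp
            rw [e2, ← ENNReal.ofReal_mul (by norm_num)]
            refine ENNReal.ofReal_le_ofReal ?_
            rw [om_eq, mul_one_div, inv_eq_one_div, div_le_div_iff₀ (by positivity) (by positivity)]
            nlinarith
      _ = 2 * ∫⁻ x, (‖F.hat g x‖ₑ ^ 2 * ENNReal.ofReal (1 / (κ ^ 2 + rho2 0 0 x))) ∂nu := by
          rw [lintegral_const_mul]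
          have := measurable_rho2 0 0
          have hmh : Measurable (fun x => ‖F.hat g x‖ₑ ^ 2) := (F.measurable_hat g hg.1).measurable.enorm.pow_const 2
          fun_prop
      _ ≤ 2 * (ENNReal.ofReal (π / (Real.sqrt F.c * κ)) * ∫⁻ s, ‖g s‖ₑ ^ 2 ∂F.mu) := mul_le_mul_right h2 _
      _ = _ := by
          rw [← lintegral_sq_Lp, ← ENNReal.ofReal_mul (by positivity), mul_assoc 2,
            ENNReal.ofReal_mul (p := 2) (by norm_num), ENNReal.ofReal_ofNat]
  have h2 : 0 ≤ 2 * (π / (Real.sqrt F.c * κ)) * ‖g‖ ^ 2 := by positivity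
  rw [ENNReal.ofReal_le_ofReal_iff h2] at h1
  have h3 : 2 * (π / (Real.sqrt F.c * κ)) * ‖g‖ ^ 2 = (Real.sqrt (2 * (π / (Real.sqrt F.c * κ))) * ‖g‖) ^ 2 := by
    rw [mul_pow, Real.sq_sqrt (by positivity)]
  rw [h3] at h1
  exact le_of_sq_le_sq h1 (by positivity)

theorem isCompact_B : IsCompactOperator F.B := by
  have hpi := Real.pi_pos
  have hc := F.hc
  have hlim : Tendsto (fun N : ℕ => (hs ((F.memLp_psiN (N + 1 : ℝ) (by positivity)).toLp _) : F.E →L[ℂ] V)) atTop (𝓝 F.B) := by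
    rw [tendsto_iff_norm_sub_tendsto_zero]
    have h1 : Tendsto (fun N : ℕ => Real.sqrt (2 * (π / (Real.sqrt F.c * (N + 1 : ℝ))))) atTop (𝓝 0) := by
      have h2 : Tendsto (fun N : ℕ => (2 * (π / (Real.sqrt F.c * (N + 1 : ℝ))))) atTop (𝓝 0) := by
        have h3 : Tendsto (fun N : ℕ => (N : ℝ) + 1) atTop atTop :=
          tendsto_atTop_add_const_right _ _ tendsto_natCast_atTop_atTop
        have h4 : Tendsto (fun N : ℕ => (2 * π / Real.sqrt F.c) / ((N : ℝ) + 1)) atTop (𝓝 0) :=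
          h3.const_div_atTop _
        refine h4.congr (fun N => ?_)
        field_simp
      have := (Real.continuous_sqrt.tendsto 0).comp h2
      simpa [Function.comp_def] using this
    refine squeeze_zero (fun _ => norm_nonneg _) (fun N => ?_) h1
    rw [norm_sub_rev]
    exact F.norm_B_sub_le (N + 1 : ℝ) (by positivity)
  exact isCompactOperator_of_tendsto hlim (Eventually.of_forall fun N => isCompact_hs _)

end FD

end

end Pool.Agent.Lib.Pdaec8e
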