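import Pool.Agent.Lib.Pdaec8e.Gauss2

set_option autoImplicit false

open MeasureTheory Filter Topology
open scoped ComplexConjugate ENNReal Real

namespace Pool.Agent.Lib.Pdaec8e

noncomputable section

lemma ofReal_inv_eq_lintegral (r : ℝ) (hr : 0 < r) :
    ENNReal.ofReal (1 / r) = ∫⁻ t in Set.Ioi (0:ℝ), ENNReal.ofReal (Real.exp (-(t * r))) := by
  have h1 : ∫ t in Set.Ioi (0:ℝ), Real.exp (-(t * r)) = 1 / r := by
    have := integral_exp_mul_Ioi (a := -r) (by linarith) 0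
    have h2 : ∀ t : ℝ, Real.exp (-(t * r)) = Real.exp (-r * t) := by
      intro t; congr 1; ring
    simp_rw [h2]
    rw [this]
    simp
  have hi : IntegrableOn (fun t : ℝ => Real.exp (-(t * r))) (Set.Ioi 0) := by
    have h3 : ∫ t in Set.Ioi (0:ℝ), Real.exp (-(t * r)) ≠ 0 := by
      rw [h1]; positivity
    exact Integrable.of_integral_ne_zero h3
  rw [← h1, ofReal_integral_eq_lintegral_ofReal hi (Eventually.of_forall fun t => (Real.exp_pos _).le)]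

lemma lintegral_gamma (κ c : ℝ) (hκ : 0 < κ) (hc : 0 < c) :
    ∫⁻ t in Set.Ioi (0:ℝ), ENNReal.ofReal (Real.exp (-(t * κ ^ 2))) * ENNReal.ofReal (Real.sqrt (π / (c * t)))
      = ENNReal.ofReal (π / (Real.sqrt c * κ)) := by
  have hpi := Real.pi_pos
  have e1 : ∀ t ∈ Set.Ioi (0:ℝ), Real.exp (-(t * κ ^ 2)) * Real.sqrt (π / (c * t)) =
      Real.sqrt (π / c) * (t ^ ((1/2 : ℝ) - 1) * Real.exp (-(κ ^ 2 * t))) := by
    intro t ht
    have ht' : (0:ℝ) < t := ht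
    have h1 : π / (c * t) = (π / c) * t⁻¹ := by field_simp
    rw [h1, Real.sqrt_mul (by positivity), Real.sqrt_inv]
    have h2 : t ^ ((1/2 : ℝ) - 1) = (Real.sqrt t)⁻¹ := by
      rw [show ((1/2 : ℝ) - 1) = -(1/2) by norm_num, Real.rpow_neg ht'.le, ← Real.sqrt_eq_rpow]
    rw [h2, mul_comm t (κ ^ 2)]
    ring
  have hval : ∫ t in Set.Ioi (0:ℝ), Real.exp (-(t * κ ^ 2)) * Real.sqrt (π / (c * t)) = π / (Real.sqrt c * κ) := by
    rw [setIntegral_congr_fun measurableSet_Ioi e1, integral_const_mul,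
      Real.integral_rpow_mul_exp_neg_mul_Ioi (by norm_num) (by positivity), Real.Gamma_one_half_eq]
    rw [← Real.sqrt_eq_rpow, Real.sqrt_div hpi.le, Real.sqrt_div zero_le_one, Real.sqrt_one, Real.sqrt_sq hκ.le]
    have h4 : Real.sqrt π * Real.sqrt π = π := Real.mul_self_sqrt hpi.le
    have h5 : Real.sqrt c ≠ 0 := by positivity
    field_simp
    nlinarith
  have hi : IntegrableOn (fun t : ℝ => Real.exp (-(t * κ ^ 2)) * Real.sqrt (π / (c * t))) (Set.Ioi 0) := by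
    have h3 : ∫ t in Set.Ioi (0:ℝ), Real.exp (-(t * κ ^ 2)) * Real.sqrt (π / (c * t)) ≠ 0 := by
      rw [hval]; positivity
    exact Integrable.of_integral_ne_zero h3
  rw [← hval, ofReal_integral_eq_lintegral_ofReal hi (Eventually.of_forall fun t => by positivity)]
  refine lintegral_congr fun t => ?_
  rw [ENNReal.ofReal_mul (Real.exp_pos _).le]

/-- distance-squared weight -/
def rho2 (a b : ℝ) (x : ℤ × ℝ) : ℝ := ((x.1 : ℝ) - a) ^ 2 + (x.2 - b) ^ 2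

lemma rho2_nonneg (a b : ℝ) (x : ℤ × ℝ) : 0 ≤ rho2 a b x := by unfold rho2; positivity

lemma measurable_rho2 (a b : ℝ) : Measurable (rho2 a b) := by
  unfold rho2
  have h3 : Measurable (fun p : ℤ × ℝ => ((p.1 : ℤ) : ℝ)) :=
    (measurable_from_top (f := fun n : ℤ => (n : ℝ))).comp measurable_fst
  fun_prop

lemma gw_eq (t a b : ℝ) (x : ℤ × ℝ) : gw t a b x = Real.exp (-(t * rho2 a b x)) := by
  rw [gw, rho2, ← Real.exp_add]; congr 1; ring

namespace FD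

variable (F : FD)

theorem lorentz_bound (g : ℝ → ℂ) (hg : MemLp g 2 F.mu) (κ a b : ℝ) (hκ : 0 < κ) :
    ∫⁻ x, ‖F.hat g x‖ₑ ^ 2 * ENNReal.ofReal (1 / (κ ^ 2 + rho2 a b x)) ∂nu ≤
      ENNReal.ofReal (π / (Real.sqrt F.c * κ)) * ∫⁻ s, ‖g s‖ₑ ^ 2 ∂F.mu := by
  have hm : Measurable (fun x => ‖F.hat g x‖ₑ ^ 2) := (F.measurable_hat g hg.1).measurable.enorm.pow_const 2
  have hgwm : Measurable (fun p : (ℤ × ℝ) × ℝ => gw p.2 a b p.1) := by
    have : ∀ p : (ℤ × ℝ) × ℝ, gw p.2 a b p.1 = Real.exp (-(p.2 * rho2 a b p.1)) := fun p => gw_eq _ _ _ _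
    simp_rw [this]
    have := measurable_rho2 a b
    fun_prop
  have e1 : ∀ x, ‖F.hat g x‖ₑ ^ 2 * ENNReal.ofReal (1 / (κ ^ 2 + rho2 a b x)) =
      ∫⁻ t in Set.Ioi (0:ℝ), ‖F.hat g x‖ₑ ^ 2 * (ENNReal.ofReal (Real.exp (-(t * κ ^ 2))) * ENNReal.ofReal (gw t a b x)) := by
    intro x
    have h0 := rho2_nonneg a b x
    rw [ofReal_inv_eq_lintegral _ (by positivity), ← lintegral_const_mul _ (by fun_prop)]
    refine lintegral_congr fun t => ?_
    rw [← ENNReal.ofReal_mul (Real.exp_pos _).le, gw_eq, ← Real.exp_add]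
    congr 3
    ring
  simp_rw [e1]
  rw [lintegral_lintegral_swap]
  swap
  · refine Measurable.aemeasurable ?_
    show Measurable (fun p : (ℤ × ℝ) × ℝ => ‖F.hat g p.1‖ₑ ^ 2 * (ENNReal.ofReal (Real.exp (-(p.2 * κ ^ 2))) * ENNReal.ofReal (gw p.2 a b p.1)))
    have h1 : Measurable (fun p : (ℤ × ℝ) × ℝ => ‖F.hat g p.1‖ₑ ^ 2) := hm.comp measurable_fst
    fun_prop
  have hgwm1 : ∀ t, Measurable (fun x => gw t a b x) := fun t => measurable_gw t a b
  have e2 : ∀ t ∈ Set.Ioi (0:ℝ), ∫⁻ x, ‖F.hat g x‖ₑ ^ 2 * (ENNReal.ofReal (Real.exp (-(t * κ ^ 2))) * ENNReal.ofReal (gw t a b x)) ∂nu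
      ≤ (ENNReal.ofReal (Real.exp (-(t * κ ^ 2))) * ENNReal.ofReal (Real.sqrt (π / (F.c * t)))) * ∫⁻ s, ‖g s‖ₑ ^ 2 ∂F.mu := by
    intro t ht
    have h1 : ∀ x, ‖F.hat g x‖ₑ ^ 2 * (ENNReal.ofReal (Real.exp (-(t * κ ^ 2))) * ENNReal.ofReal (gw t a b x)) =
      ENNReal.ofReal (Real.exp (-(t * κ ^ 2))) * (‖F.hat g x‖ₑ ^ 2 * ENNReal.ofReal (gw t a b x)) := by
      intro x; ring
    simp_rw [h1]
    have := hgwm1 t
    rw [lintegral_const_mul _ (by fun_prop), mul_assoc]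
    exact mul_le_mul_right (F.gauss_bound g hg t a b ht) _
  refine (setLIntegral_mono' measurableSet_Ioi e2).trans ?_
  rw [lintegral_mul_const _ (by fun_prop), lintegral_gamma κ F.c hκ F.hc]

end FD

end

end Pool.Agent.Lib.Pdaec8e
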