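import Pool.Agent.Lib.Pdaec8e.Ker
import Pool.Agent.Lib.Pdaec8e.Weights

set_option autoImplicit false

open MeasureTheory Filter Topology
open scoped ComplexConjugate ENNReal InnerProductSpace Real

namespace Pool.Agent.Lib.Pdaec8e

noncomputable section

section general

variable {E : Type*} [NormedAddCommGroup E]
variable {α : Type*} {mα : MeasurableSpace α} {m : Measure α}

lemma memLp_two_of_lintegral (f : α → E) (hf : AEStronglyMeasurable f m)
    (h : ∫⁻ x, ‖f x‖ₑ ^ 2 ∂m < ∞) : MemLp f 2 m := by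
  refine ⟨hf, ?_⟩
  rw [eLpNorm_lt_top_iff_lintegral_rpow_enorm_lt_top (by norm_num) (by norm_num)]
  simpa using h

lemma lintegral_sq_toLp [InnerProductSpace ℂ E] (f : α → E) (hf : MemLp f 2 m) :
    ENNReal.ofReal (‖hf.toLp f‖ ^ 2) = ∫⁻ x, ‖f x‖ₑ ^ 2 ∂m := by
  rw [norm_sq_toLp, ofReal_integral_eq_lintegral_ofReal]
  · refine lintegral_congr fun x => ?_
    rw [ENNReal.ofReal_pow (norm_nonneg _), ofReal_norm]
  · exact hf.integrable_norm_pow (by norm_num)
  · exact Eventually.of_forall fun x => by positivity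

lemma lintegral_sq_Lp [InnerProductSpace ℂ E] (f : Lp E 2 m) :
    ENNReal.ofReal (‖f‖ ^ 2) = ∫⁻ x, ‖f x‖ₑ ^ 2 ∂m := by
  have := lintegral_sq_toLp (f : α → E) (Lp.memLp f)
  rwa [Lp.toLp_coeFn] at this

end general

/-- weight `1 + n² + y²` -/
def om (x : ℤ × ℝ) : ℝ := 1 + ((x.1 : ℝ) ^ 2 + x.2 ^ 2)

lemma om_pos (x : ℤ × ℝ) : 0 < om x := by unfold om; positivity
lemma one_le_om (x : ℤ × ℝ) : 1 ≤ om x := by unfold om; nlinarith [sq_nonneg (x.1 : ℝ), sq_nonneg x.2]

lemma om_eq (x : ℤ × ℝ) : om x = 1 ^ 2 + rho2 0 0 x := by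
  unfold om rho2; ring

lemma continuous_om : Continuous om := by
  unfold om
  have h3 : Continuous (fun p : ℤ × ℝ => ((p.1 : ℤ) : ℝ)) :=
    (continuous_of_discreteTopology (f := fun n : ℤ => (n : ℝ))).comp continuous_fst
  fun_prop

lemma measurable_om : Measurable om := continuous_om.measurable

namespace FD

variable (F : FD)

abbrev V : Type := Lp ℂ 2 nu

/-- constant of the trace estimate -/
def Cg : ℝ := π / Real.sqrt F.c

lemma Cg_pos : 0 < F.Cg := by
  have := F.hc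
  unfold Cg; positivity

def Bfun (g : ℝ → ℂ) (x : ℤ × ℝ) : ℂ := ((Real.sqrt (om x))⁻¹ : ℝ) * F.hat g x

lemma lintegral_Bfun_le (g : ℝ → ℂ) (hg : MemLp g 2 F.mu) :
    ∫⁻ x, ‖F.Bfun g x‖ₑ ^ 2 ∂nu ≤ ENNReal.ofReal F.Cg * ∫⁻ s, ‖g s‖ₑ ^ 2 ∂F.mu := by
  have h1 := F.lorentz_bound g hg 1 0 0 one_pos
  rw [mul_one] at h1
  refine le_trans (le_of_eq ?_) h1
  refine lintegral_congr fun x => ?_
  have h2 := om_pos x
  rw [Bfun, ← om_eq, enorm_mul, mul_pow, mul_comm]
  congr 1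
  rw [← ofReal_norm, Complex.norm_real, Real.norm_eq_abs, abs_of_pos (by positivity),
    ← ENNReal.ofReal_pow (by positivity), inv_pow, Real.sq_sqrt h2.le, one_div]

lemma lintegral_coe_lt_top (g : F.E) : ∫⁻ s, ‖g s‖ₑ ^ 2 ∂F.mu < ∞ := by
  rw [← lintegral_sq_Lp]; exact ENNReal.ofReal_lt_top

lemma measurable_Bfun (g : ℝ → ℂ) (hg : AEStronglyMeasurable g F.mu) : AEStronglyMeasurable (F.Bfun g) nu := by
  unfold Bfun
  refine AEStronglyMeasurable.mul ?_ (F.measurable_hat g hg).aestronglyMeasurable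
  have := measurable_om
  exact (by fun_prop : Measurable (fun x : ℤ × ℝ => (((Real.sqrt (om x))⁻¹ : ℝ) : ℂ))).aestronglyMeasurable

lemma memLp_Bfun (g : F.E) : MemLp (F.Bfun g) 2 nu := by
  refine memLp_two_of_lintegral _ (F.measurable_Bfun g (Lp.memLp g).1) ?_
  refine (F.lintegral_Bfun_le g (Lp.memLp g)).trans_lt ?_
  exact ENNReal.mul_lt_top ENNReal.ofReal_lt_top (F.lintegral_coe_lt_top g)

lemma hat_add (g h : F.E) (x : ℤ × ℝ) : F.hat (g + h : F.E) x = F.hat g x + F.hat h x := by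
  rw [← inner_eps, ← inner_eps, ← inner_eps, inner_add_right]

lemma hat_smul (c : ℂ) (g : F.E) (x : ℤ × ℝ) : F.hat (c • g : F.E) x = c * F.hat g x := by
  rw [← inner_eps, ← inner_eps, inner_smul_right]

/-- The trace operator `B : E → L²(ℤ × ℝ)` -/
def B : F.E →L[ℂ] V :=
  LinearMap.mkContinuous
    { toFun := fun g => (F.memLp_Bfun g).toLp _
      map_add' := fun g h => by
        rw [← MemLp.toLp_add]
        refine MemLp.toLp_congr _ _ (Eventually.of_forall fun x => ?_)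
        simp only [Pi.add_apply, Bfun, F.hat_add]
        ring
      map_smul' := fun c g => by
        rw [RingHom.id_apply, ← MemLp.toLp_const_smul]
        refine MemLp.toLp_congr _ _ (Eventually.of_forall fun x => ?_)
        simp only [Pi.smul_apply, Bfun, F.hat_smul, smul_eq_mul]
        ring }
    (Real.sqrt F.Cg) (fun g => by
      have h1 := F.lintegral_Bfun_le g (Lp.memLp g)
      rw [← lintegral_sq_toLp _ (F.memLp_Bfun g), ← lintegral_sq_Lp, ← ENNReal.ofReal_mul F.Cg_pos.le] at h1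
      have h2 : 0 ≤ F.Cg * ‖g‖ ^ 2 := mul_nonneg F.Cg_pos.le (by positivity)
      rw [ENNReal.ofReal_le_ofReal_iff h2] at h1
      have h3 : F.Cg * ‖g‖ ^ 2 = (Real.sqrt F.Cg * ‖g‖) ^ 2 := by
        rw [mul_pow, Real.sq_sqrt F.Cg_pos.le]
      rw [h3] at h1
      exact le_of_sq_le_sq h1 (by positivity))

lemma B_coe (g : F.E) : F.B g =ᵐ[nu] F.Bfun g := (F.memLp_Bfun g).coeFn_toLp

end FD

end

end Pool.Agent.Lib.Pdaec8e
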