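import Pool.Agent.Lib.Pdaec8e.Good

set_option autoImplicit false

open MeasureTheory Filter Topology
open scoped ComplexConjugate ENNReal InnerProductSpace Real

namespace Pool.Agent.Lib.Pdaec8e

noncomputable section

/-- quasimomentum measure -/
abbrev m01 : Measure ℝ := volume.restrict (Set.Ioo 0 1)

/-- measure on `(0,1) × ℤ × ℝ` -/
abbrev M3 : Measure (ℝ × (ℤ × ℝ)) := m01.prod nu

/-- the Fourier side `L²` space -/
abbrev X : Type := Lp ℂ 2 M3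

namespace FD

variable (F : FD)

/-- trace space -/
abbrev Y : Type := Lp F.E 2 m01

/-- the real symbol -/
def sr (p : ℝ × (ℤ × ℝ)) : ℝ := F.A ^ 2 * ((p.2.1 : ℝ) + p.1) ^ 2 + F.D ^ 2 * p.2.2 ^ 2

lemma sig_ofReal (θ : ℝ) (x : ℤ × ℝ) : F.sig θ x = (F.sr (θ, x) : ℂ) := by
  unfold sig sr; push_cast; ring

lemma sr_nonneg (p : ℝ × (ℤ × ℝ)) : 0 ≤ F.sr p := by unfold sr; positivity

lemma measurable_cast3 : Measurable (fun p : ℝ × (ℤ × ℝ) => ((p.2.1 : ℤ) : ℝ)) :=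
  (measurable_from_top (f := fun n : ℤ => (n : ℝ))).comp (measurable_fst.comp measurable_snd)

lemma measurable_sr : Measurable F.sr := by
  unfold sr
  have := measurable_cast3
  fun_prop

/-- `(κ² + σ)^{-1/2}` -/
def Jf (κ : ℝ) (p : ℝ × (ℤ × ℝ)) : ℝ := (Real.sqrt (κ ^ 2 + F.sr p))⁻¹

lemma Jf_pos (κ : ℝ) (hκ : 0 < κ) (p : ℝ × (ℤ × ℝ)) : 0 < F.Jf κ p := by
  have := F.sr_nonneg p
  unfold Jf; positivity

lemma Jf_sq (κ : ℝ) (hκ : 0 < κ) (p : ℝ × (ℤ × ℝ)) : F.Jf κ p ^ 2 = 1 / (κ ^ 2 + F.sr p) := by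
  have := F.sr_nonneg p
  unfold Jf
  rw [inv_pow, Real.sq_sqrt (by positivity), one_div]

lemma measurable_Jf (κ : ℝ) : Measurable (F.Jf κ) := by
  unfold Jf
  have := F.measurable_sr
  fun_prop

lemma measurable_JfC (κ : ℝ) : Measurable (fun p => ((F.Jf κ p : ℝ) : ℂ)) :=
  Complex.measurable_ofReal.comp (F.measurable_Jf κ)

lemma Jf_le (κ : ℝ) (hκ : 0 < κ) (p : ℝ × (ℤ × ℝ)) : F.Jf κ p ≤ κ⁻¹ := by
  unfold Jf
  have := F.sr_nonneg p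
  refine inv_anti₀ hκ ?_
  rw [show κ = Real.sqrt (κ ^ 2) by rw [Real.sqrt_sq hκ.le]]
  refine Real.sqrt_le_sqrt ?_
  rw [Real.sq_sqrt (by positivity)]
  linarith

def mn : ℝ := min F.A F.D

lemma mn_pos : 0 < F.mn := lt_min F.hA F.hD

/-- constant in the trace bound -/
def CS (κ : ℝ) : ℝ := π / (F.mn * Real.sqrt F.c * κ)

lemma CS_pos (κ : ℝ) (hκ : 0 < κ) : 0 < F.CS κ := by
  have := F.mn_pos
  have := F.hc
  have := Real.pi_pos
  unfold CS; positivity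

lemma fibre_bound (κ : ℝ) (hκ : 0 < κ) (θ : ℝ) (g : F.E) :
    ∫⁻ x, ‖(((F.Jf κ (θ, x) : ℝ) : ℂ)) * ⟪F.eps x, g⟫_ℂ‖ₑ ^ 2 ∂nu ≤ ENNReal.ofReal (F.CS κ) * ‖g‖ₑ ^ 2 := by
  have hm := F.mn_pos
  have hc := F.hc
  have h1 := F.lorentz_bound g (Lp.memLp g) (κ / F.mn) (-θ) 0 (by positivity)
  have h2 : ∫⁻ x, ‖(((F.Jf κ (θ, x) : ℝ) : ℂ)) * ⟪F.eps x, g⟫_ℂ‖ₑ ^ 2 ∂nu ≤
      ∫⁻ x, ENNReal.ofReal (1 / F.mn ^ 2) * (‖F.hat g x‖ₑ ^ 2 * ENNReal.ofReal (1 / ((κ / F.mn) ^ 2 + rho2 (-θ) 0 x))) ∂nu := by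
    refine lintegral_mono fun x => ?_
    simp only
    have hJ := F.Jf_pos κ hκ (θ, x)
    have hr := rho2_nonneg (-θ) 0 x
    rw [F.inner_eps, enorm_mul, mul_pow, mul_comm, mul_left_comm]
    refine mul_le_mul_right ?_ _
    rw [← ofReal_norm, Complex.norm_real, Real.norm_eq_abs, abs_of_pos hJ, ← ENNReal.ofReal_pow hJ.le, F.Jf_sq κ hκ,
      ← ENNReal.ofReal_mul (by positivity)]
    refine ENNReal.ofReal_le_ofReal ?_
    rw [one_div_mul_one_div]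
    refine one_div_le_one_div_of_le (by positivity) ?_
    have e1 : F.mn ^ 2 * ((κ / F.mn) ^ 2 + rho2 (-θ) 0 x) = κ ^ 2 + F.mn ^ 2 * rho2 (-θ) 0 x := by
      field_simp
    rw [e1]
    have hA : F.mn ^ 2 ≤ F.A ^ 2 := pow_le_pow_left₀ hm.le (min_le_left _ _) 2
    have hD : F.mn ^ 2 ≤ F.D ^ 2 := pow_le_pow_left₀ hm.le (min_le_right _ _) 2
    unfold rho2 sr
    simp only [sub_neg_eq_add, sub_zero]
    nlinarith [mul_le_mul_of_nonneg_right hA (sq_nonneg ((x.1 : ℝ) + θ)), mul_le_mul_of_nonneg_right hD (sq_nonneg x.2)]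
  refine h2.trans ?_
  rw [lintegral_const_mul' _ _ ENNReal.ofReal_ne_top]
  refine (mul_le_mul_right h1 _).trans (le_of_eq ?_)
  rw [← lintegral_sq_Lp, ← mul_assoc, ← ENNReal.ofReal_mul (by positivity), ENNReal.ofReal_pow (norm_nonneg _), ofReal_norm]
  congr 2
  unfold CS
  field_simp

/-- the trace map in the Fourier representation -/
def Sfun (κ : ℝ) (G : ℝ → F.E) (p : ℝ × (ℤ × ℝ)) : ℂ := ((F.Jf κ p : ℝ) : ℂ) * ⟪F.eps p.2, G p.1⟫_ℂ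

lemma aesm_Sfun (κ : ℝ) (G : ℝ → F.E) (hG : AEStronglyMeasurable G m01) : AEStronglyMeasurable (F.Sfun κ G) M3 := by
  unfold Sfun
  refine (F.measurable_JfC κ).aestronglyMeasurable.mul ?_
  have h1 : AEStronglyMeasurable (fun p : ℝ × (ℤ × ℝ) => F.eps p.2) M3 := by
    have h := F.continuous_eps.comp (continuous_snd (X := ℝ) (Y := ℤ × ℝ))
    exact h.aestronglyMeasurable
  have h2 : AEStronglyMeasurable (fun p : ℝ × (ℤ × ℝ) => G p.1) M3 := hG.comp_fst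
  exact h1.inner h2

lemma lintegral_Sfun_le (κ : ℝ) (hκ : 0 < κ) (G : ℝ → F.E) (hG : AEStronglyMeasurable G m01) :
    ∫⁻ p, ‖F.Sfun κ G p‖ₑ ^ 2 ∂M3 ≤ ENNReal.ofReal (F.CS κ) * ∫⁻ θ, ‖G θ‖ₑ ^ 2 ∂m01 := by
  rw [lintegral_prod _ ((F.aesm_Sfun κ G hG).enorm.pow_const 2), ← lintegral_const_mul' _ _ ENNReal.ofReal_ne_top]
  exact lintegral_mono fun θ => F.fibre_bound κ hκ θ (G θ)

lemma memLp_Sfun (κ : ℝ) (hκ : 0 < κ) (G : F.Y) : MemLp (F.Sfun κ G) 2 M3 := by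
  refine memLp_two_of_lintegral _ (F.aesm_Sfun κ G (Lp.memLp G).1) ?_
  refine (F.lintegral_Sfun_le κ hκ G (Lp.memLp G).1).trans_lt ?_
  refine ENNReal.mul_lt_top ENNReal.ofReal_lt_top ?_
  rw [← lintegral_sq_Lp]; exact ENNReal.ofReal_lt_top

lemma ae_fst {P : ℝ → Prop} (h : ∀ᵐ θ ∂m01, P θ) : ∀ᵐ p : ℝ × (ℤ × ℝ) ∂M3, P p.1 :=
  Measure.quasiMeasurePreserving_fst.ae h

/-- the trace operator -/
def SO (κ : ℝ) (hκ : 0 < κ) : F.Y →L[ℂ] X :=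
  LinearMap.mkContinuous
    { toFun := fun G => (F.memLp_Sfun κ hκ G).toLp _
      map_add' := fun G H => by
        rw [← MemLp.toLp_add]
        refine MemLp.toLp_congr _ _ ?_
        filter_upwards [ae_fst (Lp.coeFn_add G H)] with p hp
        simp only [Pi.add_apply, Sfun] at hp ⊢
        rw [hp, inner_add_right]
        ring
      map_smul' := fun c G => by
        rw [RingHom.id_apply, ← MemLp.toLp_const_smul]
        refine MemLp.toLp_congr _ _ ?_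
        filter_upwards [ae_fst (Lp.coeFn_smul c G)] with p hp
        simp only [Pi.smul_apply, Sfun, smul_eq_mul] at hp ⊢
        rw [hp, inner_smul_right]
        ring }
    (Real.sqrt (F.CS κ)) (fun G => by
      have h1 := F.lintegral_Sfun_le κ hκ G (Lp.memLp G).1
      have hC := (F.CS_pos κ hκ).le
      rw [← lintegral_sq_toLp _ (F.memLp_Sfun κ hκ G), ← lintegral_sq_Lp, ← ENNReal.ofReal_mul hC] at h1
      have h2 : 0 ≤ F.CS κ * ‖G‖ ^ 2 := mul_nonneg hC (by positivity)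
      rw [ENNReal.ofReal_le_ofReal_iff h2] at h1
      have h3 : F.CS κ * ‖G‖ ^ 2 = (Real.sqrt (F.CS κ) * ‖G‖) ^ 2 := by
        rw [mul_pow, Real.sq_sqrt hC]
      rw [h3] at h1
      exact le_of_sq_le_sq h1 (by positivity))

lemma SO_coe (κ : ℝ) (hκ : 0 < κ) (G : F.Y) : F.SO κ hκ G =ᵐ[M3] F.Sfun κ G := (F.memLp_Sfun κ hκ G).coeFn_toLp

lemma norm_SO_le (κ : ℝ) (hκ : 0 < κ) : ‖F.SO κ hκ‖ ≤ Real.sqrt (F.CS κ) :=
  LinearMap.mkContinuous_norm_le _ (Real.sqrt_nonneg _) _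

end FD

end

end Pool.Agent.Lib.Pdaec8e
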