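import Pool.Agent.Lib.Pdaec8e.Spectral4

set_option autoImplicit false

open MeasureTheory Filter Topology
open scoped ComplexConjugate InnerProductSpace CompactlySupported ENNReal

namespace Pool.Agent.Lib.Pdaec8e

noncomputable section

variable {H : Type*} [NormedAddCommGroup H] [InnerProductSpace ℂ H] [CompleteSpace H]

/-- imaginary part of a Stieltjes transform -/
lemma im_stieltjes (μ : Measure ℝ) [IsFiniteMeasure μ] (l ε : ℝ) (hε : 0 < ε) :
    (∫ x : ℝ, ((x : ℂ) - (⟨l, ε⟩ : ℂ))⁻¹ ∂μ).im = ∫ x : ℝ, ε / ((x - l) ^ 2 + ε ^ 2) ∂μ ∧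
    ENNReal.ofReal (∫ x : ℝ, ((x : ℂ) - (⟨l, ε⟩ : ℂ))⁻¹ ∂μ).im =
      ∫⁻ x : ℝ, ENNReal.ofReal (ε / ((x - l) ^ 2 + ε ^ 2)) ∂μ := by
  have hne : ∀ x : ℝ, ((x : ℂ) - (⟨l, ε⟩ : ℂ)) ≠ 0 := by
    intro x h
    have := congrArg Complex.im h
    simp at this
    exact hε.ne' this
  have hc : Continuous (fun x : ℝ => ((x : ℂ) - (⟨l, ε⟩ : ℂ))⁻¹) := by
    refine Continuous.inv₀ (by fun_prop) hne
  have hi : Integrable (fun x : ℝ => ((x : ℂ) - (⟨l, ε⟩ : ℂ))⁻¹) μ := by
    refine Integrable.of_bound hc.aestronglyMeasurable (ε⁻¹) (Eventually.of_forall fun x => ?_)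
    rw [norm_inv]
    have h1 : ε ≤ ‖((x : ℂ) - (⟨l, ε⟩ : ℂ))‖ := by
      have := Complex.abs_im_le_norm ((x : ℂ) - (⟨l, ε⟩ : ℂ))
      simp [abs_of_pos hε] at this
      exact this
    exact inv_anti₀ hε h1
  have h1 : (∫ x : ℝ, ((x : ℂ) - (⟨l, ε⟩ : ℂ))⁻¹ ∂μ).im = ∫ x : ℝ, ε / ((x - l) ^ 2 + ε ^ 2) ∂μ := by
    have h0 : (∫ x : ℝ, ((x : ℂ) - (⟨l, ε⟩ : ℂ))⁻¹ ∂μ).im =
        ∫ x : ℝ, (((x : ℂ) - (⟨l, ε⟩ : ℂ))⁻¹).im ∂μ := (integral_im hi).symm
    rw [h0]
    congr 1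
    ext x
    exact im_inv_sub x l ε hε
  refine ⟨h1, ?_⟩
  rw [h1, ofReal_integral_eq_lintegral_ofReal]
  · have := hi.im
    refine this.congr (Eventually.of_forall fun x => ?_)
    simpa using im_inv_sub x l ε hε
  · exact Eventually.of_forall fun x => by positivity

lemma measurable_poisson (ε : ℝ) :
    Measurable (fun p : ℝ × ℝ => ENNReal.ofReal (ε / ((p.1 - p.2) ^ 2 + ε ^ 2))) := by
  fun_prop

/-- Stieltjes inversion inequality for compact sets. -/
lemma measure_le_lintegral_im (μ : Measure ℝ) [IsFiniteMeasure μ] (K : Set ℝ) (hK : IsCompact K)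
    (ε : ℝ) (hε : 0 < ε) :
    μ K ≤ ∫⁻ l in Metric.thickening ε K,
      ENNReal.ofReal (∫ x : ℝ, ((x : ℂ) - (⟨l, ε⟩ : ℂ))⁻¹ ∂μ).im := by
  simp_rw [(im_stieltjes μ _ ε hε).2]
  have hsw : ∫⁻ l in Metric.thickening ε K, ∫⁻ x : ℝ, ENNReal.ofReal (ε / ((x - l) ^ 2 + ε ^ 2)) ∂μ
      = ∫⁻ x : ℝ, ∫⁻ l in Metric.thickening ε K, ENNReal.ofReal (ε / ((x - l) ^ 2 + ε ^ 2)) ∂volume ∂μ := by
    refine lintegral_lintegral_swap (Measurable.aemeasurable ?_)
    show Measurable (fun p : ℝ × ℝ => ENNReal.ofReal (ε / ((p.2 - p.1) ^ 2 + ε ^ 2)))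
    fun_prop
  rw [hsw]
  calc μ K = ∫⁻ x in K, 1 ∂μ := by simp
    _ ≤ ∫⁻ x in K, ∫⁻ l in Metric.thickening ε K, ENNReal.ofReal (ε / ((x - l) ^ 2 + ε ^ 2)) ∂volume ∂μ := by
        refine setLIntegral_mono' hK.measurableSet (fun x hx => ?_)
        calc (1 : ℝ≥0∞) = ∫⁻ l in Set.Ioo (x - ε) (x + ε), ENNReal.ofReal (1 / (2 * ε)) := by
              rw [setLIntegral_const, Real.volume_Ioo, ← ENNReal.ofReal_mul (by positivity)]
              rw [show 1 / (2 * ε) * (x + ε - (x - ε)) = 1 by field_simp; ring]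
              simp
          _ ≤ ∫⁻ l in Set.Ioo (x - ε) (x + ε), ENNReal.ofReal (ε / ((x - l) ^ 2 + ε ^ 2)) := by
              refine setLIntegral_mono' measurableSet_Ioo (fun l hl => ENNReal.ofReal_le_ofReal ?_)
              have h1 : (x - l) ^ 2 ≤ ε ^ 2 := by
                rw [sq_le_sq, abs_of_pos hε, abs_le]
                constructor <;> linarith [hl.1, hl.2]
              rw [div_le_div_iff₀ (by positivity) (by positivity)]
              nlinarith [sq_nonneg (x - l)]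
          _ ≤ _ := by
              refine lintegral_mono_set (fun l hl => ?_)
              rw [Metric.mem_thickening_iff]
              refine ⟨x, hx, ?_⟩
              rw [Real.dist_eq, abs_lt]
              constructor <;> linarith [hl.1, hl.2]
    _ ≤ _ := setLIntegral_le_lintegral _ _

/-- Total mass bound. -/
lemma lintegral_im_le (μ : Measure ℝ) [IsFiniteMeasure μ] (ε : ℝ) (hε : 0 < ε) :
    ∫⁻ l : ℝ, ENNReal.ofReal (∫ x : ℝ, ((x : ℂ) - (⟨l, ε⟩ : ℂ))⁻¹ ∂μ).im =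
      ENNReal.ofReal Real.pi * μ Set.univ := by
  simp_rw [(im_stieltjes μ _ ε hε).2]
  rw [lintegral_lintegral_swap]
  swap
  · refine Measurable.aemeasurable ?_
    show Measurable (fun p : ℝ × ℝ => ENNReal.ofReal (ε / ((p.2 - p.1) ^ 2 + ε ^ 2)))
    fun_prop
  simp_rw [lintegral_poisson ε _ hε]
  simp

/-- Criterion for absolute continuity. -/
theorem ac_criterion (R : H →L[ℂ] H) (hR : IsSelfAdjoint R) (κ : ℝ)
    (hyp : ∀ K : Set ℝ, IsCompact K → volume K = 0 →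
      Dense {f : H | ∃ δ > 0, ∃ C : ℝ, ∀ z : ℂ, 0 < z.im → z.im < δ →
        z.re ∈ Metric.thickening δ K → ‖⟪f, res R κ z f⟫_ℂ‖ ≤ C})
    (f : H) (μ : Measure ℝ) [IsFiniteMeasure μ]
    (hμ : ∀ z : ℂ, z.im ≠ 0 → ⟪f, res R κ z f⟫_ℂ = ∫ x : ℝ, ((x : ℂ) - z)⁻¹ ∂μ) :
    μ ≪ volume := by
  -- reduction to compact sets
  have key : ∀ K : Set ℝ, IsCompact K → volume K = 0 → μ K = 0 := by
    intro K hK hK0
    have main : ∀ η : ℝ, 0 < η → μ K ≤ ENNReal.ofReal (2 * Real.pi * η ^ 2) := by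
      intro η hη
      obtain ⟨f1, hf1, δ, hδ, C, hC⟩ := (Metric.dense_iff.mp (hyp K hK hK0)) f η hη
      set f2 := f - f1 with hf2
      have hf2n : ‖f2‖ ≤ η := by
        rw [hf2, ← dist_eq_norm, dist_comm]; exact (Metric.mem_ball.mp hf1).le
      obtain ⟨μ2, hμ2fin, hμ2m, hμ2⟩ := exists_spectral_measure R hR κ f2
      have hCn : 0 ≤ C ∨ K = ∅ := by
        by_cases hKe : K.Nonempty
        · left
          obtain ⟨x, hx⟩ := hKe
          refine (norm_nonneg _).trans (hC ⟨x, δ/2⟩ (by simp [hδ]) (by simp [hδ]) ?_)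
          exact Metric.self_subset_thickening hδ K hx
        · right; exact Set.not_nonempty_iff_eq_empty.mp hKe
      rcases hCn with hCn | hKe
      swap
      · rw [hKe]; simp
      have step : ∀ ε : ℝ, 0 < ε → ε < δ →
          μ K ≤ ENNReal.ofReal (2 * C) * volume (Metric.thickening ε K) +
            ENNReal.ofReal (2 * Real.pi * η ^ 2) := by
        intro ε hε hεδ
        refine (measure_le_lintegral_im μ K hK ε hε).trans ?_
        have hpt : ∀ l ∈ Metric.thickening ε K,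
            ENNReal.ofReal (∫ x : ℝ, ((x : ℂ) - (⟨l, ε⟩ : ℂ))⁻¹ ∂μ).im ≤
            ENNReal.ofReal (2 * C) +
              2 * ENNReal.ofReal (∫ x : ℝ, ((x : ℂ) - (⟨l, ε⟩ : ℂ))⁻¹ ∂μ2).im := by
          intro l hl
          have hz : (⟨l, ε⟩ : ℂ).im ≠ 0 := hε.ne'
          rw [← hμ _ hz, ← hμ2 _ hz]
          have h1 := im_inner_res R hR κ _ hz f
          have h2 := im_inner_res R hR κ _ hz f1
          have h3 := im_inner_res R hR κ _ hz f2
          have h4 : (⟪f1, res R κ ⟨l, ε⟩ f1⟫_ℂ).im ≤ C := by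
            refine (Complex.abs_im_le_norm _).trans' (le_abs_self _) |>.trans (hC ⟨l, ε⟩ hε hεδ ?_)
            exact Metric.thickening_mono hεδ.le K hl
          have h5 : ‖res R κ ⟨l, ε⟩ f‖ ^ 2 ≤ 2 * ‖res R κ ⟨l, ε⟩ f1‖ ^ 2 + 2 * ‖res R κ ⟨l, ε⟩ f2‖ ^ 2 := by
            have : f = f1 + f2 := by rw [hf2]; abel
            rw [this, map_add]
            have := norm_add_le (res R κ ⟨l, ε⟩ f1) (res R κ ⟨l, ε⟩ f2)
            have h6 := norm_nonneg (res R κ ⟨l, ε⟩ f1 + res R κ ⟨l, ε⟩ f2)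
            nlinarith [sq_nonneg (‖res R κ ⟨l, ε⟩ f1‖ - ‖res R κ ⟨l, ε⟩ f2‖),
              norm_nonneg (res R κ ⟨l, ε⟩ f1), norm_nonneg (res R κ ⟨l, ε⟩ f2)]
          have h7 : (⟪f, res R κ ⟨l, ε⟩ f⟫_ℂ).im ≤ 2 * C + 2 * (⟪f2, res R κ ⟨l, ε⟩ f2⟫_ℂ).im := by
            rw [h1, h3]
            rw [h2] at h4
            simp only at h4 ⊢
            nlinarith
          refine (ENNReal.ofReal_le_ofReal h7).trans ?_
          refine (ENNReal.ofReal_add_le).trans ?_
          rw [ENNReal.ofReal_mul (p := 2) (q := (⟪f2, res R κ ⟨l, ε⟩ f2⟫_ℂ).im) (by norm_num)]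
          simp
        have hmeas : Measurable (fun l : ℝ => ENNReal.ofReal (∫ x : ℝ, ((x : ℂ) - (⟨l, ε⟩ : ℂ))⁻¹ ∂μ2).im) := by
          simp_rw [(im_stieltjes μ2 _ ε hε).2]
          exact Measurable.lintegral_prod_right' (f := fun p : ℝ × ℝ => ENNReal.ofReal (ε / ((p.2 - p.1) ^ 2 + ε ^ 2))) (by fun_prop)
        refine (setLIntegral_mono' Metric.isOpen_thickening.measurableSet hpt).trans ?_
        rw [lintegral_add_left measurable_const, setLIntegral_const]
        refine add_le_add le_rfl ?_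
        rw [lintegral_const_mul _ hmeas]
        refine (mul_le_mul_right (setLIntegral_le_lintegral _ _) 2).trans ?_
        rw [lintegral_im_le μ2 ε hε]
        have : (2 : ℝ≥0∞) = ENNReal.ofReal 2 := by simp
        rw [this]
        refine (mul_le_mul_right (mul_le_mul_right hμ2m _) _).trans ?_
        rw [← ENNReal.ofReal_mul Real.pi_pos.le, ← ENNReal.ofReal_mul (by norm_num)]
        refine ENNReal.ofReal_le_ofReal ?_
        have : ‖f2‖ ^ 2 ≤ η ^ 2 := pow_le_pow_left₀ (norm_nonneg _) hf2n 2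
        nlinarith [Real.pi_pos]
      have hlim : Tendsto (fun ε => ENNReal.ofReal (2 * C) * volume (Metric.thickening ε K) +
            ENNReal.ofReal (2 * Real.pi * η ^ 2)) (𝓝[>] (0:ℝ))
            (𝓝 (ENNReal.ofReal (2 * C) * 0 + ENNReal.ofReal (2 * Real.pi * η ^ 2))) := by
        refine Tendsto.add ?_ tendsto_const_nhds
        refine ENNReal.Tendsto.const_mul ?_ (Or.inr ENNReal.ofReal_ne_top)
        have := tendsto_measure_thickening_of_isClosed (μ := volume) (s := K) ?_ hK.isClosed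
        · rwa [hK0] at this
        · refine ⟨1, one_pos, ?_⟩
          have : IsCompact (Metric.cthickening 1 K) := hK.cthickening
          exact ((measure_mono (Metric.thickening_subset_cthickening 1 K)).trans_lt this.measure_lt_top).ne
      have h8 : ∀ᶠ ε in 𝓝[>] (0:ℝ), μ K ≤ ENNReal.ofReal (2 * C) * volume (Metric.thickening ε K) +
            ENNReal.ofReal (2 * Real.pi * η ^ 2) := by
        filter_upwards [Ioo_mem_nhdsGT hδ] with ε hε using step ε hε.1 hε.2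
      have := ge_of_tendsto hlim h8
      simpa using this
    have hlim2 : Tendsto (fun η : ℝ => ENNReal.ofReal (2 * Real.pi * η ^ 2)) (𝓝[>] (0:ℝ)) (𝓝 0) := by
      have : Tendsto (fun η : ℝ => (2 * Real.pi * η ^ 2)) (𝓝[>] (0:ℝ)) (𝓝 0) := by
        have h : Continuous (fun η : ℝ => (2 * Real.pi * η ^ 2)) := by fun_prop
        have := (h.tendsto 0).mono_left (nhdsWithin_le_nhds (s := Set.Ioi 0))
        simpa using this
      simpa using ENNReal.tendsto_ofReal this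
    have h9 : ∀ᶠ η in 𝓝[>] (0:ℝ), μ K ≤ ENNReal.ofReal (2 * Real.pi * η ^ 2) := by
      filter_upwards [self_mem_nhdsWithin] with η hη using main η hη
    exact le_antisymm (ge_of_tendsto hlim2 h9) bot_le
  refine Measure.AbsolutelyContinuous.mk (fun s hs hs0 => ?_)
  rw [hs.measure_eq_iSup_isCompact]
  simp only [ENNReal.iSup_eq_zero]
  intro K hKs hK
  exact key K hK (measure_mono_null hKs hs0)

end

end Pool.Agent.Lib.Pdaec8e
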