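import Pool.Agent.Lib.Pdaec8e.Big1
import Pool.Agent.Lib.Pdaec8e.Spectral5

set_option autoImplicit false

open MeasureTheory Filter Topology
open scoped ComplexConjugate ENNReal InnerProductSpace Real

namespace Pool.Agent.Lib.Pdaec8e

noncomputable section

namespace FD

variable (F : FD)

lemma memLp_J (κ : ℝ) (hκ : 0 < κ) : MemLp (fun p => ((F.Jf κ p : ℝ) : ℂ)) ∞ M3 := by
  refine memLp_top_of_bound' _ (F.measurable_JfC κ).aestronglyMeasurable κ⁻¹ (fun p => ?_)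
  rw [Complex.norm_real, Real.norm_eq_abs, abs_of_pos (F.Jf_pos κ hκ p)]
  exact F.Jf_le κ hκ p

/-- multiplication by `(κ² + σ)^{-1/2}` -/
def MJ (κ : ℝ) (hκ : 0 < κ) : X →L[ℂ] X := mulOp _ (F.memLp_J κ hκ)

lemma MJ_selfAdjoint (κ : ℝ) (hκ : 0 < κ) : IsSelfAdjoint (F.MJ κ hκ) := by
  rw [IsSelfAdjoint, ContinuousLinearMap.star_eq_adjoint, MJ, adjoint_mulOp]
  exact mulOp_congr _ _ _ _ (fun p => Complex.conj_ofReal _)

/-- `1 - α S S*` -/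
def QO (α κ : ℝ) (hκ : 0 < κ) : X →L[ℂ] X :=
  1 - (α : ℂ) • ((F.SO κ hκ) ∘L (ContinuousLinearMap.adjoint (F.SO κ hκ)))

lemma QO_selfAdjoint (α κ : ℝ) (hκ : 0 < κ) : IsSelfAdjoint (F.QO α κ hκ) := by
  have h1 : IsSelfAdjoint ((F.SO κ hκ) ∘L (ContinuousLinearMap.adjoint (F.SO κ hκ))) := by
    rw [IsSelfAdjoint, ContinuousLinearMap.star_eq_adjoint, ContinuousLinearMap.adjoint_comp, ContinuousLinearMap.adjoint_adjoint]
  have h2 : IsSelfAdjoint (α : ℂ) := Complex.conj_ofReal α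
  exact (IsSelfAdjoint.one _).sub (h2.smul h1)

lemma QO_isUnit (α κ : ℝ) (hκ : 0 < κ) (hα : |α| * F.CS κ < 1) : IsUnit (F.QO α κ hκ) := by
  have h1 : ‖(α : ℂ) • ((F.SO κ hκ) ∘L (ContinuousLinearMap.adjoint (F.SO κ hκ)))‖ < 1 := by
    rw [norm_smul, Complex.norm_real, Real.norm_eq_abs]
    refine lt_of_le_of_lt ?_ hα
    refine mul_le_mul_of_nonneg_left ?_ (abs_nonneg α)
    refine (ContinuousLinearMap.opNorm_comp_le _ _).trans ?_
    rw [LinearIsometryEquiv.norm_map]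
    have h2 := F.norm_SO_le κ hκ
    calc _ ≤ Real.sqrt (F.CS κ) * Real.sqrt (F.CS κ) := mul_le_mul h2 h2 (norm_nonneg _) (Real.sqrt_nonneg _)
      _ = F.CS κ := Real.mul_self_sqrt (F.CS_pos κ hκ).le
  exact (Units.oneSub _ h1).isUnit

/-- the resolvent `(H + κ²)⁻¹` in the Fourier representation -/
def RO (α κ : ℝ) (hκ : 0 < κ) : X →L[ℂ] X :=
  F.MJ κ hκ * Ring.inverse (F.QO α κ hκ) * F.MJ κ hκ

lemma RO_selfAdjoint (α κ : ℝ) (hκ : 0 < κ) : IsSelfAdjoint (F.RO α κ hκ) := by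
  unfold RO
  have h1 := F.MJ_selfAdjoint κ hκ
  have h2 := F.QO_selfAdjoint α κ hκ
  rw [IsSelfAdjoint, star_mul, star_mul, h1.star_eq, ← Ring.inverse_star, h2.star_eq, mul_assoc]

/-- inverse of `m_z = (σ - z)/(σ + κ²)` -/
def mi (κ : ℝ) (z : ℂ) (p : ℝ × (ℤ × ℝ)) : ℂ := ((κ ^ 2 + F.sr p : ℝ) : ℂ) / ((F.sr p : ℂ) - z)

lemma sr_sub_ne (z : ℂ) (hz : z.im ≠ 0) (p : ℝ × (ℤ × ℝ)) : (F.sr p : ℂ) - z ≠ 0 := by
  intro h
  have h1 := congrArg Complex.im h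
  rw [Complex.sub_im, Complex.ofReal_im, Complex.zero_im, zero_sub, neg_eq_zero] at h1
  exact hz h1

lemma measurable_mi (κ : ℝ) (z : ℂ) : Measurable (F.mi κ z) := by
  unfold mi
  have h1 := F.measurable_sr
  have h2 : Measurable (fun p => (F.sr p : ℂ)) := Complex.measurable_ofReal.comp h1
  fun_prop

lemma memLp_mi (κ : ℝ) (z : ℂ) (hz : z.im ≠ 0) : MemLp (F.mi κ z) ∞ M3 := by
  refine memLp_top_of_bound' _ (F.measurable_mi κ z).aestronglyMeasurable (1 + ‖(κ : ℂ) ^ 2 + z‖ / |z.im|) (fun p => ?_)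
  have h1 := F.sr_sub_ne z hz p
  have h2 : F.mi κ z p = 1 + ((κ : ℂ) ^ 2 + z) / ((F.sr p : ℂ) - z) := by
    unfold mi
    field_simp
    push_cast
    ring
  rw [h2]
  refine (norm_add_le _ _).trans ?_
  rw [norm_one, norm_div]
  have h3 : |z.im| ≤ ‖(F.sr p : ℂ) - z‖ := by
    have := Complex.abs_im_le_norm ((F.sr p : ℂ) - z)
    simpa using this
  have h4 : 0 < |z.im| := abs_pos.mpr hz
  gcongr

/-- Fibrewise Birman–Schwinger operator acting on trace fields. -/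
lemma memLp_KY (z : ℂ) (hz : z.im ≠ 0) (G : F.Y) : MemLp (fun θ : ℝ => F.KS ∅ θ z (G θ)) 2 m01 := by
  have hcont : Continuous (fun θ : ℝ => F.KS ∅ θ z) := by
    rw [continuous_iff_continuousAt]
    intro θ
    have h1 := (F.analyticAt_KS_theta ∅ (θ : ℂ) z (F.LB_im θ z hz)).continuousAt
    exact ContinuousAt.comp (f := fun θ : ℝ => (θ : ℂ)) (g := fun θ : ℂ => F.KS ∅ θ z) h1 Complex.continuous_ofReal.continuousAt
  obtain ⟨C, hC⟩ := (isCompact_Icc (a := (0:ℝ)) (b := 1)).exists_bound_of_continuousOn hcont.continuousOn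
  refine MemLp.of_le_mul (c := C) (Lp.memLp G) ?_ ?_
  · exact isBoundedBilinearMap_apply.continuous.comp_aestronglyMeasurable (hcont.aestronglyMeasurable.prodMk (Lp.memLp G).1)
  · rw [ae_restrict_iff' measurableSet_Ioo]
    refine Eventually.of_forall fun θ hθ => ?_
    refine (ContinuousLinearMap.le_opNorm _ _).trans ?_
    exact mul_le_mul_of_nonneg_right (hC θ ⟨hθ.1.le, hθ.2.le⟩) (norm_nonneg _)

lemma integrand_eq (κ : ℝ) (hκ : 0 < κ) (z : ℂ) (hz : z.im ≠ 0) (w G : ℝ → F.E) (θ : ℝ) (x : ℤ × ℝ) :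
    conj (F.Sfun κ w (θ, x)) * (F.mi κ z (θ, x) * F.Sfun κ G (θ, x)) = F.formS ∅ θ z (w θ) (G θ) x := by
  unfold Sfun
  simp only [formS, Finset.notMem_empty, if_false]
  rw [F.inner_eps, F.inner_eps, map_mul, Complex.conj_ofReal, F.sig_ofReal]
  have h1 := F.sr_sub_ne z hz (θ, x)
  have h2 : ((F.Jf κ (θ, x) : ℝ) : ℂ) * ((F.Jf κ (θ, x) : ℝ) : ℂ) = ((κ ^ 2 + F.sr (θ, x) : ℝ) : ℂ)⁻¹ := by
    rw [← Complex.ofReal_mul, ← sq, F.Jf_sq κ hκ, one_div, Complex.ofReal_inv]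
  have h3 : ((κ ^ 2 + F.sr (θ, x) : ℝ) : ℂ) ≠ 0 := by
    have := F.sr_nonneg (θ, x)
    exact_mod_cast (by positivity : κ ^ 2 + F.sr (θ, x) ≠ 0)
  calc _ = (((F.Jf κ (θ, x) : ℝ) : ℂ) * ((F.Jf κ (θ, x) : ℝ) : ℂ)) * F.mi κ z (θ, x) * (conj (F.hat (w θ) x) * F.hat (G θ) x) := by ring
    _ = _ := by
      rw [h2, mi]
      field_simp

theorem fibre_action (κ : ℝ) (hκ : 0 < κ) (z : ℂ) (hz : z.im ≠ 0) (G : F.Y) :
    ContinuousLinearMap.adjoint (F.SO κ hκ) (mulOp (F.mi κ z) (F.memLp_mi κ z hz) (F.SO κ hκ G)) =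
      (F.memLp_KY z hz G).toLp _ := by
  refine ext_inner_left ℂ (fun w => ?_)
  rw [ContinuousLinearMap.adjoint_inner_right]
  have e1 : (fun p => ⟪(F.SO κ hκ w) p, (mulOp (F.mi κ z) (F.memLp_mi κ z hz) (F.SO κ hκ G)) p⟫_ℂ) =ᵐ[M3]
      fun p => F.formS ∅ (p.1 : ℂ) z (w p.1) (G p.1) p.2 := by
    filter_upwards [F.SO_coe κ hκ w, F.SO_coe κ hκ G, mulOp_coe (F.mi κ z) (F.memLp_mi κ z hz) (F.SO κ hκ G)] with p h1 h2 h3
    rw [h3, h2, h1, RCLike.inner_apply, mul_comm]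
    exact F.integrand_eq κ hκ z hz w G p.1 p.2
  have e2 : Integrable (fun p : ℝ × (ℤ × ℝ) => F.formS ∅ (p.1 : ℂ) z (w p.1) (G p.1) p.2) M3 :=
    (L2.integrable_inner (𝕜 := ℂ) (F.SO κ hκ w) (mulOp (F.mi κ z) (F.memLp_mi κ z hz) (F.SO κ hκ G))).congr e1
  rw [L2.inner_def, integral_congr_ae e1, integral_prod _ e2, L2.inner_def]
  refine integral_congr_ae ?_
  filter_upwards [(F.memLp_KY z hz G).coeFn_toLp] with θ hθ
  rw [hθ, F.inner_KS ∅ θ z (F.LB_im θ z hz)]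

end FD

end

end Pool.Agent.Lib.Pdaec8e
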