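import Pool.Agent.Lib.Pdaec8e.Big2

set_option autoImplicit false

open MeasureTheory Filter Topology
open scoped ComplexConjugate ENNReal InnerProductSpace Real

namespace Pool.Agent.Lib.Pdaec8e

noncomputable section

namespace FD

variable (F : FD)

/-- `1 - α K(θ,z)` is injective for non-real energies. -/
lemma inj_KS (α : ℝ) (hα : α ≠ 0) (θ : ℝ) (z : ℂ) (hz : z.im ≠ 0) (g : F.E)
    (hg : g = (α : ℂ) • F.KS ∅ θ z g) : g = 0 := by
  have hLB := F.LB_im θ z hz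
  have hαc : (α : ℂ) ≠ 0 := by exact_mod_cast hα
  have hK : F.KS ∅ θ z g = (α : ℂ)⁻¹ • g := by
    conv_rhs => rw [hg]
    rw [smul_smul, inv_mul_cancel₀ hαc, one_smul]
  have hin : ⟪g, F.KS ∅ θ z g⟫_ℂ = ((α⁻¹ * ‖g‖ ^ 2 : ℝ) : ℂ) := by
    rw [hK, inner_smul_right, inner_self_eq_norm_sq_to_K]
    push_cast
    rfl
  have hint := F.integrable_formS ∅ θ z hLB g g
  have hform := F.inner_KS ∅ θ z hLB g g
  have him : ∀ x : ℤ × ℝ, (F.formS ∅ θ z g g x).im = z.im * (‖F.hat g x‖ ^ 2 / ‖F.sig θ x - z‖ ^ 2) := by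
    intro x
    simp only [formS, Finset.notMem_empty, if_false]
    have h1 : conj (F.hat g x) * F.hat g x = ((‖F.hat g x‖ ^ 2 : ℝ) : ℂ) := by
      rw [mul_comm, Complex.mul_conj, Complex.normSq_eq_norm_sq]
    rw [h1, Complex.div_im, Complex.ofReal_im, Complex.ofReal_re, zero_mul, zero_div, zero_sub, Complex.normSq_eq_norm_sq,
      Complex.sub_im, F.sig_ofReal, Complex.ofReal_im]
    ring
  have h1 : (∫ x, F.formS ∅ θ z g g x ∂nu).im = ∫ x, (F.formS ∅ θ z g g x).im ∂nu := by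
    have := Complex.imCLM.integral_comp_comm hint
    exact this.symm
  rw [← hform, hin, Complex.ofReal_im] at h1
  simp_rw [him] at h1
  rw [integral_const_mul] at h1
  have h2 : ∫ x, ‖F.hat g x‖ ^ 2 / ‖F.sig θ x - z‖ ^ 2 ∂nu = 0 := by
    rcases mul_eq_zero.mp h1.symm with h | h
    · exact absurd h hz
    · exact h
  have hint2 : Integrable (fun x => ‖F.hat g x‖ ^ 2 / ‖F.sig θ x - z‖ ^ 2) nu := by
    have h3 : Integrable (fun x => (F.formS ∅ θ z g g x).im) nu := hint.im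
    have h4 := h3.const_mul (z.im)⁻¹
    refine h4.congr (Eventually.of_forall fun x => ?_)
    simp only
    rw [him, ← mul_assoc, inv_mul_cancel₀ hz, one_mul]
  rw [integral_eq_zero_iff_of_nonneg (fun x => by positivity) hint2] at h2
  have h3 : ⟪g, F.KS ∅ θ z g⟫_ℂ = 0 := by
    rw [hform]
    rw [integral_eq_zero_of_ae]
    filter_upwards [h2] with x hx
    simp only [Pi.zero_apply] at hx ⊢
    simp only [formS, Finset.notMem_empty, if_false]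
    have h4 : F.sig θ x - z ≠ 0 := by rw [F.sig_ofReal]; exact F.sr_sub_ne z hz _
    have h5 : ‖F.hat g x‖ ^ 2 = 0 := by
      rcases div_eq_zero_iff.mp hx with h | h
      · exact h
      · exact absurd h (by positivity)
    have h6 : F.hat g x = 0 := by simpa using h5
    rw [h6]; simp
  rw [hin] at h3
  have h4 : α⁻¹ * ‖g‖ ^ 2 = 0 := by exact_mod_cast h3
  rcases mul_eq_zero.mp h4 with h | h
  · exact absurd h (inv_ne_zero hα)
  · simpa using h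

lemma adj_support (κ : ℝ) (hκ : 0 < κ) (h : X) (Q : Set ℝ) (hQ : MeasurableSet Q)
    (hh : ∀ᵐ p ∂M3, p.1 ∉ Q → h p = 0) :
    ∀ᵐ θ ∂m01, θ ∉ Q → (ContinuousLinearMap.adjoint (F.SO κ hκ) h) θ = 0 := by
  set b : F.Y := ContinuousLinearMap.adjoint (F.SO κ hκ) h with hb
  have hmem : MemLp (Qᶜ.indicator (b : ℝ → F.E)) 2 m01 := (Lp.memLp b).indicator hQ.compl
  set w : F.Y := hmem.toLp _ with hw
  have hwc := hmem.coeFn_toLp
  have h1 : ⟪w, b⟫_ℂ = 0 := by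
    rw [hb, ContinuousLinearMap.adjoint_inner_right, L2.inner_def, integral_eq_zero_of_ae]
    filter_upwards [F.SO_coe κ hκ w, hh, ae_fst hwc] with p hp1 hp2 hp3
    simp only [Pi.zero_apply]
    by_cases hpQ : p.1 ∈ Q
    · have : w p.1 = 0 := by
        rw [hw, hp3, Set.indicator_of_notMem]
        simpa using hpQ
      rw [hp1, Sfun, this, inner_zero_right, mul_zero, inner_zero_left]
    · rw [hp2 hpQ, inner_zero_right]
  have h2 : ⟪w, b⟫_ℂ = ⟪w, w⟫_ℂ := by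
    rw [L2.inner_def, L2.inner_def]
    refine integral_congr_ae ?_
    filter_upwards [hwc] with θ hθ
    rw [← hw] at hθ
    by_cases hθQ : θ ∈ Q
    · have : w θ = 0 := by
        rw [hθ, Set.indicator_of_notMem]
        simpa using hθQ
      rw [this, inner_zero_left, inner_zero_left]
    · have : w θ = b θ := by
        rw [hθ, Set.indicator_of_mem]
        exact hθQ
      rw [this]
  rw [h2, inner_self_eq_zero] at h1
  have h3 : (w : ℝ → F.E) =ᵐ[m01] 0 := by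
    rw [h1]; exact Lp.coeFn_zero _ _ _
  filter_upwards [hwc, h3] with θ hθ1 hθ2 hθQ
  rw [← hw, hθ2, Set.indicator_of_mem] at hθ1
  · exact hθ1.symm
  · exact hθQ

/-- The key resolvent bound. -/
theorem res_bound (α κ : ℝ) (hκ : 0 < κ) (hα0 : α ≠ 0) (hα : |α| * F.CS κ < 1) (z : ℂ) (hz : 0 < z.im)
    (Q : Set ℝ) (hQ : MeasurableSet Q) (C δ M : ℝ) (hC : 0 ≤ C) (hδ : 0 < δ) (hM : 0 ≤ M)
    (hQC : ∀ θ ∈ Q, IsUnit (1 - (α : ℂ) • F.KS ∅ θ z) ∧ ‖Ring.inverse (1 - (α : ℂ) • F.KS ∅ (θ : ℂ) z)‖ ≤ C)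
    (A : Set (ℝ × (ℤ × ℝ))) (hA : ∀ p ∈ A, p.1 ∈ Q ∧ δ ≤ ‖(F.sr p : ℂ) - z‖ ∧ F.sr p ≤ M)
    (f : X) (hf : ∀ᵐ p ∂M3, p ∉ A → f p = 0) :
    ‖⟪f, res (F.RO α κ hκ) (κ ^ 2) z f⟫_ℂ‖ ≤
      (κ⁻¹ * (Real.sqrt (κ ^ 2 + M) / δ) + |α| * (Real.sqrt (κ ^ 2 + M) / δ) ^ 2 * F.CS κ * C) * ‖f‖ ^ 2 := by
  set S := F.SO κ hκ with hS
  set C1 : ℝ := Real.sqrt (κ ^ 2 + M) / δ with hC1
  have hC1n : 0 ≤ C1 := by positivity
  set u := res (F.RO α κ hκ) (κ ^ 2) z f with hu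
  have hu1 := res_eq (F.RO α κ hκ) (F.RO_selfAdjoint α κ hκ) (κ ^ 2) z hz.ne' f
  rw [← hu] at hu1
  set w := f + ((((κ ^ 2 : ℝ) : ℂ)) + z) • u with hw
  set v := Ring.inverse (F.QO α κ hκ) (F.MJ κ hκ w) with hv
  have huv : u = F.MJ κ hκ v := hu1
  have hQv : F.QO α κ hκ v = F.MJ κ hκ w := by
    have h1 := Ring.mul_inverse_cancel _ (F.QO_isUnit α κ hκ hα)
    have h2 : (F.QO α κ hκ * Ring.inverse (F.QO α κ hκ)) (F.MJ κ hκ w) = F.MJ κ hκ w := by rw [h1]; rfl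
    exact h2
  set g : F.Y := ContinuousLinearMap.adjoint S v with hg
  set mm := mulOp (F.mi κ z) (F.memLp_mi κ z hz.ne') with hmm
  have hv2 : v = mm (F.MJ κ hκ f + (α : ℂ) • S g) := by
    apply Lp.ext
    have hQv' : v - (α : ℂ) • S g = F.MJ κ hκ w := hQv
    have hQv3 : v - (α : ℂ) • S g = F.MJ κ hκ f + ((((κ ^ 2 : ℝ) : ℂ)) + z) • F.MJ κ hκ (F.MJ κ hκ v) := by
      rw [hQv', hw, map_add, map_smul, huv]
    have e0 : (v - (α : ℂ) • S g : X) =ᵐ[M3] (F.MJ κ hκ f + ((((κ ^ 2 : ℝ) : ℂ)) + z) • F.MJ κ hκ (F.MJ κ hκ v) : X) := by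
      rw [hQv3]
    filter_upwards [e0, Lp.coeFn_sub v ((α : ℂ) • S g), Lp.coeFn_smul (α : ℂ) (S g),
      Lp.coeFn_add (F.MJ κ hκ f) (((((κ ^ 2 : ℝ) : ℂ)) + z) • F.MJ κ hκ (F.MJ κ hκ v)),
      Lp.coeFn_smul ((((κ ^ 2 : ℝ) : ℂ)) + z) (F.MJ κ hκ (F.MJ κ hκ v)),
      mulOp_coe _ (F.memLp_J κ hκ) (F.MJ κ hκ v), mulOp_coe _ (F.memLp_J κ hκ) v,
      mulOp_coe (F.mi κ z) (F.memLp_mi κ z hz.ne') (F.MJ κ hκ f + (α : ℂ) • S g),
      Lp.coeFn_add (F.MJ κ hκ f) ((α : ℂ) • S g)] with p h0 h1 h2 h3 h4 h5 h6 h7 h8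
    have h5' : (F.MJ κ hκ (F.MJ κ hκ v)) p = ((F.Jf κ p : ℝ) : ℂ) * (F.MJ κ hκ v) p := h5
    have h6' : (F.MJ κ hκ v) p = ((F.Jf κ p : ℝ) : ℂ) * v p := h6
    rw [h7, h8, Pi.add_apply, h2, Pi.smul_apply, smul_eq_mul]
    rw [h1, h3, Pi.sub_apply, Pi.add_apply, h2, h4, Pi.smul_apply, Pi.smul_apply, smul_eq_mul, smul_eq_mul, h5', h6'] at h0
    have h9 : ((F.Jf κ p : ℝ) : ℂ) * (((F.Jf κ p : ℝ) : ℂ) * v p) = ((κ ^ 2 + F.sr p : ℝ) : ℂ)⁻¹ * v p := by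
      rw [← mul_assoc, ← Complex.ofReal_mul, ← sq, F.Jf_sq κ hκ, one_div, Complex.ofReal_inv]
    rw [h9] at h0
    have h10 : ((κ ^ 2 + F.sr p : ℝ) : ℂ) ≠ 0 := by
      have := F.sr_nonneg p
      exact_mod_cast (by positivity : κ ^ 2 + F.sr p ≠ 0)
    have h11 := F.sr_sub_ne z hz.ne' p
    have h12 : (F.MJ κ hκ f) p + (α : ℂ) * (S g) p = v p * (((F.sr p : ℂ) - z) / ((κ ^ 2 + F.sr p : ℝ) : ℂ)) := by
      have : v p * (((F.sr p : ℂ) - z) / ((κ ^ 2 + F.sr p : ℝ) : ℂ)) = v p - ((((κ ^ 2 : ℝ) : ℂ)) + z) * (((κ ^ 2 + F.sr p : ℝ) : ℂ)⁻¹ * v p) := by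
        field_simp
        push_cast
        ring
      rw [this]
      linear_combination -h0
    rw [h12, mi]
    field_simp
  -- the source term
  set h := mm (F.MJ κ hκ f) with hh
  set b : F.Y := ContinuousLinearMap.adjoint S h with hb
  have hgb : g = b + (α : ℂ) • (F.memLp_KY z hz.ne' g).toLp _ := by
    rw [← F.fibre_action κ hκ z hz.ne' g, hb, ← map_smul, ← map_smul, ← map_add, hh, ← map_add, ← hv2]
  -- bounds of the source
  have hae : ∀ᵐ p ∂M3, ‖F.mi κ z p‖ * F.Jf κ p * ‖f p‖ ≤ C1 * ‖f p‖ := by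
    filter_upwards [hf] with p hp
    by_cases hpA : p ∈ A
    · obtain ⟨_, h2, h3⟩ := hA p hpA
      refine mul_le_mul_of_nonneg_right ?_ (norm_nonneg _)
      have h4 := F.sr_nonneg p
      have h5 : ‖F.mi κ z p‖ = (κ ^ 2 + F.sr p) / ‖(F.sr p : ℂ) - z‖ := by
        unfold mi
        rw [norm_div, Complex.norm_real, Real.norm_eq_abs, abs_of_nonneg (by positivity)]
      rw [h5]
      unfold Jf
      have h6 : (κ ^ 2 + F.sr p) / ‖(F.sr p : ℂ) - z‖ * (Real.sqrt (κ ^ 2 + F.sr p))⁻¹ = Real.sqrt (κ ^ 2 + F.sr p) / ‖(F.sr p : ℂ) - z‖ := by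
        have h7 : 0 < Real.sqrt (κ ^ 2 + F.sr p) := by positivity
        have h8 : κ ^ 2 + F.sr p = Real.sqrt (κ ^ 2 + F.sr p) * Real.sqrt (κ ^ 2 + F.sr p) := (Real.mul_self_sqrt (by positivity)).symm
        have h9 : 0 < ‖(F.sr p : ℂ) - z‖ := lt_of_lt_of_le hδ h2
        rw [div_mul_eq_mul_div]
        congr 1
        conv_lhs => rw [h8]
        rw [Real.sqrt_mul_self h7.le]
        field_simp
      rw [h6, hC1]
      have h7 : Real.sqrt (κ ^ 2 + F.sr p) ≤ Real.sqrt (κ ^ 2 + M) := Real.sqrt_le_sqrt (by linarith)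
      gcongr
    · rw [hp hpA, norm_zero, mul_zero, mul_zero]
  have hhn : ‖h‖ ≤ C1 * ‖f‖ := by
    refine Lp.norm_le_mul_norm_of_ae_le_mul ?_
    filter_upwards [hae, mulOp_coe (F.mi κ z) (F.memLp_mi κ z hz.ne') (F.MJ κ hκ f), mulOp_coe _ (F.memLp_J κ hκ) f] with p h1 h2 h3
    have h3' : (F.MJ κ hκ f) p = ((F.Jf κ p : ℝ) : ℂ) * f p := h3
    rw [hh, hmm, h2, h3', norm_mul, norm_mul, Complex.norm_real, Real.norm_eq_abs, abs_of_pos (F.Jf_pos κ hκ p), ← mul_assoc]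
    exact h1
  set h' := ContinuousLinearMap.adjoint mm (F.MJ κ hκ f) with hh'
  have hhn' : ‖h'‖ ≤ C1 * ‖f‖ := by
    refine Lp.norm_le_mul_norm_of_ae_le_mul ?_
    rw [hh', hmm, adjoint_mulOp]
    filter_upwards [hae, mulOp_coe _ (memLp_conj _ (F.memLp_mi κ z hz.ne')) (F.MJ κ hκ f), mulOp_coe _ (F.memLp_J κ hκ) f] with p h1 h2 h3
    have h3' : (F.MJ κ hκ f) p = ((F.Jf κ p : ℝ) : ℂ) * f p := h3
    rw [h2, h3', norm_mul, norm_mul, Complex.norm_real, Real.norm_eq_abs, abs_of_pos (F.Jf_pos κ hκ p), ← mul_assoc, RCLike.norm_conj]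
    exact h1
  -- support of the trace source
  have hsupp : ∀ᵐ θ ∂m01, θ ∉ Q → b θ = 0 := by
    refine F.adj_support κ hκ h Q hQ ?_
    filter_upwards [hf, mulOp_coe (F.mi κ z) (F.memLp_mi κ z hz.ne') (F.MJ κ hκ f), mulOp_coe _ (F.memLp_J κ hκ) f] with p h1 h2 h3 hpQ
    have h3' : (F.MJ κ hκ f) p = ((F.Jf κ p : ℝ) : ℂ) * f p := h3
    rw [hh, hmm, h2, h3', h1 (fun hpA => hpQ (hA p hpA).1), mul_zero, mul_zero]
  have hgn : ‖g‖ ≤ C * ‖b‖ := by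
    refine Lp.norm_le_mul_norm_of_ae_le_mul ?_
    have e1 : (g : ℝ → F.E) =ᵐ[m01] (b + (α : ℂ) • (F.memLp_KY z hz.ne' g).toLp _ : F.Y) := by rw [← hgb]
    filter_upwards [e1, Lp.coeFn_add b ((α : ℂ) • (F.memLp_KY z hz.ne' g).toLp _),
      Lp.coeFn_smul (α : ℂ) ((F.memLp_KY z hz.ne' g).toLp _), (F.memLp_KY z hz.ne' g).coeFn_toLp, hsupp] with θ h1 h2 h3 h4 h5
    rw [h2, Pi.add_apply, h3, Pi.smul_apply, h4] at h1
    by_cases hθ : θ ∈ Q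
    · obtain ⟨h6, h7⟩ := hQC θ hθ
      have h8 : (1 - (α : ℂ) • F.KS ∅ θ z) (g θ) = b θ := by
        rw [sub_apply, one_apply_eq_self, smul_apply]
        conv_lhs => rw [h1]
        have h9 : F.KS ∅ (θ : ℂ) z (b θ + (α : ℂ) • F.KS ∅ (θ : ℂ) z (g θ)) = F.KS ∅ (θ : ℂ) z (g θ) := by rw [← h1]
        rw [h9]
        abel
      have h9 : g θ = Ring.inverse (1 - (α : ℂ) • F.KS ∅ (θ : ℂ) z) (b θ) := by
        have h10 := Ring.inverse_mul_cancel _ h6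
        have h11 : (Ring.inverse (1 - (α : ℂ) • F.KS ∅ (θ : ℂ) z) * (1 - (α : ℂ) • F.KS ∅ (θ : ℂ) z)) (g θ) = g θ := by rw [h10]; rfl
        rw [mul_apply_eq_comp, h8] at h11
        exact h11.symm
      rw [h9]
      exact (ContinuousLinearMap.le_opNorm _ _).trans (mul_le_mul_of_nonneg_right h7 (norm_nonneg _))
    · rw [h5 hθ, zero_add] at h1
      have h6 := F.inj_KS α hα0 θ z hz.ne' (g θ) h1
      rw [h6, h5 hθ, norm_zero, mul_zero]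
  -- conclusion
  have hSn := F.norm_SO_le κ hκ
  rw [← hS] at hSn
  have hCSn := (F.CS_pos κ hκ).le
  have hbn : ‖b‖ ≤ Real.sqrt (F.CS κ) * (C1 * ‖f‖) := by
    refine (ContinuousLinearMap.le_opNorm _ _).trans ?_
    rw [LinearIsometryEquiv.norm_map]
    exact mul_le_mul hSn hhn (norm_nonneg _) (Real.sqrt_nonneg _)
  have hMJ : ‖F.MJ κ hκ f‖ ≤ κ⁻¹ * ‖f‖ := by
    refine (ContinuousLinearMap.le_opNorm _ _).trans (mul_le_mul_of_nonneg_right ?_ (norm_nonneg _))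
    refine norm_mulOp_le _ _ _ (by positivity) (fun p => ?_)
    rw [Complex.norm_real, Real.norm_eq_abs, abs_of_pos (F.Jf_pos κ hκ p)]
    exact F.Jf_le κ hκ p
  have hinner : ⟪f, u⟫_ℂ = ⟪F.MJ κ hκ f, h⟫_ℂ + (α : ℂ) * ⟪h', S g⟫_ℂ := by
    have h1 : ⟪f, F.MJ κ hκ v⟫_ℂ = ⟪F.MJ κ hκ f, v⟫_ℂ := by
      have h2 := F.MJ_selfAdjoint κ hκ
      rw [IsSelfAdjoint, ContinuousLinearMap.star_eq_adjoint] at h2
      conv_lhs => rw [← h2]
      rw [ContinuousLinearMap.adjoint_inner_right]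
    rw [huv, h1, hv2, map_add, map_smul, inner_add_right, inner_smul_right, hh', ContinuousLinearMap.adjoint_inner_left]
  rw [hinner]
  refine (norm_add_le _ _).trans ?_
  rw [norm_mul, Complex.norm_real, Real.norm_eq_abs]
  have t1 : ‖⟪F.MJ κ hκ f, h⟫_ℂ‖ ≤ (κ⁻¹ * ‖f‖) * (C1 * ‖f‖) :=
    (norm_inner_le_norm _ _).trans (mul_le_mul hMJ hhn (norm_nonneg _) (by positivity))
  have t2 : ‖⟪h', S g⟫_ℂ‖ ≤ (C1 * ‖f‖) * (Real.sqrt (F.CS κ) * (C * (Real.sqrt (F.CS κ) * (C1 * ‖f‖)))) := by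
    refine (norm_inner_le_norm _ _).trans (mul_le_mul hhn' ?_ (norm_nonneg _) (by positivity))
    refine (ContinuousLinearMap.le_opNorm _ _).trans (mul_le_mul hSn ?_ (norm_nonneg _) (Real.sqrt_nonneg _))
    exact hgn.trans (mul_le_mul_of_nonneg_left hbn hC)
  have t3 : (C1 * ‖f‖) * (Real.sqrt (F.CS κ) * (C * (Real.sqrt (F.CS κ) * (C1 * ‖f‖)))) = C1 ^ 2 * F.CS κ * C * ‖f‖ ^ 2 := by
    have := Real.mul_self_sqrt hCSn
    calc _ = (Real.sqrt (F.CS κ) * Real.sqrt (F.CS κ)) * (C1 ^ 2 * C * ‖f‖ ^ 2) := by ring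
      _ = _ := by rw [this]; ring
  rw [t3] at t2
  have t4 : |α| * ‖⟪h', S g⟫_ℂ‖ ≤ |α| * (C1 ^ 2 * F.CS κ * C * ‖f‖ ^ 2) := mul_le_mul_of_nonneg_left t2 (abs_nonneg _)
  calc _ ≤ (κ⁻¹ * ‖f‖) * (C1 * ‖f‖) + |α| * (C1 ^ 2 * F.CS κ * C * ‖f‖ ^ 2) := add_le_add t1 t4
    _ = _ := by ring

end FD

end

end Pool.Agent.Lib.Pdaec8e
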