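import Pool.Agent.Lib.Pdaec8e.Big3

set_option autoImplicit false

open MeasureTheory Filter Topology
open scoped ComplexConjugate ENNReal InnerProductSpace Real

namespace Pool.Agent.Lib.Pdaec8e

noncomputable section

lemma volume_quad (c D : ℝ) (hD : 0 < D) (K : Set ℝ) (hK : volume K = 0) :
    volume {y : ℝ | c + D ^ 2 * y ^ 2 ∈ K} = 0 := by
  have hthin : Thin {q : ℝ × ℝ | q.1 ≠ 0 ∧ c + D ^ 2 * q.1 ^ 2 = q.2} := by
    refine Thin.of_local (fun p hp => ?_)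
    obtain ⟨h0, h1⟩ := hp
    set u : ℂ × ℂ → ℂ := fun P => (c : ℂ) + (D : ℂ) ^ 2 * P.1 ^ 2 - P.2 with hu
    have han : AnalyticAt ℂ u ((p.1 : ℂ), (p.2 : ℂ)) := by
      exact (analyticAt_const.add (analyticAt_const.mul (analyticAt_fst.pow 2))).sub analyticAt_snd
    have hder : fderiv ℂ u ((p.1 : ℂ), (p.2 : ℂ)) (1, 0) ≠ 0 := by
      have h3 : HasFDerivAt u (fderiv ℂ u ((p.1 : ℂ), (p.2 : ℂ))) ((p.1 : ℂ), (p.2 : ℂ)) := han.differentiableAt.hasFDerivAt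
      have h4 : HasDerivAt (fun s : ℂ => (s, (p.2 : ℂ))) ((1, 0) : ℂ × ℂ) (p.1 : ℂ) :=
        (hasDerivAt_id (p.1 : ℂ)).prodMk (hasDerivAt_const (p.1 : ℂ) (p.2 : ℂ))
      have h5 := h3.comp_hasDerivAt (p.1 : ℂ) h4
      have h6 : HasDerivAt (fun s : ℂ => (c : ℂ) + (D : ℂ) ^ 2 * s ^ 2 - (p.2 : ℂ))
          ((D : ℂ) ^ 2 * (2 * (p.1 : ℂ))) (p.1 : ℂ) := by
        have h8 := ((((hasDerivAt_id (p.1 : ℂ)).pow 2).const_mul ((D : ℂ) ^ 2)).const_add (c : ℂ)).sub_const (p.2 : ℂ)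
        simpa using h8
      have h7 := h5.unique h6
      rw [h7]
      have h11 : (p.1 : ℂ) ≠ 0 := by exact_mod_cast h0
      have h12 : (D : ℂ) ≠ 0 := by exact_mod_cast hD.ne'
      exact mul_ne_zero (pow_ne_zero 2 h12) (mul_ne_zero two_ne_zero h11)
    obtain ⟨V, hV, hT⟩ := thin_near u p han hder
    refine ⟨V, hV, hT.mono ?_⟩
    rintro q ⟨⟨_, hq⟩, hqV⟩
    refine ⟨hqV, ?_⟩
    rw [hu]
    simp only
    have : ((c + D ^ 2 * q.1 ^ 2 : ℝ) : ℂ) = (q.2 : ℂ) := by rw [hq]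
    push_cast at this
    rw [this, sub_self]
  have h1 := hthin K hK
  have h2 : {y : ℝ | c + D ^ 2 * y ^ 2 ∈ K} ⊆ {0} ∪ {θ : ℝ | ∃ l ∈ K, (θ, l) ∈ {q : ℝ × ℝ | q.1 ≠ 0 ∧ c + D ^ 2 * q.1 ^ 2 = q.2}} := by
    intro y hy
    by_cases h0 : y = 0
    · left; exact h0
    · right; exact ⟨_, hy, h0, rfl⟩
  exact measure_mono_null h2 (measure_union_null (by simp) h1)

namespace FD

variable (F : FD)

lemma ae_sr_notMem (K : Set ℝ) (hK : IsClosed K) (hK0 : volume K = 0) : ∀ᵐ p ∂M3, F.sr p ∉ K := by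
  have hm : MeasurableSet {p : ℝ × (ℤ × ℝ) | F.sr p ∈ K} := F.measurable_sr hK.measurableSet
  rw [ae_iff]
  simp only [not_not]
  rw [Measure.measure_prod_null hm]
  refine Eventually.of_forall fun θ => ?_
  simp only [Pi.zero_apply]
  have hm2 : MeasurableSet (Prod.mk θ ⁻¹' {p : ℝ × (ℤ × ℝ) | F.sr p ∈ K}) := measurable_prodMk_left hm
  rw [Measure.measure_prod_null hm2]
  refine Eventually.of_forall fun n => ?_
  simp only [Pi.zero_apply]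
  exact volume_quad (F.A ^ 2 * ((n : ℝ) + θ) ^ 2) F.D F.hD K hK0

/-- Uniform invertibility up to the real axis on compact sets of good quasimomenta. -/
theorem uniform_bound (α : ℝ) (K Q : Set ℝ) (hK : IsCompact K) (hQ : IsCompact Q) (hQK : Q ⊆ F.GQ α K) :
    ∃ δ > 0, ∃ C : ℝ, 0 ≤ C ∧ ∀ θ ∈ Q, ∀ z : ℂ, 0 < z.im → z.im < δ → z.re ∈ Metric.thickening δ K →
      IsUnit (1 - (α : ℂ) • F.KS ∅ θ z) ∧ ‖Ring.inverse (1 - (α : ℂ) • F.KS ∅ (θ : ℂ) z)‖ ≤ C := by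
  have hcomp : IsCompact (Q ×ˢ K) := hQ.prod hK
  have main : ∃ δ > 0, ∃ C : ℝ, ∀ q ∈ Q ×ˢ K, ∀ θ : ℝ, |θ - q.1| < δ → ∀ z : ℂ, 0 < z.im → ‖z - q.2‖ < δ →
      IsUnit (1 - (α : ℂ) • F.KS ∅ θ z) ∧ ‖Ring.inverse (1 - (α : ℂ) • F.KS ∅ (θ : ℂ) z)‖ ≤ C := by
    refine hcomp.induction_on (p := fun s => ∃ δ > 0, ∃ C : ℝ, ∀ q ∈ s, ∀ θ : ℝ, |θ - q.1| < δ → ∀ z : ℂ, 0 < z.im → ‖z - q.2‖ < δ →
      IsUnit (1 - (α : ℂ) • F.KS ∅ θ z) ∧ ‖Ring.inverse (1 - (α : ℂ) • F.KS ∅ (θ : ℂ) z)‖ ≤ C) ?_ ?_ ?_ ?_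
    · exact ⟨1, one_pos, 0, fun q hq => absurd hq (Set.notMem_empty q)⟩
    · rintro s t hst ⟨δ, hδ, C, h⟩
      exact ⟨δ, hδ, C, fun q hq => h q (hst hq)⟩
    · rintro s t ⟨δ1, hδ1, C1, h1⟩ ⟨δ2, hδ2, C2, h2⟩
      refine ⟨min δ1 δ2, lt_min hδ1 hδ2, max C1 C2, ?_⟩
      rintro q (hq | hq) θ hθ z hz hzq
      · obtain ⟨a, b⟩ := h1 q hq θ (hθ.trans_le (min_le_left _ _)) z hz (hzq.trans_le (min_le_left _ _))
        exact ⟨a, b.trans (le_max_left _ _)⟩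
      · obtain ⟨a, b⟩ := h2 q hq θ (hθ.trans_le (min_le_right _ _)) z hz (hzq.trans_le (min_le_right _ _))
        exact ⟨a, b.trans (le_max_right _ _)⟩
    · rintro p ⟨hp1, hp2⟩
      obtain ⟨r, hr, C, h⟩ := F.local_bound α p ((hQK hp1).2 p.2 hp2)
      refine ⟨Metric.ball p (r / 2), mem_nhdsWithin_of_mem_nhds (Metric.ball_mem_nhds p (half_pos hr)), r / 2, half_pos hr, C, ?_⟩
      intro q hq θ hθ z hz hzq
      rw [Metric.mem_ball, Prod.dist_eq, max_lt_iff, Real.dist_eq, Real.dist_eq] at hq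
      refine h θ ?_ z hz ?_
      · have : θ - p.1 = (θ - q.1) + (q.1 - p.1) := by ring
        rw [this]
        refine (abs_add_le _ _).trans_lt ?_
        linarith [hq.1]
      · have : z - (p.2 : ℂ) = (z - (q.2 : ℂ)) + ((q.2 - p.2 : ℝ) : ℂ) := by push_cast; ring
        rw [this]
        refine (norm_add_le _ _).trans_lt ?_
        rw [Complex.norm_real, Real.norm_eq_abs]
        linarith [hq.2]
  obtain ⟨δ, hδ, C, h⟩ := main
  refine ⟨δ / 2, half_pos hδ, max C 0, le_max_right _ _, ?_⟩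
  intro θ hθ z hz hz1 hz2
  rw [Metric.mem_thickening_iff] at hz2
  obtain ⟨l, hl, hzl⟩ := hz2
  rw [Real.dist_eq] at hzl
  obtain ⟨a, b⟩ := h (θ, l) ⟨hθ, hl⟩ θ (by simpa using hδ) z hz (by
    have h1 := Complex.norm_le_abs_re_add_abs_im (z - (l : ℂ))
    rw [Complex.sub_re, Complex.sub_im, Complex.ofReal_re, Complex.ofReal_im, sub_zero, abs_of_pos hz] at h1
    linarith)
  exact ⟨a, b.trans (le_max_left _ _)⟩

/-- exhaustion of the good quasimomenta -/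
def Qk (α : ℝ) (K : Set ℝ) (k : ℕ) : Set ℝ := Set.Icc 0 1 ∩ {θ | 1 / ((k : ℝ) + 1) ≤ Metric.infDist θ (F.GQ α K)ᶜ}

lemma isCompact_Qk (α : ℝ) (K : Set ℝ) (k : ℕ) : IsCompact (F.Qk α K k) :=
  isCompact_Icc.inter_right (isClosed_le continuous_const (Metric.continuous_infDist_pt _))

lemma Qk_subset (α : ℝ) (K : Set ℝ) (k : ℕ) : F.Qk α K k ⊆ F.GQ α K := by
  rintro θ ⟨_, h⟩
  by_contra hcon
  have h1 : Metric.infDist θ (F.GQ α K)ᶜ = 0 := Metric.infDist_zero_of_mem hcon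
  rw [Set.mem_ofPred_eq, h1] at h
  have : 0 < 1 / ((k : ℝ) + 1) := by positivity
  linarith

lemma eventually_mem_Qk (α : ℝ) (K : Set ℝ) (hK : IsCompact K) (θ : ℝ) (hθ : θ ∈ F.GQ α K) :
    ∀ᶠ k : ℕ in atTop, θ ∈ F.Qk α K k := by
  have hcl : IsClosed (F.GQ α K)ᶜ := (F.isOpen_GQ α K hK).isClosed_compl
  have hne : ((F.GQ α K)ᶜ).Nonempty := ⟨2, fun h => by have := h.1.2; linarith⟩
  have hpos : 0 < Metric.infDist θ (F.GQ α K)ᶜ := by
    rw [← hcl.notMem_iff_infDist_pos hne]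
    exact fun h => h hθ
  have h1 := (tendsto_one_div_add_atTop_nhds_zero_nat (𝕜 := ℝ)).eventually (gt_mem_nhds hpos)
  filter_upwards [h1] with k hk
  exact ⟨⟨hθ.1.1.le, hθ.1.2.le⟩, hk.le⟩

/-- good regions of phase space -/
def Ak (α : ℝ) (K : Set ℝ) (k : ℕ) : Set (ℝ × (ℤ × ℝ)) :=
  {p | p.1 ∈ F.Qk α K k ∧ (∀ l ∈ K, 1 / ((k : ℝ) + 1) ≤ |F.sr p - l|) ∧ F.sr p ≤ k}

lemma measurableSet_Ak (α : ℝ) (K : Set ℝ) (k : ℕ) : MeasurableSet (F.Ak α K k) := by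
  have h1 : MeasurableSet {p : ℝ × (ℤ × ℝ) | p.1 ∈ F.Qk α K k} := measurable_fst (F.isCompact_Qk α K k).measurableSet
  have h2 : IsClosed {x : ℝ | ∀ l ∈ K, 1 / ((k : ℝ) + 1) ≤ |x - l|} := by
    have : {x : ℝ | ∀ l ∈ K, 1 / ((k : ℝ) + 1) ≤ |x - l|} = ⋂ l ∈ K, {x : ℝ | 1 / ((k : ℝ) + 1) ≤ |x - l|} := by
      ext x; simp only [Set.mem_ofPred_eq, Set.mem_iInter]
    rw [this]
    refine isClosed_biInter fun l _ => isClosed_le continuous_const (by fun_prop)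
  have h3 : MeasurableSet {p : ℝ × (ℤ × ℝ) | ∀ l ∈ K, 1 / ((k : ℝ) + 1) ≤ |F.sr p - l|} := F.measurable_sr h2.measurableSet
  have h4 : MeasurableSet {p : ℝ × (ℤ × ℝ) | F.sr p ≤ k} := measurableSet_le F.measurable_sr measurable_const
  exact h1.inter (h3.inter h4)

lemma eventually_mem_Ak (α : ℝ) (K : Set ℝ) (hK : IsCompact K) (p : ℝ × (ℤ × ℝ)) (h1 : p.1 ∈ F.GQ α K)
    (h2 : F.sr p ∉ K) : ∀ᶠ k : ℕ in atTop, p ∈ F.Ak α K k := by
  have hop : IsOpen Kᶜ := hK.isClosed.isOpen_compl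
  obtain ⟨ε, hε, hball⟩ := Metric.isOpen_iff.mp hop _ h2
  have e1 := F.eventually_mem_Qk α K hK p.1 h1
  have e2 := (tendsto_one_div_add_atTop_nhds_zero_nat (𝕜 := ℝ)).eventually (gt_mem_nhds hε)
  have e3 := (tendsto_natCast_atTop_atTop (R := ℝ)).eventually_ge_atTop (F.sr p)
  filter_upwards [e1, e2, e3] with k a b c
  refine ⟨a, fun l hl => ?_, c⟩
  by_contra hcon
  rw [not_le] at hcon
  have h3 : l ∈ Metric.ball (F.sr p) ε := by
    rw [Metric.mem_ball, Real.dist_eq, abs_sub_comm]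
    linarith
  exact hball h3 hl

/-- Density of vectors with bounded resolvent near a null compact set. -/
theorem dense_RO (α κ : ℝ) (hκ : 0 < κ) (hα0 : α ≠ 0) (hα : |α| * F.CS κ < 1) (K : Set ℝ) (hK : IsCompact K)
    (hK0 : volume K = 0) :
    Dense {f : X | ∃ δ > 0, ∃ C : ℝ, ∀ z : ℂ, 0 < z.im → z.im < δ →
        z.re ∈ Metric.thickening δ K → ‖⟪f, res (F.RO α κ hκ) (κ ^ 2) z f⟫_ℂ‖ ≤ C} := by
  rw [Metric.dense_iff]
  intro f r hr
  -- approximants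
  have hmem : ∀ k, MemLp ((F.Ak α K k).indicator (f : _ → ℂ)) 2 M3 := fun k => (Lp.memLp f).indicator (F.measurableSet_Ak α K k)
  set fk : ℕ → X := fun k => (hmem k).toLp _ with hfk
  have hae : ∀ᵐ p ∂M3, ∀ᶠ k : ℕ in atTop, p ∈ F.Ak α K k := by
    have h1 : ∀ᵐ θ ∂m01, θ ∈ F.GQ α K := by
      rw [ae_restrict_iff' measurableSet_Ioo, ae_iff]
      have := F.null_compl_GQ α hα0 K hK0
      convert this using 2
      ext θ
      simp only [Set.mem_ofPred_eq, Set.mem_Ioo, Classical.not_imp]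
    filter_upwards [ae_fst h1, F.ae_sr_notMem K hK.isClosed hK0] with p h1 h2
    exact F.eventually_mem_Ak α K hK p h1 h2
  have hlim : Tendsto (fun k => ∫⁻ p, ‖(f - fk k : X) p‖ₑ ^ 2 ∂M3) atTop (𝓝 0) := by
    have e1 : ∀ k, ∫⁻ p, ‖(f - fk k : X) p‖ₑ ^ 2 ∂M3 = ∫⁻ p, ((F.Ak α K k)ᶜ.indicator (fun p => ‖f p‖ₑ ^ 2)) p ∂M3 := by
      intro k
      refine lintegral_congr_ae ?_
      filter_upwards [Lp.coeFn_sub f (fk k), (hmem k).coeFn_toLp] with p h1 h2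
      rw [h1, Pi.sub_apply, hfk]
      simp only
      rw [h2]
      by_cases hp : p ∈ F.Ak α K k
      · rw [Set.indicator_of_mem hp, sub_self, Set.indicator_of_notMem (by simpa using hp)]
        simp
      · rw [Set.indicator_of_notMem hp, sub_zero, Set.indicator_of_mem (by simpa using hp)]
    simp_rw [e1]
    have hz : ∫⁻ _ : ℝ × (ℤ × ℝ), (0 : ℝ≥0∞) ∂M3 = 0 := by simp
    rw [← hz]
    refine tendsto_lintegral_of_dominated_convergence' (fun p => ‖f p‖ₑ ^ 2) ?_ ?_ ?_ ?_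
    · intro k
      exact (((Lp.memLp f).1.enorm.pow_const 2)).indicator (F.measurableSet_Ak α K k).compl
    · intro k
      refine Eventually.of_forall fun p => ?_
      exact Set.indicator_le_self _ _ p
    · rw [← lintegral_sq_Lp]; exact ENNReal.ofReal_ne_top
    · filter_upwards [hae] with p hp
      refine tendsto_const_nhds.congr' ?_
      filter_upwards [hp] with k hk
      rw [Set.indicator_of_notMem (by simpa using hk)]
  have hev : ∀ᶠ k in atTop, ∫⁻ p, ‖(f - fk k : X) p‖ₑ ^ 2 ∂M3 < ENNReal.ofReal (r ^ 2) :=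
    hlim.eventually (gt_mem_nhds (by rw [ENNReal.ofReal_pos]; positivity))
  obtain ⟨k, hk⟩ := hev.exists
  rw [← lintegral_sq_Lp, ENNReal.ofReal_lt_ofReal_iff (by positivity)] at hk
  refine ⟨fk k, ?_, ?_⟩
  · rw [Metric.mem_ball, dist_comm, dist_eq_norm]
    exact lt_of_pow_lt_pow_left₀ 2 hr.le hk
  · obtain ⟨δ, hδ, C, hC, hb⟩ := F.uniform_bound α K (F.Qk α K k) hK (F.isCompact_Qk α K k) (F.Qk_subset α K k)
    set d : ℝ := 1 / ((k : ℝ) + 1) with hd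
    have hd0 : 0 < d := by positivity
    refine ⟨min δ (d / 2), lt_min hδ (half_pos hd0), (κ⁻¹ * (Real.sqrt (κ ^ 2 + k) / (d / 2)) +
      |α| * (Real.sqrt (κ ^ 2 + k) / (d / 2)) ^ 2 * F.CS κ * C) * ‖fk k‖ ^ 2, fun z hz hz1 hz2 => ?_⟩
    refine F.res_bound α κ hκ hα0 hα z hz (F.Qk α K k) (F.isCompact_Qk α K k).measurableSet C (d / 2) k hC (half_pos hd0)
      (Nat.cast_nonneg k) ?_ (F.Ak α K k) ?_ (fk k) ?_
    · intro θ hθ
      exact hb θ hθ z hz (hz1.trans_le (min_le_left _ _)) (Metric.thickening_mono (min_le_left _ _) K hz2)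
    · rintro p ⟨hp1, hp2, hp3⟩
      refine ⟨hp1, ?_, hp3⟩
      rw [Metric.mem_thickening_iff] at hz2
      obtain ⟨l, hl, hzl⟩ := hz2
      rw [Real.dist_eq] at hzl
      have h1 := hp2 l hl
      have h2 := Complex.abs_re_le_norm ((F.sr p : ℂ) - z)
      rw [Complex.sub_re, Complex.ofReal_re] at h2
      have h3 : |F.sr p - l| ≤ |F.sr p - z.re| + |z.re - l| := by
        have : F.sr p - l = (F.sr p - z.re) + (z.re - l) := by ring
        rw [this]; exact abs_add_le _ _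
      have h4 : |z.re - l| < d / 2 := hzl.trans_le (min_le_right _ _)
      linarith
    · filter_upwards [(hmem k).coeFn_toLp] with p h1 h2
      rw [hfk]
      simp only
      rw [h1, Set.indicator_of_notMem h2]

/-- Absolute continuity of the spectral measures of the direct integral operator. -/
theorem ac_RO (α κ : ℝ) (hκ : 0 < κ) (hα0 : α ≠ 0) (hα : |α| * F.CS κ < 1) (f : X) (μ : Measure ℝ) [IsFiniteMeasure μ]
    (hμ : ∀ z : ℂ, z.im ≠ 0 → ⟪f, res (F.RO α κ hκ) (κ ^ 2) z f⟫_ℂ = ∫ x : ℝ, ((x : ℂ) - z)⁻¹ ∂μ) : μ ≪ volume :=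
  ac_criterion (F.RO α κ hκ) (F.RO_selfAdjoint α κ hκ) (κ ^ 2)
    (fun K hK hK0 => F.dense_RO α κ hκ hα0 hα K hK hK0) f μ hμ

/-- A large shift exists. -/
lemma exists_kappa (α : ℝ) : ∃ κ : ℝ, 0 < κ ∧ |α| * F.CS κ < 1 := by
  have hm := F.mn_pos
  have hc := F.hc
  have hpi := Real.pi_pos
  refine ⟨(|α| + 1) * π / (F.mn * Real.sqrt F.c), by positivity, ?_⟩
  have h1 : F.CS ((|α| + 1) * π / (F.mn * Real.sqrt F.c)) = 1 / (|α| + 1) := by
    unfold CS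
    have : 0 < Real.sqrt F.c := by positivity
    field_simp
  rw [h1, mul_one_div, div_lt_one (by positivity)]
  linarith

end FD

end

end Pool.Agent.Lib.Pdaec8e
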