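import Mathlib

/-!
Leaky periodic curves: the definitions used in the statement of the absolute continuity theorem.
-/

set_option autoImplicit false

open MeasureTheory Filter Topology
open scoped ComplexConjugate ENNReal InnerProductSpace SchwartzMap

namespace Pool.Agent.Lib.Pdaec8e.Leaky

noncomputable section

/-- The Euclidean plane `ℝ²`. -/
def Plane : Type := EuclideanSpace ℝ (Fin 2)

instance : NormedAddCommGroup Plane := (inferInstance : NormedAddCommGroup (EuclideanSpace ℝ (Fin 2)))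
instance : InnerProductSpace ℝ Plane := (inferInstance : InnerProductSpace ℝ (EuclideanSpace ℝ (Fin 2)))
instance : MeasureSpace Plane := (inferInstance : MeasureSpace (EuclideanSpace ℝ (Fin 2)))

/-- The standard basis vectors of the plane. -/
def e (j : Fin 2) : Plane := EuclideanSpace.single j (1 : ℝ)

/-- `L²(ℝ²)`. -/
def L2Plane : Type := Lp ℂ 2 (volume : Measure Plane)

instance : NormedAddCommGroup L2Plane := (inferInstance : NormedAddCommGroup (Lp ℂ 2 (volume : Measure Plane)))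
instance : InnerProductSpace ℂ L2Plane := (inferInstance : InnerProductSpace ℂ (Lp ℂ 2 (volume : Measure Plane)))
instance : CompleteSpace L2Plane := (inferInstance : CompleteSpace (Lp ℂ 2 (volume : Measure Plane)))

/-- The function on the plane given by an element of `L²(ℝ²)`. -/
def L2Plane.fn (ψ : L2Plane) : Plane → ℂ := (show Lp ℂ 2 (volume : Measure Plane) from ψ : Plane →ₘ[volume] ℂ)

/-- `L²(ℝ)`. -/
abbrev L2Line : Type := Lp ℂ 2 (volume : Measure ℝ)

/-- A periodic curve: an injective `C¹` map `γ : ℝ → ℝ²` parametrised by arc length, with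
`γ (s + L) = γ s + ℓ` for all `s`, where `L > 0` and `ℓ ≠ 0`. -/
structure PeriodicCurve where
  γ : ℝ → Plane
  L : ℝ
  ℓ : Plane
  injective : Function.Injective γ
  contDiff : ContDiff ℝ 1 γ
  arcLength : ∀ s, ‖deriv γ s‖ = 1
  L_pos : 0 < L
  ℓ_ne_zero : ℓ ≠ 0
  periodic : ∀ s, γ (s + L) = γ s + ℓ

/-- `f n → g` in `L²`. -/
def L2Tendsto {β : Type*} [MeasureSpace β] (f : ℕ → β → ℂ) (g : β → ℂ) : Prop :=
  Tendsto (fun n => eLpNorm (fun x => f n x - g x) 2 volume) atTop (𝓝 0)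

/-- `ψ` is in the Sobolev space `H¹(ℝ²)`, with gradient `G = (∂₀ψ, ∂₁ψ)`: there are Schwartz functions
`φ n` with `φ n → ψ` and `∂_j (φ n) → G j` in `L²(ℝ²)`. -/
def IsH1 (ψ : L2Plane) (G : Fin 2 → L2Plane) : Prop :=
  ∃ φ : ℕ → 𝓢(Plane, ℂ), L2Tendsto (fun n => φ n) ψ.fn ∧
    ∀ j : Fin 2, L2Tendsto (fun n x => fderiv ℝ (φ n) x (e j)) (G j).fn

/-- `ψ` is in `H¹(ℝ²)`, with gradient `G` and trace `τ = ψ ∘ γ ∈ L²(ℝ)` on the curve: there are Schwartz
functions `φ n` with `φ n → ψ` and `∂_j (φ n) → G j` in `L²(ℝ²)` and `φ n ∘ γ → τ` in `L²(ℝ)`. -/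
def IsH1Trace (Γ : PeriodicCurve) (ψ : L2Plane) (G : Fin 2 → L2Plane) (τ : L2Line) : Prop :=
  ∃ φ : ℕ → 𝓢(Plane, ℂ), L2Tendsto (fun n => φ n) ψ.fn ∧
    (∀ j : Fin 2, L2Tendsto (fun n x => fderiv ℝ (φ n) x (e j)) (G j).fn) ∧
    L2Tendsto (fun n s => φ n (Γ.γ s)) τ

/-- The form relation defining the operator `H_{α,Γ}`: `ψ` is in the form domain `H¹(ℝ²)` and
`q(φ, ψ) = ⟨φ, f⟩` for every `φ` in the form domain, where
`q(φ, ψ) = ∫ conj(∇φ)·∇ψ - α ∫ conj(φ(γ(s))) ψ(γ(s)) ds`. -/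
def FormRelation (Γ : PeriodicCurve) (α : ℝ) (ψ f : L2Plane) : Prop :=
  ∃ (G : Fin 2 → L2Plane) (τ : L2Line), IsH1Trace Γ ψ G τ ∧
    ∀ (φ : L2Plane) (Φ : Fin 2 → L2Plane) (σ : L2Line), IsH1Trace Γ φ Φ σ →
      (∑ j : Fin 2, ⟪Φ j, G j⟫_ℂ) - (α : ℂ) * ⟪σ, τ⟫_ℂ = ⟪φ, f⟫_ℂ

/-- `H` is the operator `H_{α,Γ}` associated with the form `q`. -/
def IsHamiltonian (Γ : PeriodicCurve) (α : ℝ) (H : L2Plane →ₗ.[ℂ] L2Plane) : Prop :=
  ∀ ψ f : L2Plane, (ψ, f) ∈ H.graph ↔ FormRelation Γ α ψ f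

/-- `μ` is the spectral measure of the self-adjoint operator `T` at the vector `f`: it is finite and its
Stieltjes transform is `⟨f, (T - z)⁻¹ f⟩` for all non-real `z`. -/
def IsSpectralMeasure {E : Type*} [NormedAddCommGroup E] [InnerProductSpace ℂ E] (T : E →ₗ.[ℂ] E) (f : E)
    (μ : Measure ℝ) : Prop :=
  IsFiniteMeasure μ ∧ ∀ z : ℂ, z.im ≠ 0 → ∃ u : T.domain, T u - z • (u : E) = f ∧
    ⟪f, (u : E)⟫_ℂ = ∫ x : ℝ, ((x : ℂ) - z)⁻¹ ∂μ

/-- The spectrum of `T` is purely absolutely continuous: every vector has a spectral measure, and all the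
spectral measures are absolutely continuous with respect to Lebesgue measure. -/
def PurelyAbsolutelyContinuous {E : Type*} [NormedAddCommGroup E] [InnerProductSpace ℂ E] (T : E →ₗ.[ℂ] E) : Prop :=
  (∀ f : E, ∃ μ : Measure ℝ, IsSpectralMeasure T f μ) ∧
    ∀ (f : E) (μ : Measure ℝ), IsSpectralMeasure T f μ → μ ≪ volume

end

end Pool.Agent.Lib.Pdaec8e.Leaky
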