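import Pool.Agent.Lib.Pdaec8e.Main
import Pool.Agent.Lib.Pdaec8e.Leaky

set_option autoImplicit false

open MeasureTheory Filter Topology
open scoped ComplexConjugate ENNReal InnerProductSpace SchwartzMap

namespace Pool.Agent.Lib.Pdaec8e.Leaky

noncomputable section

/-- the same curve in the working format of the proof -/
def PeriodicCurve.toOld (Γ : PeriodicCurve) : Pool.Agent.Lib.Pdaec8e.PeriodicCurve where
  γ := Γ.γ
  L := Γ.L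
  ℓ := Γ.ℓ
  injective := Γ.injective
  contDiff := Γ.contDiff
  arcLength := Γ.arcLength
  L_pos := Γ.L_pos
  ℓ_ne_zero := Γ.ℓ_ne_zero
  periodic := Γ.periodic

lemma isH1_iff (ψ : L2Plane) (G : Fin 2 → L2Plane) : IsH1 ψ G ↔ Pool.Agent.Lib.Pdaec8e.IsH1 ψ G := Iff.rfl

lemma isH1Trace_iff (Γ : PeriodicCurve) (ψ : L2Plane) (G : Fin 2 → L2Plane) (τ : L2Line) :
    IsH1Trace Γ ψ G τ ↔ Pool.Agent.Lib.Pdaec8e.IsH1Trace Γ.toOld ψ G τ := Iff.rfl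

lemma formRelation_iff (Γ : PeriodicCurve) (α : ℝ) (ψ f : L2Plane) :
    FormRelation Γ α ψ f ↔ Pool.Agent.Lib.Pdaec8e.LeakyGraph Γ.toOld α ψ f := Iff.rfl

theorem main (Γ : PeriodicCurve) (α : ℝ) (hα : 0 < α) :
    (∀ (ψ : L2Plane) (G : Fin 2 → L2Plane), IsH1 ψ G → ∃! τ : L2Line, IsH1Trace Γ ψ G τ) ∧
    ∃ H : L2Plane →ₗ.[ℂ] L2Plane, IsHamiltonian Γ α H ∧ IsSelfAdjoint H ∧ PurelyAbsolutelyContinuous H := by
  obtain ⟨h1, H, h2, h3, h4, h5⟩ := Pool.Agent.Lib.Pdaec8e.PeriodicCurve.main Γ.toOld α hα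
  exact ⟨h1, H, h3, h2, h4, h5⟩

end

end Pool.Agent.Lib.Pdaec8e.Leaky
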