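import Mathlib

set_option autoImplicit false

open MeasureTheory Filter Topology
open scoped ComplexConjugate ENNReal Real FourierTransform

namespace Pool.Agent.Lib.Pdaec8e

noncomputable section

lemma norm_lower (κ : ℂ) (hκ : 0 < κ.re) :
    ∃ c : ℝ, 0 < c ∧ ∀ r : ℝ, c * (1 + r ^ 2) ≤ ‖((r : ℂ)) ^ 2 + κ ^ 2‖ := by
  set a := κ.re with ha
  set b := κ.im with hb
  set c0 : ℝ := a ^ 2 / (a ^ 2 + b ^ 2) with hc0
  have hc0p : 0 < c0 := by positivity
  have hc01 : c0 ≤ 1 := by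
    rw [hc0, div_le_one (by positivity)]; nlinarith [sq_nonneg b]
  -- main bound
  have main : ∀ r : ℝ, c0 * (a ^ 2 + r ^ 2 / 4) ≤ ‖((r : ℂ)) ^ 2 + κ ^ 2‖ := by
    intro r
    have hsq : ‖((r : ℂ)) ^ 2 + κ ^ 2‖ ^ 2 = (a ^ 2 + (b + r) ^ 2) * (a ^ 2 + (b - r) ^ 2) := by
      rw [← Complex.normSq_eq_norm_sq, Complex.normSq_apply]
      have h1 : (((r : ℂ)) ^ 2 + κ ^ 2).re = r ^ 2 + a ^ 2 - b ^ 2 := by
        simp [pow_two, ha, hb]; ring
      have h2 : (((r : ℂ)) ^ 2 + κ ^ 2).im = 2 * a * b := by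
        simp [pow_two, ha, hb]; ring
      rw [h1, h2]; ring
    refine le_of_sq_le_sq ?_ (norm_nonneg _)
    rw [hsq]
    rcases le_or_gt (4 * b ^ 2) (r ^ 2) with h | h
    · have h3 : r ^ 2 / 4 ≤ (b + r) ^ 2 := by nlinarith [sq_nonneg (2 * b + r), sq_nonneg (b + r), sq_nonneg (4*b + r)]
      have h4 : r ^ 2 / 4 ≤ (b - r) ^ 2 := by nlinarith [sq_nonneg (2 * b - r), sq_nonneg (b - r), sq_nonneg (4*b - r)]
      calc (c0 * (a ^ 2 + r ^ 2 / 4)) ^ 2 ≤ (1 * (a ^ 2 + r ^ 2 / 4)) ^ 2 := by gcongr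
        _ = (a ^ 2 + r ^ 2 / 4) * (a ^ 2 + r ^ 2 / 4) := by ring
        _ ≤ _ := by gcongr
    · have h5 : c0 * (a ^ 2 + r ^ 2 / 4) ≤ a ^ 2 := by
        rw [hc0, div_mul_eq_mul_div, div_le_iff₀ (by positivity)]
        have : a ^ 2 + r ^ 2 / 4 ≤ a ^ 2 + b ^ 2 := by linarith
        exact mul_le_mul_of_nonneg_left this (sq_nonneg a)
      have h6 : 0 ≤ c0 * (a ^ 2 + r ^ 2 / 4) := by positivity
      calc (c0 * (a ^ 2 + r ^ 2 / 4)) ^ 2 ≤ (a ^ 2) ^ 2 := by gcongr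
        _ = a ^ 2 * a ^ 2 := by ring
        _ ≤ _ := by
          gcongr
          · linarith [sq_nonneg (b + r)]
          · linarith [sq_nonneg (b - r)]
  refine ⟨c0 * min (a ^ 2) (1 / 4), by positivity, fun r => ?_⟩
  refine le_trans ?_ (main r)
  rw [mul_assoc]
  refine mul_le_mul_of_nonneg_left ?_ hc0p.le
  have h1 : min (a ^ 2) (1 / 4) ≤ a ^ 2 := min_le_left _ _
  have h2 : min (a ^ 2) (1 / 4) ≤ 1 / 4 := min_le_right _ _
  nlinarith [sq_nonneg r]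

lemma ne_zero_lorentz (κ : ℂ) (hκ : 0 < κ.re) (r : ℝ) : ((r : ℂ)) ^ 2 + κ ^ 2 ≠ 0 := by
  obtain ⟨c, hc, h⟩ := norm_lower κ hκ
  have := h r
  intro h0
  rw [h0, norm_zero] at this
  nlinarith [sq_nonneg r]

lemma integrable_lorentz (D : ℝ) (hD : 0 < D) (κ : ℂ) (hκ : 0 < κ.re) :
    Integrable (fun y : ℝ => 1 / ((D : ℂ) ^ 2 * (y : ℂ) ^ 2 + κ ^ 2)) := by
  obtain ⟨c, hc, h⟩ := norm_lower κ hκ
  have h1 : Integrable (fun y : ℝ => c⁻¹ * (1 + (D * y) ^ 2)⁻¹) := by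
    have := (integrable_inv_one_add_sq).comp_mul_left' hD.ne'
    exact this.const_mul _
  have hcont : Continuous (fun y : ℝ => 1 / ((D : ℂ) ^ 2 * (y : ℂ) ^ 2 + κ ^ 2)) := by
    refine Continuous.div continuous_const (by fun_prop) (fun y => ?_)
    have := ne_zero_lorentz κ hκ (D * y)
    rw [← mul_pow]; exact_mod_cast this
  refine h1.mono' hcont.aestronglyMeasurable (Eventually.of_forall fun y => ?_)
  have h2 := h (D * y)
  have h3 : (D : ℂ) ^ 2 * (y : ℂ) ^ 2 + κ ^ 2 = (((D * y : ℝ)) : ℂ) ^ 2 + κ ^ 2 := by push_cast; ring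
  rw [h3, norm_div, norm_one, ← mul_inv, ← one_div]
  exact one_div_le_one_div_of_le (by positivity) h2

lemma integral_split {f : ℝ → ℂ} (h1 : IntegrableOn f (Set.Iic 0)) (h2 : IntegrableOn f (Set.Ioi 0)) :
    ∫ u, f u = (∫ u in Set.Iic 0, f u) + ∫ u in Set.Ioi 0, f u := by
  have hd : Disjoint (Set.Iic (0:ℝ)) (Set.Ioi 0) := Set.Iic_disjoint_Ioi le_rfl
  rw [← setIntegral_union hd measurableSet_Ioi h1 h2, Set.Iic_union_Ioi, setIntegral_univ]

lemma fourier_expabs (b : ℂ) (hb : 0 < b.re) :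
    Integrable (fun u : ℝ => Complex.exp (-(b * (|u| : ℝ)))) ∧
    ∀ y : ℝ, 𝓕 (fun u : ℝ => Complex.exp (-(b * (|u| : ℝ)))) y = 2 * b / (b ^ 2 + 4 * π ^ 2 * y ^ 2) := by
  have key : ∀ y : ℝ, IntegrableOn (fun u : ℝ => Complex.exp ((-(b) - 2 * π * y * Complex.I) * u)) (Set.Ioi 0) ∧
      IntegrableOn (fun u : ℝ => Complex.exp ((b - 2 * π * y * Complex.I) * u)) (Set.Iic 0) := by
    intro y
    constructor
    · refine integrableOn_exp_mul_complex_Ioi ?_ 0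
      simp [hb]
    · refine integrableOn_exp_mul_complex_Iic ?_ 0
      simp [hb]
  have e1 : ∀ y : ℝ, Set.EqOn (fun u : ℝ => Complex.exp ((-(2 * π * y * u) : ℝ) * Complex.I) * Complex.exp (-(b * (|u| : ℝ))))
      (fun u : ℝ => Complex.exp ((-(b) - 2 * π * y * Complex.I) * u)) (Set.Ioi 0) := by
    intro y u hu
    have hu' : (0:ℝ) < u := hu
    simp only
    rw [abs_of_pos hu', ← Complex.exp_add]
    congr 1
    push_cast
    ring
  have e2 : ∀ y : ℝ, Set.EqOn (fun u : ℝ => Complex.exp ((-(2 * π * y * u) : ℝ) * Complex.I) * Complex.exp (-(b * (|u| : ℝ))))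
      (fun u : ℝ => Complex.exp ((b - 2 * π * y * Complex.I) * u)) (Set.Iic 0) := by
    intro y u hu
    have hu' : u ≤ 0 := hu
    simp only
    rw [abs_of_nonpos hu', ← Complex.exp_add]
    congr 1
    push_cast
    ring
  have i1 : ∀ y : ℝ, IntegrableOn (fun u : ℝ => Complex.exp ((-(2 * π * y * u) : ℝ) * Complex.I) * Complex.exp (-(b * (|u| : ℝ)))) (Set.Ioi 0) :=
    fun y => (integrableOn_congr_fun (e1 y) measurableSet_Ioi).mpr (key y).1
  have i2 : ∀ y : ℝ, IntegrableOn (fun u : ℝ => Complex.exp ((-(2 * π * y * u) : ℝ) * Complex.I) * Complex.exp (-(b * (|u| : ℝ)))) (Set.Iic 0) :=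
    fun y => (integrableOn_congr_fun (e2 y) measurableSet_Iic).mpr (key y).2
  constructor
  · have h1 := i1 0
    have h2 := i2 0
    have h3 := h2.union h1
    rw [Set.Iic_union_Ioi, integrableOn_univ] at h3
    refine h3.congr (Eventually.of_forall fun u => ?_)
    simp
  · intro y
    rw [Real.fourier_real_eq_integral_exp_smul]
    have e3 : ∀ u : ℝ, Complex.exp (((-2 * π * u * y : ℝ) : ℂ) * Complex.I) • Complex.exp (-(b * (|u| : ℝ))) =
       Complex.exp ((-(2 * π * y * u) : ℝ) * Complex.I) * Complex.exp (-(b * (|u| : ℝ))) := by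
      intro u
      rw [smul_eq_mul]
      congr 3
      push_cast; ring
    simp_rw [e3]
    rw [integral_split (i2 y) (i1 y), setIntegral_congr_fun measurableSet_Ioi (e1 y),
      setIntegral_congr_fun measurableSet_Iic (e2 y)]
    rw [integral_exp_mul_complex_Ioi (by simp [hb]), integral_exp_mul_complex_Iic (by simp [hb])]
    simp only [Complex.ofReal_zero, mul_zero, Complex.exp_zero]
    have n1 : (b - 2 * π * y * Complex.I) ≠ 0 := by
      intro h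
      have := congrArg Complex.re h
      simp at this
      linarith
    have n2 : (-b - 2 * π * y * Complex.I) ≠ 0 := by
      intro h
      have := congrArg Complex.re h
      simp at this
      linarith
    have n3 : (b ^ 2 + 4 * π ^ 2 * y ^ 2 : ℂ) = -((b - 2 * π * y * Complex.I) * (-b - 2 * π * y * Complex.I)) := by
      ring_nf
      rw [Complex.I_sq]
      ring
    rw [n3]
    field_simp
    ring

/-- The Lorentzian Fourier integral. -/
theorem lorentz_integral (D : ℝ) (hD : 0 < D) (κ : ℂ) (hκ : 0 < κ.re) (Δ : ℝ) :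
    ∫ y : ℝ, Complex.exp ((2 * π * (y * Δ) : ℝ) * Complex.I) * (1 / ((D : ℂ) ^ 2 * (y : ℂ) ^ 2 + κ ^ 2)) =
      π / (D * κ) * Complex.exp (-(2 * π * κ / D * (|Δ| : ℝ))) := by
  have hpi := Real.pi_pos
  have hpi' : (π : ℂ) ≠ 0 := by exact_mod_cast hpi.ne'
  have hD' : (D : ℂ) ≠ 0 := by exact_mod_cast hD.ne'
  have hκ0 : κ ≠ 0 := by rintro rfl; simp at hκ
  set b : ℂ := 2 * π * κ / D with hb
  have hbre : 0 < b.re := by
    have : b = ((2 * π / D : ℝ) : ℂ) * κ := by rw [hb]; push_cast; ring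
    rw [this, Complex.re_ofReal_mul]
    positivity
  obtain ⟨hf, hF⟩ := fourier_expabs b hbre
  have hlor := integrable_lorentz D hD κ hκ
  have e1 : ∀ y : ℝ, 2 * b / (b ^ 2 + 4 * π ^ 2 * y ^ 2) = (D * κ / π) * (1 / ((D : ℂ) ^ 2 * (y : ℂ) ^ 2 + κ ^ 2)) := by
    intro y
    have h1 := ne_zero_lorentz κ hκ (D * y)
    have h2 : (D : ℂ) ^ 2 * (y : ℂ) ^ 2 + κ ^ 2 ≠ 0 := by
      intro h0; apply h1; push_cast; rw [← h0]; ring
    have h3 : (b ^ 2 + 4 * π ^ 2 * y ^ 2 : ℂ) = 4 * π ^ 2 / D ^ 2 * ((D : ℂ) ^ 2 * (y : ℂ) ^ 2 + κ ^ 2) := by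
      rw [hb]; field_simp; ring
    rw [h3, hb]
    field_simp
    ring
  have hFint : Integrable (𝓕 (fun u : ℝ => Complex.exp (-(b * (|u| : ℝ))))) := by
    have : (𝓕 (fun u : ℝ => Complex.exp (-(b * (|u| : ℝ))))) = fun y : ℝ => (D * κ / π) * (1 / ((D : ℂ) ^ 2 * (y : ℂ) ^ 2 + κ ^ 2)) := by
      ext y; rw [hF, e1]
    rw [this]
    exact hlor.const_mul _
  have hcont : Continuous (fun u : ℝ => Complex.exp (-(b * (|u| : ℝ)))) := by fun_prop
  have hinv := hcont.fourierInv_fourier_eq hf hFint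
  have h2 := congrFun hinv Δ
  rw [Real.fourierInv_eq'] at h2
  have h3 : ∫ v : ℝ, Complex.exp (((2 * π * inner ℝ v Δ : ℝ) : ℂ) * Complex.I) • 𝓕 (fun u : ℝ => Complex.exp (-(b * (|u| : ℝ)))) v =
      (D * κ / π) * ∫ y : ℝ, Complex.exp ((2 * π * (y * Δ) : ℝ) * Complex.I) * (1 / ((D : ℂ) ^ 2 * (y : ℂ) ^ 2 + κ ^ 2)) := by
    rw [← integral_const_mul]
    congr 1
    ext y
    rw [hF, e1, smul_eq_mul]
    have : (inner ℝ y Δ : ℝ) = y * Δ := by simp [mul_comm]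
    rw [this]
    ring
  rw [h3] at h2
  have h4 : (D * κ / π : ℂ) ≠ 0 := by
    refine div_ne_zero (mul_ne_zero hD' hκ0) hpi'
  calc _ = (D * κ / π : ℂ)⁻¹ * ((D * κ / π) * ∫ y : ℝ, Complex.exp ((2 * π * (y * Δ) : ℝ) * Complex.I) * (1 / ((D : ℂ) ^ 2 * (y : ℂ) ^ 2 + κ ^ 2))) := by
        rw [← mul_assoc, inv_mul_cancel₀ h4, one_mul]
    _ = _ := by rw [h2, inv_div]

end

end Pool.Agent.Lib.Pdaec8e
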