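import Pool.Agent.Lib.Pdaec8e.KOp
import Pool.Agent.Lib.Pdaec8e.Lorentz

set_option autoImplicit false

open MeasureTheory Filter Topology
open scoped ComplexConjugate ENNReal InnerProductSpace Real BoundedContinuousFunction

namespace Pool.Agent.Lib.Pdaec8e

noncomputable section

lemma bcf_exp_apply (x : (ℝ × ℝ) →ᵇ ℂ) (p : ℝ × ℝ) :
    (NormedSpace.exp x) p = Complex.exp (x p) := by
  have h1 : NormedSpace.exp x = ∑' n : ℕ, ((n.factorial : ℂ)⁻¹) • x ^ n := by
    rw [NormedSpace.exp_eq_tsum ℂ]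
  have h2 : Summable (fun n : ℕ => ((n.factorial : ℂ)⁻¹) • x ^ n) := NormedSpace.expSeries_summable' x
  have h3 := (BoundedContinuousFunction.evalCLM ℂ p).map_tsum h2
  rw [← h1] at h3
  simp only [BoundedContinuousFunction.evalCLM_apply] at h3
  rw [h3, Complex.exp_eq_exp_ℂ, NormedSpace.exp_eq_tsum ℂ]
  congr 1

namespace FD

variable (F : FD)

lemma g2_bdd : ∃ M : ℝ, ∀ s, |F.g2 s| ≤ M := by
  have hper : Function.Periodic F.g2 F.L := F.per2
  obtain ⟨M, hM⟩ := (hper.isBounded_of_continuous F.hL.ne' F.cont2).exists_norm_le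
  exact ⟨M, fun s => hM _ ⟨s, rfl⟩⟩

/-- bound of the transversal coordinate -/
def M2 : ℝ := F.g2_bdd.choose
lemma g2_le (s : ℝ) : |F.g2 s| ≤ F.M2 := F.g2_bdd.choose_spec s

/-- transversal distance kernel -/
def dd : (ℝ × ℝ) →ᵇ ℂ :=
  BoundedContinuousFunction.ofNormedAddCommGroup (fun p : ℝ × ℝ => ((|F.g2 p.1 - F.g2 p.2| : ℝ) : ℂ))
    (by have := F.cont2; fun_prop) (2 * F.M2) (fun p => by
      rw [Complex.norm_real, Real.norm_eq_abs, abs_abs]
      refine (abs_sub _ _).trans ?_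
      linarith [F.g2_le p.1, F.g2_le p.2])

lemma dd_apply (p : ℝ × ℝ) : F.dd p = ((|F.g2 p.1 - F.g2 p.2| : ℝ) : ℂ) := rfl

lemma continuous_ph_left (x : ℤ × ℝ) : Continuous (fun s => F.ph s x) := by
  have h : Continuous (fun s : ℝ => (s, x)) := by fun_prop
  have h2 := F.continuous_ph.comp h
  exact h2

/-- longitudinal phase kernel -/
def pp (n : ℤ) : (ℝ × ℝ) →ᵇ ℂ :=
  BoundedContinuousFunction.ofNormedAddCommGroup (fun p : ℝ × ℝ => conj (F.ph p.1 (n, 0)) * F.ph p.2 (n, 0))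
    (by
      have h1 := (F.continuous_ph_left (n, 0)).comp continuous_fst (X := ℝ × ℝ)
      have h2 := (F.continuous_ph_left (n, 0)).comp continuous_snd (X := ℝ × ℝ)
      exact (Complex.continuous_conj.comp h1).mul h2) 1 (fun p => by
      rw [norm_mul, RCLike.norm_conj, F.norm_ph, F.norm_ph, mul_one])

lemma pp_apply (n : ℤ) (p : ℝ × ℝ) : F.pp n p = conj (F.ph p.1 (n, 0)) * F.ph p.2 (n, 0) := rfl

/-- kernel of the channel operator with transversal decay rate `κ` -/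
def kch (n : ℤ) (κ : ℂ) : (ℝ × ℝ) →ᵇ ℂ :=
  (π / (F.D * κ)) • (F.pp n * NormedSpace.exp (-(2 * π * κ / F.D) • F.dd))

lemma kch_apply (n : ℤ) (κ : ℂ) (p : ℝ × ℝ) :
    F.kch n κ p = π / (F.D * κ) * (conj (F.ph p.1 (n, 0)) * F.ph p.2 (n, 0) *
      Complex.exp (-(2 * π * κ / F.D * ((|F.g2 p.1 - F.g2 p.2| : ℝ) : ℂ)))) := by
  unfold kch
  rw [BoundedContinuousFunction.smul_apply, BoundedContinuousFunction.mul_apply, bcf_exp_apply,
    BoundedContinuousFunction.smul_apply, F.dd_apply, F.pp_apply, smul_eq_mul, smul_eq_mul, neg_mul]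

/-- channel operator -/
def kop (n : ℤ) (κ : ℂ) : F.E →L[ℂ] F.E := F.kerOp (F.kch n κ)

lemma isCompact_kop (n : ℤ) (κ : ℂ) : IsCompactOperator (F.kop n κ) := F.isCompact_kerOp0 _

lemma analyticAt_kop (n : ℤ) (κ : ℂ) (hκ : κ ≠ 0) : AnalyticAt ℂ (F.kop n) κ := by
  have hD : (F.D : ℂ) ≠ 0 := by exact_mod_cast F.hD.ne'
  have h1 : AnalyticAt ℂ (fun κ : ℂ => -(2 * π * κ / F.D) • F.dd) κ := by
    have h2 : AnalyticAt ℂ (fun κ : ℂ => -(2 * π * κ / F.D)) κ := by fun_prop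
    exact h2.smul analyticAt_const
  have h3 : AnalyticAt ℂ (fun κ : ℂ => NormedSpace.exp (-(2 * π * κ / F.D) • F.dd)) κ :=
    AnalyticAt.comp (g := NormedSpace.exp) (f := fun κ : ℂ => -(2 * π * κ / F.D) • F.dd)
      (NormedSpace.exp_analytic (𝕂 := ℂ) (-(2 * π * κ / F.D) • F.dd)) h1
  have h4 : AnalyticAt ℂ (fun κ : ℂ => (π / (F.D * κ) : ℂ)) κ := by
    refine AnalyticAt.div analyticAt_const (by fun_prop) ?_
    exact mul_ne_zero hD hκ
  have h5 : AnalyticAt ℂ (F.kch n) κ := by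
    unfold kch
    exact h4.smul (analyticAt_const.mul h3)
  exact (F.kerOp.analyticAt _).comp h5

/-- The form of the channel operator on the physical sheet. -/
lemma inner_kop (n : ℤ) (κ : ℂ) (hκ : 0 < κ.re) (h g : F.E) :
    ⟪h, F.kop n κ g⟫_ℂ = ∫ y : ℝ, conj (F.hat h (n, y)) * F.hat g (n, y) / ((F.D : ℂ) ^ 2 * (y : ℂ) ^ 2 + κ ^ 2) := by
  have hh : Integrable h F.mu := (Lp.memLp h).integrable (by norm_num)
  have hg : Integrable g F.mu := (Lp.memLp g).integrable (by norm_num)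
  have hlor := integrable_lorentz F.D F.hD κ hκ
  -- right-hand side as a double integral
  have e1 : ∀ y : ℝ, conj (F.hat h (n, y)) * F.hat g (n, y) / ((F.D : ℂ) ^ 2 * (y : ℂ) ^ 2 + κ ^ 2) =
      ∫ p : ℝ × ℝ, (conj (F.ph p.1 (n, y) * h p.1) * (F.ph p.2 (n, y) * g p.2)) * (1 / ((F.D : ℂ) ^ 2 * (y : ℂ) ^ 2 + κ ^ 2)) ∂(F.mu.prod F.mu) := by
    intro y
    rw [integral_mul_const, integral_prod_mul (fun s => conj (F.ph s (n, y) * h s)) (fun s => F.ph s (n, y) * g s), integral_conj]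
    change _ = conj (F.hat h (n, y)) * F.hat g (n, y) * _
    rw [mul_one_div]
  simp_rw [e1]
  have hbig : Integrable (fun q : ℝ × (ℝ × ℝ) => (1 / ((F.D : ℂ) ^ 2 * (q.1 : ℂ) ^ 2 + κ ^ 2)) * (conj (h q.2.1) * g q.2.2)) (volume.prod (F.mu.prod F.mu)) := by
    refine Integrable.mul_prod (f := fun y : ℝ => (1 / ((F.D : ℂ) ^ 2 * (y : ℂ) ^ 2 + κ ^ 2))) (g := fun p : ℝ × ℝ => conj (h p.1) * g p.2) hlor ?_
    refine Integrable.mul_prod (f := fun s => conj (h s)) (g := fun s => g s) ?_ hg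
    exact (LinearIsometryEquiv.integrable_comp_iff (Complex.conjLIE)).mpr hh
  have hswap : Integrable (Function.uncurry fun (y : ℝ) (p : ℝ × ℝ) => (conj (F.ph p.1 (n, y) * h p.1) * (F.ph p.2 (n, y) * g p.2)) * (1 / ((F.D : ℂ) ^ 2 * (y : ℂ) ^ 2 + κ ^ 2))) (volume.prod (F.mu.prod F.mu)) := by
    have hp1 := F.measurable_ph.comp (by fun_prop : Measurable (fun q : ℝ × (ℝ × ℝ) => (q.2.1, ((n, q.1) : ℤ × ℝ))))
    have hp2 := F.measurable_ph.comp (by fun_prop : Measurable (fun q : ℝ × (ℝ × ℝ) => (q.2.2, ((n, q.1) : ℤ × ℝ))))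
    have hp3 := Complex.continuous_conj.measurable.comp hp1
    have hp4 := hp3.mul hp2
    have := hbig.bdd_mul (c := 1) hp4.aestronglyMeasurable (Eventually.of_forall fun q => by
        simp only [Pi.mul_apply, Function.comp_apply]
        rw [norm_mul, RCLike.norm_conj, F.norm_ph, F.norm_ph, mul_one])
    refine this.congr (Eventually.of_forall fun q => ?_)
    simp only [Function.uncurry, Pi.mul_apply, Function.comp_apply]
    rw [map_mul]
    ring
  rw [integral_integral_swap hswap]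
  unfold kop
  rw [F.inner_kerOp]
  -- compute the inner integral
  have e2 : ∀ p : ℝ × ℝ, ∫ y : ℝ, (conj (F.ph p.1 (n, y) * h p.1) * (F.ph p.2 (n, y) * g p.2)) * (1 / ((F.D : ℂ) ^ 2 * (y : ℂ) ^ 2 + κ ^ 2)) =
      conj (h p.1) * (F.kch n κ p * g p.2) := by
    intro p
    rw [F.kch_apply]
    have h1 := lorentz_integral F.D F.hD κ hκ (F.g2 p.1 - F.g2 p.2)
    have h2 : ∀ y : ℝ, (conj (F.ph p.1 (n, y) * h p.1) * (F.ph p.2 (n, y) * g p.2)) * (1 / ((F.D : ℂ) ^ 2 * (y : ℂ) ^ 2 + κ ^ 2)) =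
       (conj (h p.1) * g p.2 * (conj (F.ph p.1 (n, 0)) * F.ph p.2 (n, 0))) * (Complex.exp ((2 * π * (y * (F.g2 p.1 - F.g2 p.2)) : ℝ) * Complex.I) * (1 / ((F.D : ℂ) ^ 2 * (y : ℂ) ^ 2 + κ ^ 2))) := by
      intro y
      have h3 : conj (F.ph p.1 (n, y)) * F.ph p.2 (n, y) = (conj (F.ph p.1 (n, 0)) * F.ph p.2 (n, 0)) * Complex.exp ((2 * π * (y * (F.g2 p.1 - F.g2 p.2)) : ℝ) * Complex.I) := by
        unfold ph
        rw [← Complex.exp_conj, ← Complex.exp_conj, ← Complex.exp_add, ← Complex.exp_add, ← Complex.exp_add]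
        congr 1
        simp only [map_mul, Complex.conj_ofReal, Complex.conj_I]
        push_cast
        ring
      rw [map_mul]
      calc _ = (conj (h p.1) * g p.2) * (conj (F.ph p.1 (n, y)) * F.ph p.2 (n, y)) * (1 / ((F.D : ℂ) ^ 2 * (y : ℂ) ^ 2 + κ ^ 2)) := by ring
        _ = _ := by rw [h3]; ring
    simp_rw [h2]
    rw [integral_const_mul, h1]
    ring
  simp_rw [e2]
  rw [integral_prod]
  · congr 1
    ext s
    rw [← integral_const_mul]
  · have h1 : Integrable (fun p : ℝ × ℝ => conj (h p.1) * g p.2) (F.mu.prod F.mu) := by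
      refine Integrable.mul_prod (f := fun s => conj (h s)) (g := fun s => g s) ?_ hg
      exact (LinearIsometryEquiv.integrable_comp_iff (Complex.conjLIE)).mpr hh
    have h2 := h1.bdd_mul (c := ‖F.kch n κ‖) (F.kch n κ).continuous.aestronglyMeasurable (Eventually.of_forall fun p => (F.kch n κ).norm_coe_le_norm _)
    refine h2.congr (Eventually.of_forall fun p => ?_)
    simp only
    ring

end FD

end

end Pool.Agent.Lib.Pdaec8e
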