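import Pool.Agent.Lib.Pdaec8e.Split

set_option autoImplicit false

open MeasureTheory Filter Topology
open scoped ComplexConjugate ENNReal InnerProductSpace Real

namespace Pool.Agent.Lib.Pdaec8e

noncomputable section

namespace FD

variable (F : FD)

/-- coercivity constant -/
def mc : ℝ := min (F.A ^ 2 / 2) (F.D ^ 2)

lemma mc_pos : 0 < F.mc := by
  have h1 := F.hA
  have h2 := F.hD
  unfold mc
  exact lt_min (by positivity) (by positivity)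

lemma sig_re (θ : ℂ) (x : ℤ × ℝ) :
    (F.sig θ x).re = F.A ^ 2 * (((x.1 : ℝ) + θ.re) ^ 2 - θ.im ^ 2) + F.D ^ 2 * x.2 ^ 2 := by
  unfold sig
  have e : (F.A : ℂ) ^ 2 * ((x.1 : ℂ) + θ) ^ 2 + (F.D : ℂ) ^ 2 * (x.2 : ℂ) ^ 2 =
    ((F.A ^ 2 : ℝ) : ℂ) * ((x.1 : ℂ) + θ) ^ 2 + ((F.D ^ 2 * x.2 ^ 2 : ℝ) : ℂ) := by push_cast; ring
  rw [e, Complex.add_re, Complex.ofReal_re, Complex.re_ofReal_mul, sq ((x.1 : ℂ) + θ), Complex.mul_re,
    Complex.add_re, Complex.add_im, Complex.intCast_re, Complex.intCast_im]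
  ring

lemma sig_im (θ : ℂ) (x : ℤ × ℝ) :
    (F.sig θ x).im = 2 * F.A ^ 2 * (((x.1 : ℝ) + θ.re) * θ.im) := by
  unfold sig
  have e : (F.A : ℂ) ^ 2 * ((x.1 : ℂ) + θ) ^ 2 + (F.D : ℂ) ^ 2 * (x.2 : ℂ) ^ 2 =
    ((F.A ^ 2 : ℝ) : ℂ) * ((x.1 : ℂ) + θ) ^ 2 + ((F.D ^ 2 * x.2 ^ 2 : ℝ) : ℂ) := by push_cast; ring
  rw [e, Complex.add_im, Complex.ofReal_im, Complex.im_ofReal_mul, sq ((x.1 : ℂ) + θ), Complex.mul_im,
    Complex.add_re, Complex.add_im, Complex.intCast_re, Complex.intCast_im]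
  ring

lemma sig_re_ge (θ : ℂ) (x : ℤ × ℝ) :
    F.mc * om x - (F.mc + F.A ^ 2 * ‖θ‖ ^ 2) ≤ (F.sig θ x).re := by
  rw [sig_re]
  have h1 : ‖θ‖ ^ 2 = θ.re ^ 2 + θ.im ^ 2 := by
    rw [← Complex.normSq_eq_norm_sq, Complex.normSq_apply]; ring
  have h2 : F.mc ≤ F.A ^ 2 / 2 := min_le_left _ _
  have h3 : F.mc ≤ F.D ^ 2 := min_le_right _ _
  rw [h1]
  unfold om
  nlinarith [mul_nonneg (sq_nonneg F.A) (sq_nonneg ((x.1 : ℝ) + 2 * θ.re)), sq_nonneg (x.1 : ℝ), sq_nonneg x.2,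
    mul_le_mul_of_nonneg_right h2 (sq_nonneg (x.1 : ℝ)), mul_le_mul_of_nonneg_right h3 (sq_nonneg x.2)]

lemma norm_sig_sub_ge (θ z : ℂ) (x : ℤ × ℝ) :
    F.mc * om x - (F.mc + F.A ^ 2 * ‖θ‖ ^ 2 + ‖z‖) ≤ ‖F.sig θ x - z‖ := by
  have h1 := F.sig_re_ge θ x
  have h2 : (F.sig θ x - z).re ≤ ‖F.sig θ x - z‖ := Complex.re_le_norm _
  have h3 : z.re ≤ ‖z‖ := Complex.re_le_norm _
  rw [Complex.sub_re] at h2
  linarith

/-- A positive lower bound of the shifted symbol suffices for `LB`. -/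
lemma LB_of_lower (S : Finset ℤ) (θ z : ℂ) (δ : ℝ) (hδ : 0 < δ)
    (h : ∀ x : ℤ × ℝ, x.1 ∉ S → δ ≤ ‖F.sig θ x - z‖) : F.LB S θ z := by
  have hm := F.mc_pos
  set C : ℝ := F.mc + F.A ^ 2 * ‖θ‖ ^ 2 + ‖z‖ with hC
  have hCpos : 0 < C := by positivity
  refine ⟨min (F.mc / 2) (δ * F.mc / (2 * C)), lt_min (by positivity) (by positivity), fun x hx => ?_⟩
  have hom := om_pos x
  unfold cfun
  rw [norm_div, norm_om, le_div_iff₀ hom]
  have h1 := F.norm_sig_sub_ge θ z x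
  rw [← hC] at h1
  by_cases hcase : om x ≤ 2 * C / F.mc
  · have h2 : min (F.mc / 2) (δ * F.mc / (2 * C)) * om x ≤ δ * F.mc / (2 * C) * (2 * C / F.mc) :=
      mul_le_mul (min_le_right _ _) hcase hom.le (by positivity)
    have h3 : δ * F.mc / (2 * C) * (2 * C / F.mc) = δ := by field_simp
    rw [h3] at h2
    exact h2.trans (h x hx)
  · rw [not_le, div_lt_iff₀ hm] at hcase
    have h2 : min (F.mc / 2) (δ * F.mc / (2 * C)) * om x ≤ F.mc / 2 * om x :=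
      mul_le_mul_of_nonneg_right (min_le_left _ _) hom.le
    linarith

/-- real quasimomentum, non-real energy -/
lemma LB_im (θ : ℝ) (z : ℂ) (hz : z.im ≠ 0) : F.LB ∅ (θ : ℂ) z := by
  refine F.LB_of_lower ∅ θ z |z.im| (abs_pos.mpr hz) (fun x _ => ?_)
  have h1 := Complex.abs_im_le_norm (F.sig θ x - z)
  rw [Complex.sub_im, sig_im, Complex.ofReal_im] at h1
  simpa using h1

/-- `D₊` -/
def Dp : Set ℂ := {θ | 0 < θ.re ∧ θ.re < 1 ∧ 0 < θ.im}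

lemma abs_int_add_ge (n : ℤ) (a : ℝ) (h0 : 0 < a) (h1 : a < 1) : min a (1 - a) ≤ |(n : ℝ) + a| := by
  rcases le_or_gt 0 n with hn | hn
  · have : (0:ℝ) ≤ n := by exact_mod_cast hn
    rw [abs_of_pos (by linarith)]
    exact (min_le_left _ _).trans (by linarith)
  · have : (n:ℝ) ≤ -1 := by exact_mod_cast (by omega : n ≤ -1)
    rw [abs_of_neg (by linarith)]
    exact (min_le_right _ _).trans (by linarith)

lemma LB_Dp (θ : ℂ) (hθ : θ ∈ Dp) (l : ℝ) : F.LB ∅ θ l := by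
  obtain ⟨h0, h1, h2⟩ := hθ
  have hA := F.hA
  have hm : 0 < min θ.re (1 - θ.re) := lt_min h0 (by linarith)
  refine F.LB_of_lower ∅ θ l (2 * F.A ^ 2 * (min θ.re (1 - θ.re) * θ.im)) (by positivity) (fun x _ => ?_)
  have h3 := Complex.abs_im_le_norm (F.sig θ x - l)
  rw [Complex.sub_im, sig_im, Complex.ofReal_im, sub_zero, abs_mul, abs_of_pos (by positivity : 0 < 2 * F.A ^ 2),
    abs_mul, abs_of_pos h2] at h3
  refine le_trans ?_ h3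
  have h4 := abs_int_add_ge x.1 θ.re h0 h1
  gcongr

lemma finite_lt (θ M : ℝ) : {n : ℤ | F.A ^ 2 * ((n : ℝ) + θ) ^ 2 < M}.Finite := by
  have hA := F.hA
  refine (Set.finite_Icc (-⌈|M| / F.A ^ 2 + 1 + |θ|⌉) ⌈|M| / F.A ^ 2 + 1 + |θ|⌉).subset ?_
  intro n hn
  rw [Set.mem_ofPred_eq] at hn
  have h1 : ((n : ℝ) + θ) ^ 2 < |M| / F.A ^ 2 := by
    rw [lt_div_iff₀ (by positivity)]
    linarith [le_abs_self M]
  have h2 : |(n : ℝ) + θ| ≤ |M| / F.A ^ 2 + 1 := by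
    rw [← sq_abs] at h1
    nlinarith [abs_nonneg ((n : ℝ) + θ), sq_nonneg (|(n : ℝ) + θ| - 1)]
  have h3 : |(n : ℝ)| ≤ |M| / F.A ^ 2 + 1 + |θ| := by
    have : (n : ℝ) = ((n : ℝ) + θ) - θ := by ring
    rw [this]
    refine (abs_sub _ _).trans ?_
    linarith
  have h4 : |(n : ℝ)| ≤ (⌈|M| / F.A ^ 2 + 1 + |θ|⌉ : ℝ) := h3.trans (Int.le_ceil _)
  rw [abs_le] at h4
  rw [Set.mem_Icc]
  constructor
  · exact_mod_cast h4.1
  · exact_mod_cast h4.2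

/-- channels open at energy `l` -/
def SS (θ l : ℝ) : Finset ℤ := (F.finite_lt θ l).toFinset

lemma mem_SS (θ l : ℝ) (n : ℤ) : n ∈ F.SS θ l ↔ F.A ^ 2 * ((n : ℝ) + θ) ^ 2 < l := by
  unfold SS; simp

lemma gap_pos (θ l : ℝ) (h : ∀ n : ℤ, F.A ^ 2 * ((n : ℝ) + θ) ^ 2 ≠ l) :
    ∃ δ > 0, ∀ n : ℤ, δ ≤ |F.A ^ 2 * ((n : ℝ) + θ) ^ 2 - l| := by
  have hfin := F.finite_lt θ (l + 1)
  obtain ⟨δ, hδ, h2⟩ : ∃ δ > 0, ∀ n ∈ hfin.toFinset, δ ≤ |F.A ^ 2 * ((n : ℝ) + θ) ^ 2 - l| := by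
    induction hfin.toFinset using Finset.induction_on with
    | empty => exact ⟨1, one_pos, by simp⟩
    | insert a s ha ih =>
      obtain ⟨δ, hδ, ih⟩ := ih
      refine ⟨min δ |F.A ^ 2 * ((a : ℝ) + θ) ^ 2 - l|, lt_min hδ (abs_pos.mpr (sub_ne_zero.mpr (h a))), ?_⟩
      intro n hn
      rw [Finset.mem_insert] at hn
      rcases hn with rfl | hn
      · exact min_le_right _ _
      · exact (min_le_left _ _).trans (ih n hn)
  refine ⟨min δ 1, lt_min hδ one_pos, fun n => ?_⟩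
  by_cases hn : n ∈ hfin.toFinset
  · exact (min_le_left _ _).trans (h2 n hn)
  · have h3 : ¬ (F.A ^ 2 * ((n : ℝ) + θ) ^ 2 < l + 1) := by simpa using hn
    refine (min_le_right _ _).trans ?_
    rw [not_lt] at h3
    rw [abs_of_nonneg (by linarith)]
    linarith

/-- real non-threshold points -/
lemma LB_real (θ l : ℝ) (h : ∀ n : ℤ, F.A ^ 2 * ((n : ℝ) + θ) ^ 2 ≠ l) (S : Finset ℤ) (hS : F.SS θ l ⊆ S) :
    F.LB S (θ : ℂ) (l : ℂ) := by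
  obtain ⟨δ, hδ, hgap⟩ := F.gap_pos θ l h
  refine F.LB_of_lower S θ l δ hδ (fun x hx => ?_)
  have h1 : x.1 ∉ F.SS θ l := fun h' => hx (hS h')
  rw [mem_SS, not_lt] at h1
  have h2 := hgap x.1
  rw [abs_of_nonneg (by linarith)] at h2
  have h3 := Complex.re_le_norm (F.sig θ x - l)
  rw [Complex.sub_re, sig_re, Complex.ofReal_re, Complex.ofReal_re, Complex.ofReal_im] at h3
  nlinarith [mul_nonneg (sq_nonneg F.D) (sq_nonneg x.2)]

/-- Norm bound of the Birman–Schwinger operator from a weighted estimate. -/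
lemma norm_KS_le (θ z : ℂ) (hLB : F.LB ∅ θ z) (ε : ℝ) (hε : 0 ≤ ε)
    (h : ∀ g : ℝ → ℂ, MemLp g 2 F.mu → ∫⁻ x, ‖F.hat g x‖ₑ ^ 2 * ENNReal.ofReal (1 / ‖F.sig θ x - z‖) ∂nu ≤
      ENNReal.ofReal ε * ∫⁻ s, ‖g s‖ₑ ^ 2 ∂F.mu) : ‖F.KS ∅ θ z‖ ≤ ε := by
  have key : ∀ u v : F.E, ‖u‖ = 1 → ‖v‖ = 1 → ‖⟪u, F.KS ∅ θ z v⟫_ℂ‖ ≤ ε := by
    intro u v hu hv
    rw [F.inner_KS ∅ θ z hLB]
    have h1 : ENNReal.ofReal ‖∫ x, F.formS ∅ θ z u v x ∂nu‖ ≤ ∫⁻ x, ‖F.formS ∅ θ z u v x‖ₑ ∂nu := by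
      rw [ofReal_norm]
      exact enorm_integral_le_lintegral_enorm _
    have hm : ∀ g : F.E, Measurable (fun x => ‖F.hat g x‖ₑ ^ 2 * ENNReal.ofReal (1 / ‖F.sig θ x - z‖)) := by
      intro g
      have a1 : Measurable (F.hat g) := (F.measurable_hat g (Lp.memLp g).1).measurable
      have a2 : Measurable (F.sig θ) := F.measurable_sig θ
      fun_prop
    have h2 : ∫⁻ x, 2 * ‖F.formS ∅ θ z u v x‖ₑ ∂nu ≤ ∫⁻ x, (‖F.hat u x‖ₑ ^ 2 * ENNReal.ofReal (1 / ‖F.sig θ x - z‖)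
        + ‖F.hat v x‖ₑ ^ 2 * ENNReal.ofReal (1 / ‖F.sig θ x - z‖)) ∂nu := by
      refine lintegral_mono (fun x => ?_)
      have e1 : ∀ g : F.E, ‖F.hat g x‖ₑ ^ 2 * ENNReal.ofReal (1 / ‖F.sig θ x - z‖) =
          ENNReal.ofReal (‖F.hat g x‖ ^ 2 * (1 / ‖F.sig θ x - z‖)) := by
        intro g
        rw [ENNReal.ofReal_mul (by positivity), ENNReal.ofReal_pow (norm_nonneg _), ofReal_norm]
      have e2 : 2 * ‖F.formS ∅ θ z u v x‖ₑ = ENNReal.ofReal (2 * ‖F.formS ∅ θ z u v x‖) := by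
        rw [ENNReal.ofReal_mul (by norm_num), ofReal_norm]
        norm_num
      simp only
      rw [e1 u, e1 v, e2, ← ENNReal.ofReal_add (by positivity) (by positivity)]
      refine ENNReal.ofReal_le_ofReal ?_
      simp only [formS, Finset.notMem_empty, if_false]
      rw [norm_div, norm_mul, RCLike.norm_conj, ← add_mul, div_eq_mul_one_div, ← mul_assoc]
      refine mul_le_mul_of_nonneg_right ?_ (by positivity)
      nlinarith [sq_nonneg (‖F.hat u x‖ - ‖F.hat v x‖)]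
    rw [lintegral_const_mul' _ _ (by norm_num), lintegral_add_left (hm u)] at h2
    have h3 := h u (Lp.memLp u)
    have h4 := h v (Lp.memLp v)
    rw [← lintegral_sq_Lp, hu] at h3
    rw [← lintegral_sq_Lp, hv] at h4
    norm_num at h3 h4
    have h5 : 2 * ENNReal.ofReal ‖∫ x, F.formS ∅ θ z u v x ∂nu‖ ≤ 2 * ENNReal.ofReal ε := by
      calc _ ≤ 2 * ∫⁻ x, ‖F.formS ∅ θ z u v x‖ₑ ∂nu := mul_le_mul_right h1 2
        _ ≤ _ := h2
        _ ≤ ENNReal.ofReal ε + ENNReal.ofReal ε := by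
          refine add_le_add ?_ ?_
          · simpa using h3
          · simpa using h4
        _ = 2 * ENNReal.ofReal ε := by rw [two_mul]
    have h6 := (ENNReal.mul_le_mul_iff_right (by norm_num) (by norm_num)).mp h5
    exact (ENNReal.ofReal_le_ofReal_iff hε).mp h6
  refine ContinuousLinearMap.opNorm_le_of_unit_norm hε (fun v hv => ?_)
  by_cases h0 : F.KS ∅ θ z v = 0
  · rw [h0, norm_zero]; exact hε
  · set w := F.KS ∅ θ z v with hw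
    have hwn : 0 < ‖w‖ := norm_pos_iff.mpr h0
    have h1 := key (((‖w‖⁻¹ : ℝ) : ℂ) • w) v (by
      rw [norm_smul, Complex.norm_real, norm_inv, norm_norm, inv_mul_cancel₀ hwn.ne']) hv
    rw [← hw, inner_smul_left, inner_self_eq_norm_sq_to_K] at h1
    simp only [Complex.conj_ofReal, norm_mul, norm_pow, Complex.norm_real, norm_inv, norm_norm] at h1
    have h2 : ‖((‖w‖ : ℝ) : ℂ)‖ = ‖w‖ := by rw [Complex.norm_real, norm_norm]
    have h3 : ‖w‖⁻¹ * ‖w‖ ^ 2 = ‖w‖ := by field_simp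
    have h4 : ‖w‖⁻¹ * ‖w‖ ^ 2 ≤ ε := by simpa using h1
    rwa [h3] at h4

/-- On the Thomas line the operator `1 - α K` is invertible. -/
lemma exists_unit_Dp (α l : ℝ) : ∃ θ ∈ Dp, IsUnit (1 - (α : ℂ) • F.KS ∅ θ l) := by
  obtain ⟨τ, hτ, -, h⟩ := F.thomas_bound l (1 / (2 * (|α| + 1))) (by positivity)
  have hD : ((1 / 2 : ℝ) + (τ : ℂ) * Complex.I) ∈ Dp := by
    refine ⟨?_, ?_, ?_⟩
    · simp
    · simp; norm_num
    · simpa using hτ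
  refine ⟨_, hD, ?_⟩
  have h1 := F.norm_KS_le _ l (F.LB_Dp _ hD l) _ (by positivity) h
  have h2 : ‖(α : ℂ) • F.KS ∅ ((1 / 2 : ℝ) + (τ : ℂ) * Complex.I) l‖ < 1 := by
    rw [norm_smul, Complex.norm_real, Real.norm_eq_abs]
    calc _ ≤ |α| * (1 / (2 * (|α| + 1))) := mul_le_mul_of_nonneg_left h1 (abs_nonneg α)
      _ < 1 := by
        rw [mul_one_div, div_lt_one (by positivity)]
        linarith [abs_nonneg α]
  exact (Units.oneSub _ h2).isUnit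

end FD

end

end Pool.Agent.Lib.Pdaec8e
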