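import Mathlib

set_option autoImplicit false

open Filter Topology
open scoped InnerProductSpace

namespace Pool.Agent.Lib.Pdaec8e

noncomputable section

section approx

variable {E : Type*} [NormedAddCommGroup E] [InnerProductSpace ℂ E] [CompleteSpace E]

omit [CompleteSpace E] in
/-- Compact operators are norm limits of finite rank operators. -/
lemma exists_finrank_approx (K : E →L[ℂ] E) (hK : IsCompactOperator K) (ε : ℝ) (hε : 0 < ε) :
    ∃ (n : ℕ) (A : E →L[ℂ] (Fin n → ℂ)) (X : (Fin n → ℂ) →L[ℂ] E), ‖K - X ∘L A‖ ≤ ε := by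
  have h1 : TotallyBounded (K '' Metric.closedBall 0 1) := by
    have h := IsCompactOperator.isCompact_closure_image_closedBall (f := (K : E →ₗ[ℂ] E)) hK 1
    exact h.totallyBounded.subset subset_closure
  rw [Metric.totallyBounded_iff] at h1
  obtain ⟨t, ht, hcov⟩ := h1 ε hε
  let W : Submodule ℂ E := Submodule.span ℂ t
  have : FiniteDimensional ℂ W := FiniteDimensional.span_of_finite ℂ ht
  let e : W ≃L[ℂ] (Fin (Module.finrank ℂ W) → ℂ) := (Module.finBasis ℂ W).equivFunL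
  let e1 : W →L[ℂ] (Fin (Module.finrank ℂ W) → ℂ) := e.toContinuousLinearMap
  let e2 : (Fin (Module.finrank ℂ W) → ℂ) →L[ℂ] W := e.symm.toContinuousLinearMap
  refine ⟨Module.finrank ℂ W, e1 ∘L (W.orthogonalProjectionOnto ∘L K), W.subtypeL ∘L e2, ?_⟩
  refine ContinuousLinearMap.opNorm_le_of_unit_norm hε.le (fun x hx => ?_)
  have h2 : K x ∈ K '' Metric.closedBall 0 1 := ⟨x, by simp [hx], rfl⟩
  obtain ⟨y, hy⟩ := Set.mem_iUnion₂.mp (hcov h2)
  obtain ⟨hyt, hy⟩ := hy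
  have h3 : (K - (W.subtypeL ∘L e2) ∘L (e1 ∘L (W.orthogonalProjectionOnto ∘L K))) x
      = K x - W.starProjection (K x) := by
    have h5 : e2 (e1 (W.orthogonalProjectionOnto (K x))) = W.orthogonalProjectionOnto (K x) := e.symm_apply_apply _
    rw [sub_apply, ContinuousLinearMap.comp_apply, ContinuousLinearMap.comp_apply, ContinuousLinearMap.comp_apply,
      ContinuousLinearMap.comp_apply, h5, Submodule.starProjection_apply]
    rfl
  rw [h3, Submodule.starProjection_minimal (U := W) (K x)]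
  have h4 : ⨅ w : W, ‖K x - w‖ ≤ ‖K x - y‖ := by
    have hb : BddBelow (Set.range fun w : W => ‖K x - w‖) := ⟨0, by rintro _ ⟨w, rfl⟩; exact norm_nonneg _⟩
    exact ciInf_le hb (⟨y, Submodule.subset_span hyt⟩ : W)
  rw [Metric.mem_ball, dist_eq_norm] at hy
  exact h4.trans hy.le

end approx

lemma isUnit_one_sub_comp_aux {E F : Type*} [NormedAddCommGroup E] [NormedSpace ℂ E] [NormedAddCommGroup F]
    [NormedSpace ℂ F] (A : E →L[ℂ] F) (X : F →L[ℂ] E) (h : IsUnit (1 - X ∘L A : E →L[ℂ] E)) :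
    IsUnit (1 - A ∘L X : F →L[ℂ] F) := by
  obtain ⟨u, hu⟩ := h
  have h1 : ∀ x, (↑u⁻¹ : E →L[ℂ] E) (x - X (A x)) = x := by
    intro x
    have : (↑u⁻¹ * (u : E →L[ℂ] E)) x = x := by rw [Units.inv_mul]; rfl
    rw [hu] at this
    simpa using this
  have h2 : ∀ x, (↑u⁻¹ : E →L[ℂ] E) x - X (A ((↑u⁻¹ : E →L[ℂ] E) x)) = x := by
    intro x
    have : ((u : E →L[ℂ] E) * ↑u⁻¹) x = x := by rw [Units.mul_inv]; rfl
    rw [hu] at this
    simpa using this
  refine ⟨⟨1 - A ∘L X, 1 + A ∘L ((↑u⁻¹ : E →L[ℂ] E) ∘L X), ?_, ?_⟩, rfl⟩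
  · ext1 y
    have h3 := h2 (X y)
    have h4 : A ((↑u⁻¹ : E →L[ℂ] E) (X y)) - A (X (A ((↑u⁻¹ : E →L[ℂ] E) (X y)))) = A (X y) := by
      rw [← map_sub, h3]
    change (y + A ((↑u⁻¹ : E →L[ℂ] E) (X y))) - A (X (y + A ((↑u⁻¹ : E →L[ℂ] E) (X y)))) = y
    rw [map_add, map_add, ← h4]
    abel
  · ext1 y
    have h3 := h1 (X y)
    have h4 : A ((↑u⁻¹ : E →L[ℂ] E) (X y)) - A ((↑u⁻¹ : E →L[ℂ] E) (X (A (X y)))) = A (X y) := by
      rw [← map_sub, ← map_sub, h3]
    change (y - A (X y)) + A ((↑u⁻¹ : E →L[ℂ] E) (X (y - A (X y)))) = y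
    rw [map_sub, map_sub, map_sub, h4]
    abel

/-- Sylvester-type identity for operators between different spaces. -/
lemma isUnit_one_sub_comp_iff {E F : Type*} [NormedAddCommGroup E] [NormedSpace ℂ E] [NormedAddCommGroup F]
    [NormedSpace ℂ F] (A : E →L[ℂ] F) (X : F →L[ℂ] E) :
    IsUnit (1 - X ∘L A : E →L[ℂ] E) ↔ IsUnit (1 - A ∘L X : F →L[ℂ] F) :=
  ⟨isUnit_one_sub_comp_aux A X, isUnit_one_sub_comp_aux X A⟩

lemma isUnit_iff_det_ne_zero {n : ℕ} (T : (Fin n → ℂ) →L[ℂ] (Fin n → ℂ)) :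
    IsUnit T ↔ (LinearMap.toMatrix' (T : (Fin n → ℂ) →ₗ[ℂ] (Fin n → ℂ))).det ≠ 0 := by
  rw [LinearMap.det_toMatrix', ← isUnit_iff_ne_zero, ContinuousLinearMap.isUnit_iff_bijective,
    ← LinearMap.isUnit_iff_isUnit_det]
  exact (Module.End.isUnit_iff (T : (Fin n → ℂ) →ₗ[ℂ] (Fin n → ℂ))).symm

section approx

variable {E : Type*} [NormedAddCommGroup E] [InnerProductSpace ℂ E] [CompleteSpace E]

/-- Local analytic Fredholm theorem: near a point where an analytic operator family is compact, the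
non-invertibility set of `1 - K` is the zero set of an analytic function. -/
theorem exists_fredholm_det {P : Type*} [NormedAddCommGroup P] [NormedSpace ℂ P] (K : P → (E →L[ℂ] E)) (p0 : P)
    (hK : AnalyticAt ℂ K p0) (hc : IsCompactOperator (K p0)) :
    ∃ h : P → ℂ, AnalyticAt ℂ h p0 ∧ ∀ᶠ p in 𝓝 p0, (h p = 0 ↔ ¬ IsUnit (1 - K p)) := by
  obtain ⟨n, A, X, hAX⟩ := exists_finrank_approx (K p0) hc (1/4) (by norm_num)
  set T : P → (E →L[ℂ] E) := fun p => 1 - (K p - X ∘L A) with hT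
  have hTan : AnalyticAt ℂ T p0 := analyticAt_const.sub (hK.sub analyticAt_const)
  have hT0 : IsUnit (T p0) := by
    have : ‖K p0 - X ∘L A‖ < 1 := lt_of_le_of_lt hAX (by norm_num)
    exact (Units.oneSub _ this).isUnit
  have hev : ∀ᶠ p in 𝓝 p0, IsUnit (T p) := by
    have h1 : {x : E →L[ℂ] E | IsUnit x} ∈ 𝓝 (T p0) := Units.isOpen.mem_nhds hT0
    exact hTan.continuousAt h1
  have hinv : AnalyticAt ℂ (fun p => Ring.inverse (T p)) p0 := by
    have h1 := analyticAt_inverse (𝕜 := ℂ) hT0.unit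
    exact AnalyticAt.comp (g := Ring.inverse) (f := T) h1 hTan
  let M : P → Matrix (Fin n) (Fin n) ℂ := fun p => LinearMap.toMatrix'
    ((1 - A ∘L (Ring.inverse (T p) ∘L X) : (Fin n → ℂ) →L[ℂ] (Fin n → ℂ)) : (Fin n → ℂ) →ₗ[ℂ] (Fin n → ℂ))
  have hMan : ∀ i j, AnalyticAt ℂ (fun p => M p i j) p0 := by
    intro i j
    have h1 : ∀ p, M p i j = (1 : (Fin n → ℂ) →L[ℂ] (Fin n → ℂ)) (Pi.single j 1) i
        - A (Ring.inverse (T p) (X (Pi.single j 1))) i := by
      intro p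
      change LinearMap.toMatrix' _ i j = _
      rw [LinearMap.toMatrix'_apply]
      rfl
    simp_rw [h1]
    refine analyticAt_const.sub ?_
    let φ : (E →L[ℂ] E) →L[ℂ] ℂ := (ContinuousLinearMap.proj i : (Fin n → ℂ) →L[ℂ] ℂ) ∘L (A ∘L
      (ContinuousLinearMap.apply ℂ E (X (Pi.single j 1))))
    have h2 : AnalyticAt ℂ (fun p => φ (Ring.inverse (T p))) p0 := (φ.analyticAt _).comp hinv
    exact h2
  refine ⟨fun p => (M p).det, ?_, ?_⟩
  · simp_rw [Matrix.det_apply']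
    refine Finset.analyticAt_fun_sum _ (fun σ _ => ?_)
    refine analyticAt_const.mul ?_
    exact Finset.analyticAt_fun_prod _ (fun i _ => hMan _ _)
  · filter_upwards [hev] with p hp
    have h1 : (1 - K p) = T p * (1 - (Ring.inverse (T p) ∘L X) ∘L A) := by
      have h2 : T p * ((Ring.inverse (T p) ∘L X) ∘L A) = X ∘L A := by
        have h3 : T p * Ring.inverse (T p) = 1 := Ring.mul_inverse_cancel _ hp
        calc T p * ((Ring.inverse (T p) ∘L X) ∘L A) = (T p * Ring.inverse (T p)) ∘L (X ∘L A) := rfl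
          _ = X ∘L A := by rw [h3]; rfl
      rw [mul_sub, mul_one, h2]
      change _ = (1 - (K p - X ∘L A)) - X ∘L A
      rw [sub_sub, sub_add_cancel]
    have h4 : IsUnit (1 - K p) ↔ IsUnit (1 - (Ring.inverse (T p) ∘L X) ∘L A) := by
      rw [h1]
      obtain ⟨u, hu⟩ := hp
      rw [← hu]
      exact Units.isUnit_units_mul u _
    rw [h4, isUnit_one_sub_comp_iff, isUnit_iff_det_ne_zero, not_not]

end approx

end

end Pool.Agent.Lib.Pdaec8e
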