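import Pool.Agent.Lib.Pdaec8e.Coer
import Pool.Agent.Lib.Pdaec8e.Fred

set_option autoImplicit false

open MeasureTheory Filter Topology
open scoped ComplexConjugate ENNReal InnerProductSpace Real

namespace Pool.Agent.Lib.Pdaec8e

noncomputable section

namespace FD

variable (F : FD)

lemma convex_Dp : Convex ℝ Dp := by
  have h1 : Dp = {θ : ℂ | 0 < θ.re} ∩ {θ : ℂ | θ.re < 1} ∩ {θ : ℂ | 0 < θ.im} := by
    ext θ; unfold Dp; simp only [Set.mem_inter_iff, Set.mem_ofPred_eq]; tauto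
  rw [h1]
  exact ((convex_halfSpace_re_gt 0).inter (convex_halfSpace_re_lt 1)).inter (convex_halfSpace_im_gt 0)

lemma isOpen_Dp : IsOpen Dp := by
  have h1 : Dp = {θ : ℂ | 0 < θ.re} ∩ {θ : ℂ | θ.re < 1} ∩ {θ : ℂ | 0 < θ.im} := by
    ext θ; unfold Dp; simp only [Set.mem_inter_iff, Set.mem_ofPred_eq]; tauto
  rw [h1]
  exact ((isOpen_lt continuous_const Complex.continuous_re).inter (isOpen_lt Complex.continuous_re continuous_const)).inter
    (isOpen_lt continuous_const Complex.continuous_im)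

lemma analyticAt_KS_theta (S : Finset ℤ) (θ0 z0 : ℂ) (h : F.LB S θ0 z0) : AnalyticAt ℂ (fun θ => F.KS S θ z0) θ0 := by
  have h1 := F.analyticAt_KS S θ0 z0 h
  have h2 : AnalyticAt ℂ (fun θ : ℂ => (θ, z0)) θ0 := analyticAt_id.prod analyticAt_const
  exact AnalyticAt.fun_comp (g := fun p : ℂ × ℂ => F.KS S p.1 p.2) (f := fun θ : ℂ => (θ, z0)) h1 h2

lemma isCompact_smul_KS (a : ℂ) (S : Finset ℤ) (θ z : ℂ) : IsCompactOperator (a • F.KS S θ z) :=
  (F.isCompact_KS S θ z).smul a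

/-- The set of non-invertibility in `D₊` has empty interior. -/
theorem exists_unit_open (α l : ℝ) (U : Set ℂ) (hU : IsOpen U) (hne : U.Nonempty) (hUD : U ⊆ Dp) :
    ∃ θ ∈ U, IsUnit (1 - (α : ℂ) • F.KS ∅ θ l) := by
  by_contra hcon
  push Not at hcon
  set bad : Set ℂ := {θ | ¬ IsUnit (1 - (α : ℂ) • F.KS ∅ θ l)} with hbad
  have hUint : U ⊆ interior bad := interior_maximal (fun θ hθ => hcon θ hθ) hU
  have hsub : Dp ⊆ interior bad := by
    refine convex_Dp.isPreconnected.subset_of_closure_inter_subset isOpen_interior ?_ ?_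
    · obtain ⟨x, hx⟩ := hne
      exact ⟨x, hUD hx, hUint hx⟩
    · rintro θ1 ⟨hcl, hθ1⟩
      have hLB := F.LB_Dp θ1 hθ1 l
      have han : AnalyticAt ℂ (fun θ => (α : ℂ) • F.KS ∅ θ l) θ1 :=
        AnalyticAt.fun_const_smul (F.analyticAt_KS_theta ∅ θ1 l hLB)
      obtain ⟨h, hh, hev⟩ := exists_fredholm_det (fun θ => (α : ℂ) • F.KS ∅ θ l) θ1 han (F.isCompact_smul_KS _ _ _ _)
      rcases hh.eventually_eq_zero_or_eventually_ne_zero with h0 | h1
      · rw [mem_interior_iff_mem_nhds]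
        filter_upwards [h0, hev] with θ hθ0 hθ
        exact hθ.mp hθ0
      · exfalso
        have h2 : ∀ᶠ θ in 𝓝[≠] θ1, θ ∉ bad := by
          filter_upwards [h1, hev.filter_mono nhdsWithin_le_nhds] with θ hθ0 hθ hb
          exact hθ0 (hθ.mpr hb)
        rw [eventually_nhdsWithin_iff, eventually_nhds_iff] at h2
        obtain ⟨t, ht, hto, ht1⟩ := h2
        have h3 : (t ∩ interior bad).Nonempty := mem_closure_iff.mp hcl t hto ht1
        obtain ⟨q, hq1, hq2⟩ := (dense_compl_singleton θ1).inter_open_nonempty _ (hto.inter isOpen_interior) h3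
        exact ht q hq1.1 hq2 (interior_subset hq1.2)
  obtain ⟨θ, hθ, hu⟩ := F.exists_unit_Dp α l
  exact (interior_subset (hsub hθ)) hu

end FD

end

end Pool.Agent.Lib.Pdaec8e
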