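import Pool.Agent.Lib.Pdaec8e.Plane1

set_option autoImplicit false

open MeasureTheory Filter Topology
open scoped ComplexConjugate ENNReal InnerProductSpace Real

namespace Pool.Agent.Lib.Pdaec8e

noncomputable section

namespace PeriodicCurve

variable (Γ : PeriodicCurve)

def nl : ℝ := ‖Γ.ℓ‖
def ca : ℝ := Γ.ℓ 0 / Γ.nl
def cb : ℝ := Γ.ℓ 1 / Γ.nl

lemma nl_pos : 0 < Γ.nl := norm_pos_iff.mpr Γ.ℓ_ne_zero

lemma nl_sq : Γ.nl ^ 2 = Γ.ℓ 0 ^ 2 + Γ.ℓ 1 ^ 2 := by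
  unfold nl
  rw [EuclideanSpace.norm_sq_eq, Fin.sum_univ_two, Real.norm_eq_abs, Real.norm_eq_abs, sq_abs, sq_abs]

lemma ca_cb : Γ.ca ^ 2 + Γ.cb ^ 2 = 1 := by
  have h := Γ.nl_pos
  unfold ca cb
  rw [div_pow, div_pow, ← add_div, ← Γ.nl_sq, div_self (by positivity)]

/-- longitudinal coordinate -/
def h1 (s : ℝ) : ℝ := (Γ.ca * Γ.γ s 0 + Γ.cb * Γ.γ s 1) / Γ.nl
/-- transversal coordinate -/
def h2 (s : ℝ) : ℝ := Γ.nl * (-(Γ.cb * Γ.γ s 0) + Γ.ca * Γ.γ s 1)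

lemma continuous_γ : Continuous Γ.γ := Γ.contDiff.continuous

lemma continuous_h1 : Continuous Γ.h1 := by
  have := Γ.continuous_γ
  unfold h1
  fun_prop

lemma continuous_h2 : Continuous Γ.h2 := by
  have := Γ.continuous_γ
  unfold h2
  fun_prop

lemma per_h1 (s : ℝ) : Γ.h1 (s + Γ.L) = Γ.h1 s + 1 := by
  have h := Γ.nl_pos
  have hs := Γ.nl_sq
  unfold h1
  rw [Γ.periodic s]
  simp only [PiLp.add_apply]
  unfold ca cb
  field_simp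
  linear_combination -hs

lemma per_h2 (s : ℝ) : Γ.h2 (s + Γ.L) = Γ.h2 s := by
  have h := Γ.nl_pos
  unfold h2
  rw [Γ.periodic s]
  simp only [PiLp.add_apply]
  unfold ca cb
  field_simp
  ring

lemma dist_sq (s t : ℝ) : ‖Γ.γ s - Γ.γ t‖ ^ 2 = Γ.nl ^ 2 * (Γ.h1 s - Γ.h1 t) ^ 2 + (Γ.h2 s - Γ.h2 t) ^ 2 / Γ.nl ^ 2 := by
  have h := Γ.nl_pos
  have hab := Γ.ca_cb
  rw [EuclideanSpace.norm_sq_eq, Fin.sum_univ_two, Real.norm_eq_abs, Real.norm_eq_abs, sq_abs, sq_abs]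
  simp only [PiLp.sub_apply]
  unfold h1 h2
  field_simp
  linear_combination (-((Γ.γ s 0 - Γ.γ t 0) ^ 2 + (Γ.γ s 1 - Γ.γ t 1) ^ 2)) * hab

lemma local_chord (p : ℝ × ℝ) : ∃ V ∈ 𝓝 p, ∃ c > 0, ∀ q ∈ V, c * |q.1 - q.2| ≤ ‖Γ.γ q.1 - Γ.γ q.2‖ := by
  by_cases h : p.1 = p.2
  · -- diagonal point: strict differentiability
    have hs : HasStrictDerivAt Γ.γ (deriv Γ.γ p.1) p.1 := (Γ.contDiff.contDiffAt).hasStrictDerivAt one_ne_zero
    have h1 := hs.isLittleO.def (half_pos one_pos)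
    rw [nhds_prod_eq, eventually_prod_iff] at h1
    obtain ⟨pa, hpa, pb, hpb, h1⟩ := h1
    have hp : p = (p.1, p.1) := by ext <;> simp [h]
    refine ⟨{q | pa q.1 ∧ pb q.2}, ?_, 1 / 2, by norm_num, ?_⟩
    · have hpb' : ∀ᶠ y in 𝓝 p.2, pb y := by rw [← h]; exact hpb
      have e1 : ∀ᶠ q : ℝ × ℝ in 𝓝 p, pa q.1 := continuousAt_fst.eventually hpa
      have e2 : ∀ᶠ q : ℝ × ℝ in 𝓝 p, pb q.2 := continuousAt_snd.eventually hpb'
      exact e1.and e2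
    · rintro q ⟨hq1, hq2⟩
      have h2 := h1 hq1 hq2
      simp only at h2
      have h3 : ‖(ContinuousLinearMap.toSpanSingleton ℝ (deriv Γ.γ p.1)) (q.1 - q.2)‖ = |q.1 - q.2| := by
        rw [ContinuousLinearMap.toSpanSingleton_apply, norm_smul, Γ.arcLength, mul_one, Real.norm_eq_abs]
      have h4 := norm_sub_norm_le ((ContinuousLinearMap.toSpanSingleton ℝ (deriv Γ.γ p.1)) (q.1 - q.2)) (Γ.γ q.1 - Γ.γ q.2)
      rw [Real.norm_eq_abs] at h2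
      rw [h3, norm_sub_rev ((ContinuousLinearMap.toSpanSingleton ℝ (deriv Γ.γ p.1)) (q.1 - q.2))] at h4
      linarith
  · have hne : Γ.γ p.1 - Γ.γ p.2 ≠ 0 := sub_ne_zero.mpr (fun h' => h (Γ.injective h'))
    have hpos : 0 < ‖Γ.γ p.1 - Γ.γ p.2‖ := norm_pos_iff.mpr hne
    have c1 : ContinuousAt (fun q : ℝ × ℝ => ‖Γ.γ q.1 - Γ.γ q.2‖) p := by
      have := Γ.continuous_γ
      fun_prop
    have c2 : ContinuousAt (fun q : ℝ × ℝ => |q.1 - q.2|) p := by fun_prop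
    have e1 := c1.eventually (lt_mem_nhds (half_lt_self hpos))
    have e2 := c2.eventually (gt_mem_nhds (lt_add_one |p.1 - p.2|))
    refine ⟨_, e1.and e2, (‖Γ.γ p.1 - Γ.γ p.2‖ / 2) / (|p.1 - p.2| + 1), by positivity, ?_⟩
    rintro q ⟨hq1, hq2⟩
    have h3 : (‖Γ.γ p.1 - Γ.γ p.2‖ / 2) / (|p.1 - p.2| + 1) * |q.1 - q.2| ≤ (‖Γ.γ p.1 - Γ.γ p.2‖ / 2) / (|p.1 - p.2| + 1) * (|p.1 - p.2| + 1) :=
      mul_le_mul_of_nonneg_left hq2.le (by positivity)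
    rw [div_mul_cancel₀ _ (by positivity)] at h3
    exact h3.trans hq1.le

lemma compact_chord (K : Set (ℝ × ℝ)) (hK : IsCompact K) : ∃ c > 0, ∀ q ∈ K, c * |q.1 - q.2| ≤ ‖Γ.γ q.1 - Γ.γ q.2‖ := by
  refine hK.induction_on (p := fun s => ∃ c > 0, ∀ q ∈ s, c * |q.1 - q.2| ≤ ‖Γ.γ q.1 - Γ.γ q.2‖) ?_ ?_ ?_ ?_
  · exact ⟨1, one_pos, fun q hq => absurd hq (Set.notMem_empty q)⟩
  · rintro s t hst ⟨c, hc, h⟩
    exact ⟨c, hc, fun q hq => h q (hst hq)⟩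
  · rintro s t ⟨c1, hc1, h1⟩ ⟨c2, hc2, h2⟩
    refine ⟨min c1 c2, lt_min hc1 hc2, ?_⟩
    rintro q (hq | hq)
    · exact (mul_le_mul_of_nonneg_right (min_le_left _ _) (abs_nonneg _)).trans (h1 q hq)
    · exact (mul_le_mul_of_nonneg_right (min_le_right _ _) (abs_nonneg _)).trans (h2 q hq)
  · intro p _
    obtain ⟨V, hV, c, hc, h⟩ := Γ.local_chord p
    exact ⟨V, mem_nhdsWithin_of_mem_nhds hV, c, hc, h⟩

lemma exists_chord : ∃ c > 0, ∀ s t, c * (s - t) ^ 2 ≤ (Γ.h1 s - Γ.h1 t) ^ 2 + (Γ.h2 s - Γ.h2 t) ^ 2 := by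
  have hL := Γ.L_pos
  have hnl := Γ.nl_pos
  -- the periodic part of h1 is bounded
  have hper : Function.Periodic (fun s => Γ.h1 s - s / Γ.L) Γ.L := by
    intro s
    simp only
    rw [Γ.per_h1]
    field_simp
    ring
  have hcont : Continuous (fun s => Γ.h1 s - s / Γ.L) := by
    have := Γ.continuous_h1
    fun_prop
  obtain ⟨M, hM⟩ := (hper.isBounded_of_continuous hL.ne' hcont).exists_norm_le
  have hM' : ∀ s, |Γ.h1 s - s / Γ.L| ≤ M := fun s => hM _ ⟨s, rfl⟩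
  have hM0 : 0 ≤ M := (abs_nonneg _).trans (hM' 0)
  set R : ℝ := 4 * M * Γ.L with hR
  obtain ⟨c0, hc0, hcc⟩ := Γ.compact_chord (Set.Icc (0:ℝ) Γ.L ×ˢ Set.Icc (-R) (Γ.L + R)) (isCompact_Icc.prod isCompact_Icc)
  set c1 : ℝ := c0 ^ 2 / (Γ.nl ^ 2 + 1 / Γ.nl ^ 2) with hc1
  set c2 : ℝ := 1 / (4 * Γ.L ^ 2) with hc2
  have hc10 : 0 < c1 := by positivity
  have hc20 : 0 < c2 := by positivity
  refine ⟨min c1 c2, lt_min hc10 hc20, ?_⟩
  -- first for s in the base period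
  have base : ∀ s t, 0 ≤ s → s ≤ Γ.L → min c1 c2 * (s - t) ^ 2 ≤ (Γ.h1 s - Γ.h1 t) ^ 2 + (Γ.h2 s - Γ.h2 t) ^ 2 := by
    intro s t hs0 hs1
    by_cases hst : |s - t| ≤ R
    · have h3 := abs_le.mp hst
      have h4 := hcc (s, t) ⟨⟨hs0, hs1⟩, ⟨by simp only; linarith, by simp only; linarith⟩⟩
      simp only at h4
      have h5 : c0 ^ 2 * (s - t) ^ 2 ≤ ‖Γ.γ s - Γ.γ t‖ ^ 2 := by
        rw [← sq_abs (s - t), ← mul_pow]
        exact pow_le_pow_left₀ (by positivity) h4 2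
      rw [Γ.dist_sq] at h5
      have h6 : Γ.nl ^ 2 * (Γ.h1 s - Γ.h1 t) ^ 2 + (Γ.h2 s - Γ.h2 t) ^ 2 / Γ.nl ^ 2 ≤
          (Γ.nl ^ 2 + 1 / Γ.nl ^ 2) * ((Γ.h1 s - Γ.h1 t) ^ 2 + (Γ.h2 s - Γ.h2 t) ^ 2) := by
        have e1 : 0 ≤ 1 / Γ.nl ^ 2 * (Γ.h1 s - Γ.h1 t) ^ 2 := by positivity
        have e2 : 0 ≤ Γ.nl ^ 2 * (Γ.h2 s - Γ.h2 t) ^ 2 := by positivity
        have e3 : (Γ.h2 s - Γ.h2 t) ^ 2 / Γ.nl ^ 2 = 1 / Γ.nl ^ 2 * (Γ.h2 s - Γ.h2 t) ^ 2 := by ring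
        rw [e3]
        nlinarith
      have h7 : c1 * (s - t) ^ 2 ≤ (Γ.h1 s - Γ.h1 t) ^ 2 + (Γ.h2 s - Γ.h2 t) ^ 2 := by
        rw [hc1, div_mul_eq_mul_div, div_le_iff₀ (by positivity), mul_comm ((Γ.h1 s - Γ.h1 t) ^ 2 + (Γ.h2 s - Γ.h2 t) ^ 2)]
        exact h5.trans h6
      exact (mul_le_mul_of_nonneg_right (min_le_left _ _) (sq_nonneg _)).trans h7
    · rw [not_le] at hst
      have h3 := hM' s
      have h4 := hM' t
      have h5 : |s - t| / Γ.L - 2 * M ≤ |Γ.h1 s - Γ.h1 t| := by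
        have e1 : (s - t) / Γ.L = (Γ.h1 s - Γ.h1 t) - (Γ.h1 s - s / Γ.L) + (Γ.h1 t - t / Γ.L) := by ring
        have e2 : |s - t| / Γ.L = |(s - t) / Γ.L| := by rw [abs_div, abs_of_pos hL]
        rw [e2, e1]
        have e3 := abs_add_le ((Γ.h1 s - Γ.h1 t) - (Γ.h1 s - s / Γ.L)) (Γ.h1 t - t / Γ.L)
        have e4 := abs_sub (Γ.h1 s - Γ.h1 t) (Γ.h1 s - s / Γ.L)
        linarith
      have h6 : |s - t| / (2 * Γ.L) ≤ |Γ.h1 s - Γ.h1 t| := by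
        refine le_trans ?_ h5
        have : 2 * M ≤ |s - t| / (2 * Γ.L) := by
          rw [le_div_iff₀ (by positivity)]
          rw [hR] at hst
          linarith
        have e5 : |s - t| / Γ.L = 2 * (|s - t| / (2 * Γ.L)) := by field_simp
        rw [e5]; linarith
      have h7 : c2 * (s - t) ^ 2 ≤ (Γ.h1 s - Γ.h1 t) ^ 2 := by
        have e6 : c2 * (s - t) ^ 2 = (|s - t| / (2 * Γ.L)) ^ 2 := by
          rw [div_pow, sq_abs, hc2]; field_simp; ring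
        rw [e6, ← sq_abs (Γ.h1 s - Γ.h1 t)]
        exact pow_le_pow_left₀ (by positivity) h6 2
      refine (mul_le_mul_of_nonneg_right (min_le_right _ _) (sq_nonneg _)).trans (h7.trans ?_)
      linarith [sq_nonneg (Γ.h2 s - Γ.h2 t)]
  -- general case by translation
  intro s t
  have hk : ∀ (k : ℤ) (s : ℝ), Γ.h1 (s + k * Γ.L) = Γ.h1 s + k ∧ Γ.h2 (s + k * Γ.L) = Γ.h2 s := by
    intro k
    induction k using Int.induction_on with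
    | zero => intro s; simp
    | succ i ih =>
      intro s
      have : s + ((i : ℤ) + 1 : ℤ) * Γ.L = (s + (i : ℤ) * Γ.L) + Γ.L := by push_cast; ring
      rw [this, Γ.per_h1, Γ.per_h2, (ih s).1, (ih s).2]
      refine ⟨by push_cast; ring, rfl⟩
    | pred i ih =>
      intro s
      have : s + (-(i : ℤ) : ℤ) * Γ.L = (s + (-(i : ℤ) - 1 : ℤ) * Γ.L) + Γ.L := by push_cast; ring
      have ih' := ih s
      rw [this, Γ.per_h1, Γ.per_h2] at ih'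
      refine ⟨?_, ih'.2⟩
      have := ih'.1
      push_cast at this ⊢
      linarith
  set k : ℤ := ⌊s / Γ.L⌋ with hkdef
  have hs0 : 0 ≤ s + ((-k : ℤ) : ℝ) * Γ.L := by
    have := Int.floor_le (s / Γ.L)
    rw [← hkdef, le_div_iff₀ hL] at this
    push_cast; linarith
  have hs1 : s + ((-k : ℤ) : ℝ) * Γ.L ≤ Γ.L := by
    have := (Int.lt_floor_add_one (s / Γ.L)).le
    rw [← hkdef, div_le_iff₀ hL] at this
    push_cast; linarith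
  have h8 := base (s + ((-k : ℤ) : ℝ) * Γ.L) (t + ((-k : ℤ) : ℝ) * Γ.L) hs0 hs1
  rw [(hk (-k) s).1, (hk (-k) s).2, (hk (-k) t).1, (hk (-k) t).2] at h8
  have e1 : s + ((-k : ℤ) : ℝ) * Γ.L - (t + ((-k : ℤ) : ℝ) * Γ.L) = s - t := by ring
  have e2 : Γ.h1 s + ((-k : ℤ) : ℝ) - (Γ.h1 t + ((-k : ℤ) : ℝ)) = Γ.h1 s - Γ.h1 t := by ring
  rw [e1, e2] at h8
  exact h8

/-- the fibre data of the curve -/
def toFD : FD where
  g1 := Γ.h1
  g2 := Γ.h2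
  L := Γ.L
  c := Γ.exists_chord.choose
  A := 2 * π / Γ.nl
  D := 2 * π * Γ.nl
  hL := Γ.L_pos
  hc := Γ.exists_chord.choose_spec.1
  hA := by have := Γ.nl_pos; positivity
  hD := by have := Γ.nl_pos; positivity
  cont1 := Γ.continuous_h1
  cont2 := Γ.continuous_h2
  per1 := Γ.per_h1
  per2 := Γ.per_h2
  chord := Γ.exists_chord.choose_spec.2

end PeriodicCurve

end

end Pool.Agent.Lib.Pdaec8e
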