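import Mathlib

/-!
Leaky periodic curves: the definitions used in the statement of the absolute continuity theorem.
-/

set_option autoImplicit false

open MeasureTheory Filter Topology
open scoped ComplexConjugate ENNReal InnerProductSpace SchwartzMap

namespace Pool.Agent.Lib.Pdaec8e

noncomputable section

/-- The Euclidean plane. -/
abbrev Plane : Type := EuclideanSpace ℝ (Fin 2)

/-- `L²(ℝ²)`. -/
abbrev L2Plane : Type := Lp ℂ 2 (volume : Measure Plane)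

/-- `L²(ℝ)`. -/
abbrev L2Line : Type := Lp ℂ 2 (volume : Measure ℝ)

/-- A periodic curve: an injective `C¹` map `γ : ℝ → ℝ²` parametrised by arc length, with
`γ (s + L) = γ s + ℓ` for all `s`, where `L > 0` and `ℓ ≠ 0`. -/
structure PeriodicCurve where
  γ : ℝ → Plane
  L : ℝ
  ℓ : Plane
  injective : Function.Injective γ
  contDiff : ContDiff ℝ 1 γ
  arcLength : ∀ s, ‖deriv γ s‖ = 1
  L_pos : 0 < L
  ℓ_ne_zero : ℓ ≠ 0
  periodic : ∀ s, γ (s + L) = γ s + ℓ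

/-- `ψ` is in the Sobolev space `H¹(ℝ²)`, with gradient `G = (∂₀ψ, ∂₁ψ)`: there are Schwartz functions
`φ n` with `φ n → ψ` and `∂_j (φ n) → G j` in `L²(ℝ²)`. -/
def IsH1 (ψ : L2Plane) (G : Fin 2 → L2Plane) : Prop :=
  ∃ φ : ℕ → 𝓢(Plane, ℂ),
    Tendsto (fun n => eLpNorm (fun x => φ n x - ψ x) 2 volume) atTop (𝓝 0) ∧
    ∀ j : Fin 2, Tendsto (fun n => eLpNorm
      (fun x => fderiv ℝ (φ n) x (EuclideanSpace.single j 1) - G j x) 2 volume) atTop (𝓝 0)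

/-- `ψ` is in `H¹(ℝ²)`, with gradient `G` and trace `τ = ψ ∘ γ ∈ L²(ℝ)` on the curve: there are Schwartz
functions `φ n` with `φ n → ψ` and `∂_j (φ n) → G j` in `L²(ℝ²)` and `φ n ∘ γ → τ` in `L²(ℝ)`. -/
def IsH1Trace (Γ : PeriodicCurve) (ψ : L2Plane) (G : Fin 2 → L2Plane) (τ : L2Line) : Prop :=
  ∃ φ : ℕ → 𝓢(Plane, ℂ),
    Tendsto (fun n => eLpNorm (fun x => φ n x - ψ x) 2 volume) atTop (𝓝 0) ∧
    (∀ j : Fin 2, Tendsto (fun n => eLpNorm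
      (fun x => fderiv ℝ (φ n) x (EuclideanSpace.single j 1) - G j x) 2 volume) atTop (𝓝 0)) ∧
    Tendsto (fun n => eLpNorm (fun s => φ n (Γ.γ s) - τ s) 2 volume) atTop (𝓝 0)

/-- The sesquilinear form relation defining the operator `H_{α,Γ}`: `ψ` is in the form domain `H¹(ℝ²)`
and `q(φ, ψ) = ⟨φ, f⟩` for every `φ` in the form domain, where
`q(φ, ψ) = ∫ conj(∇φ)·∇ψ - α ∫ conj(φ(γ(s))) ψ(γ(s)) ds`. -/
def LeakyGraph (Γ : PeriodicCurve) (α : ℝ) (ψ f : L2Plane) : Prop :=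
  ∃ (G : Fin 2 → L2Plane) (τ : L2Line), IsH1Trace Γ ψ G τ ∧
    ∀ (φ : L2Plane) (Φ : Fin 2 → L2Plane) (σ : L2Line), IsH1Trace Γ φ Φ σ →
      (∑ j : Fin 2, ⟪Φ j, G j⟫_ℂ) - (α : ℂ) * ⟪σ, τ⟫_ℂ = ⟪φ, f⟫_ℂ

/-- `μ` is the spectral measure of the self-adjoint operator `H` at the vector `f`: it is finite and its
Stieltjes transform is `⟨f, (H - z)⁻¹ f⟩` for all non-real `z`. -/
def IsSpectralMeasure (H : L2Plane →ₗ.[ℂ] L2Plane) (f : L2Plane) (μ : Measure ℝ) : Prop :=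
  IsFiniteMeasure μ ∧ ∀ z : ℂ, z.im ≠ 0 → ∃ u : H.domain, H u - z • (u : L2Plane) = f ∧
    ⟪f, (u : L2Plane)⟫_ℂ = ∫ x : ℝ, ((x : ℂ) - z)⁻¹ ∂μ

end

end Pool.Agent.Lib.Pdaec8e
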