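import Pool.Agent.Lib.Pdaec8e.Gauss1

set_option autoImplicit false

open MeasureTheory Filter Topology Complex
open scoped ComplexConjugate ENNReal Real

namespace Pool.Agent.Lib.Pdaec8e

noncomputable section

/-- Normalised data of a periodic curve: coordinates along and across the period. -/
structure FD where
  g1 : ℝ → ℝ
  g2 : ℝ → ℝ
  L : ℝ
  c : ℝ
  A : ℝ
  D : ℝ
  hL : 0 < L
  hc : 0 < c
  hA : 0 < A
  hD : 0 < D
  cont1 : Continuous g1
  cont2 : Continuous g2
  per1 : ∀ s, g1 (s + L) = g1 s + 1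
  per2 : ∀ s, g2 (s + L) = g2 s
  chord : ∀ s t, c * (s - t) ^ 2 ≤ (g1 s - g1 t) ^ 2 + (g2 s - g2 t) ^ 2

/-- measure on `ℤ × ℝ` -/
abbrev nu : Measure (ℤ × ℝ) := (Measure.count : Measure ℤ).prod (volume : Measure ℝ)

namespace FD

variable (F : FD)

/-- Lebesgue measure on one period -/
abbrev mu : Measure ℝ := volume.restrict (Set.Ioc 0 F.L)

/-- the phase `exp (-2πi (n g1(s) + y g2(s)))` -/
def ph (s : ℝ) (x : ℤ × ℝ) : ℂ :=
  cexp (((-(2 * π * (x.1 * F.g1 s + x.2 * F.g2 s)) : ℝ) : ℂ) * I)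

lemma norm_ph (s : ℝ) (x : ℤ × ℝ) : ‖F.ph s x‖ = 1 := by
  rw [ph, Complex.norm_exp_ofReal_mul_I]

lemma continuous_ph : Continuous (fun p : ℝ × (ℤ × ℝ) => F.ph p.1 p.2) := by
  have h1 := F.cont1
  have h2 := F.cont2
  have h3 : Continuous (fun p : ℝ × (ℤ × ℝ) => ((p.2.1 : ℤ) : ℝ)) := by
    exact (continuous_of_discreteTopology (f := fun n : ℤ => (n : ℝ))).comp (by fun_prop)
  unfold ph
  fun_prop

lemma measurable_ph : Measurable (fun p : ℝ × (ℤ × ℝ) => F.ph p.1 p.2) :=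
  F.continuous_ph.measurable

lemma g1_add (s : ℝ) (k : ℤ) : F.g1 (s + k * F.L) = F.g1 s + k := by
  induction k using Int.induction_on with
  | zero => simp
  | succ i ih =>
    have : s + ((i : ℤ) + 1 : ℤ) * F.L = (s + (i : ℤ) * F.L) + F.L := by push_cast; ring
    rw [this, F.per1, ih]; push_cast; ring
  | pred i ih =>
    have : s + (-(i : ℤ) : ℤ) * F.L = (s + (-(i : ℤ) - 1 : ℤ) * F.L) + F.L := by push_cast; ring
    rw [this, F.per1] at ih
    push_cast at ih ⊢
    linarith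

lemma g2_add (s : ℝ) (k : ℤ) : F.g2 (s + k * F.L) = F.g2 s := by
  induction k using Int.induction_on with
  | zero => simp
  | succ i ih =>
    have : s + ((i : ℤ) + 1 : ℤ) * F.L = (s + (i : ℤ) * F.L) + F.L := by push_cast; ring
    rw [this, F.per2, ih]
  | pred i ih =>
    have : s + (-(i : ℤ) : ℤ) * F.L = (s + (-(i : ℤ) - 1 : ℤ) * F.L) + F.L := by push_cast; ring
    rw [this, F.per2] at ih
    exact ih

/-- the periodised Gaussian majorant -/
def Kt (t r : ℝ) : ℝ := π / t * ∑' k : ℤ, Real.exp (-(π ^ 2 * F.c / t * (r + k * F.L) ^ 2))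

lemma summable_Kt (t r : ℝ) (ht : 0 < t) :
    Summable (fun k : ℤ => Real.exp (-(π ^ 2 * F.c / t * (r + k * F.L) ^ 2))) := by
  have hpi := Real.pi_pos
  have hc := F.hc
  have hL := F.hL
  have := summable_gauss (π ^ 2 * F.c / t * F.L ^ 2) (r / F.L) (by positivity)
  refine this.congr (fun k => ?_)
  congr 1
  field_simp
  ring

lemma Kt_nonneg (t r : ℝ) (ht : 0 < t) : 0 ≤ F.Kt t r := by
  have hpi := Real.pi_pos
  unfold Kt
  refine mul_nonneg (by positivity) (tsum_nonneg fun k => (Real.exp_pos _).le)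

lemma Kt_neg (t r : ℝ) : F.Kt t (-r) = F.Kt t r := by
  unfold Kt
  congr 1
  rw [← (Equiv.neg ℤ).tsum_eq]
  congr 1
  ext k
  congr 1
  simp only [Equiv.neg_apply, Int.cast_neg]
  ring

/-- periodic unfolding -/
lemma tsum_lintegral_Ioc (h : ℝ → ℝ≥0∞) (hh : Measurable h) (L : ℝ) (hL : 0 < L) :
    ∑' k : ℤ, ∫⁻ s in Set.Ioc 0 L, h (s + k * L) = ∫⁻ s, h s := by
  have h1 : ∫⁻ s, h s = ∑' k : ℤ, ∫⁻ s in Set.Ioc (k • L) ((k + 1) • L), h s := by
    rw [← lintegral_iUnion (fun k => measurableSet_Ioc) ?_ h, iUnion_Ioc_zsmul hL, Measure.restrict_univ]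
    have := Set.pairwise_disjoint_Ioc_zsmul (α := ℝ) L
    exact this
  rw [h1]
  congr 1
  ext k
  have h2 : Set.Ioc (k • L) ((k + 1) • L) = (fun s => s + k * L) '' (Set.Ioc 0 L) := by
    rw [Set.image_add_const_Ioc]
    simp only [zsmul_eq_mul, zero_add]
    congr 1
    push_cast; ring
  rw [h2]
  rw [(measurePreserving_add_right volume (k * L : ℝ)).setLIntegral_comp_emb
    (MeasurableEquiv.addRight (k * L : ℝ)).measurableEmbedding]

lemma lintegral_Kt (t s : ℝ) (ht : 0 < t) :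
    ∫⁻ s' in Set.Ioc 0 F.L, ENNReal.ofReal (F.Kt t (s' - s)) =
      ENNReal.ofReal (Real.sqrt (π / (F.c * t))) := by
  have hpi := Real.pi_pos
  have hc := F.hc
  have hL := F.hL
  have e1 : ∀ s' : ℝ, ENNReal.ofReal (F.Kt t (s' - s)) =
      ENNReal.ofReal (π / t) * ∑' k : ℤ, ENNReal.ofReal (Real.exp (-(π ^ 2 * F.c / t * ((s' + k * F.L) - s) ^ 2))) := by
    intro s'
    rw [Kt, ENNReal.ofReal_mul (by positivity),
      ENNReal.ofReal_tsum_of_nonneg (fun k => (Real.exp_pos _).le) (F.summable_Kt t _ ht)]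
    congr 1
    congr 1
    ext k
    congr 2
    ring
  simp_rw [e1]
  rw [lintegral_const_mul _ (by fun_prop), lintegral_tsum (fun k => by fun_prop)]
  rw [tsum_lintegral_Ioc (fun s' => ENNReal.ofReal (Real.exp (-(π ^ 2 * F.c / t * (s' - s) ^ 2)))) (by fun_prop) F.L hL]
  rw [lintegral_sub_right_eq_self (fun s' => ENNReal.ofReal (Real.exp (-(π ^ 2 * F.c / t * s' ^ 2)))) s]
  have hi : Integrable (fun x : ℝ => Real.exp (-(π ^ 2 * F.c / t * x ^ 2))) := by
    have := integrable_exp_neg_mul_sq (b := π ^ 2 * F.c / t) (by positivity)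
    simpa [neg_mul] using this
  rw [← ofReal_integral_eq_lintegral_ofReal hi (Eventually.of_forall fun x => (Real.exp_pos _).le)]
  have := integral_gaussian (π ^ 2 * F.c / t)
  simp only [neg_mul] at this
  rw [this, ← ENNReal.ofReal_mul (by positivity)]
  congr 1
  have h3 : π / t = Real.sqrt ((π / t) ^ 2) := (Real.sqrt_sq (by positivity)).symm
  rw [h3, ← Real.sqrt_mul (by positivity)]
  congr 1
  field_simp

end FD

end

end Pool.Agent.Lib.Pdaec8e
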