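import Pool.Agent.Lib.Pdaec8e.Conn

set_option autoImplicit false

open MeasureTheory Filter Topology
open scoped ComplexConjugate ENNReal InnerProductSpace Real BoundedContinuousFunction

namespace Pool.Agent.Lib.Pdaec8e

noncomputable section

/-- principal square root -/
def csq (w : ℂ) : ℂ := Complex.exp (Complex.log w / 2)

lemma csq_sq (w : ℂ) (hw : w ≠ 0) : csq w ^ 2 = w := by
  unfold csq
  rw [← Complex.exp_nat_mul]
  have : ((2 : ℕ) : ℂ) * (Complex.log w / 2) = Complex.log w := by push_cast; ring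
  rw [this, Complex.exp_log hw]

lemma csq_ne_zero (w : ℂ) : csq w ≠ 0 := Complex.exp_ne_zero _

lemma csq_re_pos (w : ℂ) (hw : w ∈ Complex.slitPlane) : 0 < (csq w).re := by
  unfold csq
  rw [Complex.exp_re]
  refine mul_pos (Real.exp_pos _) ?_
  have h1 : (Complex.log w / 2).im = w.arg / 2 := by
    rw [show (Complex.log w / 2) = ((1 / 2 : ℝ) : ℂ) * Complex.log w by push_cast; ring, Complex.im_ofReal_mul, Complex.log_im]
    ring
  rw [h1]
  have h2 := Complex.neg_pi_lt_arg w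
  have h3 : w.arg < π := by
    have h4 := Complex.arg_le_pi w
    rcases lt_or_eq_of_le h4 with h | h
    · exact h
    · exact absurd h (Complex.mem_slitPlane_iff_arg.mp hw).1
  exact Real.cos_pos_of_mem_Ioo ⟨by linarith, by linarith⟩

lemma csq_im (w : ℂ) (hw : w ≠ 0) : 2 * (csq w).re * (csq w).im = w.im := by
  conv_rhs => rw [← csq_sq w hw, sq, Complex.mul_im]
  ring

lemma analyticAt_csq (w : ℂ) (hw : w ∈ Complex.slitPlane) : AnalyticAt ℂ csq w := by
  unfold csq
  have h1 : AnalyticAt ℂ (fun w : ℂ => Complex.log w / 2) w := (analyticAt_clog hw).div_const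
  exact h1.cexp

lemma csq_real (r : ℝ) (hr : 0 < r) : 0 < (csq (r : ℂ)).re ∧ csq (r : ℂ) = ((csq (r : ℂ)).re : ℂ) := by
  have h1 : (r : ℂ) ∈ Complex.slitPlane := Complex.ofReal_mem_slitPlane.mpr hr
  have h2 := csq_re_pos _ h1
  refine ⟨h2, ?_⟩
  have h3 := csq_im (r : ℂ) (Complex.slitPlane_ne_zero h1)
  rw [Complex.ofReal_im] at h3
  have h4 : (csq (r : ℂ)).im = 0 := by
    rcases mul_eq_zero.mp h3 with h | h
    · linarith
    · exact h
  apply Complex.ext
  · simp
  · simpa using h4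

namespace FD

variable (F : FD)

/-- the argument of the square root in channel `n` -/
def wn (n : ℤ) (θ z : ℂ) : ℂ := z - (F.A : ℂ) ^ 2 * ((n : ℂ) + θ) ^ 2

/-- local analytic families on the sheet `σ` -/
def Kf (σ : ℤ → ℂ) (S : Finset ℤ) (θ z : ℂ) : F.E →L[ℂ] F.E :=
  F.KS S θ z + ∑ n ∈ S, F.kop n (σ n * Complex.I * csq (F.wn n θ z))

/-- outgoing sheet -/
def so : ℤ → ℂ := fun _ => -1

/-- sheet reached from complex quasimomenta -/
def st : ℤ → ℂ := fun n => if 0 ≤ n then 1 else -1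

lemma so_ne (n : ℤ) : so n ≠ 0 := by unfold so; norm_num
lemma st_ne (n : ℤ) : st n ≠ 0 := by unfold st; split_ifs <;> norm_num
lemma so_sq (n : ℤ) : so n ^ 2 = 1 := by unfold so; norm_num
lemma st_sq (n : ℤ) : st n ^ 2 = 1 := by unfold st; split_ifs <;> norm_num

lemma isCompact_sum {ι : Type*} (s : Finset ι) (f : ι → F.E →L[ℂ] F.E) (h : ∀ i ∈ s, IsCompactOperator (f i)) :
    IsCompactOperator (∑ i ∈ s, f i : F.E →L[ℂ] F.E) := by
  classical
  induction s using Finset.induction_on with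
  | empty => rw [Finset.sum_empty]; exact isCompactOperator_zero
  | insert a s ha ih =>
    rw [Finset.sum_insert ha]
    exact (h a (Finset.mem_insert_self a s)).add (ih (fun i hi => h i (Finset.mem_insert_of_mem hi)))

lemma isCompact_Kf (σ : ℤ → ℂ) (S : Finset ℤ) (θ z : ℂ) : IsCompactOperator (F.Kf σ S θ z) :=
  (F.isCompact_KS S θ z).add (F.isCompact_sum S _ (fun n _ => F.isCompact_kop n _))

lemma isCompact_smul_Kf (a : ℂ) (σ : ℤ → ℂ) (S : Finset ℤ) (θ z : ℂ) : IsCompactOperator (a • F.Kf σ S θ z) :=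
  (F.isCompact_Kf σ S θ z).smul a

lemma analyticAt_Kf (σ : ℤ → ℂ) (hσ : ∀ n, σ n ≠ 0) (S : Finset ℤ) (θ0 z0 : ℂ) (hLB : F.LB S θ0 z0)
    (hS : ∀ n ∈ S, F.wn n θ0 z0 ∈ Complex.slitPlane) :
    AnalyticAt ℂ (fun p : ℂ × ℂ => F.Kf σ S p.1 p.2) (θ0, z0) := by
  unfold Kf
  refine (F.analyticAt_KS S θ0 z0 hLB).add ?_
  refine Finset.analyticAt_fun_sum _ (fun n hn => ?_)
  have h1 : AnalyticAt ℂ (fun p : ℂ × ℂ => F.wn n p.1 p.2) (θ0, z0) := by
    unfold wn
    exact analyticAt_snd.sub (analyticAt_const.mul ((analyticAt_const.add analyticAt_fst).pow 2))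
  have h2 : AnalyticAt ℂ (fun p : ℂ × ℂ => csq (F.wn n p.1 p.2)) (θ0, z0) :=
    AnalyticAt.fun_comp (g := csq) (f := fun p : ℂ × ℂ => F.wn n p.1 p.2) (analyticAt_csq _ (hS n hn)) h1
  have h3 : AnalyticAt ℂ (fun p : ℂ × ℂ => σ n * Complex.I * csq (F.wn n p.1 p.2)) (θ0, z0) :=
    analyticAt_const.mul h2
  have h4 : σ n * Complex.I * csq (F.wn n θ0 z0) ≠ 0 :=
    mul_ne_zero (mul_ne_zero (hσ n) Complex.I_ne_zero) (csq_ne_zero _)
  exact AnalyticAt.fun_comp (g := F.kop n) (f := fun p : ℂ × ℂ => σ n * Complex.I * csq (F.wn n p.1 p.2))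
    (F.analyticAt_kop n _ h4) h3

lemma wn_im (n : ℤ) (θ z : ℂ) : (F.wn n θ z).im = z.im - 2 * F.A ^ 2 * (((n : ℝ) + θ.re) * θ.im) := by
  have h := F.sig_im θ (n, 0)
  unfold sig at h
  simp only [Complex.ofReal_zero, ne_eq, OfNat.ofNat_ne_zero, not_false_eq_true, zero_pow, mul_zero, add_zero] at h
  unfold wn
  rw [Complex.sub_im, h]

/-- For real quasimomentum and energy in the upper half plane the outgoing family is the fibre operator. -/
lemma Kf_out_eq (S : Finset ℤ) (θ : ℝ) (z : ℂ) (hz : 0 < z.im) : F.Kf so S θ z = F.KS ∅ θ z := by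
  have him : ∀ n : ℤ, (F.wn n θ z).im = z.im := by intro n; rw [wn_im]; simp
  have hsl : ∀ n : ℤ, F.wn n θ z ∈ Complex.slitPlane := by
    intro n
    rw [Complex.mem_slitPlane_iff]
    right; rw [him n]; exact hz.ne'
  rw [F.KS_split S θ z (F.LB_im θ z hz.ne') (fun n => so n * Complex.I * csq (F.wn n θ z))]
  · rfl
  · intro n _
    have h1 := csq_re_pos _ (hsl n)
    have h2 := csq_im _ (Complex.slitPlane_ne_zero (hsl n))
    rw [him n] at h2
    have h3 : 0 < (csq (F.wn n θ z)).im := by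
      by_contra hcon
      rw [not_lt] at hcon
      nlinarith
    have h4 : (so n * Complex.I * csq (F.wn n θ z)).re = (csq (F.wn n θ z)).im := by
      unfold so
      simp
    rw [h4]; exact h3
  · intro n _
    rw [mul_pow, mul_pow, so_sq, csq_sq _ (Complex.slitPlane_ne_zero (hsl n)), Complex.I_sq, wn]
    ring

/-- For complex quasimomentum and real energy the family `st` is the fibre operator. -/
lemma Kf_til_eq (S : Finset ℤ) (θ : ℂ) (hθ : θ ∈ Dp) (l : ℝ) : F.Kf st S θ l = F.KS ∅ θ l := by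
  obtain ⟨h0, h1, h2⟩ := hθ
  have hA := F.hA
  have him : ∀ n : ℤ, (F.wn n θ l).im = - (2 * F.A ^ 2 * (((n : ℝ) + θ.re) * θ.im)) := by
    intro n; rw [wn_im]; simp
  have hne : ∀ n : ℤ, (F.wn n θ l).im ≠ 0 := by
    intro n
    rw [him n]
    have h3 := abs_int_add_ge n θ.re h0 h1
    have h4 : 0 < min θ.re (1 - θ.re) := lt_min h0 (by linarith)
    have h5 : (n : ℝ) + θ.re ≠ 0 := by
      intro h; rw [h, abs_zero] at h3; linarith
    exact neg_ne_zero.mpr (mul_ne_zero (by positivity) (mul_ne_zero h5 h2.ne'))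
  have hsl : ∀ n : ℤ, F.wn n θ l ∈ Complex.slitPlane := by
    intro n
    rw [Complex.mem_slitPlane_iff]
    right; exact hne n
  rw [F.KS_split S θ l (F.LB_Dp θ ⟨h0, h1, h2⟩ l) (fun n => st n * Complex.I * csq (F.wn n θ l))]
  · rfl
  · intro n _
    have h3 := csq_re_pos _ (hsl n)
    have h4 := csq_im _ (Complex.slitPlane_ne_zero (hsl n))
    rw [him n] at h4
    unfold st
    split_ifs with hn
    · have : (0:ℝ) ≤ n := by exact_mod_cast hn
      have h5 : 0 < (n : ℝ) + θ.re := by linarith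
      have h6 : (1 * Complex.I * csq (F.wn n θ l)).re = -(csq (F.wn n θ l)).im := by simp
      rw [h6]
      have h7 : 0 < 2 * F.A ^ 2 * (((n : ℝ) + θ.re) * θ.im) := by positivity
      by_contra hcon
      rw [not_lt] at hcon
      nlinarith
    · have : (n:ℝ) ≤ -1 := by exact_mod_cast (by omega : n ≤ -1)
      have h5 : 0 < -((n : ℝ) + θ.re) := by linarith
      have h6 : (-1 * Complex.I * csq (F.wn n θ l)).re = (csq (F.wn n θ l)).im := by simp
      rw [h6]
      have h7 : 0 < 2 * F.A ^ 2 * (-((n : ℝ) + θ.re) * θ.im) := by positivity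
      by_contra hcon
      rw [not_lt] at hcon
      nlinarith
  · intro n _
    rw [mul_pow, mul_pow, st_sq, csq_sq _ (Complex.slitPlane_ne_zero (hsl n)), Complex.I_sq, wn]
    ring

/-- rank one kernel -/
def rk (x : ℤ × ℝ) : (ℝ × ℝ) →ᵇ ℂ :=
  BoundedContinuousFunction.ofNormedAddCommGroup (fun p : ℝ × ℝ => conj (F.ph p.1 x) * F.ph p.2 x)
    (by
      have h1 := (F.continuous_ph_left x).comp continuous_fst (X := ℝ × ℝ)
      have h2 := (F.continuous_ph_left x).comp continuous_snd (X := ℝ × ℝ)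
      exact (Complex.continuous_conj.comp h1).mul h2) 1 (fun p => by
      rw [norm_mul, RCLike.norm_conj, F.norm_ph, F.norm_ph, mul_one])

lemma rk_apply (x : ℤ × ℝ) (p : ℝ × ℝ) : F.rk x p = conj (F.ph p.1 x) * F.ph p.2 x := rfl

lemma kerOp_rk (x : ℤ × ℝ) (g : F.E) : F.kerOp (F.rk x) g = F.hat g x • F.eps x := by
  refine ext_inner_left ℂ (fun h => ?_)
  rw [F.inner_kerOp, inner_smul_right, ← F.inner_eps x g, ← inner_conj_symm h (F.eps x), F.inner_eps, F.inner_eps, hat]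
  have h1 : ∀ s, ∫ s', F.rk x (s, s') * g s' ∂F.mu = conj (F.ph s x) * F.hat g x := by
    intro s
    rw [hat, ← integral_const_mul]
    congr 1
    ext s'
    rw [rk_apply]
    ring
  simp_rw [h1]
  rw [hat, hat, ← integral_conj, ← integral_const_mul]
  congr 1
  ext s
  rw [map_mul]
  ring

lemma kch_diff (n : ℤ) (s : ℝ) (hs : s ≠ 0) :
    F.kch n (-1 * Complex.I * s) - F.kch n (1 * Complex.I * s) =
      (π * Complex.I / (F.D * s)) • (F.rk (n, s / F.D) + F.rk (n, -(s / F.D))) := by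
  have hD : (F.D : ℂ) ≠ 0 := by exact_mod_cast F.hD.ne'
  have hs' : (s : ℂ) ≠ 0 := by exact_mod_cast hs
  ext p
  rw [BoundedContinuousFunction.sub_apply, F.kch_apply, F.kch_apply, BoundedContinuousFunction.smul_apply,
    BoundedContinuousFunction.add_apply, F.rk_apply, F.rk_apply]
  have hrk : ∀ y : ℝ, conj (F.ph p.1 (n, y)) * F.ph p.2 (n, y) =
      (conj (F.ph p.1 (n, 0)) * F.ph p.2 (n, 0)) * Complex.exp (((2 * π * (y * (F.g2 p.1 - F.g2 p.2)) : ℝ) : ℂ) * Complex.I) := by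
    intro y
    unfold ph
    rw [← Complex.exp_conj, ← Complex.exp_conj, ← Complex.exp_add, ← Complex.exp_add, ← Complex.exp_add]
    congr 1
    simp only [map_mul, Complex.conj_ofReal, Complex.conj_I]
    push_cast
    ring
  rw [hrk (s / F.D), hrk (-(s / F.D))]
  set P := conj (F.ph p.1 (n, 0)) * F.ph p.2 (n, 0) with hP
  have hc1 : (π / (F.D * (-1 * Complex.I * s)) : ℂ) = π * Complex.I / (F.D * s) := by
    field_simp
    rw [Complex.I_sq]
  have hc2 : (π / (F.D * (1 * Complex.I * s)) : ℂ) = -(π * Complex.I / (F.D * s)) := by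
    field_simp
    rw [Complex.I_sq, neg_neg]
  rw [hc1, hc2, smul_eq_mul]
  have hcase : ∀ Δ : ℝ,
      Complex.exp (-(2 * π * (-1 * Complex.I * s) / F.D * ((|Δ| : ℝ) : ℂ))) + Complex.exp (-(2 * π * (1 * Complex.I * s) / F.D * ((|Δ| : ℝ) : ℂ)))
      = Complex.exp (((2 * π * (s / F.D * Δ) : ℝ) : ℂ) * Complex.I) + Complex.exp (((2 * π * (-(s / F.D) * Δ) : ℝ) : ℂ) * Complex.I) := by
    intro Δ
    rcases le_total 0 Δ with h | h
    · rw [abs_of_nonneg h]
      congr 2
      · push_cast; field_simp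
      · push_cast; field_simp
    · rw [abs_of_nonpos h, add_comm]
      congr 2
      · push_cast; field_simp
      · push_cast; field_simp
  have := hcase (F.g2 p.1 - F.g2 p.2)
  linear_combination (π * Complex.I / (F.D * s) * P) * this

lemma kop_diff (n : ℤ) (s : ℝ) (hs : s ≠ 0) (g : F.E) :
    F.kop n (-1 * Complex.I * s) g - F.kop n (1 * Complex.I * s) g =
      (π * Complex.I / (F.D * s)) • (F.hat g (n, s / F.D) • F.eps (n, s / F.D) + F.hat g (n, -(s / F.D)) • F.eps (n, -(s / F.D))) := by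
  have h1 : F.kop n (-1 * Complex.I * s) g - F.kop n (1 * Complex.I * s) g = F.kerOp (F.kch n (-1 * Complex.I * s) - F.kch n (1 * Complex.I * s)) g := by
    rw [map_sub]; rfl
  rw [h1, F.kch_diff n s hs, map_smul, map_add, smul_apply, add_apply, F.kerOp_rk, F.kerOp_rk]

lemma conj_inner_kerOp (k k' : (ℝ × ℝ) →ᵇ ℂ) (hk : ∀ s s', k' (s, s') = conj (k (s', s))) (h g : F.E) :
    conj ⟪h, F.kerOp k g⟫_ℂ = ⟪g, F.kerOp k' h⟫_ℂ := by
  have hh : Integrable h F.mu := (Lp.memLp h).integrable (by norm_num)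
  have hg : Integrable g F.mu := (Lp.memLp g).integrable (by norm_num)
  rw [F.inner_kerOp, F.inner_kerOp, ← integral_conj]
  have e1 : ∀ s, conj (conj (h s) * ∫ s', k (s, s') * g s' ∂F.mu) = ∫ s', h s * (conj (k (s, s')) * conj (g s')) ∂F.mu := by
    intro s
    rw [map_mul, Complex.conj_conj, ← integral_conj, ← integral_const_mul]
    congr 1
    ext s'
    rw [map_mul]
  have e2 : ∀ s, conj (g s) * ∫ s', k' (s, s') * h s' ∂F.mu = ∫ s', h s' * (conj (k (s', s)) * conj (g s)) ∂F.mu := by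
    intro s
    rw [← integral_const_mul]
    congr 1
    ext s'
    rw [hk]
    ring
  simp_rw [e1, e2]
  rw [integral_integral_swap]
  have h1 : Integrable (fun p : ℝ × ℝ => h p.1 * conj (g p.2)) (F.mu.prod F.mu) := by
    refine Integrable.mul_prod (f := fun s => h s) (g := fun s => conj (g s)) hh ?_
    exact (LinearIsometryEquiv.integrable_comp_iff (Complex.conjLIE)).mpr hg
  have h2 := h1.bdd_mul (f := fun p : ℝ × ℝ => conj (k p)) (c := ‖k‖)
    ((Complex.continuous_conj.comp k.continuous).aestronglyMeasurable)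
    (Eventually.of_forall fun p => by rw [RCLike.norm_conj]; exact k.norm_coe_le_norm _)
  refine h2.congr (Eventually.of_forall fun p => ?_)
  simp only [Function.uncurry]
  ring

lemma conj_inner_kop (n : ℤ) (s : ℝ) (h g : F.E) :
    conj ⟪h, F.kop n (-1 * Complex.I * s) g⟫_ℂ = ⟪g, F.kop n (1 * Complex.I * s) h⟫_ℂ := by
  unfold kop
  refine F.conj_inner_kerOp _ _ (fun s1 s2 => ?_) h g
  rw [F.kch_apply, F.kch_apply]
  simp only [map_mul, map_div₀, Complex.conj_ofReal, Complex.conj_I, map_neg, map_one, Complex.conj_conj, ← Complex.exp_conj,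
    RCLike.conj_ofNat]
  rw [abs_sub_comm (F.g2 s1) (F.g2 s2)]
  have e1 : (-(2 * (π : ℂ) * (1 * Complex.I * s) / F.D * ((|F.g2 s2 - F.g2 s1| : ℝ) : ℂ))) =
     (-(2 * (π : ℂ) * (-1 * -Complex.I * s) / F.D * ((|F.g2 s2 - F.g2 s1| : ℝ) : ℂ))) := by ring
  rw [e1]
  ring

/-- the flux identity -/
lemma im_inner_kop (n : ℤ) (s : ℝ) (hs : 0 < s) (g : F.E) :
    (⟪g, F.kop n (-1 * Complex.I * s) g⟫_ℂ).im =
      π / (2 * F.D * s) * (‖F.hat g (n, s / F.D)‖ ^ 2 + ‖F.hat g (n, -(s / F.D))‖ ^ 2) := by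
  have hD := F.hD
  have h1 := F.conj_inner_kop n s g g
  have h2 := congrArg (fun v => ⟪g, v⟫_ℂ) (F.kop_diff n s hs.ne' g)
  rw [inner_sub_right, ← h1, inner_smul_right, inner_add_right, inner_smul_right, inner_smul_right,
    ← inner_conj_symm g (F.eps _), ← inner_conj_symm g (F.eps (n, -(s / F.D))), F.inner_eps, F.inner_eps,
    Complex.mul_conj, Complex.mul_conj, Complex.sub_conj] at h2
  rw [Complex.normSq_eq_norm_sq, Complex.normSq_eq_norm_sq] at h2
  have h3 : (π * Complex.I / (F.D * s) : ℂ) = ((π / (F.D * s) : ℝ) : ℂ) * Complex.I := by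
    push_cast; ring
  rw [h3] at h2
  have h4 : ((2 * (⟪g, F.kop n (-1 * Complex.I * s) g⟫_ℂ).im : ℝ) : ℂ) =
      ((π / (F.D * s) * (‖F.hat g (n, s / F.D)‖ ^ 2 + ‖F.hat g (n, -(s / F.D))‖ ^ 2) : ℝ) : ℂ) := by
    have h5 : (Complex.I : ℂ) ≠ 0 := Complex.I_ne_zero
    apply mul_right_cancel₀ h5
    rw [h2]
    push_cast
    ring
  have h5 := Complex.ofReal_injective h4
  have h6 : π / (2 * F.D * s) = π / (F.D * s) / 2 := by field_simp
  rw [h6]
  linarith

lemma im_inner_KS (S : Finset ℤ) (θ l : ℝ) (hLB : F.LB S θ l) (g : F.E) : (⟪g, F.KS S θ l g⟫_ℂ).im = 0 := by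
  rw [F.inner_KS S θ l hLB]
  have h1 : conj (∫ x, F.formS S θ l g g x ∂nu) = ∫ x, F.formS S θ l g g x ∂nu := by
    rw [← integral_conj]
    congr 1
    ext x
    unfold formS
    split_ifs with hx
    · simp
    · rw [map_div₀, map_mul, Complex.conj_conj, map_sub, Complex.conj_ofReal]
      have h2 : conj (F.sig θ x) = F.sig θ x := by
        rw [Complex.conj_eq_iff_im, sig_im, Complex.ofReal_im]; ring
      rw [h2, mul_comm]
  exact Complex.conj_eq_iff_im.mp h1

/-- Flux argument: non-invertibility on the outgoing sheet implies non-invertibility on the sheet `st`. -/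
theorem not_isUnit_til (α θ l : ℝ) (hα : α ≠ 0) (S : Finset ℤ) (hLB : F.LB S θ l)
    (hS : ∀ n ∈ S, F.A ^ 2 * ((n : ℝ) + θ) ^ 2 < l) (hbad : ¬ IsUnit (1 - (α : ℂ) • F.Kf so S θ l)) :
    ¬ IsUnit (1 - (α : ℂ) • F.Kf st S θ l) := by
  have hD := F.hD
  -- an eigenvector
  obtain ⟨g, hg0, hg⟩ : ∃ g : F.E, g ≠ 0 ∧ (α : ℂ) • F.Kf so S θ l g = g := by
    have h1 := IsCompactOperator.hasEigenvalue_or_mem_resolventSet (F.isCompact_smul_Kf (α : ℂ) so S θ l) (one_ne_zero (α := ℂ))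
    rcases h1 with h | h
    · obtain ⟨v, hv⟩ := h.exists_hasEigenvector
      refine ⟨v, hv.2, ?_⟩
      have h2 := Module.End.mem_eigenspace_iff.mp hv.1
      rw [one_smul] at h2
      exact h2
    · exfalso
      rw [spectrum.mem_resolventSet_iff, map_one] at h
      exact hbad h
  have hαc : (α : ℂ) ≠ 0 := by exact_mod_cast hα
  have hKg : F.Kf so S θ l g = (α : ℂ)⁻¹ • g := by
    rw [← hg, smul_smul, inv_mul_cancel₀ hαc, one_smul, hg]
  have him : (⟪g, F.Kf so S θ l g⟫_ℂ).im = 0 := by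
    rw [hKg, inner_smul_right, inner_self_eq_norm_sq_to_K]
    have : ((α : ℂ)⁻¹ * ((‖g‖ : ℝ) : ℂ) ^ 2) = ((α⁻¹ * ‖g‖ ^ 2 : ℝ) : ℂ) := by push_cast; ring
    change ((α : ℂ)⁻¹ * ((‖g‖ : ℝ) : ℂ) ^ 2).im = 0
    rw [this, Complex.ofReal_im]
  -- momenta of the open channels
  have hwn : ∀ n : ℤ, F.wn n θ l = ((l - F.A ^ 2 * ((n : ℝ) + θ) ^ 2 : ℝ) : ℂ) := by
    intro n; unfold wn; push_cast; ring
  set s : ℤ → ℝ := fun n => (csq (F.wn n θ l)).re with hs
  have hs1 : ∀ n ∈ S, 0 < s n ∧ csq (F.wn n θ l) = (s n : ℂ) := by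
    intro n hn
    have h1 := csq_real (l - F.A ^ 2 * ((n : ℝ) + θ) ^ 2) (by linarith [hS n hn])
    rw [← hwn n] at h1
    exact h1
  have hsum : F.Kf so S θ l g = F.KS S θ l g + ∑ n ∈ S, F.kop n (-1 * Complex.I * s n) g := by
    unfold Kf
    rw [add_apply, _root_.sum_apply]
    congr 1
    refine Finset.sum_congr rfl (fun n hn => ?_)
    rw [(hs1 n hn).2, so]
  rw [hsum, inner_add_right, inner_sum, Complex.add_im, F.im_inner_KS S θ l hLB, zero_add, Complex.im_sum] at him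
  have hterm : ∀ n ∈ S, (⟪g, F.kop n (-1 * Complex.I * s n) g⟫_ℂ).im =
      π / (2 * F.D * s n) * (‖F.hat g (n, s n / F.D)‖ ^ 2 + ‖F.hat g (n, -(s n / F.D))‖ ^ 2) :=
    fun n hn => F.im_inner_kop n (s n) (hs1 n hn).1 g
  rw [Finset.sum_congr rfl hterm] at him
  have hnn : ∀ n ∈ S, 0 ≤ π / (2 * F.D * s n) * (‖F.hat g (n, s n / F.D)‖ ^ 2 + ‖F.hat g (n, -(s n / F.D))‖ ^ 2) := by
    intro n hn
    have := (hs1 n hn).1
    have := Real.pi_pos
    positivity
  have hz := (Finset.sum_eq_zero_iff_of_nonneg hnn).mp him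
  have hzero : ∀ n ∈ S, F.hat g (n, s n / F.D) = 0 ∧ F.hat g (n, -(s n / F.D)) = 0 := by
    intro n hn
    have h1 := hz n hn
    have h2 := (hs1 n hn).1
    have h3 : 0 < π / (2 * F.D * s n) := by have := Real.pi_pos; positivity
    rcases mul_eq_zero.mp h1 with h | h
    · linarith
    · have h4 := sq_nonneg ‖F.hat g (n, s n / F.D)‖
      have h5 := sq_nonneg ‖F.hat g (n, -(s n / F.D))‖
      constructor
      · rw [← norm_eq_zero, ← sq_eq_zero_iff]; linarith
      · rw [← norm_eq_zero, ← sq_eq_zero_iff]; linarith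
  have heq : F.Kf st S θ l g = F.Kf so S θ l g := by
    rw [hsum]
    unfold Kf
    rw [add_apply, _root_.sum_apply]
    congr 1
    refine Finset.sum_congr rfl (fun n hn => ?_)
    rw [(hs1 n hn).2, st]
    split_ifs with hn0
    · have h1 := F.kop_diff n (s n) (hs1 n hn).1.ne' g
      rw [(hzero n hn).1, (hzero n hn).2, zero_smul, zero_smul, add_zero, smul_zero, sub_eq_zero] at h1
      exact h1.symm
    · rfl
  intro hu
  have h1 : (1 - (α : ℂ) • F.Kf st S θ l) g = 0 := by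
    rw [sub_apply, smul_apply, one_apply_eq_self, heq, hg, sub_self]
  obtain ⟨u, hu⟩ := hu
  have h2 : (↑u⁻¹ * (u : F.E →L[ℂ] F.E)) g = g := by rw [Units.inv_mul]; rfl
  rw [hu, mul_apply_eq_comp, h1, map_zero] at h2
  exact hg0 h2.symm

end FD

end

end Pool.Agent.Lib.Pdaec8e
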