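import Mathlib

set_option autoImplicit false

open MeasureTheory Filter Topology Complex
open scoped ComplexConjugate ENNReal Real

namespace Pool.Agent.Lib.Pdaec8e

noncomputable section

lemma summable_gauss (c u : ℝ) (hc : 0 < c) :
    Summable (fun n : ℤ => Real.exp (-(c * ((n : ℝ) + u) ^ 2))) := by
  have h1 : Summable (fun n : ℤ => jacobiTheta₂_term n (((c * u / π : ℝ) : ℂ) * I) (((c / π : ℝ) : ℂ) * I)) := by
    rw [summable_jacobiTheta₂_term_iff]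
    simp only [mul_im, ofReal_re, I_im, ofReal_im, I_re]
    have := Real.pi_pos
    simp only [mul_one, mul_zero, add_zero]
    positivity
  have h2 := h1.norm.mul_left (Real.exp (-(c * u ^ 2)))
  refine h2.congr (fun n => ?_)
  rw [norm_jacobiTheta₂_term, ← Real.exp_add]
  congr 1
  simp only [mul_im, ofReal_re, I_im, ofReal_im, I_re]
  have := Real.pi_pos.ne'
  field_simp
  ring

lemma norm_tsum_gauss_le (t a u : ℝ) (ht : 0 < t) :
    ‖∑' n : ℤ, cexp ((-(t * ((n : ℝ) - a) ^ 2) : ℝ) : ℂ) * cexp (((-(2 * π * (n * u)) : ℝ) : ℂ) * I)‖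
      ≤ Real.sqrt (π / t) * ∑' k : ℤ, Real.exp (-(π ^ 2 / t * ((k : ℝ) + u) ^ 2)) := by
  have hpi := Real.pi_pos
  have hpi' : (π : ℂ) ≠ 0 := by exact_mod_cast hpi.ne'
  have ht' : (t : ℂ) ≠ 0 := by exact_mod_cast ht.ne'
  have hA : 0 < (((t / π : ℝ) : ℂ)).re := by
    rw [ofReal_re]; positivity
  have key := Complex.tsum_exp_neg_quadratic hA (((t * a / π : ℝ) : ℂ) - I * u)
  have e1 : ∀ n : ℤ, cexp ((-(t * ((n : ℝ) - a) ^ 2) : ℝ) : ℂ) * cexp (((-(2 * π * (n * u)) : ℝ) : ℂ) * I)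
      = cexp ((-(t * a ^ 2) : ℝ) : ℂ) *
        cexp (-π * ((t / π : ℝ) : ℂ) * n ^ 2 + 2 * π * (((t * a / π : ℝ) : ℂ) - I * u) * n) := by
    intro n
    rw [← Complex.exp_add, ← Complex.exp_add]
    congr 1
    push_cast
    field_simp
    ring
  simp_rw [e1]
  rw [tsum_mul_left, key, norm_mul, norm_mul]
  have e2 : ∀ n : ℤ, ‖cexp (-π / ((t / π : ℝ) : ℂ) * (n + I * (((t * a / π : ℝ) : ℂ) - I * u)) ^ 2)‖
      = Real.exp (t * a ^ 2) * Real.exp (-(π ^ 2 / t * ((n : ℝ) + u) ^ 2)) := by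
    intro n
    rw [Complex.norm_exp, ← Real.exp_add]
    congr 1
    have : (-π / ((t / π : ℝ) : ℂ) * (n + I * (((t * a / π : ℝ) : ℂ) - I * u)) ^ 2) =
       (((t * a ^ 2 + -(π ^ 2 / t * ((n : ℝ) + u) ^ 2) : ℝ)) : ℂ) + ((-(2 * π * a * ((n : ℝ) + u)) : ℝ) : ℂ) * I := by
      push_cast
      have hI : I ^ 2 = -1 := I_sq
      have : (n : ℂ) + I * ((t : ℂ) * a / π - I * u) = (n + u) + I * (t * a / π) := by
        linear_combination (- (u : ℂ)) * hI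
      rw [this]
      field_simp
      linear_combination (-(t:ℂ)^2 * a ^ 2) * hI
    rw [this, add_re, ofReal_re, re_ofReal_mul, I_re, mul_zero, add_zero]
  have hs : Summable (fun n : ℤ => ‖cexp (-π / ((t / π : ℝ) : ℂ) * (n + I * (((t * a / π : ℝ) : ℂ) - I * u)) ^ 2)‖) := by
    simp_rw [e2]
    exact (summable_gauss _ _ (by positivity)).mul_left _
  have h3 := norm_tsum_le_tsum_norm hs
  simp_rw [e2] at h3
  rw [tsum_mul_left] at h3
  have e3 : ‖cexp ((-(t * a ^ 2) : ℝ) : ℂ)‖ = Real.exp (-(t * a ^ 2)) := by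
    rw [Complex.norm_exp, ofReal_re]
  have e4 : ‖(1 : ℂ) / ((t / π : ℝ) : ℂ) ^ (1 / 2 : ℂ)‖ = Real.sqrt (π / t) := by
    rw [norm_div, norm_one, Complex.norm_cpow_eq_rpow_re_of_pos (by positivity)]
    have : (1 / 2 : ℂ).re = 1 / 2 := by
      norm_num
    rw [this, ← Real.sqrt_eq_rpow, one_div, ← Real.sqrt_inv, inv_div]
  rw [e3, e4]
  calc Real.exp (-(t * a ^ 2)) * (Real.sqrt (π / t) * ‖∑' n : ℤ, cexp (-π / ((t / π : ℝ) : ℂ) * (n + I * (((t * a / π : ℝ) : ℂ) - I * u)) ^ 2)‖)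
      ≤ Real.exp (-(t * a ^ 2)) * (Real.sqrt (π / t) * (Real.exp (t * a ^ 2) * ∑' k : ℤ, Real.exp (-(π ^ 2 / t * ((k : ℝ) + u) ^ 2)))) := by
        gcongr
    _ = (Real.exp (-(t * a ^ 2)) * Real.exp (t * a ^ 2)) * (Real.sqrt (π / t) * ∑' k : ℤ, Real.exp (-(π ^ 2 / t * ((k : ℝ) + u) ^ 2))) := by ring
    _ = _ := by rw [← Real.exp_add]; simp

lemma norm_integral_gauss_le (t b v : ℝ) (ht : 0 < t) :
    ‖∫ y : ℝ, cexp ((-(t * (y - b) ^ 2) : ℝ) : ℂ) * cexp (((-(2 * π * (y * v)) : ℝ) : ℂ) * I)‖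
      = Real.sqrt (π / t) * Real.exp (-(π ^ 2 / t * v ^ 2)) := by
  have hpi := Real.pi_pos
  have hpi' : (π : ℂ) ≠ 0 := by exact_mod_cast hpi.ne'
  have ht' : (t : ℂ) ≠ 0 := by exact_mod_cast ht.ne'
  have e1 : ∀ y : ℝ, cexp ((-(t * (y - b) ^ 2) : ℝ) : ℂ) * cexp (((-(2 * π * (y * v)) : ℝ) : ℂ) * I)
      = cexp ((-t : ℂ) * y ^ 2 + (2 * t * b - 2 * π * v * I) * y + (-(t * b ^ 2) : ℂ)) := by
    intro n
    rw [← Complex.exp_add]
    congr 1
    push_cast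
    ring
  simp_rw [e1]
  rw [integral_cexp_quadratic (by simpa using ht), norm_mul]
  have e4 : ‖((π : ℂ) / -(-t : ℂ)) ^ (1 / 2 : ℂ)‖ = Real.sqrt (π / t) := by
    rw [neg_neg, ← ofReal_div, Complex.norm_cpow_eq_rpow_re_of_pos (by positivity)]
    have : (1 / 2 : ℂ).re = 1 / 2 := by
      norm_num
    rw [this, ← Real.sqrt_eq_rpow]
  rw [e4]
  congr 1
  rw [Complex.norm_exp]
  congr 1
  have : (-(t * b ^ 2) : ℂ) - (2 * t * b - 2 * π * v * I) ^ 2 / (4 * (-t : ℂ)) =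
     ((-(π ^ 2 / t * v ^ 2) : ℝ) : ℂ) + ((-(2 * π * b * v) : ℝ) : ℂ) * I := by
    push_cast
    have hI : I ^ 2 = -1 := I_sq
    field_simp
    linear_combination (4 * (π:ℂ)^2 * v ^ 2) * hI
  rw [this, add_re, ofReal_re, re_ofReal_mul, I_re, mul_zero, add_zero]

end

end Pool.Agent.Lib.Pdaec8e
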