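import Pool.Agent.Lib.Pdaec8e.FD

set_option autoImplicit false

open MeasureTheory Filter Topology Complex
open scoped ComplexConjugate ENNReal Real

namespace Pool.Agent.Lib.Pdaec8e

noncomputable section

/-- the Gaussian weight on `ℤ × ℝ` -/
def gw (t a b : ℝ) (x : ℤ × ℝ) : ℝ :=
  Real.exp (-(t * ((x.1 : ℝ) - a) ^ 2)) * Real.exp (-(t * (x.2 - b) ^ 2))

lemma gw_pos (t a b : ℝ) (x : ℤ × ℝ) : 0 < gw t a b x := by
  unfold gw; positivity

lemma measurable_gw (t a b : ℝ) : Measurable (gw t a b) := by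
  unfold gw
  have h3 : Measurable (fun p : ℤ × ℝ => ((p.1 : ℤ) : ℝ)) :=
    (measurable_from_top (f := fun n : ℤ => (n : ℝ))).comp measurable_fst
  fun_prop

lemma integrable_gw (t a b : ℝ) (ht : 0 < t) : Integrable (gw t a b) nu := by
  unfold gw
  have h1 : Integrable (fun n : ℤ => Real.exp (-(t * ((n : ℝ) - a) ^ 2))) Measure.count := by
    rw [integrable_count_iff]
    refine (summable_gauss t (-a) ht).congr (fun n => ?_)
    rw [Real.norm_eq_abs, abs_of_pos (Real.exp_pos _)]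
    congr 1
  have h2 : Integrable (fun y : ℝ => Real.exp (-(t * (y - b) ^ 2))) := by
    have := (integrable_exp_neg_mul_sq (b := t) ht).comp_sub_right b
    simpa [neg_mul] using this
  exact h1.mul_prod h2

namespace FD

variable (F : FD)

instance : IsFiniteMeasure F.mu := by
  constructor
  simp

/-- Fourier transform along the curve over one period -/
def hat (g : ℝ → ℂ) (x : ℤ × ℝ) : ℂ := ∫ s, F.ph s x * g s ∂F.mu

lemma measurable_ph_left (x : ℤ × ℝ) : Measurable (fun s => F.ph s x) := by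
  have h : Measurable (fun s : ℝ => (s, x)) := by fun_prop
  have h2 := F.measurable_ph.comp h
  exact h2

lemma integrable_ph_mul (g : ℝ → ℂ) (hg : Integrable g F.mu) (x : ℤ × ℝ) :
    Integrable (fun s => F.ph s x * g s) F.mu := by
  refine hg.bdd_mul (c := 1) (F.measurable_ph_left x).aestronglyMeasurable ?_
  exact Eventually.of_forall fun s => (F.norm_ph s x).le

lemma norm_hat_le (g : ℝ → ℂ) (x : ℤ × ℝ) :
    ‖F.hat g x‖ ≤ ∫ s, ‖g s‖ ∂F.mu := by
  refine (norm_integral_le_integral_norm _).trans (le_of_eq ?_)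
  congr 1
  ext s
  rw [norm_mul, F.norm_ph, one_mul]

lemma measurable_hat (g : ℝ → ℂ) (hg : AEStronglyMeasurable g F.mu) : StronglyMeasurable (F.hat g) := by
  have h0 : F.hat g = F.hat (hg.mk g) := by
    ext x
    unfold hat
    refine integral_congr_ae ?_
    filter_upwards [hg.ae_eq_mk] with s hs
    rw [hs]
  rw [h0]
  unfold hat
  have : StronglyMeasurable (fun p : (ℤ × ℝ) × ℝ => F.ph p.2 p.1 * hg.mk g p.2) := by
    refine StronglyMeasurable.mul ?_ ?_
    · exact (F.measurable_ph.comp measurable_swap).stronglyMeasurable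
    · exact hg.stronglyMeasurable_mk.comp_measurable measurable_snd
  exact this.integral_prod_right

/-- the kernel estimate -/
lemma norm_kernel_le (t a b s s' : ℝ) (ht : 0 < t) :
    ‖∫ x, (gw t a b x : ℂ) * (F.ph s x * conj (F.ph s' x)) ∂nu‖ ≤ F.Kt t (s - s') := by
  set u := F.g1 s - F.g1 s' with hu
  set v := F.g2 s - F.g2 s' with hv
  have hpi := Real.pi_pos
  have hc := F.hc
  have e1 : ∀ x : ℤ × ℝ, (gw t a b x : ℂ) * (F.ph s x * conj (F.ph s' x)) =
      (fun n : ℤ => cexp ((-(t * ((n : ℝ) - a) ^ 2) : ℝ) : ℂ) * cexp (((-(2 * π * (n * u)) : ℝ) : ℂ) * I)) x.1 *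
      (fun y : ℝ => cexp ((-(t * (y - b) ^ 2) : ℝ) : ℂ) * cexp (((-(2 * π * (y * v)) : ℝ) : ℂ) * I)) x.2 := by
    intro x
    simp only [gw, ph]
    rw [← Complex.exp_conj]
    simp only [map_mul, conj_ofReal, conj_I]
    push_cast
    rw [← Complex.exp_add, ← Complex.exp_add, ← Complex.exp_add, ← Complex.exp_add, ← Complex.exp_add, ← Complex.exp_add]
    congr 1
    rw [hu, hv]
    push_cast
    ring
  have e2 : ∫ x, (gw t a b x : ℂ) * (F.ph s x * conj (F.ph s' x)) ∂nu =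
      (∫ n : ℤ, cexp ((-(t * ((n : ℝ) - a) ^ 2) : ℝ) : ℂ) * cexp (((-(2 * π * (n * u)) : ℝ) : ℂ) * I) ∂Measure.count) *
      (∫ y : ℝ, cexp ((-(t * (y - b) ^ 2) : ℝ) : ℂ) * cexp (((-(2 * π * (y * v)) : ℝ) : ℂ) * I)) := by
    rw [← integral_prod_mul]
    exact integral_congr_ae (Eventually.of_forall e1)
  rw [e2, norm_mul]
  have hint : Integrable (fun n : ℤ => cexp ((-(t * ((n : ℝ) - a) ^ 2) : ℝ) : ℂ) * cexp (((-(2 * π * (n * u)) : ℝ) : ℂ) * I)) Measure.count := by
    rw [integrable_count_iff]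
    refine (summable_gauss t (-a) ht).congr (fun n => ?_)
    rw [norm_mul, Complex.norm_exp_ofReal_mul_I, mul_one, Complex.norm_exp, ofReal_re]
    congr 1
  rw [integral_countable hint]
  simp only [Measure.real, Measure.count_singleton, ENNReal.toReal_one, one_smul]
  rw [norm_integral_gauss_le t b v ht]
  have h1 := norm_tsum_gauss_le t a u ht
  calc _ ≤ (Real.sqrt (π / t) * ∑' k : ℤ, Real.exp (-(π ^ 2 / t * ((k : ℝ) + u) ^ 2))) *
        (Real.sqrt (π / t) * Real.exp (-(π ^ 2 / t * v ^ 2))) := by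
        gcongr
    _ = (Real.sqrt (π / t) * Real.sqrt (π / t)) * ((∑' k : ℤ, Real.exp (-(π ^ 2 / t * ((k : ℝ) + u) ^ 2))) * Real.exp (-(π ^ 2 / t * v ^ 2))) := by ring
    _ = π / t * (∑' k : ℤ, Real.exp (-(π ^ 2 / t * ((k : ℝ) + u) ^ 2)) * Real.exp (-(π ^ 2 / t * v ^ 2))) := by
        rw [Real.mul_self_sqrt (by positivity), tsum_mul_right]
    _ ≤ F.Kt t (s - s') := by
        unfold Kt
        refine mul_le_mul_of_nonneg_left ?_ (by positivity)
        refine Summable.tsum_le_tsum (fun k => ?_) ?_ (F.summable_Kt t _ ht)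
        · rw [← Real.exp_add]
          refine Real.exp_le_exp.mpr ?_
          have h2 := F.chord (s + k * F.L) s'
          rw [F.g1_add, F.g2_add] at h2
          have h3 : π ^ 2 * F.c / t * (s - s' + k * F.L) ^ 2 = π ^ 2 / t * (F.c * (s + k * F.L - s') ^ 2) := by
            ring
          rw [h3]
          have h4 : 0 ≤ π ^ 2 / t := by positivity
          have h5 : π ^ 2 / t * (F.c * (s + k * F.L - s') ^ 2) ≤ π ^ 2 / t * ((k + u) ^ 2 + v ^ 2) := by
            refine mul_le_mul_of_nonneg_left ?_ h4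
            have : (F.g1 s + k - F.g1 s') = k + u := by rw [hu]; ring
            rw [this, ← hv] at h2
            exact h2
          rw [mul_add] at h5
          linarith
        · exact (summable_gauss _ _ (by positivity)).mul_right _

/-- The basic Gaussian estimate `(E_t)`. -/
theorem gauss_bound (g : ℝ → ℂ) (hg : MemLp g 2 F.mu) (t a b : ℝ) (ht : 0 < t) :
    ∫⁻ x, ‖F.hat g x‖ₑ ^ 2 * ENNReal.ofReal (gw t a b x) ∂nu ≤
      ENNReal.ofReal (Real.sqrt (π / (F.c * t))) * ∫⁻ s, ‖g s‖ₑ ^ 2 ∂F.mu := by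
  have hg1 : Integrable g F.mu := hg.integrable (by norm_num)
  set C := ∫ s, ‖g s‖ ∂F.mu with hC
  have hmeas := F.measurable_hat g hg.1
  have hint : Integrable (fun x => ‖F.hat g x‖ ^ 2 * gw t a b x) nu := by
    refine (integrable_gw t a b ht).bdd_mul (c := C ^ 2) (hmeas.norm.pow 2).aestronglyMeasurable ?_
    refine Eventually.of_forall fun x => ?_
    rw [Real.norm_eq_abs, abs_of_nonneg (by positivity)]
    exact pow_le_pow_left₀ (norm_nonneg _) (F.norm_hat_le g x) 2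
  have e1 : ∫⁻ x, ‖F.hat g x‖ₑ ^ 2 * ENNReal.ofReal (gw t a b x) ∂nu =
      ENNReal.ofReal (∫ x, ‖F.hat g x‖ ^ 2 * gw t a b x ∂nu) := by
    rw [ofReal_integral_eq_lintegral_ofReal hint (Eventually.of_forall fun x => mul_nonneg (by positivity) (gw_pos t a b x).le)]
    congr 1
    ext x
    rw [ENNReal.ofReal_mul (by positivity), ENNReal.ofReal_pow (norm_nonneg _), ofReal_norm]
  rw [e1]
  -- complex form and Fubini
  have e2 : ((∫ x, ‖F.hat g x‖ ^ 2 * gw t a b x ∂nu : ℝ) : ℂ) =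
      ∫ p : ℝ × ℝ, (g p.1 * conj (g p.2)) * (∫ x, (gw t a b x : ℂ) * (F.ph p.1 x * conj (F.ph p.2 x)) ∂nu) ∂(F.mu.prod F.mu) := by
    rw [show ((∫ x, ‖F.hat g x‖ ^ 2 * gw t a b x ∂nu : ℝ) : ℂ) =
      ∫ x, ((‖F.hat g x‖ ^ 2 * gw t a b x : ℝ) : ℂ) ∂nu from (integral_ofReal (𝕜 := ℂ)).symm]
    have e3 : ∀ x, ((‖F.hat g x‖ ^ 2 * gw t a b x : ℝ) : ℂ) =
        ∫ p : ℝ × ℝ, (gw t a b x : ℂ) * ((F.ph p.1 x * g p.1) * conj (F.ph p.2 x * g p.2)) ∂(F.mu.prod F.mu) := by
      intro x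
      rw [integral_const_mul, integral_prod_mul (fun s => F.ph s x * g s) (fun s => conj (F.ph s x * g s)),
        integral_conj]
      change _ = (gw t a b x : ℂ) * (F.hat g x * conj (F.hat g x))
      rw [Complex.mul_conj, Complex.normSq_eq_norm_sq]
      push_cast
      ring
    simp_rw [e3]
    rw [integral_integral_swap]
    · congr 1
      ext p
      rw [← integral_const_mul]
      congr 1
      ext x
      rw [map_mul]
      ring
    · have hbig : Integrable (fun q : (ℤ × ℝ) × (ℝ × ℝ) => (gw t a b q.1 : ℂ) * (g q.2.1 * conj (g q.2.2))) (nu.prod (F.mu.prod F.mu)) := by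
        refine Integrable.mul_prod (f := fun x => (gw t a b x : ℂ)) (g := fun p : ℝ × ℝ => g p.1 * conj (g p.2)) ?_ ?_
        · exact (integrable_gw t a b ht).ofReal
        · refine Integrable.mul_prod (f := fun s => g s) (g := fun s => conj (g s)) hg1 ?_
          exact (LinearIsometryEquiv.integrable_comp_iff (Complex.conjLIE)).mpr hg1
      have hph : AEStronglyMeasurable (fun q : (ℤ × ℝ) × (ℝ × ℝ) => F.ph q.2.1 q.1 * conj (F.ph q.2.2 q.1)) (nu.prod (F.mu.prod F.mu)) := by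
        have hp1 := F.measurable_ph.comp (by fun_prop : Measurable (fun q : (ℤ × ℝ) × (ℝ × ℝ) => (q.2.1, q.1)))
        have hp2 := F.measurable_ph.comp (by fun_prop : Measurable (fun q : (ℤ × ℝ) × (ℝ × ℝ) => (q.2.2, q.1)))
        have hp3 := Complex.continuous_conj.measurable.comp hp2
        have hp4 := hp1.mul hp3
        exact hp4.aestronglyMeasurable
      have := hbig.bdd_mul (c := 1) hph (Eventually.of_forall fun q => by
        rw [norm_mul, RCLike.norm_conj, F.norm_ph, F.norm_ph, mul_one])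
      refine this.congr (Eventually.of_forall fun q => ?_)
      simp only [Function.uncurry]
      rw [map_mul]
      ring
  have e4 : ENNReal.ofReal (∫ x, ‖F.hat g x‖ ^ 2 * gw t a b x ∂nu) =
      ‖((∫ x, ‖F.hat g x‖ ^ 2 * gw t a b x ∂nu : ℝ) : ℂ)‖ₑ := by
    rw [← ofReal_norm, Complex.norm_real, Real.norm_eq_abs, abs_of_nonneg]
    exact integral_nonneg fun x => mul_nonneg (by positivity) (gw_pos t a b x).le
  rw [e4, e2]
  refine (enorm_integral_le_lintegral_enorm _).trans ?_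
  have e5 : ∀ p : ℝ × ℝ, ‖(g p.1 * conj (g p.2)) * (∫ x, (gw t a b x : ℂ) * (F.ph p.1 x * conj (F.ph p.2 x)) ∂nu)‖ₑ
      ≤ (‖g p.1‖ₑ ^ 2 * (2⁻¹ * ENNReal.ofReal (F.Kt t (p.2 - p.1)))) + (‖g p.2‖ₑ ^ 2 * (2⁻¹ * ENNReal.ofReal (F.Kt t (p.1 - p.2)))) := by
    intro p
    have h1 := F.norm_kernel_le t a b p.1 p.2 ht
    have h2 : F.Kt t (p.2 - p.1) = F.Kt t (p.1 - p.2) := by
      rw [← F.Kt_neg t (p.1 - p.2), neg_sub]
    rw [h2]
    rw [← ofReal_norm, norm_mul, norm_mul, RCLike.norm_conj]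
    have h3 : ‖g p.1‖ * ‖g p.2‖ * ‖∫ x, (gw t a b x : ℂ) * (F.ph p.1 x * conj (F.ph p.2 x)) ∂nu‖ ≤
       ‖g p.1‖ ^ 2 * (2⁻¹ * F.Kt t (p.1 - p.2)) + ‖g p.2‖ ^ 2 * (2⁻¹ * F.Kt t (p.1 - p.2)) := by
      have h4 := F.Kt_nonneg t (p.1 - p.2) ht
      calc _ ≤ ‖g p.1‖ * ‖g p.2‖ * F.Kt t (p.1 - p.2) := by gcongr
        _ ≤ ((‖g p.1‖ ^ 2 + ‖g p.2‖ ^ 2) / 2) * F.Kt t (p.1 - p.2) := by
          refine mul_le_mul_of_nonneg_right ?_ h4
          nlinarith [sq_nonneg (‖g p.1‖ - ‖g p.2‖)]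
        _ = _ := by ring
    refine (ENNReal.ofReal_le_ofReal h3).trans (le_of_eq ?_)
    have h4 := F.Kt_nonneg t (p.1 - p.2) ht
    rw [ENNReal.ofReal_add (by positivity) (by positivity), ENNReal.ofReal_mul (by positivity),
      ENNReal.ofReal_mul (by positivity), ENNReal.ofReal_mul (by positivity), ENNReal.ofReal_pow (norm_nonneg _),
      ENNReal.ofReal_pow (norm_nonneg _), ofReal_norm, ofReal_norm]
    simp [ENNReal.ofReal_inv_of_pos]
  refine (lintegral_mono e5).trans ?_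
  have hKm : Measurable (F.Kt t) := by
    unfold Kt
    refine Measurable.const_mul ?_ _
    refine Measurable.tsum (fun k => by fun_prop)
  have hgm : AEMeasurable (fun s => ‖g s‖ₑ ^ 2) F.mu := hg.1.enorm.pow_const 2
  rw [lintegral_add_left']
  swap
  · refine AEMeasurable.mul ?_ ?_
    · exact hgm.comp_quasiMeasurePreserving Measure.quasiMeasurePreserving_fst
    · fun_prop
  rw [lintegral_prod, lintegral_prod_symm]
  rotate_left
  · refine AEMeasurable.mul ?_ ?_
    · exact hgm.comp_quasiMeasurePreserving Measure.quasiMeasurePreserving_snd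
    · fun_prop
  · refine AEMeasurable.mul ?_ ?_
    · exact hgm.comp_quasiMeasurePreserving Measure.quasiMeasurePreserving_fst
    · fun_prop
  have e6 : ∀ s : ℝ, ∫⁻ s', ‖g s‖ₑ ^ 2 * (2⁻¹ * ENNReal.ofReal (F.Kt t (s' - s))) ∂F.mu =
      (2⁻¹ * ENNReal.ofReal (Real.sqrt (π / (F.c * t)))) * ‖g s‖ₑ ^ 2 := by
    intro s
    rw [lintegral_const_mul _ (by fun_prop), lintegral_const_mul _ (by fun_prop), F.lintegral_Kt t s ht]
    ring
  simp only [e6]
  rw [lintegral_const_mul'' _ hgm, ← add_mul, ← add_mul, ENNReal.inv_two_add_inv_two, one_mul]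

end FD

end

end Pool.Agent.Lib.Pdaec8e
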