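import Mathlib

set_option autoImplicit false

open MeasureTheory Filter Topology
open scoped NNReal ENNReal

namespace Pool.Agent.Lib.Pdaec8e

noncomputable section

/-- A planar relation is thin if it transports null sets to null sets. -/
def Thin (Z : Set (ℝ × ℝ)) : Prop :=
  ∀ N : Set ℝ, volume N = 0 → volume {θ : ℝ | ∃ l ∈ N, (θ, l) ∈ Z} = 0

lemma Thin.mono {Z Z' : Set (ℝ × ℝ)} (h : Thin Z') (hs : Z ⊆ Z') : Thin Z := by
  intro N hN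
  refine measure_mono_null ?_ (h N hN)
  rintro θ ⟨l, hl, hz⟩
  exact ⟨l, hl, hs hz⟩

lemma Thin.iUnion {ι : Type*} [Countable ι] {Z : ι → Set (ℝ × ℝ)} (h : ∀ i, Thin (Z i)) : Thin (⋃ i, Z i) := by
  intro N hN
  have : {θ : ℝ | ∃ l ∈ N, (θ, l) ∈ ⋃ i, Z i} = ⋃ i, {θ : ℝ | ∃ l ∈ N, (θ, l) ∈ Z i} := by
    ext θ
    simp only [Set.mem_ofPred_eq, Set.mem_iUnion]
    constructor
    · rintro ⟨l, hl, i, hi⟩; exact ⟨i, l, hl, hi⟩
    · rintro ⟨i, l, hl, hi⟩; exact ⟨l, hl, i, hi⟩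
  rw [this]
  exact measure_iUnion_null fun i => h i N hN

lemma Thin.of_local {Z : Set (ℝ × ℝ)} (h : ∀ p ∈ Z, ∃ V ∈ 𝓝 p, Thin (Z ∩ V)) : Thin Z := by
  choose! V hV hT using h
  obtain ⟨t, ht, htc, hcov⟩ := TopologicalSpace.countable_cover_nhdsWithin (s := Z) (f := V)
    (fun x hx => mem_nhdsWithin_of_mem_nhds (hV x hx))
  have : Countable t := htc
  have h2 : Thin (⋃ x : t, (Z ∩ V x)) := Thin.iUnion (fun x => hT x (ht x.2))
  refine h2.mono (fun q hq => ?_)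
  obtain ⟨x, hx, hqx⟩ := Set.mem_iUnion₂.mp (hcov hq)
  exact Set.mem_iUnion.mpr ⟨⟨x, hx⟩, hq, hqx⟩

lemma thin_of_lipschitz (Z : Set (ℝ × ℝ)) (C : ℝ≥0)
    (h : ∀ p ∈ Z, ∀ q ∈ Z, |p.1 - q.1| ≤ C * |p.2 - q.2|) : Thin Z := by
  classical
  intro N hN
  set T : Set ℝ := {l | l ∈ N ∧ ∃ θ, (θ, l) ∈ Z} with hT
  set φ : ℝ → ℝ := fun l => if hl : ∃ θ, (θ, l) ∈ Z then hl.choose else 0 with hφ
  have hφZ : ∀ l, (∃ θ, (θ, l) ∈ Z) → (φ l, l) ∈ Z := by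
    intro l hl
    simp only [hφ, hl, dif_pos]
    exact hl.choose_spec
  have hlip : LipschitzOnWith C φ T := by
    refine LipschitzOnWith.of_dist_le_mul (fun x hx y hy => ?_)
    rw [Real.dist_eq, Real.dist_eq]
    exact h (φ x, x) (hφZ x hx.2) (φ y, y) (hφZ y hy.2)
  have hsub : {θ : ℝ | ∃ l ∈ N, (θ, l) ∈ Z} ⊆ φ '' T := by
    rintro θ ⟨l, hl, hz⟩
    refine ⟨l, ⟨hl, θ, hz⟩, ?_⟩
    have h1 := h (θ, l) hz (φ l, l) (hφZ l ⟨θ, hz⟩)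
    simp only [sub_self, abs_zero, mul_zero] at h1
    have h2 : θ - φ l = 0 := by
      rw [← abs_eq_zero]
      exact le_antisymm h1 (abs_nonneg _)
    linarith
  have h3 := hlip.hausdorffMeasure_image_le (d := 1) zero_le_one
  rw [hausdorffMeasure_real] at h3
  have h4 : volume T = 0 := measure_mono_null (fun l hl => hl.1) hN
  rw [h4, mul_zero] at h3
  exact measure_mono_null hsub (le_antisymm h3 bot_le)

/-- transversal zero sets are locally thin -/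
lemma thin_near (u : ℂ × ℂ → ℂ) (p : ℝ × ℝ) (hu : AnalyticAt ℂ u ((p.1 : ℂ), (p.2 : ℂ)))
    (hd : fderiv ℂ u ((p.1 : ℂ), (p.2 : ℂ)) (1, 0) ≠ 0) :
    ∃ V ∈ 𝓝 p, Thin {q | q ∈ V ∧ u ((q.1 : ℂ), (q.2 : ℂ)) = 0} := by
  set P : ℂ × ℂ := ((p.1 : ℂ), (p.2 : ℂ)) with hP
  set L := fderiv ℂ u P with hL
  set a : ℝ := ‖L (1, 0)‖ with ha
  set b : ℝ := ‖L (0, 1)‖ with hb
  have ha0 : 0 < a := norm_pos_iff.mpr hd
  have hb0 : 0 ≤ b := norm_nonneg _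
  have hs : HasStrictFDerivAt u L P := hu.hasStrictFDerivAt
  have h1 := hs.isLittleO.def (half_pos ha0)
  rw [nhds_prod_eq, eventually_prod_iff] at h1
  obtain ⟨pa, hpa, pb, hpb, h1⟩ := h1
  set W : Set (ℂ × ℂ) := {x | pa x ∧ pb x} with hW
  have hWn : W ∈ 𝓝 P := hpa.and hpb
  let ι : ℝ × ℝ → ℂ × ℂ := fun q => ((q.1 : ℂ), (q.2 : ℂ))
  have hι : Continuous ι := by fun_prop
  refine ⟨ι ⁻¹' W, hι.continuousAt hWn, ?_⟩
  have hC : 0 ≤ (b + a / 2) / (a / 2) := by positivity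
  refine thin_of_lipschitz _ ⟨(b + a / 2) / (a / 2), hC⟩ ?_
  rintro q ⟨hq, hq0⟩ r ⟨hr, hr0⟩
  have h2 := h1 hq.1 hr.2
  simp only [ι] at h2
  rw [hq0, hr0, sub_zero, zero_sub, norm_neg] at h2
  have e1 : (((q.1 : ℂ), (q.2 : ℂ)) : ℂ × ℂ) - ((r.1 : ℂ), (r.2 : ℂ)) =
      ((q.1 - r.1 : ℝ) : ℂ) • ((1, 0) : ℂ × ℂ) + ((q.2 - r.2 : ℝ) : ℂ) • ((0, 1) : ℂ × ℂ) := by
    ext <;> simp
  have e2 : ‖(((q.1 : ℂ), (q.2 : ℂ)) : ℂ × ℂ) - ((r.1 : ℂ), (r.2 : ℂ))‖ ≤ |q.1 - r.1| + |q.2 - r.2| := by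
    rw [Prod.norm_def]
    simp only [Prod.fst_sub, Prod.snd_sub]
    rw [← Complex.ofReal_sub, ← Complex.ofReal_sub, Complex.norm_real, Complex.norm_real, Real.norm_eq_abs, Real.norm_eq_abs]
    exact max_le (le_add_of_nonneg_right (abs_nonneg _)) (le_add_of_nonneg_left (abs_nonneg _))
  rw [e1, map_add, map_smul, map_smul] at h2
  have h3 : |q.1 - r.1| * a ≤ ‖((q.1 - r.1 : ℝ) : ℂ) • L (1, 0) + ((q.2 - r.2 : ℝ) : ℂ) • L (0, 1)‖ + |q.2 - r.2| * b := by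
    have e3 : ((q.1 - r.1 : ℝ) : ℂ) • L (1, 0) = (((q.1 - r.1 : ℝ) : ℂ) • L (1, 0) + ((q.2 - r.2 : ℝ) : ℂ) • L (0, 1)) - ((q.2 - r.2 : ℝ) : ℂ) • L (0, 1) := by abel
    have e4 : ‖((q.1 - r.1 : ℝ) : ℂ) • L (1, 0)‖ = |q.1 - r.1| * a := by
      rw [norm_smul, Complex.norm_real, Real.norm_eq_abs]
    have e5 : ‖((q.2 - r.2 : ℝ) : ℂ) • L (0, 1)‖ = |q.2 - r.2| * b := by
      rw [norm_smul, Complex.norm_real, Real.norm_eq_abs]
    rw [← e4, ← e5]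
    conv_lhs => rw [e3]
    exact norm_sub_le _ _
  rw [← e1] at h2
  have h4 : |q.1 - r.1| * a ≤ a / 2 * (|q.1 - r.1| + |q.2 - r.2|) + |q.2 - r.2| * b := by
    refine h3.trans (add_le_add (h2.trans ?_) le_rfl)
    exact mul_le_mul_of_nonneg_left e2 (by positivity)
  change |q.1 - r.1| ≤ (b + a / 2) / (a / 2) * |q.2 - r.2|
  rw [div_mul_eq_mul_div, le_div_iff₀ (by positivity)]
  nlinarith

/-- partial derivative in the first variable -/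
def D1 (u : ℂ × ℂ → ℂ) : ℂ × ℂ → ℂ := fun P => fderiv ℂ u P (1, 0)

lemma analyticAt_D1 (u : ℂ × ℂ → ℂ) (P : ℂ × ℂ) (hu : AnalyticAt ℂ u P) : AnalyticAt ℂ (D1 u) P := by
  have h1 := hu.fderiv
  let φ : ((ℂ × ℂ) →L[ℂ] ℂ) →L[ℂ] ℂ := ContinuousLinearMap.apply ℂ ℂ ((1, 0) : ℂ × ℂ)
  have h2 : AnalyticAt ℂ (fun Q => φ (fderiv ℂ u Q)) P := (φ.analyticAt _).comp h1
  exact h2

lemma analyticAt_D1_iter (u : ℂ × ℂ → ℂ) (P : ℂ × ℂ) (hu : AnalyticAt ℂ u P) (k : ℕ) :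
    AnalyticAt ℂ (D1^[k] u) P := by
  induction k with
  | zero => exact hu
  | succ k ih => rw [Function.iterate_succ_apply']; exact analyticAt_D1 _ _ ih

lemma iteratedDeriv_eq_D1 (u : ℂ × ℂ → ℂ) (t l : ℂ) (hu : AnalyticAt ℂ u (t, l)) (k : ℕ) :
    ∀ᶠ s in 𝓝 t, iteratedDeriv k (fun s => u (s, l)) s = D1^[k] u (s, l) := by
  induction k with
  | zero => exact Eventually.of_forall fun s => by simp
  | succ k ih =>
    have hc : ContinuousAt (fun s : ℂ => (s, l)) t := by fun_prop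
    have h1 : ∀ᶠ s in 𝓝 t, AnalyticAt ℂ (D1^[k] u) (s, l) := hc.eventually (analyticAt_D1_iter u _ hu k).eventually_analyticAt
    filter_upwards [ih.eventually_nhds, h1] with s hs ha
    rw [iteratedDeriv_succ, Function.iterate_succ_apply']
    have h2 : deriv (iteratedDeriv k fun s => u (s, l)) s = deriv (fun s => D1^[k] u (s, l)) s :=
      Filter.EventuallyEq.deriv_eq hs
    rw [h2]
    have h3 : HasFDerivAt (D1^[k] u) (fderiv ℂ (D1^[k] u) (s, l)) (s, l) := ha.differentiableAt.hasFDerivAt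
    have h4 : HasDerivAt (fun s : ℂ => (s, l)) ((1, 0) : ℂ × ℂ) s := (hasDerivAt_id s).prodMk (hasDerivAt_const s l)
    exact (h3.comp_hasDerivAt s h4).deriv

/-- The real zero set of an analytic function which does not vanish identically along `l = l0` is
locally thin. -/
theorem thin_zero_set (h : ℂ × ℂ → ℂ) (p : ℝ × ℝ) (hh : AnalyticAt ℂ h ((p.1 : ℂ), (p.2 : ℂ)))
    (hne : ¬ ∀ᶠ t in 𝓝 (p.1 : ℂ), h (t, (p.2 : ℂ)) = 0) :
    ∃ V ∈ 𝓝 p, Thin {q | q ∈ V ∧ h ((q.1 : ℂ), (q.2 : ℂ)) = 0} := by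
  set P : ℂ × ℂ := ((p.1 : ℂ), (p.2 : ℂ)) with hP
  obtain ⟨k, hk⟩ : ∃ k, D1^[k] h P ≠ 0 := by
    by_contra hcon
    push Not at hcon
    apply hne
    have hf : AnalyticAt ℂ (fun t : ℂ => h (t, (p.2 : ℂ))) (p.1 : ℂ) := by
      have h2 : AnalyticAt ℂ (fun t : ℂ => (t, (p.2 : ℂ))) (p.1 : ℂ) := analyticAt_id.prod analyticAt_const
      exact AnalyticAt.fun_comp (g := h) (f := fun t : ℂ => (t, (p.2 : ℂ))) hh h2
    have h1 : ∀ n : ℕ, (n : ℕ∞) ≤ analyticOrderAt (fun t : ℂ => h (t, (p.2 : ℂ))) (p.1 : ℂ) := by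
      intro n
      rw [natCast_le_analyticOrderAt_iff_iteratedDeriv_eq_zero hf]
      intro i _
      rw [(iteratedDeriv_eq_D1 h _ _ hh i).self_of_nhds]
      exact hcon i
    rw [← analyticOrderAt_eq_top]
    by_contra hfin
    obtain ⟨n, hn⟩ := ENat.ne_top_iff_exists.mp hfin
    have := h1 (n + 1)
    rw [← hn] at this
    have h2 : n + 1 ≤ n := by exact_mod_cast this
    omega
  let ι : ℝ × ℝ → ℂ × ℂ := fun q => ((q.1 : ℂ), (q.2 : ℂ))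
  have hι : Continuous ι := by fun_prop
  have hev : ∀ᶠ Q in 𝓝 P, AnalyticAt ℂ h Q ∧ D1^[k] h Q ≠ 0 :=
    hh.eventually_analyticAt.and ((analyticAt_D1_iter h P hh k).continuousAt.eventually_ne hk)
  refine ⟨ι ⁻¹' {Q | AnalyticAt ℂ h Q ∧ D1^[k] h Q ≠ 0}, hι.continuousAt hev, ?_⟩
  have hcov : {q : ℝ × ℝ | q ∈ ι ⁻¹' {Q | AnalyticAt ℂ h Q ∧ D1^[k] h Q ≠ 0} ∧ h ((q.1 : ℂ), (q.2 : ℂ)) = 0} ⊆
      ⋃ j : ℕ, {q : ℝ × ℝ | AnalyticAt ℂ h (ι q) ∧ D1^[j] h (ι q) = 0 ∧ D1^[j+1] h (ι q) ≠ 0} := by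
    rintro q ⟨⟨hq1, hq2⟩, hq3⟩
    have hex : ∃ i, D1^[i] h (ι q) ≠ 0 := ⟨k, hq2⟩
    classical
    have hi := Nat.find_spec hex
    have hmin := fun j => Nat.find_min hex (m := j)
    set i := Nat.find hex with hidef
    have hi0 : i ≠ 0 := by
      intro h0
      rw [h0] at hi
      exact hi hq3
    obtain ⟨j, hj⟩ := Nat.exists_eq_succ_of_ne_zero hi0
    refine Set.mem_iUnion.mpr ⟨j, hq1, ?_, ?_⟩
    · have := hmin j (by omega)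
      rwa [not_not] at this
    · rw [hj] at hi; exact hi
  refine Thin.mono (Thin.iUnion (fun j => ?_)) hcov
  refine Thin.of_local (fun q hq => ?_)
  obtain ⟨hq1, hq2, hq3⟩ := hq
  rw [Function.iterate_succ_apply'] at hq3
  obtain ⟨V, hV, hT⟩ := thin_near (D1^[j] h) q (analyticAt_D1_iter h _ hq1 j) hq3
  refine ⟨V, hV, hT.mono ?_⟩
  rintro r ⟨⟨_, hr, _⟩, hrV⟩
  exact ⟨hrV, hr⟩

end

end Pool.Agent.Lib.Pdaec8e
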