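import Pool.Agent.Lib.Pdaec8e.Fam
import Pool.Agent.Lib.Pdaec8e.Thin

set_option autoImplicit false

open MeasureTheory Filter Topology
open scoped ComplexConjugate ENNReal InnerProductSpace Real

namespace Pool.Agent.Lib.Pdaec8e

noncomputable section

namespace FD

variable (F : FD)

/-- non-threshold -/
def NT (q : ℝ × ℝ) : Prop := ∀ n : ℤ, F.A ^ 2 * ((n : ℝ) + q.1) ^ 2 ≠ q.2

lemma eventually_SS (p : ℝ × ℝ) (hp : F.NT p) :
    ∀ᶠ q in 𝓝 p, F.NT q ∧ F.SS q.1 q.2 = F.SS p.1 p.2 := by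
  have hA := F.hA
  set M : ℝ := 2 * (F.A ^ 2 + |p.2| + 2) with hM
  set T : Finset ℤ := (F.finite_lt p.1 M).toFinset with hT
  have h1 : ∀ᶠ q : ℝ × ℝ in 𝓝 p, |q.1 - p.1| < 1 ∧ |q.2 - p.2| < 1 := by
    have e1 : ContinuousAt (fun q : ℝ × ℝ => |q.1 - p.1|) p := by fun_prop
    have e2 : ContinuousAt (fun q : ℝ × ℝ => |q.2 - p.2|) p := by fun_prop
    have f1 := e1.eventually_lt (continuousAt_const (y := (1 : ℝ))) (by simp)
    have f2 := e2.eventually_lt (continuousAt_const (y := (1 : ℝ))) (by simp)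
    exact f1.and f2
  have h2 : ∀ᶠ q : ℝ × ℝ in 𝓝 p, ∀ n ∈ T, (F.A ^ 2 * ((n : ℝ) + q.1) ^ 2 < q.2 ↔ F.A ^ 2 * ((n : ℝ) + p.1) ^ 2 < p.2) ∧
      F.A ^ 2 * ((n : ℝ) + q.1) ^ 2 ≠ q.2 := by
    rw [eventually_all_finset]
    intro n _
    have c1 : ContinuousAt (fun q : ℝ × ℝ => F.A ^ 2 * ((n : ℝ) + q.1) ^ 2) p := by fun_prop
    have c2 : ContinuousAt (fun q : ℝ × ℝ => q.2) p := by fun_prop
    rcases lt_or_gt_of_ne (hp n) with h | h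
    · filter_upwards [c1.eventually_lt c2 h] with q hq
      exact ⟨⟨fun _ => h, fun _ => hq⟩, hq.ne⟩
    · filter_upwards [c2.eventually_lt c1 h] with q hq
      refine ⟨⟨fun h' => ?_, fun h' => ?_⟩, hq.ne'⟩
      · linarith
      · linarith
  filter_upwards [h1, h2] with q hq1 hq2
  have hout : ∀ n : ℤ, n ∉ T → q.2 < F.A ^ 2 * ((n : ℝ) + q.1) ^ 2 ∧ p.2 < F.A ^ 2 * ((n : ℝ) + p.1) ^ 2 := by
    intro n hn
    have h3 : M ≤ F.A ^ 2 * ((n : ℝ) + p.1) ^ 2 := by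
      rw [hT, Set.Finite.mem_toFinset, Set.mem_ofPred_eq, not_lt] at hn
      exact hn
    have h4 : (q.1 - p.1) ^ 2 ≤ 1 := by
      rw [← sq_abs]
      nlinarith [abs_nonneg (q.1 - p.1), hq1.1]
    have h5 : ((n : ℝ) + p.1) ^ 2 / 2 - (q.1 - p.1) ^ 2 ≤ ((n : ℝ) + q.1) ^ 2 := by
      nlinarith [sq_nonneg ((n : ℝ) + p.1 + 2 * (q.1 - p.1))]
    have h6 := abs_lt.mp hq1.2
    have h7 := le_abs_self p.2
    have h8 : F.A ^ 2 * (((n : ℝ) + p.1) ^ 2 / 2 - (q.1 - p.1) ^ 2) ≤ F.A ^ 2 * ((n : ℝ) + q.1) ^ 2 :=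
      mul_le_mul_of_nonneg_left h5 (by positivity)
    have h9 : F.A ^ 2 * (q.1 - p.1) ^ 2 ≤ F.A ^ 2 * 1 := mul_le_mul_of_nonneg_left h4 (by positivity)
    constructor
    · nlinarith [abs_nonneg p.2]
    · nlinarith [abs_nonneg p.2, sq_nonneg F.A]
  constructor
  · intro n
    by_cases hn : n ∈ T
    · exact (hq2 n hn).2
    · exact (hout n hn).1.ne'
  · ext n
    rw [F.mem_SS, F.mem_SS]
    by_cases hn : n ∈ T
    · exact (hq2 n hn).1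
    · have := hout n hn
      constructor
      · intro h; linarith [this.1]
      · intro h; linarith [this.2]

lemma wn_mem_slit (θ l : ℝ) (n : ℤ) (hn : n ∈ F.SS θ l) : F.wn n θ l ∈ Complex.slitPlane := by
  have hwn : F.wn n θ l = ((l - F.A ^ 2 * ((n : ℝ) + θ) ^ 2 : ℝ) : ℂ) := by
    unfold wn; push_cast; ring
  rw [hwn]
  refine Complex.ofReal_mem_slitPlane.mpr ?_
  have := (F.mem_SS θ l n).mp hn
  linarith

lemma analyticAt_Kf_real (σ : ℤ → ℂ) (hσ : ∀ n, σ n ≠ 0) (p : ℝ × ℝ) (hp : F.NT p) :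
    AnalyticAt ℂ (fun P : ℂ × ℂ => F.Kf σ (F.SS p.1 p.2) P.1 P.2) ((p.1 : ℂ), (p.2 : ℂ)) :=
  F.analyticAt_Kf σ hσ _ _ _ (F.LB_real p.1 p.2 hp _ subset_rfl) (fun n hn => F.wn_mem_slit p.1 p.2 n hn)

/-- good spectral points -/
def GS (α : ℝ) : Set (ℝ × ℝ) := {q | F.NT q ∧ IsUnit (1 - (α : ℂ) • F.Kf so (F.SS q.1 q.2) q.1 q.2)}

lemma continuous_castProd : Continuous (fun q : ℝ × ℝ => (((q.1 : ℂ), (q.2 : ℂ)) : ℂ × ℂ)) := by fun_prop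

lemma GS_mem_nhds (α : ℝ) (p : ℝ × ℝ) (hp : p ∈ F.GS α) : F.GS α ∈ 𝓝 p := by
  obtain ⟨hp1, hp2⟩ := hp
  have han := F.analyticAt_Kf_real so so_ne p hp1
  have hc : ContinuousAt (fun P : ℂ × ℂ => (1 - (α : ℂ) • F.Kf so (F.SS p.1 p.2) P.1 P.2)) ((p.1 : ℂ), (p.2 : ℂ)) := by
    exact continuousAt_const.sub (han.continuousAt.const_smul (α : ℂ))
  have h1 := hc.eventually (Units.isOpen.mem_nhds hp2)
  have h2 := (continuous_castProd.tendsto p).eventually h1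
  filter_upwards [h2, F.eventually_SS p hp1] with q hq1 hq2
  refine ⟨hq2.1, ?_⟩
  rw [hq2.2]
  exact hq1

/-- thresholds form a thin set -/
lemma thin_thr : Thin {q : ℝ × ℝ | (0 < q.1 ∧ q.1 < 1) ∧ ¬ F.NT q} := by
  have hA := F.hA
  have hcov : {q : ℝ × ℝ | (0 < q.1 ∧ q.1 < 1) ∧ ¬ F.NT q} ⊆
      ⋃ n : ℤ, {q : ℝ × ℝ | (0 < q.1 ∧ q.1 < 1) ∧ F.A ^ 2 * ((n : ℝ) + q.1) ^ 2 = q.2} := by
    rintro q ⟨h1, h2⟩
    unfold NT at h2
    push Not at h2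
    obtain ⟨n, hn⟩ := h2
    exact Set.mem_iUnion.mpr ⟨n, h1, hn⟩
  refine Thin.mono (Thin.iUnion fun n => ?_) hcov
  refine Thin.of_local (fun p hp => ?_)
  obtain ⟨⟨h0, h1⟩, h2⟩ := hp
  set u : ℂ × ℂ → ℂ := fun P => (F.A : ℂ) ^ 2 * ((n : ℂ) + P.1) ^ 2 - P.2 with hu
  have han : AnalyticAt ℂ u ((p.1 : ℂ), (p.2 : ℂ)) := by
    exact (analyticAt_const.mul ((analyticAt_const.add analyticAt_fst).pow 2)).sub analyticAt_snd
  have hder : fderiv ℂ u ((p.1 : ℂ), (p.2 : ℂ)) (1, 0) ≠ 0 := by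
    have h3 : HasFDerivAt u (fderiv ℂ u ((p.1 : ℂ), (p.2 : ℂ))) ((p.1 : ℂ), (p.2 : ℂ)) := han.differentiableAt.hasFDerivAt
    have h4 : HasDerivAt (fun s : ℂ => (s, (p.2 : ℂ))) ((1, 0) : ℂ × ℂ) (p.1 : ℂ) :=
      (hasDerivAt_id (p.1 : ℂ)).prodMk (hasDerivAt_const (p.1 : ℂ) (p.2 : ℂ))
    have h5 := h3.comp_hasDerivAt (p.1 : ℂ) h4
    have h6 : HasDerivAt (fun s : ℂ => (F.A : ℂ) ^ 2 * ((n : ℂ) + s) ^ 2 - (p.2 : ℂ))
        ((F.A : ℂ) ^ 2 * (2 * ((n : ℂ) + (p.1 : ℂ)))) (p.1 : ℂ) := by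
      have h7 : HasDerivAt (fun s : ℂ => ((n : ℂ) + s)) 1 (p.1 : ℂ) := by
        simpa using (hasDerivAt_id (p.1 : ℂ)).const_add (n : ℂ)
      have h8 := ((h7.pow 2).const_mul ((F.A : ℂ) ^ 2)).sub_const (p.2 : ℂ)
      simpa using h8
    have h7 := h5.unique h6
    rw [h7]
    have h8 := abs_int_add_ge n p.1 h0 h1
    have h9 : 0 < min p.1 (1 - p.1) := lt_min h0 (by linarith)
    have h10 : (n : ℝ) + p.1 ≠ 0 := by
      intro h; rw [h, abs_zero] at h8; linarith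
    have h11 : ((n : ℂ) + (p.1 : ℂ)) ≠ 0 := by exact_mod_cast h10
    have h12 : (F.A : ℂ) ≠ 0 := by exact_mod_cast hA.ne'
    exact mul_ne_zero (pow_ne_zero 2 h12) (mul_ne_zero two_ne_zero h11)
  obtain ⟨V, hV, hT⟩ := thin_near u p han hder
  refine ⟨V, hV, hT.mono ?_⟩
  rintro q ⟨⟨_, hq⟩, hqV⟩
  refine ⟨hqV, ?_⟩
  rw [hu]
  simp only
  have : ((F.A ^ 2 * ((n : ℝ) + q.1) ^ 2 : ℝ) : ℂ) = (q.2 : ℂ) := by rw [hq]
  push_cast at this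
  rw [this, sub_self]

/-- The set of bad points is thin. -/
theorem thin_bad (α : ℝ) (hα : α ≠ 0) : Thin {q : ℝ × ℝ | (0 < q.1 ∧ q.1 < 1) ∧ q ∉ F.GS α} := by
  have hcov : {q : ℝ × ℝ | (0 < q.1 ∧ q.1 < 1) ∧ q ∉ F.GS α} ⊆
      ⋃ b : Bool, (if b then {q : ℝ × ℝ | (0 < q.1 ∧ q.1 < 1) ∧ ¬ F.NT q} else
        {q : ℝ × ℝ | (0 < q.1 ∧ q.1 < 1) ∧ F.NT q ∧ ¬ IsUnit (1 - (α : ℂ) • F.Kf so (F.SS q.1 q.2) q.1 q.2)}) := by
    rintro q ⟨h1, h2⟩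
    by_cases h3 : F.NT q
    · refine Set.mem_iUnion.mpr ⟨false, ?_⟩
      simp only [Bool.false_eq_true, if_false]
      exact ⟨h1, h3, fun h4 => h2 ⟨h3, h4⟩⟩
    · refine Set.mem_iUnion.mpr ⟨true, ?_⟩
      simp only [if_true]
      exact ⟨h1, h3⟩
  refine Thin.mono (Thin.iUnion fun b => ?_) hcov
  cases b with
  | true => simpa using F.thin_thr
  | false =>
    simp only [Bool.false_eq_true, if_false]
    refine Thin.of_local (fun p hp => ?_)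
    obtain ⟨⟨h0, h1⟩, hNT, hbad⟩ := hp
    set S := F.SS p.1 p.2 with hS
    have han0 := F.analyticAt_Kf_real st st_ne p hNT
    have han : AnalyticAt ℂ (fun P : ℂ × ℂ => (α : ℂ) • F.Kf st S P.1 P.2) ((p.1 : ℂ), (p.2 : ℂ)) := han0.fun_const_smul
    obtain ⟨h, hh, hev⟩ := exists_fredholm_det (fun P : ℂ × ℂ => (α : ℂ) • F.Kf st S P.1 P.2) _ han
      (F.isCompact_smul_Kf (α : ℂ) st S _ _)
    have hne : ¬ ∀ᶠ t in 𝓝 (p.1 : ℂ), h (t, (p.2 : ℂ)) = 0 := by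
      intro hzero
      have hc : Tendsto (fun t : ℂ => (t, (p.2 : ℂ))) (𝓝 (p.1 : ℂ)) (𝓝 ((p.1 : ℂ), (p.2 : ℂ))) := by
        exact (by fun_prop : Continuous (fun t : ℂ => (t, (p.2 : ℂ)))).tendsto _
      have h2 := hzero.and (hc.eventually hev)
      rw [eventually_nhds_iff] at h2
      obtain ⟨U, hU, hUo, hUp⟩ := h2
      have hDne : (U ∩ Dp).Nonempty := by
        obtain ⟨r, hr, hball⟩ := Metric.isOpen_iff.mp hUo _ hUp
        refine ⟨(p.1 : ℂ) + ((r / 2 : ℝ) : ℂ) * Complex.I, hball ?_, ?_, ?_, ?_⟩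
        · rw [Metric.mem_ball, dist_eq_norm, add_sub_cancel_left, norm_mul, Complex.norm_I, mul_one, Complex.norm_real,
            Real.norm_eq_abs, abs_of_pos (by linarith)]
          linarith
        · simpa using h0
        · simpa using h1
        · simpa using hr
      obtain ⟨θ, ⟨hθU, hθD⟩, hu⟩ := F.exists_unit_open α p.2 (U ∩ Dp) (hUo.inter isOpen_Dp) hDne Set.inter_subset_right
      obtain ⟨e1, e2⟩ := hU θ hθU
      rw [← F.Kf_til_eq S θ hθD p.2] at hu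
      exact (e2.mp e1) hu
    obtain ⟨V, hV, hT⟩ := thin_zero_set h p hh hne
    have hev2 := (continuous_castProd.tendsto p).eventually hev
    refine ⟨V ∩ {q | (h ((q.1 : ℂ), (q.2 : ℂ)) = 0 ↔ ¬ IsUnit (1 - (α : ℂ) • F.Kf st S q.1 q.2)) ∧ (F.NT q ∧ F.SS q.1 q.2 = F.SS p.1 p.2)},
      inter_mem hV (hev2.and (F.eventually_SS p hNT)), hT.mono ?_⟩
    rintro q ⟨⟨_, hq1, hq2⟩, hqV, hq3, hq4⟩
    refine ⟨hqV, hq3.mpr ?_⟩
    rw [hq4.2, ← hS] at hq2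
    refine F.not_isUnit_til α q.1 q.2 hα S ?_ ?_ hq2
    · refine F.LB_real q.1 q.2 hq1 S ?_
      rw [hq4.2]
    · intro n hn
      rw [hS, ← hq4.2] at hn
      exact (F.mem_SS q.1 q.2 n).mp hn

/-- good quasimomenta for a compact set of energies -/
def GQ (α : ℝ) (K : Set ℝ) : Set ℝ := {θ | (0 < θ ∧ θ < 1) ∧ ∀ l ∈ K, (θ, l) ∈ F.GS α}

lemma isOpen_GQ (α : ℝ) (K : Set ℝ) (hK : IsCompact K) : IsOpen (F.GQ α K) := by
  rw [isOpen_iff_mem_nhds]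
  rintro θ ⟨⟨h0, h1⟩, h2⟩
  have e1 : ∀ᶠ t in 𝓝 θ, 0 < t ∧ t < 1 := (eventually_gt_nhds h0).and (eventually_lt_nhds h1)
  have e2 : ∀ᶠ t in 𝓝 θ, ∀ l ∈ K, (t, l) ∈ F.GS α := by
    refine hK.eventually_forall_of_forall_eventually (P := fun t l => (t, l) ∈ F.GS α) (fun l hl => ?_)
    exact F.GS_mem_nhds α (θ, l) (h2 l hl)
  exact e1.and e2

lemma null_compl_GQ (α : ℝ) (hα : α ≠ 0) (K : Set ℝ) (hK : volume K = 0) :
    volume {θ : ℝ | (0 < θ ∧ θ < 1) ∧ θ ∉ F.GQ α K} = 0 := by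
  refine measure_mono_null ?_ (F.thin_bad α hα K hK)
  rintro θ ⟨h1, h2⟩
  simp only [GQ, Set.mem_ofPred_eq, not_and, not_forall] at h2
  obtain ⟨l, hl, hbad⟩ := h2 h1
  exact ⟨l, hl, h1, hbad⟩

/-- Local uniform invertibility up to the real axis. -/
theorem local_bound (α : ℝ) (p : ℝ × ℝ) (hp : p ∈ F.GS α) :
    ∃ r > 0, ∃ C : ℝ, ∀ θ : ℝ, |θ - p.1| < r → ∀ z : ℂ, 0 < z.im → ‖z - p.2‖ < r →
      IsUnit (1 - (α : ℂ) • F.KS ∅ θ z) ∧ ‖Ring.inverse (1 - (α : ℂ) • F.KS ∅ θ z)‖ ≤ C := by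
  obtain ⟨hp1, hp2⟩ := hp
  have han := F.analyticAt_Kf_real so so_ne p hp1
  set T : ℂ × ℂ → (F.E →L[ℂ] F.E) := fun P => 1 - (α : ℂ) • F.Kf so (F.SS p.1 p.2) P.1 P.2 with hT
  have hc : ContinuousAt T ((p.1 : ℂ), (p.2 : ℂ)) := continuousAt_const.sub (han.continuousAt.const_smul (α : ℂ))
  have h1 := hc.eventually (Units.isOpen.mem_nhds hp2)
  have hinv : ContinuousAt (fun P => Ring.inverse (T P)) ((p.1 : ℂ), (p.2 : ℂ)) := by
    have := NormedRing.inverse_continuousAt hp2.unit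
    exact ContinuousAt.comp (g := Ring.inverse) (f := T) this hc
  have h2 := hinv.norm.eventually_lt (continuousAt_const (y := ‖Ring.inverse (T ((p.1 : ℂ), (p.2 : ℂ)))‖ + 1)) (by simp)
  have h3 := h1.and h2
  rw [Metric.eventually_nhds_iff] at h3
  obtain ⟨r, hr, h3⟩ := h3
  refine ⟨r, hr, ‖Ring.inverse (T ((p.1 : ℂ), (p.2 : ℂ)))‖ + 1, fun θ hθ z hz hzr => ?_⟩
  have hd : dist (((θ : ℂ), z) : ℂ × ℂ) ((p.1 : ℂ), (p.2 : ℂ)) < r := by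
    rw [Prod.dist_eq]
    refine max_lt ?_ ?_
    · simp only
      rw [dist_eq_norm, ← Complex.ofReal_sub, Complex.norm_real]; exact hθ
    · simp only
      rw [dist_eq_norm]; exact hzr
  have h4 := h3 hd
  simp only [hT] at h4
  rw [F.Kf_out_eq _ θ z hz] at h4
  exact ⟨h4.1, h4.2.le⟩

end FD

end

end Pool.Agent.Lib.Pdaec8e
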