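import Mathlib

set_option autoImplicit false

open MeasureTheory Filter Topology
open scoped ComplexConjugate ENNReal InnerProductSpace

namespace Pool.Agent.Lib.Pdaec8e

noncomputable section

variable {E : Type*} [NormedAddCommGroup E] [InnerProductSpace ℂ E]
variable {α : Type*} {mα : MeasurableSpace α} {m : Measure α}

/-- The Hilbert–Schmidt type operator `g ↦ (x ↦ ⟪Ψ x, g⟫)`. -/
def hs (Ψ : Lp E 2 m) : E →L[ℂ] Lp ℂ 2 m :=
  LinearMap.mkContinuous
    { toFun := fun g => ((Lp.memLp Ψ).inner_const (𝕜 := ℂ) g).toLp _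
      map_add' := fun g h => by
        rw [← MemLp.toLp_add]
        refine MemLp.toLp_congr _ _ (Eventually.of_forall fun x => ?_)
        simp [inner_add_right]
      map_smul' := fun c g => by
        rw [RingHom.id_apply, ← MemLp.toLp_const_smul]
        refine MemLp.toLp_congr _ _ (Eventually.of_forall fun x => ?_)
        simp [inner_smul_right] }
    ‖Ψ‖ (fun g => by
      rw [mul_comm]
      refine Lp.norm_le_mul_norm_of_ae_le_mul ?_
      simp only [LinearMap.coe_mk, AddHom.coe_mk]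
      filter_upwards [((Lp.memLp Ψ).inner_const (𝕜 := ℂ) g).coeFn_toLp] with x hx
      rw [hx, mul_comm]
      exact norm_inner_le_norm _ _)

lemma hs_coe (Ψ : Lp E 2 m) (g : E) : hs Ψ g =ᵐ[m] fun x => ⟪Ψ x, g⟫_ℂ :=
  ((Lp.memLp Ψ).inner_const (𝕜 := ℂ) g).coeFn_toLp

lemma norm_hs_le (Ψ : Lp E 2 m) : ‖hs Ψ‖ ≤ ‖Ψ‖ :=
  LinearMap.mkContinuous_norm_le _ (norm_nonneg _) _

lemma hs_add (Ψ Φ : Lp E 2 m) : hs (Ψ + Φ) = hs Ψ + hs Φ := by
  ext1 g
  apply Lp.ext
  rw [add_apply]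
  filter_upwards [hs_coe (Ψ + Φ) g, hs_coe Ψ g, hs_coe Φ g, Lp.coeFn_add Ψ Φ, Lp.coeFn_add (hs Ψ g) (hs Φ g)] with x h1 h2 h3 h4 h5
  rw [h1, h5, Pi.add_apply, h2, h3, h4, Pi.add_apply, inner_add_left]

lemma hs_sub (Ψ Φ : Lp E 2 m) : hs (Ψ - Φ) = hs Ψ - hs Φ := by
  ext1 g
  apply Lp.ext
  rw [sub_apply]
  filter_upwards [hs_coe (Ψ - Φ) g, hs_coe Ψ g, hs_coe Φ g, Lp.coeFn_sub Ψ Φ, Lp.coeFn_sub (hs Ψ g) (hs Φ g)] with x h1 h2 h3 h4 h5
  rw [h1, h5, Pi.sub_apply, h2, h3, h4, Pi.sub_apply, inner_sub_left]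

lemma hs_smul (c : ℂ) (Ψ : Lp E 2 m) : hs (c • Ψ) = conj c • hs Ψ := by
  ext1 g
  apply Lp.ext
  rw [smul_apply]
  filter_upwards [hs_coe (c • Ψ) g, hs_coe Ψ g, Lp.coeFn_smul c Ψ, Lp.coeFn_smul (conj c) (hs Ψ g)] with x h1 h2 h3 h4
  rw [h1, h4, Pi.smul_apply, h2, h3, Pi.smul_apply, inner_smul_left, smul_eq_mul]

lemma continuous_hs : Continuous (hs : Lp E 2 m → (E →L[ℂ] Lp ℂ 2 m)) := by
  refine (LipschitzWith.of_dist_le_mul (K := 1) fun Ψ Φ => ?_).continuous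
  rw [dist_eq_norm, dist_eq_norm, ← hs_sub, NNReal.coe_one, one_mul]
  exact norm_hs_le _

/-- Hilbert–Schmidt type operators are compact. -/
theorem isCompact_hs (Ψ : Lp E 2 m) : IsCompactOperator (hs Ψ) := by
  refine Lp.induction (p := 2) (by norm_num) (fun Ψ : Lp E 2 m => IsCompactOperator (hs Ψ)) ?_ ?_ ?_ Ψ
  · intro c s hs' hμs
    set f0 : Lp ℂ 2 m := indicatorConstLp 2 hs' hμs.ne (1 : ℂ) with hf0
    have h1 : hs (Lp.simpleFunc.indicatorConst 2 hs' hμs.ne c : Lp E 2 m) =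
        (ContinuousLinearMap.toSpanSingleton ℂ f0) ∘L (innerSL ℂ c) := by
      ext1 g
      apply Lp.ext
      simp only [ContinuousLinearMap.coe_comp, Function.comp_apply, innerSL_apply_apply, ContinuousLinearMap.toSpanSingleton_apply]
      have h2 : ((Lp.simpleFunc.indicatorConst 2 hs' hμs.ne c : Lp.simpleFunc E 2 m) : Lp E 2 m) = indicatorConstLp 2 hs' hμs.ne c :=
        Lp.simpleFunc.coe_indicatorConst _ _ _
      filter_upwards [hs_coe (Lp.simpleFunc.indicatorConst 2 hs' hμs.ne c : Lp E 2 m) g,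
        Lp.coeFn_smul (⟪c, g⟫_ℂ) f0, indicatorConstLp_coeFn (p := 2) (hs := hs') (hμs := hμs.ne) (c := c),
        indicatorConstLp_coeFn (p := 2) (hs := hs') (hμs := hμs.ne) (c := (1:ℂ))] with x h3 h4 h5 h6
      rw [h3, h4, h2, h5, Pi.smul_apply, hf0, h6]
      by_cases hx : x ∈ s
      · simp [hx]
      · simp [hx]
    rw [h1]
    have h2 : IsCompactOperator (innerSL ℂ c : E →L[ℂ] ℂ) := isCompactOperator_of_locallyCompactSpace_dom _
    have h3 := h2.clm_comp (ContinuousLinearMap.toSpanSingleton ℂ f0)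
    exact h3
  · intro f g hf hg _ h1 h2
    rw [hs_add]
    exact h1.add h2
  · exact (isClosed_setOfPred_isCompactOperator).preimage continuous_hs

end

end Pool.Agent.Lib.Pdaec8e
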