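import Pool.Agent.Lib.Pdaec8e.Thomas

set_option autoImplicit false

open MeasureTheory Filter Topology
open scoped ComplexConjugate ENNReal Real

namespace Pool.Agent.Lib.Pdaec8e

noncomputable section

namespace FD

variable (F : FD)

/-- Thomas estimate: the resolvent symbol at large imaginary quasi-momentum is small in the
trace sense. -/
theorem thomas_bound (l ε : ℝ) (hε : 0 < ε) :
    ∃ τ : ℝ, 0 < τ ∧ (∀ x, F.sig ((1 / 2 : ℝ) + (τ : ℂ) * Complex.I) x - l ≠ 0) ∧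
      ∀ g : ℝ → ℂ, MemLp g 2 F.mu →
        ∫⁻ x, ‖F.hat g x‖ₑ ^ 2 * ENNReal.ofReal (1 / ‖F.sig ((1 / 2 : ℝ) + (τ : ℂ) * Complex.I) x - l‖) ∂nu ≤
          ENNReal.ofReal ε * ∫⁻ s, ‖g s‖ₑ ^ 2 ∂F.mu := by
  have hpi := Real.pi_pos
  have hA := F.hA
  have hD := F.hD
  have hc := F.hc
  set m : ℝ := min F.A F.D with hmdef
  have hm : 0 < m := lt_min hA hD
  -- the constant
  set C : ℝ := 2 * π / (m * Real.sqrt F.c) + 2 * Real.exp 1 * Real.sqrt (π / F.c) / m +
    2 * Real.exp 10 * Real.sqrt (π / F.c) / (F.A * m) with hC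
  have hC0 : 0 < C := by positivity
  set S : ℝ := max 1 (max (Real.sqrt |l|) (C / ε)) with hS
  have hS1 : 1 ≤ S := le_max_left _ _
  have hS0 : 0 < S := by linarith
  have hSl : |l| ≤ S ^ 2 := by
    have h1 : Real.sqrt |l| ≤ S := (le_max_left _ _).trans (le_max_right _ _)
    calc |l| = Real.sqrt |l| ^ 2 := (Real.sq_sqrt (abs_nonneg _)).symm
      _ ≤ S ^ 2 := pow_le_pow_left₀ (Real.sqrt_nonneg _) h1 2
  have hSC : C / S ≤ ε := by
    have h1 : C / ε ≤ S := (le_max_right _ _).trans (le_max_right _ _)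
    rw [div_le_iff₀ hε] at h1
    rw [div_le_iff₀ hS0]
    linarith
  set T : ℝ := S ^ 2 with hT
  have hT0 : 0 < T := by positivity
  refine ⟨T / F.A, by positivity, fun x => (F.thomas_pointwise l S T m hS1 rfl hSl hm (min_le_left _ _) (min_le_right _ _) x).1, ?_⟩
  intro g hg
  set G := ∫⁻ s, ‖g s‖ₑ ^ 2 ∂F.mu with hG
  have hmh : Measurable (fun x => ‖F.hat g x‖ₑ ^ 2) := (F.measurable_hat g hg.1).measurable.enorm.pow_const 2
  set κ : ℝ := 2 * T / m with hκ
  have hκ0 : 0 < κ := by positivity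
  set t1 : ℝ := m ^ 2 / (4 * T ^ 2) with ht1
  set t2 : ℝ := m ^ 2 / S ^ 2 with ht2
  have ht10 : 0 < t1 := by positivity
  have ht20 : 0 < t2 := by positivity
  set c1 : ℝ := 4 / m ^ 2 with hc1
  set c2 : ℝ := Real.exp 1 / (T * S) with hc2
  set c3 : ℝ := Real.exp 10 / (F.A * T) with hc3
  have hc10 : 0 < c1 := by positivity
  have hc20 : 0 < c2 := by positivity
  have hc30 : 0 < c3 := by positivity
  have hpt : ∀ x, ‖F.hat g x‖ₑ ^ 2 * ENNReal.ofReal (1 / ‖F.sig ((1 / 2 : ℝ) + ((T / F.A : ℝ) : ℂ) * Complex.I) x - l‖) ≤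
      ENNReal.ofReal c1 * (‖F.hat g x‖ₑ ^ 2 * ENNReal.ofReal (1 / (κ ^ 2 + rho2 (-(1/2)) 0 x))) +
      (ENNReal.ofReal c2 * (‖F.hat g x‖ₑ ^ 2 * ENNReal.ofReal (gw t1 (-(1/2)) 0 x)) +
      ENNReal.ofReal c3 * (‖F.hat g x‖ₑ ^ 2 * ENNReal.ofReal (gw t2 (-(1/2)) (T / F.D) x) +
        ‖F.hat g x‖ₑ ^ 2 * ENNReal.ofReal (gw t2 (-(1/2)) (-(T / F.D)) x))) := by
    intro x
    have h1 := (F.thomas_pointwise l S T m hS1 rfl hSl hm (min_le_left _ _) (min_le_right _ _) x).2
    have hr0 := rho2_nonneg (-(1/2)) 0 x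
    have g1 := (gw_pos t1 (-(1/2)) 0 x).le
    have g2 := (gw_pos t2 (-(1/2)) (T / F.D) x).le
    have g3 := (gw_pos t2 (-(1/2)) (-(T / F.D)) x).le
    have h2 := ENNReal.ofReal_le_ofReal h1
    refine (mul_le_mul_right h2 _).trans (le_of_eq ?_)
    rw [ENNReal.ofReal_add (by positivity) (by positivity), ENNReal.ofReal_add (by positivity) (by positivity),
      ENNReal.ofReal_mul (by positivity), ENNReal.ofReal_mul (by positivity), ENNReal.ofReal_mul (by positivity),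
      ENNReal.ofReal_add g2 g3]
    ring
  refine (lintegral_mono hpt).trans ?_
  have m1 : Measurable (fun x => ENNReal.ofReal (1 / (κ ^ 2 + rho2 (-(1/2)) 0 x))) := by
    have := measurable_rho2 (-(1/2)) 0
    fun_prop
  have m2 : Measurable (fun x => ENNReal.ofReal (gw t1 (-(1/2)) 0 x)) := (measurable_gw _ _ _).ennreal_ofReal
  have m3 : Measurable (fun x => ENNReal.ofReal (gw t2 (-(1/2)) (T / F.D) x)) := (measurable_gw _ _ _).ennreal_ofReal
  have m4 : Measurable (fun x => ENNReal.ofReal (gw t2 (-(1/2)) (-(T / F.D)) x)) := (measurable_gw _ _ _).ennreal_ofReal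
  have n1 : Measurable (fun x => ‖F.hat g x‖ₑ ^ 2 * ENNReal.ofReal (1 / (κ ^ 2 + rho2 (-(1/2)) 0 x))) := hmh.mul m1
  have n2 : Measurable (fun x => ‖F.hat g x‖ₑ ^ 2 * ENNReal.ofReal (gw t1 (-(1/2)) 0 x)) := hmh.mul m2
  have n3 : Measurable (fun x => ‖F.hat g x‖ₑ ^ 2 * ENNReal.ofReal (gw t2 (-(1/2)) (T / F.D) x)) := hmh.mul m3
  have n4 : Measurable (fun x => ‖F.hat g x‖ₑ ^ 2 * ENNReal.ofReal (gw t2 (-(1/2)) (-(T / F.D)) x)) := hmh.mul m4
  rw [lintegral_add_left (by fun_prop), lintegral_add_left (by fun_prop),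
    lintegral_const_mul _ (by fun_prop), lintegral_const_mul _ (by fun_prop),
    lintegral_const_mul _ (by fun_prop), lintegral_add_left (by fun_prop)]
  have b1 := F.lorentz_bound g hg κ (-(1/2)) 0 hκ0
  have b2 := F.gauss_bound g hg t1 (-(1/2)) 0 ht10
  have b3 := F.gauss_bound g hg t2 (-(1/2)) (T / F.D) ht20
  have b4 := F.gauss_bound g hg t2 (-(1/2)) (-(T / F.D)) ht20
  rw [← hG] at b1 b2 b3 b4
  refine (add_le_add (mul_le_mul_right b1 _) (add_le_add (mul_le_mul_right b2 _) (mul_le_mul_right (add_le_add b3 b4) _))).trans ?_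
  rw [← mul_assoc, ← mul_assoc, ← add_mul, ← mul_assoc, ← add_mul, ← add_mul]
  refine mul_le_mul_left ?_ _
  rw [← ENNReal.ofReal_add (by positivity) (by positivity), ← ENNReal.ofReal_mul (by positivity),
    ← ENNReal.ofReal_mul (by positivity), ← ENNReal.ofReal_mul (by positivity),
    ← ENNReal.ofReal_add (by positivity) (by positivity), ← ENNReal.ofReal_add (by positivity) (by positivity)]
  refine ENNReal.ofReal_le_ofReal ?_
  refine le_trans ?_ hSC
  have hST : S ≤ T := by rw [hT]; nlinarith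
  have s1 : Real.sqrt (π / (F.c * t1)) = Real.sqrt (π / F.c) * (2 * T / m) := by
    have : π / (F.c * t1) = (π / F.c) * (2 * T / m) ^ 2 := by
      rw [ht1]; field_simp; ring
    rw [this, Real.sqrt_mul (by positivity), Real.sqrt_sq (by positivity)]
  have s2 : Real.sqrt (π / (F.c * t2)) = Real.sqrt (π / F.c) * (S / m) := by
    have : π / (F.c * t2) = (π / F.c) * (S / m) ^ 2 := by
      rw [ht2]; field_simp
    rw [this, Real.sqrt_mul (by positivity), Real.sqrt_sq (by positivity)]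
  rw [s1, s2]
  have p1 : c1 * (π / (Real.sqrt F.c * κ)) ≤ (2 * π / (m * Real.sqrt F.c)) / S := by
    have : c1 * (π / (Real.sqrt F.c * κ)) = (2 * π / (m * Real.sqrt F.c)) / T := by
      rw [hc1, hκ]; field_simp; ring
    rw [this]
    exact div_le_div_of_nonneg_left (by positivity) hS0 hST
  have p2 : c2 * (Real.sqrt (π / F.c) * (2 * T / m)) = (2 * Real.exp 1 * Real.sqrt (π / F.c) / m) / S := by
    rw [hc2]; field_simp
  have p3 : c3 * (Real.sqrt (π / F.c) * (S / m) + Real.sqrt (π / F.c) * (S / m)) = (2 * Real.exp 10 * Real.sqrt (π / F.c) / (F.A * m)) / S := by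
    rw [hc3, hT]; field_simp; ring
  rw [p2, p3]
  calc _ ≤ (2 * π / (m * Real.sqrt F.c)) / S + ((2 * Real.exp 1 * Real.sqrt (π / F.c) / m) / S + (2 * Real.exp 10 * Real.sqrt (π / F.c) / (F.A * m)) / S) := by
        gcongr
    _ = C / S := by rw [hC]; ring

end FD

end

end Pool.Agent.Lib.Pdaec8e
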