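import Pool.Agent.Lib.Pdaec8e.BCompact
import Pool.Agent.Lib.Pdaec8e.Thomas2

set_option autoImplicit false

open MeasureTheory Filter Topology
open scoped ComplexConjugate ENNReal InnerProductSpace Real

namespace Pool.Agent.Lib.Pdaec8e

noncomputable section

lemma measurable_fst_cast : Measurable (fun p : ℤ × ℝ => ((p.1 : ℤ) : ℝ)) :=
  (measurable_from_top (f := fun n : ℤ => (n : ℝ))).comp measurable_fst

lemma measurable_fst_castC : Measurable (fun p : ℤ × ℝ => ((p.1 : ℤ) : ℂ)) :=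
  (measurable_from_top (f := fun n : ℤ => (n : ℂ))).comp measurable_fst

lemma measurable_omC : Measurable (fun x : ℤ × ℝ => ((om x : ℝ) : ℂ)) :=
  Complex.measurable_ofReal.comp measurable_om

namespace FD

variable (F : FD)

def c0 (x : ℤ × ℝ) : ℂ := ((F.A : ℂ) ^ 2 * (x.1 : ℂ) ^ 2 + (F.D : ℂ) ^ 2 * (x.2 : ℂ) ^ 2) / (om x : ℝ)
def c1 (x : ℤ × ℝ) : ℂ := (2 * (F.A : ℂ) ^ 2 * (x.1 : ℂ)) / (om x : ℝ)
def c2 (x : ℤ × ℝ) : ℂ := ((F.A : ℂ) ^ 2) / (om x : ℝ)
def c3 (x : ℤ × ℝ) : ℂ := 1 / (om x : ℝ)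

def cfun (θ z : ℂ) (x : ℤ × ℝ) : ℂ := (F.sig θ x - z) / (om x : ℝ)

lemma cfun_eq (θ z : ℂ) (x : ℤ × ℝ) :
    F.cfun θ z x = F.c0 x + θ * F.c1 x + θ ^ 2 * F.c2 x - z * c3 x := by
  have h := om_pos x
  have h' : ((om x : ℝ) : ℂ) ≠ 0 := by exact_mod_cast h.ne'
  unfold cfun c0 c1 c2 c3 sig
  field_simp
  ring

lemma measurable_sig (θ : ℂ) : Measurable (F.sig θ) := by
  unfold sig
  have := measurable_fst_castC
  fun_prop

lemma measurable_cfun (θ z : ℂ) : Measurable (F.cfun θ z) := by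
  unfold cfun
  have := F.measurable_sig θ
  have := measurable_omC
  fun_prop

lemma norm_om (x : ℤ × ℝ) : ‖((om x : ℝ) : ℂ)‖ = om x := by
  rw [Complex.norm_real, Real.norm_eq_abs, abs_of_pos (om_pos x)]

lemma memLp_c0 : MemLp F.c0 ∞ nu := by
  refine memLp_top_of_bound' _ ?_ (F.A ^ 2 + F.D ^ 2) (fun x => ?_)
  · have h1 := measurable_fst_castC
    have h2 := measurable_omC
    unfold c0
    exact (by fun_prop : Measurable _).aestronglyMeasurable
  · have h := om_pos x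
    unfold c0
    rw [norm_div, norm_om, div_le_iff₀ h]
    refine (norm_add_le _ _).trans ?_
    simp only [norm_mul, norm_pow, Complex.norm_real, Real.norm_eq_abs, sq_abs, Complex.norm_intCast]
    unfold om
    nlinarith [sq_nonneg (F.A), sq_nonneg (F.D), sq_nonneg (x.1 : ℝ), sq_nonneg x.2,
      mul_nonneg (sq_nonneg F.A) (sq_nonneg x.2), mul_nonneg (sq_nonneg F.D) (sq_nonneg (x.1 : ℝ))]

lemma memLp_c1 : MemLp F.c1 ∞ nu := by
  refine memLp_top_of_bound' _ ?_ (2 * F.A ^ 2) (fun x => ?_)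
  · have h1 := measurable_fst_castC
    have h2 := measurable_omC
    unfold c1
    exact (by fun_prop : Measurable _).aestronglyMeasurable
  · have h := om_pos x
    unfold c1
    rw [norm_div, norm_om, div_le_iff₀ h]
    simp only [norm_mul, norm_pow, Complex.norm_real, Real.norm_eq_abs, sq_abs, Complex.norm_intCast, Complex.norm_ofNat]
    refine mul_le_mul_of_nonneg_left ?_ (by positivity)
    unfold om
    have : |(x.1 : ℝ)| ≤ 1 + (x.1 : ℝ) ^ 2 := by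
      rw [← sq_abs]
      nlinarith [sq_nonneg (|(x.1 : ℝ)| - 1), abs_nonneg (x.1 : ℝ)]
    nlinarith [sq_nonneg x.2]

lemma memLp_c2 : MemLp F.c2 ∞ nu := by
  refine memLp_top_of_bound' _ ?_ (F.A ^ 2) (fun x => ?_)
  · have h2 := measurable_omC
    unfold c2
    exact (by fun_prop : Measurable _).aestronglyMeasurable
  · have h := om_pos x
    unfold c2
    rw [norm_div, norm_om, div_le_iff₀ h]
    simp only [norm_pow, Complex.norm_real, Real.norm_eq_abs, sq_abs]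
    nlinarith [one_le_om x, sq_nonneg F.A]

lemma memLp_c3 : MemLp c3 ∞ nu := by
  refine memLp_top_of_bound' _ ?_ 1 (fun x => ?_)
  · have h2 := measurable_omC
    unfold c3
    exact (by fun_prop : Measurable _).aestronglyMeasurable
  · have h := om_pos x
    unfold c3
    rw [norm_div, norm_om, div_le_iff₀ h]
    simp [one_le_om x]

/-- indicator of the channels in `S` -/
def ind (S : Finset ℤ) (x : ℤ × ℝ) : ℂ := if x.1 ∈ S then 1 else 0

lemma measurableSet_chan (S : Finset ℤ) : MeasurableSet {x : ℤ × ℝ | x.1 ∈ S} :=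
  measurable_fst (MeasurableSet.of_discrete (s := {n : ℤ | n ∈ S}))

lemma memLp_ind (S : Finset ℤ) : MemLp (ind S) ∞ nu := by
  refine memLp_top_of_bound' _ ?_ 1 (fun x => ?_)
  · exact (Measurable.ite (measurableSet_chan S) measurable_const measurable_const).aestronglyMeasurable
  · unfold ind; split_ifs <;> simp

/-- multiplication by the shifted symbol -/
def Cop (θ z : ℂ) : V →L[ℂ] V :=
  mulOp F.c0 F.memLp_c0 + θ • mulOp F.c1 F.memLp_c1 + θ ^ 2 • mulOp F.c2 F.memLp_c2 - z • mulOp c3 memLp_c3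

def PiS (S : Finset ℤ) : V →L[ℂ] V := mulOp (ind S) (memLp_ind S)

def CopS (S : Finset ℤ) (θ z : ℂ) : V →L[ℂ] V := PiS S + (1 - PiS S) * F.Cop θ z

lemma Cop_coe (θ z : ℂ) (f : V) : F.Cop θ z f =ᵐ[nu] fun x => F.cfun θ z x * f x := by
  unfold Cop
  simp only [sub_apply, add_apply, smul_apply]
  filter_upwards [Lp.coeFn_sub (mulOp F.c0 F.memLp_c0 f + θ • mulOp F.c1 F.memLp_c1 f + θ ^ 2 • mulOp F.c2 F.memLp_c2 f) (z • mulOp c3 memLp_c3 f),
    Lp.coeFn_add (mulOp F.c0 F.memLp_c0 f + θ • mulOp F.c1 F.memLp_c1 f) (θ ^ 2 • mulOp F.c2 F.memLp_c2 f),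
    Lp.coeFn_add (mulOp F.c0 F.memLp_c0 f) (θ • mulOp F.c1 F.memLp_c1 f),
    Lp.coeFn_smul θ (mulOp F.c1 F.memLp_c1 f), Lp.coeFn_smul (θ ^ 2) (mulOp F.c2 F.memLp_c2 f), Lp.coeFn_smul z (mulOp c3 memLp_c3 f),
    mulOp_coe F.c0 F.memLp_c0 f, mulOp_coe F.c1 F.memLp_c1 f, mulOp_coe F.c2 F.memLp_c2 f, mulOp_coe c3 memLp_c3 f]
    with x h1 h2 h3 h4 h5 h6 h7 h8 h9 h10
  rw [h1, Pi.sub_apply, h2, Pi.add_apply, h3, Pi.add_apply, h4, h5, h6, Pi.smul_apply, Pi.smul_apply, Pi.smul_apply,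
    h7, h8, h9, h10, F.cfun_eq]
  simp only [smul_eq_mul]
  ring

lemma CopS_coe (S : Finset ℤ) (θ z : ℂ) (f : V) :
    F.CopS S θ z f =ᵐ[nu] fun x => (if x.1 ∈ S then 1 else F.cfun θ z x) * f x := by
  unfold CopS
  simp only [add_apply, mul_apply_eq_comp, sub_apply, one_apply_eq_self]
  filter_upwards [Lp.coeFn_add (PiS S f) (F.Cop θ z f - PiS S (F.Cop θ z f)),
    Lp.coeFn_sub (F.Cop θ z f) (PiS S (F.Cop θ z f)), mulOp_coe (ind S) (memLp_ind S) f,
    mulOp_coe (ind S) (memLp_ind S) (F.Cop θ z f), F.Cop_coe θ z f] with x h1 h2 h3 h4 h5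
  rw [h1, Pi.add_apply, h2, Pi.sub_apply]
  unfold PiS
  rw [h3, h4, h5, ind]
  split_ifs <;> ring

/-- the pointwise inverse -/
def dfun (S : Finset ℤ) (θ z : ℂ) (x : ℤ × ℝ) : ℂ := if x.1 ∈ S then 1 else (F.cfun θ z x)⁻¹

/-- lower bound hypothesis for the symbol off the channels in `S` -/
def LB (S : Finset ℤ) (θ z : ℂ) : Prop := ∃ δ : ℝ, 0 < δ ∧ ∀ x : ℤ × ℝ, x.1 ∉ S → δ ≤ ‖F.cfun θ z x‖

lemma memLp_dfun (S : Finset ℤ) (θ z : ℂ) (h : F.LB S θ z) : MemLp (F.dfun S θ z) ∞ nu := by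
  obtain ⟨δ, hδ, h⟩ := h
  refine memLp_top_of_bound' _ ?_ (max 1 δ⁻¹) (fun x => ?_)
  · exact (Measurable.ite (measurableSet_chan S) measurable_const (F.measurable_cfun θ z).inv).aestronglyMeasurable
  · unfold dfun
    split_ifs with hx
    · simp
    · rw [norm_inv]
      exact (inv_anti₀ hδ (h x hx)).trans (le_max_right _ _)

lemma isUnit_CopS (S : Finset ℤ) (θ z : ℂ) (h : F.LB S θ z) :
    IsUnit (F.CopS S θ z) ∧ Ring.inverse (F.CopS S θ z) = mulOp (F.dfun S θ z) (F.memLp_dfun S θ z h) := by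
  have hne : ∀ x : ℤ × ℝ, x.1 ∉ S → F.cfun θ z x ≠ 0 := by
    obtain ⟨δ, hδ, h⟩ := h
    intro x hx h0
    have := h x hx
    rw [h0, norm_zero] at this
    linarith
  have h1 : F.CopS S θ z * mulOp (F.dfun S θ z) (F.memLp_dfun S θ z h) = 1 := by
    ext1 f
    apply Lp.ext
    rw [mul_apply_eq_comp, one_apply_eq_self]
    filter_upwards [F.CopS_coe S θ z (mulOp (F.dfun S θ z) (F.memLp_dfun S θ z h) f),
      mulOp_coe (F.dfun S θ z) (F.memLp_dfun S θ z h) f] with x h1 h2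
    rw [h1, h2, dfun]
    split_ifs with hx
    · simp
    · rw [← mul_assoc, mul_inv_cancel₀ (hne x hx), one_mul]
  have h2 : mulOp (F.dfun S θ z) (F.memLp_dfun S θ z h) * F.CopS S θ z = 1 := by
    ext1 f
    apply Lp.ext
    rw [mul_apply_eq_comp, one_apply_eq_self]
    filter_upwards [F.CopS_coe S θ z f,
      mulOp_coe (F.dfun S θ z) (F.memLp_dfun S θ z h) (F.CopS S θ z f)] with x h1 h2
    rw [h2, h1, dfun]
    split_ifs with hx
    · simp
    · rw [← mul_assoc, inv_mul_cancel₀ (hne x hx), one_mul]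
  let u : (V →L[ℂ] V)ˣ := ⟨F.CopS S θ z, mulOp (F.dfun S θ z) (F.memLp_dfun S θ z h), h1, h2⟩
  refine ⟨⟨u, rfl⟩, ?_⟩
  have := Ring.inverse_unit u
  exact this

/-- The fibre Birman–Schwinger operator with the channels in `S` removed. -/
def KS (S : Finset ℤ) (θ z : ℂ) : F.E →L[ℂ] F.E :=
  (ContinuousLinearMap.adjoint F.B) ∘L (((1 - PiS S) * Ring.inverse (F.CopS S θ z)) ∘L F.B)

lemma isCompact_KS (S : Finset ℤ) (θ z : ℂ) : IsCompactOperator (F.KS S θ z) := by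
  have h1 := (F.isCompact_B.clm_comp ((1 - PiS S) * Ring.inverse (F.CopS S θ z))).clm_comp (ContinuousLinearMap.adjoint F.B)
  exact h1

/-- the integrand of the form of `KS` -/
def formS (S : Finset ℤ) (θ z : ℂ) (h g : ℝ → ℂ) (x : ℤ × ℝ) : ℂ :=
  if x.1 ∈ S then 0 else conj (F.hat h x) * F.hat g x / (F.sig θ x - z)

lemma inner_KS (S : Finset ℤ) (θ z : ℂ) (hLB : F.LB S θ z) (h g : F.E) :
    ⟪h, F.KS S θ z g⟫_ℂ = ∫ x, F.formS S θ z h g x ∂nu := by
  unfold KS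
  rw [ContinuousLinearMap.comp_apply, ContinuousLinearMap.comp_apply, ContinuousLinearMap.adjoint_inner_right,
    (F.isUnit_CopS S θ z hLB).2, L2.inner_def]
  refine integral_congr_ae ?_
  rw [mul_apply_eq_comp, sub_apply, one_apply_eq_self]
  set w : V := mulOp (F.dfun S θ z) (F.memLp_dfun S θ z hLB) (F.B g) with hw
  filter_upwards [F.B_coe h, F.B_coe g, mulOp_coe (F.dfun S θ z) (F.memLp_dfun S θ z hLB) (F.B g),
    Lp.coeFn_sub w (PiS S w), mulOp_coe (ind S) (memLp_ind S) w] with x h1 h2 h3 h4 h5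
  have hom := om_pos x
  rw [h4, Pi.sub_apply]
  unfold PiS
  rw [h5, hw, h3, h1, h2, RCLike.inner_apply, ind, dfun, formS]
  split_ifs with hx
  · simp
  · unfold Bfun cfun
    rw [map_mul, Complex.conj_ofReal]
    have h6 : ((om x : ℝ) : ℂ) ≠ 0 := by exact_mod_cast hom.ne'
    have h7 : (((Real.sqrt (om x))⁻¹ : ℝ) : ℂ) * (((Real.sqrt (om x))⁻¹ : ℝ) : ℂ) = ((om x : ℝ) : ℂ)⁻¹ := by
      rw [← Complex.ofReal_mul, ← mul_inv, Real.mul_self_sqrt hom.le, Complex.ofReal_inv]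
    rw [zero_mul, sub_zero, inv_div]
    calc _ = ((((Real.sqrt (om x))⁻¹ : ℝ) : ℂ) * (((Real.sqrt (om x))⁻¹ : ℝ) : ℂ)) * ((om x : ℝ) : ℂ) *
          (conj (F.hat h x) * F.hat g x / (F.sig θ x - z)) := by ring
      _ = _ := by rw [h7, inv_mul_cancel₀ h6, one_mul]

end FD

end

end Pool.Agent.Lib.Pdaec8e
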