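import Mathlib

set_option autoImplicit false

open MeasureTheory Filter Topology
open scoped ComplexConjugate ENNReal InnerProductSpace

namespace Pool.Agent.Lib.Pdaec8e

noncomputable section

variable {α : Type*} {mα : MeasurableSpace α} {m : Measure α}

/-- Multiplication by a bounded function on `L²`. -/
def mulOp (a : α → ℂ) (ha : MemLp a ∞ m) : Lp ℂ 2 m →L[ℂ] Lp ℂ 2 m :=
  (ContinuousLinearMap.mul ℂ ℂ).holderL m ∞ 2 2 (ha.toLp a)

lemma mulOp_coe (a : α → ℂ) (ha : MemLp a ∞ m) (f : Lp ℂ 2 m) :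
    mulOp a ha f =ᵐ[m] fun x => a x * f x := by
  have h1 : mulOp a ha f = (ContinuousLinearMap.mul ℂ ℂ).holder 2 (ha.toLp a) f := by
    simp [mulOp]
  rw [h1]
  filter_upwards [(ContinuousLinearMap.mul ℂ ℂ).coeFn_holder (r := 2) (ha.toLp a) f, ha.coeFn_toLp] with x hx h2
  rw [hx, h2]; rfl

lemma mulOp_mul (a b : α → ℂ) (ha : MemLp a ∞ m) (hb : MemLp b ∞ m)
    (hab : MemLp (fun x => a x * b x) ∞ m) :
    mulOp a ha * mulOp b hb = mulOp (fun x => a x * b x) hab := by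
  ext1 f
  rw [mul_apply_eq_comp]
  apply Lp.ext
  filter_upwards [mulOp_coe a ha (mulOp b hb f), mulOp_coe b hb f, mulOp_coe _ hab f] with x h1 h2 h3
  rw [h1, h2, h3, mul_assoc]

lemma mulOp_congr (a b : α → ℂ) (ha : MemLp a ∞ m) (hb : MemLp b ∞ m) (h : ∀ x, a x = b x) :
    mulOp a ha = mulOp b hb := by
  have : a = b := funext h
  subst this; rfl

lemma mulOp_one (h1 : MemLp (fun _ : α => (1 : ℂ)) ∞ m) : mulOp (fun _ : α => (1 : ℂ)) h1 = 1 := by
  ext1 f
  apply Lp.ext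
  filter_upwards [mulOp_coe _ h1 f] with x hx
  rw [hx]; simp

lemma inner_mulOp (a : α → ℂ) (ha : MemLp a ∞ m) (f g : Lp ℂ 2 m) :
    ⟪f, mulOp a ha g⟫_ℂ = ∫ x, conj (f x) * (a x * g x) ∂m := by
  rw [L2.inner_def]
  refine integral_congr_ae ?_
  filter_upwards [mulOp_coe a ha g] with x hx
  rw [hx, RCLike.inner_apply, mul_comm]

lemma memLp_conj (a : α → ℂ) (ha : MemLp a ∞ m) : MemLp (fun x => conj (a x)) ∞ m := by
  refine MemLp.of_le ha ?_ (Eventually.of_forall fun x => ?_)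
  · exact Complex.continuous_conj.comp_aestronglyMeasurable ha.1
  · rw [RCLike.norm_conj]

lemma adjoint_mulOp (a : α → ℂ) (ha : MemLp a ∞ m) :
    ContinuousLinearMap.adjoint (mulOp a ha) = mulOp (fun x => conj (a x)) (memLp_conj a ha) := by
  symm
  rw [ContinuousLinearMap.eq_adjoint_iff]
  intro f g
  rw [inner_mulOp, L2.inner_def]
  refine integral_congr_ae ?_
  filter_upwards [mulOp_coe _ (memLp_conj a ha) f] with x hx
  rw [hx, RCLike.inner_apply, map_mul, RCLike.conj_conj]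
  ring

lemma memLp_top_of_bound' (a : α → ℂ) (ha : AEStronglyMeasurable a m) (C : ℝ) (h : ∀ x, ‖a x‖ ≤ C) :
    MemLp a ∞ m :=
  memLp_top_of_bound ha C (Eventually.of_forall h)

lemma norm_mulOp_le (a : α → ℂ) (ha : MemLp a ∞ m) (C : ℝ) (hC : 0 ≤ C) (h : ∀ x, ‖a x‖ ≤ C) :
    ‖mulOp a ha‖ ≤ C := by
  refine ContinuousLinearMap.opNorm_le_bound _ hC (fun f => ?_)
  refine Lp.norm_le_mul_norm_of_ae_le_mul ?_
  filter_upwards [mulOp_coe a ha f] with x hx
  rw [hx, norm_mul]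
  exact mul_le_mul_of_nonneg_right (h x) (norm_nonneg _)

end

end Pool.Agent.Lib.Pdaec8e
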