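import Pool.Agent.Lib.Pdaec8e.Gauss2
import Pool.Agent.Lib.Pdaec8e.HS
import Pool.Agent.Lib.Pdaec8e.MulOp

set_option autoImplicit false

open MeasureTheory Filter Topology
open scoped ComplexConjugate ENNReal InnerProductSpace Real BoundedContinuousFunction

namespace Pool.Agent.Lib.Pdaec8e

noncomputable section

section general

variable {E : Type*} [NormedAddCommGroup E] [InnerProductSpace ℂ E]
variable {α : Type*} {mα : MeasurableSpace α} {m : Measure α}

lemma norm_sq_Lp (u : Lp E 2 m) : ‖u‖ ^ 2 = ∫ x, ‖u x‖ ^ 2 ∂m := by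
  have h1 : ((‖u‖ ^ 2 : ℝ) : ℂ) = ⟪u, u⟫_ℂ := by
    rw [inner_self_eq_norm_sq_to_K]; push_cast; rfl
  rw [L2.inner_def] at h1
  have h2 : ∀ x, ⟪u x, u x⟫_ℂ = ((‖u x‖ ^ 2 : ℝ) : ℂ) := by
    intro x
    rw [inner_self_eq_norm_sq_to_K]; push_cast; rfl
  simp_rw [h2] at h1
  have h3 := integral_ofReal (𝕜 := ℂ) (μ := m) (f := fun x => ‖u x‖ ^ 2)
  have h4 : ((‖u‖ ^ 2 : ℝ) : ℂ) = ((∫ x, ‖u x‖ ^ 2 ∂m : ℝ) : ℂ) := h1.trans h3
  exact_mod_cast h4

lemma norm_sq_toLp (f : α → E) (hf : MemLp f 2 m) : ‖hf.toLp f‖ ^ 2 = ∫ x, ‖f x‖ ^ 2 ∂m := by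
  rw [norm_sq_Lp]
  refine integral_congr_ae ?_
  filter_upwards [hf.coeFn_toLp] with x hx
  rw [hx]

lemma continuous_toLp [IsFiniteMeasure m] {Y : Type*} [TopologicalSpace Y] [FirstCountableTopology Y]
    (f : Y → α → E) (hm : ∀ y, AEStronglyMeasurable (f y) m) (C : ℝ) (hC : ∀ y a, ‖f y a‖ ≤ C)
    (hc : ∀ a, Continuous (fun y => f y a)) (hf : ∀ y, MemLp (f y) 2 m) :
    Continuous (fun y => (hf y).toLp (f y)) := by
  rw [continuous_iff_continuousAt]
  intro y0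
  rw [ContinuousAt, tendsto_iff_norm_sub_tendsto_zero]
  have h1 : ∀ y, ‖(hf y).toLp (f y) - (hf y0).toLp (f y0)‖ = Real.sqrt (∫ a, ‖f y a - f y0 a‖ ^ 2 ∂m) := by
    intro y
    rw [← MemLp.toLp_sub, ← Real.sqrt_sq (norm_nonneg _), norm_sq_toLp]
    rfl
  simp_rw [h1]
  have h2 : Tendsto (fun y => ∫ a, ‖f y a - f y0 a‖ ^ 2 ∂m) (𝓝 y0) (𝓝 (∫ a, (0 : ℝ) ∂m)) := by
    refine tendsto_integral_filter_of_dominated_convergence (fun _ => (2 * C) ^ 2) ?_ ?_ ?_ ?_
    · exact Eventually.of_forall fun y => (((hm y).sub (hm y0)).norm.pow 2)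
    · refine Eventually.of_forall fun y => Eventually.of_forall fun a => ?_
      rw [Real.norm_eq_abs, abs_of_nonneg (by positivity)]
      refine pow_le_pow_left₀ (norm_nonneg _) ?_ 2
      refine (norm_sub_le _ _).trans ?_
      linarith [hC y a, hC y0 a]
    · exact integrable_const _
    · refine Eventually.of_forall fun a => ?_
      have h3 : Continuous (fun y => ‖f y a - f y0 a‖ ^ 2) := by
        have := hc a
        fun_prop
      have := h3.tendsto y0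
      simpa using this
  rw [integral_zero] at h2
  have h3 := (Real.continuous_sqrt.tendsto 0).comp h2
  simpa [Function.comp_def] using h3

end general

namespace FD

variable (F : FD)

/-- `L²` over one period. -/
abbrev E : Type := Lp ℂ 2 F.mu

lemma memLp_of_bound' (f : ℝ → ℂ) (hf : AEStronglyMeasurable f F.mu) (C : ℝ) (h : ∀ s, ‖f s‖ ≤ C) :
    MemLp f 2 F.mu :=
  MemLp.of_bound hf C (Eventually.of_forall h)

lemma memLp_eps (x : ℤ × ℝ) : MemLp (fun s => conj (F.ph s x)) 2 F.mu := by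
  refine F.memLp_of_bound' _ ?_ 1 (fun s => ?_)
  · exact Complex.continuous_conj.comp_aestronglyMeasurable (F.measurable_ph_left x).aestronglyMeasurable
  · rw [RCLike.norm_conj, F.norm_ph]

/-- the plane-wave vectors -/
def eps (x : ℤ × ℝ) : F.E := (F.memLp_eps x).toLp _

lemma continuous_eps : Continuous F.eps := by
  unfold eps
  refine continuous_toLp (fun x s => conj (F.ph s x)) (fun x => (F.memLp_eps x).1) 1 (fun x s => ?_) (fun s => ?_) F.memLp_eps
  · rw [RCLike.norm_conj, F.norm_ph]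
  · have h : Continuous (fun x : ℤ × ℝ => (s, x)) := by fun_prop
    have h2 := F.continuous_ph.comp h
    exact Complex.continuous_conj.comp h2

lemma inner_eps (x : ℤ × ℝ) (g : F.E) : ⟪F.eps x, g⟫_ℂ = F.hat g x := by
  rw [L2.inner_def, hat]
  refine integral_congr_ae ?_
  filter_upwards [(F.memLp_eps x).coeFn_toLp] with s hs
  rw [eps, hs, RCLike.inner_apply, RCLike.conj_conj, mul_comm]

lemma norm_eps (x : ℤ × ℝ) : ‖F.eps x‖ ^ 2 = F.L := by
  rw [eps, norm_sq_toLp]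
  simp only [RCLike.norm_conj, F.norm_ph, one_pow]
  simp [F.hL.le]

/-- row vectors of a kernel -/
lemma memLp_row (k : (ℝ × ℝ) →ᵇ ℂ) (s : ℝ) : MemLp (fun s' => conj (k (s, s'))) 2 F.mu := by
  refine F.memLp_of_bound' _ ?_ ‖k‖ (fun s' => ?_)
  · refine Continuous.aestronglyMeasurable ?_
    fun_prop
  · rw [RCLike.norm_conj]; exact k.norm_coe_le_norm _

def row (k : (ℝ × ℝ) →ᵇ ℂ) (s : ℝ) : F.E := (F.memLp_row k s).toLp _

lemma continuous_row (k : (ℝ × ℝ) →ᵇ ℂ) : Continuous (F.row k) := by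
  unfold row
  refine continuous_toLp (fun s s' => conj (k (s, s'))) (fun s => (F.memLp_row k s).1) ‖k‖ (fun s s' => ?_) (fun s' => ?_) (F.memLp_row k)
  · rw [RCLike.norm_conj]; exact k.norm_coe_le_norm _
  · fun_prop

lemma norm_row_le (k : (ℝ × ℝ) →ᵇ ℂ) (s : ℝ) : ‖F.row k s‖ ≤ Real.sqrt F.L * ‖k‖ := by
  have h1 : ‖F.row k s‖ ^ 2 ≤ F.L * ‖k‖ ^ 2 := by
    rw [row, norm_sq_toLp]
    have h2 : ∫ x, ‖conj (k (s, x))‖ ^ 2 ∂F.mu ≤ ∫ x, ‖k‖ ^ 2 ∂F.mu := by
      refine integral_mono_of_nonneg (Eventually.of_forall fun x => by positivity) (integrable_const _) (Eventually.of_forall fun x => ?_)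
      simp only [RCLike.norm_conj]
      exact pow_le_pow_left₀ (norm_nonneg _) (k.norm_coe_le_norm _) 2
    refine h2.trans ?_
    simp [F.hL.le]
  have h2 : (Real.sqrt F.L * ‖k‖) ^ 2 = F.L * ‖k‖ ^ 2 := by
    rw [mul_pow, Real.sq_sqrt F.hL.le]
  rw [← h2] at h1
  exact le_of_sq_le_sq h1 (by positivity)

lemma inner_row (k : (ℝ × ℝ) →ᵇ ℂ) (s : ℝ) (g : F.E) :
    ⟪F.row k s, g⟫_ℂ = ∫ s', k (s, s') * g s' ∂F.mu := by
  rw [L2.inner_def]
  refine integral_congr_ae ?_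
  filter_upwards [(F.memLp_row k s).coeFn_toLp] with s' hs
  rw [row, hs, RCLike.inner_apply, RCLike.conj_conj, mul_comm]

lemma memLp_rowfun (k : (ℝ × ℝ) →ᵇ ℂ) : MemLp (F.row k) 2 F.mu :=
  MemLp.of_bound (F.continuous_row k).aestronglyMeasurable (Real.sqrt F.L * ‖k‖)
    (Eventually.of_forall fun s => F.norm_row_le k s)

/-- integral operator with kernel `k` -/
def kerOp0 (k : (ℝ × ℝ) →ᵇ ℂ) : F.E →L[ℂ] F.E := hs ((F.memLp_rowfun k).toLp (F.row k))

lemma kerOp0_coe (k : (ℝ × ℝ) →ᵇ ℂ) (g : F.E) :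
    F.kerOp0 k g =ᵐ[F.mu] fun s => ∫ s', k (s, s') * g s' ∂F.mu := by
  unfold kerOp0
  filter_upwards [hs_coe ((F.memLp_rowfun k).toLp (F.row k)) g, (F.memLp_rowfun k).coeFn_toLp] with s h1 h2
  rw [h1, h2, F.inner_row]

lemma isCompact_kerOp0 (k : (ℝ × ℝ) →ᵇ ℂ) : IsCompactOperator (F.kerOp0 k) := isCompact_hs _

lemma norm_kerOp0_le (k : (ℝ × ℝ) →ᵇ ℂ) : ‖F.kerOp0 k‖ ≤ F.L * ‖k‖ := by
  refine (norm_hs_le _).trans ?_
  have h1 : ‖(F.memLp_rowfun k).toLp (F.row k)‖ ^ 2 ≤ (F.L * ‖k‖) ^ 2 := by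
    rw [norm_sq_toLp]
    have h2 : ∫ x, ‖F.row k x‖ ^ 2 ∂F.mu ≤ ∫ x, (Real.sqrt F.L * ‖k‖) ^ 2 ∂F.mu := by
      refine integral_mono_of_nonneg (Eventually.of_forall fun x => by positivity) (integrable_const _) (Eventually.of_forall fun x => ?_)
      exact pow_le_pow_left₀ (norm_nonneg _) (F.norm_row_le k x) 2
    refine h2.trans (le_of_eq ?_)
    rw [mul_pow, Real.sq_sqrt F.hL.le]
    simp [F.hL.le]
    ring
  exact le_of_sq_le_sq h1 (mul_nonneg F.hL.le (norm_nonneg _))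

lemma integrable_ker (k : (ℝ × ℝ) →ᵇ ℂ) (g : F.E) (s : ℝ) :
    Integrable (fun s' => k (s, s') * g s') F.mu := by
  have hg : Integrable g F.mu := (Lp.memLp g).integrable (by norm_num)
  refine hg.bdd_mul (c := ‖k‖) ?_ (Eventually.of_forall fun s' => k.norm_coe_le_norm _)
  refine Continuous.aestronglyMeasurable ?_
  fun_prop

/-- `kerOp0` as a continuous linear map of the kernel. -/
def kerOp : ((ℝ × ℝ) →ᵇ ℂ) →L[ℂ] (F.E →L[ℂ] F.E) :=
  LinearMap.mkContinuous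
    { toFun := F.kerOp0
      map_add' := fun k l => by
        ext1 g
        apply Lp.ext
        rw [add_apply]
        filter_upwards [F.kerOp0_coe (k + l) g, F.kerOp0_coe k g, F.kerOp0_coe l g,
          Lp.coeFn_add (F.kerOp0 k g) (F.kerOp0 l g)] with s h1 h2 h3 h4
        rw [h1, h4, Pi.add_apply, h2, h3, ← integral_add (F.integrable_ker k g s) (F.integrable_ker l g s)]
        congr 1
        ext s'
        rw [BoundedContinuousFunction.add_apply, add_mul]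
      map_smul' := fun c k => by
        ext1 g
        apply Lp.ext
        rw [RingHom.id_apply, smul_apply]
        filter_upwards [F.kerOp0_coe (c • k) g, F.kerOp0_coe k g,
          Lp.coeFn_smul c (F.kerOp0 k g)] with s h1 h2 h4
        rw [h1, h4, Pi.smul_apply, h2, smul_eq_mul, ← integral_const_mul]
        congr 1
        ext s'
        rw [BoundedContinuousFunction.smul_apply, smul_eq_mul, mul_assoc] }
    F.L (fun k => F.norm_kerOp0_le k)

@[simp] lemma kerOp_apply (k : (ℝ × ℝ) →ᵇ ℂ) : F.kerOp k = F.kerOp0 k := rfl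

lemma inner_kerOp (k : (ℝ × ℝ) →ᵇ ℂ) (h g : F.E) :
    ⟪h, F.kerOp k g⟫_ℂ = ∫ s, conj (h s) * ∫ s', k (s, s') * g s' ∂F.mu ∂F.mu := by
  rw [L2.inner_def]
  refine integral_congr_ae ?_
  filter_upwards [F.kerOp0_coe k g] with s hs
  rw [kerOp_apply, hs, RCLike.inner_apply, mul_comm]

end FD

end

end Pool.Agent.Lib.Pdaec8e
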