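import Pool.Agent.Lib.Pdaec8e.Curve
import Pool.Agent.Lib.Pdaec8e.AbsOp2

set_option autoImplicit false

open MeasureTheory Filter Topology FourierTransform LineDeriv
open scoped ComplexConjugate ENNReal InnerProductSpace Real SchwartzMap

namespace Pool.Agent.Lib.Pdaec8e

noncomputable section

namespace PeriodicCurve

variable (Γ : PeriodicCurve)

/-- change of variables in the Fourier plane -/
def T : ℝ × (ℤ × ℝ) → Plane := TT Γ.ca Γ.cb Γ.nl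
def Ti : Plane → ℝ × (ℤ × ℝ) := TTi Γ.ca Γ.cb Γ.nl

lemma mpT : MeasurePreserving Γ.T M3 (volume : Measure Plane) := mp_TT _ _ _ Γ.ca_cb Γ.nl_pos.ne'
lemma mpTi : MeasurePreserving Γ.Ti (volume : Measure Plane) M3 := mp_TTi _ _ _ Γ.ca_cb Γ.nl_pos.ne'
lemma T_Ti (ξ : Plane) : Γ.T (Γ.Ti ξ) = ξ := TT_TTi _ _ _ Γ.ca_cb Γ.nl_pos.ne' ξ
lemma Ti_T : ∀ᵐ p ∂M3, Γ.Ti (Γ.T p) = p := TTi_TT _ _ _ Γ.ca_cb Γ.nl_pos.ne'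

lemma surj_U : Function.Surjective (Lp.compMeasurePreservingₗᵢ ℂ Γ.T Γ.mpT : L2Plane →ₗᵢ[ℂ] X) := by
  intro g
  refine ⟨Lp.compMeasurePreserving Γ.Ti Γ.mpTi g, ?_⟩
  apply Lp.ext
  have h1 : (Lp.compMeasurePreservingₗᵢ ℂ Γ.T Γ.mpT (Lp.compMeasurePreserving Γ.Ti Γ.mpTi g) : X) =ᵐ[M3]
      (Lp.compMeasurePreserving Γ.Ti Γ.mpTi g) ∘ Γ.T := Lp.coeFn_compMeasurePreserving _ Γ.mpT
  have h2 : (Lp.compMeasurePreserving Γ.Ti Γ.mpTi g : L2Plane) =ᵐ[volume] g ∘ Γ.Ti := Lp.coeFn_compMeasurePreserving g Γ.mpTi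
  have h3 := Γ.mpT.quasiMeasurePreserving.ae h2
  filter_upwards [h1, h3, Γ.Ti_T] with p hp1 hp2 hp3
  rw [hp1, Function.comp_apply, hp2, Function.comp_apply, hp3]

/-- unitary change of variables -/
def UU : L2Plane ≃ₗᵢ[ℂ] X := LinearIsometryEquiv.ofSurjective (Lp.compMeasurePreservingₗᵢ ℂ Γ.T Γ.mpT) Γ.surj_U

lemma UU_coe (g : L2Plane) : Γ.UU g =ᵐ[M3] fun p => g (Γ.T p) := Lp.coeFn_compMeasurePreserving g Γ.mpT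

/-- Fourier transform followed by the change of variables -/
def V : L2Plane ≃ₗᵢ[ℂ] X := (Lp.fourierTransformₗᵢ Plane ℂ).trans Γ.UU

lemma V_schwartz (φ : 𝓢(Plane, ℂ)) : Γ.V (φ.toLp 2) =ᵐ[M3] fun p => (𝓕 φ) (Γ.T p) := by
  have h0 : Γ.V (φ.toLp 2) = Γ.UU ((𝓕 φ).toLp 2) := by
    rw [← SchwartzMap.toLp_fourier_eq]; rfl
  rw [h0]
  have h1 := Γ.UU_coe ((𝓕 φ).toLp 2)
  have h2 := Γ.mpT.quasiMeasurePreserving.ae ((𝓕 φ).coeFn_toLp 2 volume)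
  filter_upwards [h1, h2] with p hp1 hp2
  rw [hp1, hp2]

/-- partial derivatives -/
def dS (j : Fin 2) (φ : 𝓢(Plane, ℂ)) : 𝓢(Plane, ℂ) := ∂_{(EuclideanSpace.single j 1 : Plane)} φ

lemma dS_apply (j : Fin 2) (φ : 𝓢(Plane, ℂ)) (x : Plane) : dS j φ x = fderiv ℝ φ x (EuclideanSpace.single j 1) :=
  SchwartzMap.lineDerivOp_apply_eq_fderiv _ _ _

lemma fourier_dS (j : Fin 2) (φ : 𝓢(Plane, ℂ)) (ξ : Plane) : (𝓕 (dS j φ)) ξ = (2 * π * Complex.I) * (ξ j : ℂ) * (𝓕 φ) ξ := by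
  unfold dS
  rw [SchwartzMap.fourier_lineDerivOp_eq, _root_.smul_apply, SchwartzMap.smulLeftCLM_apply_apply]
  · rw [EuclideanSpace.inner_single_right]
    simp only [smul_eq_mul, conj_trivial, one_mul, Complex.real_smul]
    ring
  · exact ((innerSL ℝ).flip (EuclideanSpace.single j (1 : ℝ) : Plane)).hasTemperateGrowth

lemma sr_T (p : ℝ × (ℤ × ℝ)) : Γ.toFD.sr p = (2 * π) ^ 2 * ((Γ.T p) 0 ^ 2 + (Γ.T p) 1 ^ 2) := by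
  have h := Γ.nl_pos
  have hab := Γ.ca_cb
  have e0 : Γ.T p 0 = Γ.ca / Γ.nl * ((p.2.1 : ℝ) + p.1) - Γ.cb * Γ.nl * p.2.2 := f2_zero _ _ _ _
  have e1 : Γ.T p 1 = Γ.cb / Γ.nl * ((p.2.1 : ℝ) + p.1) + Γ.ca * Γ.nl * p.2.2 := f2_one _ _ _ _
  rw [e0, e1]
  unfold FD.sr toFD
  simp only
  field_simp
  linear_combination (-(((p.2.1 : ℝ) + p.1) ^ 2 + Γ.nl ^ 4 * p.2.2 ^ 2)) * hab

/-- linear maps of the form data -/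
def aL : 𝓢(Plane, ℂ) →ₗ[ℂ] L2Plane := (SchwartzMap.toLpCLM ℂ ℂ 2 (volume : Measure Plane)).toLinearMap

lemma aL_apply (φ : 𝓢(Plane, ℂ)) : aL φ = φ.toLp 2 := rfl

def dL (j : Fin 2) : 𝓢(Plane, ℂ) →ₗ[ℂ] L2Plane where
  toFun φ := aL (dS j φ)
  map_add' φ χ := by
    rw [← map_add]
    congr 1
    exact lineDerivOp_add _ _ _
  map_smul' c φ := by
    rw [RingHom.id_apply, ← map_smul]
    congr 1
    exact lineDerivOp_smul _ _ _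

lemma dL_apply (j : Fin 2) (φ : 𝓢(Plane, ℂ)) : dL j φ = (dS j φ).toLp 2 := rfl

lemma V_dL (j : Fin 2) (φ : 𝓢(Plane, ℂ)) : Γ.V (dL j φ) =ᵐ[M3] fun p => (2 * π * Complex.I) * ((Γ.T p) j : ℂ) * (𝓕 φ) (Γ.T p) := by
  filter_upwards [Γ.V_schwartz (dS j φ)] with p hp
  rw [dL_apply, hp, fourier_dS]

/-- the weighted Fourier transform -/
def vfun (κ : ℝ) (φ : 𝓢(Plane, ℂ)) (p : ℝ × (ℤ × ℝ)) : ℂ := (((Γ.toFD.Jf κ p)⁻¹ : ℝ) : ℂ) * (𝓕 φ) (Γ.T p)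

lemma Jf_inv (κ : ℝ) (p : ℝ × (ℤ × ℝ)) : (Γ.toFD.Jf κ p)⁻¹ = Real.sqrt (κ ^ 2 + Γ.toFD.sr p) := by
  unfold FD.Jf; rw [inv_inv]

lemma memLp_vfun (κ : ℝ) (hκ : 0 < κ) (φ : 𝓢(Plane, ℂ)) : MemLp (Γ.vfun κ φ) 2 M3 := by
  have h0 := Lp.memLp (Γ.V (aL φ))
  have h1 := Lp.memLp (Γ.V (dL 0 φ))
  have h2 := Lp.memLp (Γ.V (dL 1 φ))
  have hsum : MemLp (fun p => κ * ‖(Γ.V (aL φ)) p‖ + (‖(Γ.V (dL 0 φ)) p‖ + ‖(Γ.V (dL 1 φ)) p‖)) 2 M3 :=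
    (h0.norm.const_mul κ).add (h1.norm.add h2.norm)
  refine hsum.of_le ?_ ?_
  · refine (Complex.measurable_ofReal.comp (Γ.toFD.measurable_Jf κ).inv).aestronglyMeasurable.mul ?_
    exact ((𝓕 φ).continuous.measurable.comp Γ.mpT.measurable).aestronglyMeasurable
  · filter_upwards [Γ.V_schwartz φ, Γ.V_dL 0 φ, Γ.V_dL 1 φ] with p hp0 hp1 hp2
    rw [aL_apply, hp0, hp1, hp2]
    unfold vfun
    rw [norm_mul, Complex.norm_real, Γ.Jf_inv, Γ.sr_T]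
    have hpi := Real.pi_pos
    have e1 : Real.sqrt (κ ^ 2 + (2 * π) ^ 2 * ((Γ.T p) 0 ^ 2 + (Γ.T p) 1 ^ 2)) ≤ κ + (2 * π * |(Γ.T p) 0| + 2 * π * |(Γ.T p) 1|) := by
      rw [Real.sqrt_le_left (by positivity)]
      have a0 := abs_nonneg ((Γ.T p) 0)
      have a1 := abs_nonneg ((Γ.T p) 1)
      rw [← sq_abs ((Γ.T p) 0), ← sq_abs ((Γ.T p) 1)]
      nlinarith [mul_nonneg (mul_nonneg hκ.le hpi.le) a0, mul_nonneg (mul_nonneg hκ.le hpi.le) a1,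
        mul_nonneg (mul_nonneg (mul_nonneg hpi.le hpi.le) a0) a1]
    have e2 : ∀ j : Fin 2, ‖(2 * (π : ℂ) * Complex.I) * ((Γ.T p) j : ℂ) * (𝓕 φ) (Γ.T p)‖ = 2 * π * |(Γ.T p) j| * ‖(𝓕 φ) (Γ.T p)‖ := by
      intro j
      rw [norm_mul, norm_mul, norm_mul, norm_mul, Complex.norm_I, Complex.norm_real, Complex.norm_real, Real.norm_eq_abs,
        Real.norm_eq_abs, abs_of_pos hpi]
      simp
    rw [e2 0, e2 1, Real.norm_eq_abs, Real.norm_eq_abs, abs_of_nonneg (Real.sqrt_nonneg _)]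
    refine le_trans ?_ (le_abs_self _)
    calc _ ≤ (κ + (2 * π * |(Γ.T p) 0| + 2 * π * |(Γ.T p) 1|)) * ‖(𝓕 φ) (Γ.T p)‖ :=
          mul_le_mul_of_nonneg_right e1 (norm_nonneg _)
      _ = _ := by ring

def vL (κ : ℝ) (hκ : 0 < κ) : 𝓢(Plane, ℂ) →ₗ[ℂ] X where
  toFun φ := (Γ.memLp_vfun κ hκ φ).toLp _
  map_add' φ χ := by
    rw [← MemLp.toLp_add]
    refine MemLp.toLp_congr _ _ (Eventually.of_forall fun p => ?_)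
    simp only [Pi.add_apply, vfun]
    have : 𝓕 (φ + χ) = 𝓕 φ + 𝓕 χ := FourierTransform.fourier_add φ χ
    rw [this]
    change _ * ((𝓕 φ) (Γ.T p) + (𝓕 χ) (Γ.T p)) = _
    ring
  map_smul' c φ := by
    rw [RingHom.id_apply, ← MemLp.toLp_const_smul]
    refine MemLp.toLp_congr _ _ (Eventually.of_forall fun p => ?_)
    simp only [Pi.smul_apply, vfun, smul_eq_mul]
    have : 𝓕 (c • φ) = c • 𝓕 φ := FourierTransform.fourier_smul c φ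
    rw [this]
    change _ * (c * (𝓕 φ) (Γ.T p)) = _
    ring

lemma vL_coe (κ : ℝ) (hκ : 0 < κ) (φ : 𝓢(Plane, ℂ)) : Γ.vL κ hκ φ =ᵐ[M3] Γ.vfun κ φ := (Γ.memLp_vfun κ hκ φ).coeFn_toLp

lemma Jv (κ : ℝ) (hκ : 0 < κ) (φ : 𝓢(Plane, ℂ)) : Γ.toFD.MJ κ hκ (Γ.vL κ hκ φ) = Γ.V (aL φ) := by
  apply Lp.ext
  filter_upwards [mulOp_coe _ (Γ.toFD.memLp_J κ hκ) (Γ.vL κ hκ φ), Γ.vL_coe κ hκ φ, Γ.V_schwartz φ] with p h1 h2 h3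
  have h1' : (Γ.toFD.MJ κ hκ (Γ.vL κ hκ φ)) p = ((Γ.toFD.Jf κ p : ℝ) : ℂ) * (Γ.vL κ hκ φ) p := h1
  rw [h1', h2, aL_apply, h3, vfun, ← mul_assoc, ← Complex.ofReal_mul, mul_inv_cancel₀ (Γ.toFD.Jf_pos κ hκ p).ne',
    Complex.ofReal_one, one_mul]

lemma inner_v (κ : ℝ) (hκ : 0 < κ) (φ χ : 𝓢(Plane, ℂ)) :
    ⟪Γ.vL κ hκ φ, Γ.vL κ hκ χ⟫_ℂ = (κ : ℂ) ^ 2 * ⟪aL φ, aL χ⟫_ℂ + ∑ j, ⟪dL j φ, dL j χ⟫_ℂ := by
  rw [Fin.sum_univ_two, ← LinearIsometryEquiv.inner_map_map Γ.V (aL φ), ← LinearIsometryEquiv.inner_map_map Γ.V (dL 0 φ),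
    ← LinearIsometryEquiv.inner_map_map Γ.V (dL 1 φ)]
  rw [L2.inner_def, L2.inner_def, L2.inner_def, L2.inner_def]
  have i0 := L2.integrable_inner (𝕜 := ℂ) (Γ.V (aL φ)) (Γ.V (aL χ))
  have i1 := L2.integrable_inner (𝕜 := ℂ) (Γ.V (dL 0 φ)) (Γ.V (dL 0 χ))
  have i2 := L2.integrable_inner (𝕜 := ℂ) (Γ.V (dL 1 φ)) (Γ.V (dL 1 χ))
  have i3 : Integrable (fun p => ⟪(Γ.V (dL 0 φ)) p, (Γ.V (dL 0 χ)) p⟫_ℂ + ⟪(Γ.V (dL 1 φ)) p, (Γ.V (dL 1 χ)) p⟫_ℂ) M3 := i1.add i2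
  rw [← integral_add i1 i2, ← integral_const_mul, ← integral_add (i0.const_mul _) i3]
  refine integral_congr_ae ?_
  filter_upwards [Γ.vL_coe κ hκ φ, Γ.vL_coe κ hκ χ, Γ.V_schwartz φ, Γ.V_schwartz χ, Γ.V_dL 0 φ, Γ.V_dL 0 χ, Γ.V_dL 1 φ, Γ.V_dL 1 χ]
    with p h1 h2 h3 h4 h5 h6 h7 h8
  rw [h1, h2, aL_apply, aL_apply, h3, h4, h5, h6, h7, h8]
  simp only [RCLike.inner_apply, vfun, map_mul, Complex.conj_ofReal, Complex.conj_I, map_ofNat]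
  have e1 : (((Γ.toFD.Jf κ p)⁻¹ : ℝ) : ℂ) * (((Γ.toFD.Jf κ p)⁻¹ : ℝ) : ℂ) =
      (κ : ℂ) ^ 2 + (2 * π) ^ 2 * (((Γ.T p) 0 : ℂ) ^ 2 + ((Γ.T p) 1 : ℂ) ^ 2) := by
    rw [← Complex.ofReal_mul, ← mul_inv, ← sq, Γ.toFD.Jf_sq κ hκ, one_div, inv_inv, Γ.sr_T]
    push_cast
    ring
  have e2 : Complex.I * Complex.I = -1 := Complex.I_mul_I
  calc _ = ((((Γ.toFD.Jf κ p)⁻¹ : ℝ) : ℂ) * (((Γ.toFD.Jf κ p)⁻¹ : ℝ) : ℂ)) * ((𝓕 χ) (Γ.T p) * conj ((𝓕 φ) (Γ.T p))) := by ring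
    _ = _ := by
      rw [e1]
      linear_combination (4 * (π : ℂ) ^ 2 * (((Γ.T p) 0 : ℂ) ^ 2 + ((Γ.T p) 1 : ℂ) ^ 2) * ((𝓕 χ) (Γ.T p) * conj ((𝓕 φ) (Γ.T p)))) * e2

end PeriodicCurve

end

end Pool.Agent.Lib.Pdaec8e
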