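import Pool.Agent.Lib.Pdaec8e.Link1

set_option autoImplicit false

open MeasureTheory Filter Topology FourierTransform LineDeriv
open scoped ComplexConjugate ENNReal InnerProductSpace Real SchwartzMap ContDiff

namespace Pool.Agent.Lib.Pdaec8e

noncomputable section

namespace PeriodicCurve

variable (Γ : PeriodicCurve)

/-- weight on the Fourier plane -/
def wt (κ : ℝ) (ξ : Plane) : ℝ := Real.sqrt (κ ^ 2 + (2 * π) ^ 2 * (ξ 0 ^ 2 + ξ 1 ^ 2))

lemma continuous_wt (κ : ℝ) : Continuous (wt κ) := by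
  unfold wt
  fun_prop

lemma wt_pos (κ : ℝ) (hκ : 0 < κ) (ξ : Plane) : 0 < wt κ ξ := by
  unfold wt
  positivity

lemma Jf_inv_T (κ : ℝ) (p : ℝ × (ℤ × ℝ)) : (Γ.toFD.Jf κ p)⁻¹ = wt κ (Γ.T p) := by
  rw [Γ.Jf_inv, Γ.sr_T]; rfl

theorem dense_vL (κ : ℝ) (hκ : 0 < κ) : DenseRange (Γ.vL κ hκ) := by
  have h0 : Dense ((LinearMap.range (Γ.vL κ hκ) : Submodule ℂ X) : Set X) := by
    rw [Submodule.dense_iff_topologicalClosure_eq_top, Submodule.topologicalClosure_eq_top_iff, Submodule.eq_bot_iff]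
    intro w hw
    rw [Submodule.mem_orthogonal] at hw
    have hw' : ∀ φ : 𝓢(Plane, ℂ), ⟪Γ.vL κ hκ φ, w⟫_ℂ = 0 := fun φ => hw _ ⟨φ, rfl⟩
    set W : Plane → ℂ := fun ξ => w (Γ.Ti ξ) with hW
    have hWmem : MemLp W 2 volume := (Lp.memLp w).comp_measurePreserving Γ.mpTi
    have hWT : ∀ᵐ p ∂M3, w p = W (Γ.T p) := by
      filter_upwards [Γ.Ti_T] with p hp
      simp only [hW]
      rw [hp]
    have hloc : LocallyIntegrable (fun ξ : Plane => ((wt κ ξ : ℝ) : ℂ) * W ξ) volume := by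
      rw [locallyIntegrable_iff]
      intro K hK
      have h1 : IntegrableOn W K volume := (hWmem.locallyIntegrable (by norm_num)).integrableOn_isCompact hK
      have h2 : ContinuousOn (fun ξ : Plane => ((wt κ ξ : ℝ) : ℂ)) K :=
        (Complex.continuous_ofReal.comp (continuous_wt κ)).continuousOn
      exact h1.continuousOn_mul h2 hK
    have hae : ∀ᵐ ξ ∂(volume : Measure Plane), ((wt κ ξ : ℝ) : ℂ) * W ξ = 0 := by
      refine ae_eq_zero_of_integral_contDiff_smul_eq_zero hloc (fun g hg1 hg2 => ?_)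
      have hG1 : ContDiff ℝ ∞ (fun ξ => ((g ξ : ℝ) : ℂ)) := Complex.ofRealCLM.contDiff.comp hg1
      have hG2 : HasCompactSupport (fun ξ => ((g ξ : ℝ) : ℂ)) := hg2.comp_left (g := fun x : ℝ => (x : ℂ)) Complex.ofReal_zero
      set G : 𝓢(Plane, ℂ) := hG2.toSchwartzMap hG1 with hG
      have hGa : ∀ ξ, G ξ = ((g ξ : ℝ) : ℂ) := fun ξ => rfl
      have h1 := hw' (𝓕⁻ G)
      rw [L2.inner_def] at h1
      have h2 : ∫ p, ⟪(Γ.vL κ hκ (𝓕⁻ G)) p, w p⟫_ℂ ∂M3 = ∫ p, (fun ξ : Plane => g ξ • (((wt κ ξ : ℝ) : ℂ) * W ξ)) (Γ.T p) ∂M3 := by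
        refine integral_congr_ae ?_
        filter_upwards [Γ.vL_coe κ hκ (𝓕⁻ G), hWT] with p hp1 hp2
        rw [hp1, hp2, vfun, FourierTransform.fourier_fourierInv_eq, hGa, RCLike.inner_apply, map_mul, Complex.conj_ofReal,
          Complex.conj_ofReal, Γ.Jf_inv_T, Complex.real_smul]
        ring
      rw [h2] at h1
      have h3 : ∫ p, (fun ξ : Plane => g ξ • (((wt κ ξ : ℝ) : ℂ) * W ξ)) (Γ.T p) ∂M3 =
          ∫ ξ : Plane, g ξ • (((wt κ ξ : ℝ) : ℂ) * W ξ) := by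
        conv_rhs => rw [← Γ.mpT.map_eq]
        rw [integral_map Γ.mpT.measurable.aemeasurable]
        rw [Γ.mpT.map_eq]
        refine hg1.continuous.aestronglyMeasurable.smul ?_
        refine (Complex.continuous_ofReal.comp (continuous_wt κ)).aestronglyMeasurable.mul hWmem.1
      rw [← h3]
      exact h1
    have hae2 := Γ.mpT.quasiMeasurePreserving.ae hae
    have h5 : (w : _ → ℂ) =ᵐ[M3] 0 := by
      filter_upwards [hae2, hWT] with p hp1 hp2
      rw [hp2]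
      have h6 : ((wt κ (Γ.T p) : ℝ) : ℂ) ≠ 0 := by exact_mod_cast (wt_pos κ hκ _).ne'
      rcases mul_eq_zero.mp hp1 with h | h
      · exact absurd h h6
      · exact h
    exact (Lp.eq_zero_iff_ae_eq_zero).mpr h5
  exact h0

lemma MJ_injective (κ : ℝ) (hκ : 0 < κ) : Function.Injective (Γ.toFD.MJ κ hκ) := by
  rw [injective_iff_map_eq_zero]
  intro w hw
  have h1 := mulOp_coe _ (Γ.toFD.memLp_J κ hκ) w
  have h2 : (Γ.toFD.MJ κ hκ w : _ → ℂ) =ᵐ[M3] 0 := by rw [hw]; exact Lp.coeFn_zero _ _ _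
  refine (Lp.eq_zero_iff_ae_eq_zero).mpr ?_
  filter_upwards [h1, h2] with p hp1 hp2
  have hp1' : (Γ.toFD.MJ κ hκ w) p = ((Γ.toFD.Jf κ p : ℝ) : ℂ) * w p := hp1
  rw [hp1'] at hp2
  have h6 : ((Γ.toFD.Jf κ p : ℝ) : ℂ) ≠ 0 := by exact_mod_cast (Γ.toFD.Jf_pos κ hκ p).ne'
  rcases mul_eq_zero.mp hp2 with h | h
  · exact absurd h h6
  · exact h

end PeriodicCurve

end

end Pool.Agent.Lib.Pdaec8e
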