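import Pool.Agent.Lib.Pdaec8e.Link2

set_option autoImplicit false

open MeasureTheory Filter Topology FourierTransform
open scoped ComplexConjugate ENNReal InnerProductSpace Real SchwartzMap

namespace Pool.Agent.Lib.Pdaec8e

noncomputable section

/-- Parseval on the unit interval. -/
lemma parseval01 (u : ℝ → ℂ) (hu : MemLp u 2 m01) :
    ∑' k : ℤ, ‖∫ θ, Complex.exp (2 * π * Complex.I * k * θ) * u θ ∂m01‖ₑ ^ 2 = ∫⁻ θ, ‖u θ‖ₑ ^ 2 ∂m01 := by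
  have hm : (m01 : Measure ℝ) = volume.restrict (Set.Ioc 0 1) := Measure.restrict_congr_set Ioo_ae_eq_Ioc
  have hu' : MemLp u 2 (volume.restrict (Set.Ioc 0 1)) := by rw [← hm]; exact hu
  have h1 := hasSum_sq_fourierCoeffOn (a := 0) (b := 1) zero_lt_one hu'
  have h2 : ∀ k : ℤ, fourierCoeffOn (a := 0) (b := 1) zero_lt_one u k = ∫ θ, Complex.exp (2 * π * Complex.I * ((-k : ℤ) : ℂ) * θ) * u θ ∂m01 := by
    intro k
    rw [fourierCoeffOn_eq_integral, hm, intervalIntegral.integral_of_le zero_le_one]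
    rw [sub_zero, div_one, one_smul]
    refine integral_congr_ae (Eventually.of_forall fun x => ?_)
    simp only [fourier_coe_apply, smul_eq_mul]
    congr 2
    push_cast
    ring
  have h3 : ∑' k : ℤ, ‖∫ θ, Complex.exp (2 * π * Complex.I * k * θ) * u θ ∂m01‖ₑ ^ 2 =
      ∑' k : ℤ, ENNReal.ofReal (‖fourierCoeffOn (a := 0) (b := 1) zero_lt_one u k‖ ^ 2) := by
    rw [← (Equiv.neg ℤ).tsum_eq]
    refine tsum_congr fun k => ?_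
    rw [h2 k, ENNReal.ofReal_pow (norm_nonneg _), ofReal_norm]
    rfl
  rw [h3, ← ENNReal.ofReal_tsum_of_nonneg (fun k => by positivity) h1.summable, h1.tsum_eq]
  rw [sub_zero, inv_one, one_smul, intervalIntegral.integral_of_le zero_le_one, ← hm,
    ofReal_integral_eq_lintegral_ofReal]
  · refine lintegral_congr fun x => ?_
    rw [ENNReal.ofReal_pow (norm_nonneg _), ofReal_norm]
  · exact hu.integrable_norm_pow (by norm_num)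
  · exact Eventually.of_forall fun x => by positivity

/-- integrable majorant on `ℤ × ℝ` -/
def bd (x : ℤ × ℝ) : ℝ := (1 + (x.1 : ℝ) ^ 2)⁻¹ * (1 + x.2 ^ 2)⁻¹

lemma bd_pos (x : ℤ × ℝ) : 0 < bd x := by unfold bd; positivity

lemma integrable_bd : Integrable bd nu := by
  unfold bd
  refine Integrable.mul_prod (f := fun n : ℤ => (1 + (n : ℝ) ^ 2)⁻¹) (g := fun y : ℝ => (1 + y ^ 2)⁻¹) ?_ integrable_inv_one_add_sq
  rw [integrable_count_iff]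
  have h1 : Summable (fun n : ℤ => 1 / ((n : ℝ) ^ 2)) := by
    have := Real.summable_one_div_int_pow (p := 2)
    exact this.mpr one_lt_two
  refine Summable.of_norm_bounded_eventually (g := fun n : ℤ => 1 / ((n : ℝ) ^ 2)) h1 ?_
  have h0 : {n : ℤ | ¬ ‖(‖(1 + (n : ℝ) ^ 2)⁻¹‖)‖ ≤ 1 / ((n : ℝ) ^ 2)} ⊆ {0} := by
    intro n hn
    by_contra h
    apply hn
    rw [norm_norm, Real.norm_eq_abs, abs_of_pos (by positivity)]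
    have hn0 : (n : ℝ) ≠ 0 := by exact_mod_cast h
    rw [one_div]
    refine inv_anti₀ (by positivity) (by linarith)
  exact (Set.finite_singleton 0).subset h0

namespace PeriodicCurve

variable (Γ : PeriodicCurve)

lemma T_norm_sq (p : ℝ × (ℤ × ℝ)) : ‖Γ.T p‖ ^ 2 = ((p.2.1 : ℝ) + p.1) ^ 2 / Γ.nl ^ 2 + Γ.nl ^ 2 * p.2.2 ^ 2 := by
  have h := Γ.nl_pos
  have hab := Γ.ca_cb
  rw [EuclideanSpace.norm_sq_eq, Fin.sum_univ_two, Real.norm_eq_abs, Real.norm_eq_abs, sq_abs, sq_abs]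
  have e0 : Γ.T p 0 = Γ.ca / Γ.nl * ((p.2.1 : ℝ) + p.1) - Γ.cb * Γ.nl * p.2.2 := f2_zero _ _ _ _
  have e1 : Γ.T p 1 = Γ.cb / Γ.nl * ((p.2.1 : ℝ) + p.1) + Γ.ca * Γ.nl * p.2.2 := f2_one _ _ _ _
  rw [e0, e1]
  field_simp
  linear_combination (((p.2.1 : ℝ) + p.1) ^ 2 + Γ.nl ^ 4 * p.2.2 ^ 2) * hab

lemma decay (g : 𝓢(Plane, ℂ)) : ∃ C : ℝ, 0 ≤ C ∧ ∀ θ : ℝ, 0 ≤ θ → θ ≤ 1 → ∀ x : ℤ × ℝ, ‖g (Γ.T (θ, x))‖ ≤ C * bd x := by
  have hnl := Γ.nl_pos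
  set m : ℝ := min (1 / Γ.nl ^ 2) (min (Γ.nl ^ 2) 1) with hm
  have hm0 : 0 < m := by
    rw [hm]; exact lt_min (by positivity) (lt_min (by positivity) one_pos)
  have hm1 : m ≤ 1 := (min_le_right _ _).trans (min_le_right _ _)
  have hma : m ≤ 1 / Γ.nl ^ 2 := min_le_left _ _
  have hmb : m ≤ Γ.nl ^ 2 := (min_le_right _ _).trans (min_le_left _ _)
  obtain ⟨C0, hC0⟩ : ∃ C0 : ℝ, ∀ ξ : Plane, (1 + ‖ξ‖) ^ 4 * ‖g ξ‖ ≤ C0 := by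
    refine ⟨2 ^ 4 * ((Finset.Iic ((4, 0) : ℕ × ℕ)).sup (fun m => SchwartzMap.seminorm ℝ m.1 m.2)) g, fun ξ => ?_⟩
    have := SchwartzMap.one_add_le_sup_seminorm_apply (𝕜 := ℝ) (m := (4, 0)) (k := 4) (n := 0) le_rfl le_rfl g ξ
    rw [norm_iteratedFDeriv_zero] at this
    exact this
  have hC00 : 0 ≤ C0 := le_trans (by positivity) (hC0 0)
  refine ⟨3 * C0 / m ^ 2, by positivity, fun θ h0 h1 x => ?_⟩
  have h2 := hC0 (Γ.T (θ, x))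
  have h3 := Γ.T_norm_sq (θ, x)
  simp only at h3
  set r := ‖Γ.T (θ, x)‖ with hr
  have hr0 : 0 ≤ r := norm_nonneg _
  set t : ℝ := (x.1 : ℝ) + θ with ht
  have e1 : m * (t ^ 2 + x.2 ^ 2) ≤ r ^ 2 := by
    rw [h3]
    have a1 : m * t ^ 2 ≤ t ^ 2 / Γ.nl ^ 2 := by
      calc m * t ^ 2 ≤ 1 / Γ.nl ^ 2 * t ^ 2 := mul_le_mul_of_nonneg_right hma (sq_nonneg _)
        _ = _ := by ring
    have a2 : m * x.2 ^ 2 ≤ Γ.nl ^ 2 * x.2 ^ 2 := mul_le_mul_of_nonneg_right hmb (sq_nonneg _)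
    linarith
  have e2 : m * (1 + (t ^ 2 + x.2 ^ 2)) ≤ (1 + r) ^ 2 := by nlinarith
  have e3 : m ^ 2 * ((1 + t ^ 2) * (1 + x.2 ^ 2)) ≤ (1 + r) ^ 4 := by
    have b1 : (m * (1 + (t ^ 2 + x.2 ^ 2))) ^ 2 ≤ ((1 + r) ^ 2) ^ 2 := pow_le_pow_left₀ (by positivity) e2 2
    have b2 : (1 + t ^ 2) * (1 + x.2 ^ 2) ≤ (1 + (t ^ 2 + x.2 ^ 2)) ^ 2 := by
      nlinarith [sq_nonneg t, sq_nonneg x.2, mul_nonneg (sq_nonneg t) (sq_nonneg x.2), sq_nonneg (t ^ 2), sq_nonneg (x.2 ^ 2)]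
    calc m ^ 2 * ((1 + t ^ 2) * (1 + x.2 ^ 2)) ≤ m ^ 2 * (1 + (t ^ 2 + x.2 ^ 2)) ^ 2 := mul_le_mul_of_nonneg_left b2 (by positivity)
      _ = (m * (1 + (t ^ 2 + x.2 ^ 2))) ^ 2 := by ring
      _ ≤ ((1 + r) ^ 2) ^ 2 := b1
      _ = _ := by ring
  have e4 : 1 + (x.1 : ℝ) ^ 2 ≤ 3 * (1 + t ^ 2) := by
    rw [ht]
    nlinarith [sq_nonneg ((x.1 : ℝ) + 2 * θ), sq_nonneg (x.1 : ℝ)]
  have e5 : m ^ 2 * ((1 + (x.1 : ℝ) ^ 2) * (1 + x.2 ^ 2)) ≤ 3 * (1 + r) ^ 4 := by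
    have : m ^ 2 * ((1 + (x.1 : ℝ) ^ 2) * (1 + x.2 ^ 2)) ≤ m ^ 2 * ((3 * (1 + t ^ 2)) * (1 + x.2 ^ 2)) := by gcongr
    nlinarith
  have e6 : m ^ 2 * ((1 + (x.1 : ℝ) ^ 2) * (1 + x.2 ^ 2)) * ‖g (Γ.T (θ, x))‖ ≤ 3 * C0 := by
    calc _ ≤ 3 * (1 + r) ^ 4 * ‖g (Γ.T (θ, x))‖ := mul_le_mul_of_nonneg_right e5 (norm_nonneg _)
      _ = 3 * ((1 + r) ^ 4 * ‖g (Γ.T (θ, x))‖) := by ring
      _ ≤ 3 * C0 := by linarith
  unfold bd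
  rw [← mul_inv, div_mul_eq_mul_div, le_div_iff₀ (by positivity), ← div_eq_mul_inv, le_div_iff₀ (by positivity)]
  calc _ = m ^ 2 * ((1 + (x.1 : ℝ) ^ 2) * (1 + x.2 ^ 2)) * ‖g (Γ.T (θ, x))‖ := by ring
    _ ≤ _ := e6

end PeriodicCurve

end

end Pool.Agent.Lib.Pdaec8e
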