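import Pool.Agent.Lib.Pdaec8e.Link3

set_option autoImplicit false

open MeasureTheory Filter Topology FourierTransform
open scoped ComplexConjugate ENNReal InnerProductSpace Real SchwartzMap

namespace Pool.Agent.Lib.Pdaec8e

noncomputable section

namespace PeriodicCurve

variable (Γ : PeriodicCurve)

lemma measurable_gT (g : 𝓢(Plane, ℂ)) : Measurable (fun p => g (Γ.T p)) :=
  g.continuous.measurable.comp Γ.mpT.measurable

lemma measurable_gT_left (g : 𝓢(Plane, ℂ)) (θ : ℝ) : Measurable (fun x => g (Γ.T (θ, x))) :=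
  (Γ.measurable_gT g).comp measurable_prodMk_left

lemma integrable_gT (g : 𝓢(Plane, ℂ)) (θ : ℝ) (h0 : 0 ≤ θ) (h1 : θ ≤ 1) : Integrable (fun x => g (Γ.T (θ, x))) nu := by
  obtain ⟨C, _, hC⟩ := Γ.decay g
  refine Integrable.mono' (integrable_bd.const_mul C) (Γ.measurable_gT_left g θ).aestronglyMeasurable ?_
  exact Eventually.of_forall fun x => hC θ h0 h1 x

lemma integrable_gT_M3 (g : 𝓢(Plane, ℂ)) : Integrable (fun p => g (Γ.T p)) M3 := by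
  have h1 := (Γ.mpT.integrable_comp (g := g) g.continuous.aestronglyMeasurable).mpr g.integrable
  exact h1

/-- Bloch transform of the restriction to the curve -/
def Phi (g : 𝓢(Plane, ℂ)) (θ s : ℝ) : ℂ := ∫ x, conj (Γ.toFD.ph s x) * g (Γ.T (θ, x)) ∂nu

lemma norm_Phi_le (g : 𝓢(Plane, ℂ)) : ∃ C : ℝ, 0 ≤ C ∧ ∀ θ, 0 ≤ θ → θ ≤ 1 → ∀ s, ‖Γ.Phi g θ s‖ ≤ C := by
  obtain ⟨C, hC0, hC⟩ := Γ.decay g
  refine ⟨C * ∫ x, bd x ∂nu, mul_nonneg hC0 (integral_nonneg fun x => (bd_pos x).le), fun θ h0 h1 s => ?_⟩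
  unfold Phi
  rw [← integral_const_mul]
  refine norm_integral_le_of_norm_le (integrable_bd.const_mul C) (Eventually.of_forall fun x => ?_)
  rw [norm_mul, RCLike.norm_conj, FD.norm_ph, one_mul]
  exact hC θ h0 h1 x

lemma measurable_PhiInt (g : 𝓢(Plane, ℂ)) :
    Measurable (fun r : (ℝ × ℝ) × (ℤ × ℝ) => conj (Γ.toFD.ph r.1.2 r.2) * g (Γ.T (r.1.1, r.2))) := by
  have m1 : Measurable (fun r : (ℝ × ℝ) × (ℤ × ℝ) => (r.1.2, r.2)) := by fun_prop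
  have m2 : Measurable (fun r : (ℝ × ℝ) × (ℤ × ℝ) => (r.1.1, r.2)) := by fun_prop
  have h1 := Γ.toFD.measurable_ph.comp m1
  have h2 := (Γ.measurable_gT g).comp m2
  have h3 := Complex.continuous_conj.measurable.comp h1
  have h4 := h3.mul h2
  exact h4

lemma sm_Phi (g : 𝓢(Plane, ℂ)) : StronglyMeasurable (fun q : ℝ × ℝ => Γ.Phi g q.1 q.2) := by
  have h := (Γ.measurable_PhiInt g).stronglyMeasurable
  have h2 := StronglyMeasurable.integral_prod_right' (ν := nu) h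
  exact h2

lemma sm_Phi_right (g : 𝓢(Plane, ℂ)) (θ : ℝ) : StronglyMeasurable (fun s => Γ.Phi g θ s) := by
  have m : Measurable (fun s : ℝ => (θ, s)) := by fun_prop
  have h := (Γ.sm_Phi g).comp_measurable m
  exact h

lemma sm_Phi_left (g : 𝓢(Plane, ℂ)) (s : ℝ) : StronglyMeasurable (fun θ => Γ.Phi g θ s) := by
  have m : Measurable (fun θ : ℝ => (θ, s)) := by fun_prop
  have h := (Γ.sm_Phi g).comp_measurable m
  exact h

/-- the Bloch transform as a vector -/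
def Pv (g : 𝓢(Plane, ℂ)) (θ : ℝ) : Γ.toFD.E := ∫ x, g (Γ.T (θ, x)) • Γ.toFD.eps x ∂nu

lemma sm_eps_pair (g : 𝓢(Plane, ℂ)) : StronglyMeasurable (fun p : ℝ × (ℤ × ℝ) => g (Γ.T p) • Γ.toFD.eps p.2) := by
  have h1 : StronglyMeasurable (fun p : ℝ × (ℤ × ℝ) => g (Γ.T p)) := (Γ.measurable_gT g).stronglyMeasurable
  have h2 : Continuous (fun p : ℝ × (ℤ × ℝ) => Γ.toFD.eps p.2) := Γ.toFD.continuous_eps.comp continuous_snd
  exact h1.smul h2.stronglyMeasurable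

lemma sm_Pv (g : 𝓢(Plane, ℂ)) : StronglyMeasurable (Γ.Pv g) := by
  unfold Pv
  exact StronglyMeasurable.integral_prod_right' (f := fun p : ℝ × (ℤ × ℝ) => g (Γ.T p) • Γ.toFD.eps p.2) (Γ.sm_eps_pair g)

lemma norm_eps_eq (x : ℤ × ℝ) : ‖Γ.toFD.eps x‖ = Real.sqrt Γ.L := by
  have h := Γ.toFD.norm_eps x
  have h2 : Γ.toFD.L = Γ.L := rfl
  rw [← h2, ← h, Real.sqrt_sq (norm_nonneg _)]

lemma integrable_eps (g : 𝓢(Plane, ℂ)) (θ : ℝ) (h0 : 0 ≤ θ) (h1 : θ ≤ 1) :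
    Integrable (fun x => g (Γ.T (θ, x)) • Γ.toFD.eps x) nu := by
  obtain ⟨C, _, hC⟩ := Γ.decay g
  refine Integrable.mono' (integrable_bd.const_mul (C * Real.sqrt Γ.L)) ?_ ?_
  · exact ((Γ.sm_eps_pair g).comp_measurable measurable_prodMk_left).aestronglyMeasurable
  · refine Eventually.of_forall fun x => ?_
    rw [norm_smul, Γ.norm_eps_eq]
    calc _ ≤ (C * bd x) * Real.sqrt Γ.L := mul_le_mul_of_nonneg_right (hC θ h0 h1 x) (Real.sqrt_nonneg _)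
      _ = _ := by ring

lemma memLp_Pv (g : 𝓢(Plane, ℂ)) : MemLp (Γ.Pv g) 2 m01 := by
  obtain ⟨C, hC0, hC⟩ := Γ.decay g
  refine MemLp.of_bound (Γ.sm_Pv g).aestronglyMeasurable ((C * Real.sqrt Γ.L) * ∫ x, bd x ∂nu) ?_
  rw [ae_restrict_iff' measurableSet_Ioo]
  refine Eventually.of_forall fun θ hθ => ?_
  unfold Pv
  rw [← integral_const_mul]
  refine norm_integral_le_of_norm_le (integrable_bd.const_mul _) (Eventually.of_forall fun x => ?_)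
  rw [norm_smul, Γ.norm_eps_eq]
  calc _ ≤ (C * bd x) * Real.sqrt Γ.L := mul_le_mul_of_nonneg_right (hC θ hθ.1.le hθ.2.le x) (Real.sqrt_nonneg _)
    _ = _ := by ring

/-- The adjoint trace operator on weighted Fourier transforms. -/
theorem adj_vL (κ : ℝ) (hκ : 0 < κ) (φ : 𝓢(Plane, ℂ)) :
    ContinuousLinearMap.adjoint (Γ.toFD.SO κ hκ) (Γ.vL κ hκ φ) = (Γ.memLp_Pv (𝓕 φ)).toLp _ := by
  refine ext_inner_left ℂ (fun G => ?_)
  rw [ContinuousLinearMap.adjoint_inner_right]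
  have e1 : (fun p => ⟪(Γ.toFD.SO κ hκ G) p, (Γ.vL κ hκ φ) p⟫_ℂ) =ᵐ[M3]
      fun p => ⟪G p.1, (𝓕 φ) (Γ.T p) • Γ.toFD.eps p.2⟫_ℂ := by
    filter_upwards [Γ.toFD.SO_coe κ hκ G, Γ.vL_coe κ hκ φ] with p h1 h2
    rw [h1, h2, FD.Sfun, vfun, RCLike.inner_apply, map_mul, Complex.conj_ofReal, inner_conj_symm, inner_smul_right]
    have h3 : (((Γ.toFD.Jf κ p)⁻¹ : ℝ) : ℂ) * ((Γ.toFD.Jf κ p : ℝ) : ℂ) = 1 := by
      rw [← Complex.ofReal_mul, inv_mul_cancel₀ (Γ.toFD.Jf_pos κ hκ p).ne', Complex.ofReal_one]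
    calc _ = ((((Γ.toFD.Jf κ p)⁻¹ : ℝ) : ℂ) * ((Γ.toFD.Jf κ p : ℝ) : ℂ)) * ((𝓕 φ) (Γ.T p) * ⟪G p.1, Γ.toFD.eps p.2⟫_ℂ) := by ring
      _ = _ := by rw [h3, one_mul]
  have e2 : Integrable (fun p : ℝ × (ℤ × ℝ) => ⟪G p.1, (𝓕 φ) (Γ.T p) • Γ.toFD.eps p.2⟫_ℂ) M3 :=
    (L2.integrable_inner (𝕜 := ℂ) (Γ.toFD.SO κ hκ G) (Γ.vL κ hκ φ)).congr e1
  rw [L2.inner_def, integral_congr_ae e1, integral_prod _ e2, L2.inner_def]
  refine integral_congr_ae ?_
  have hm : ∀ᵐ θ ∂m01, 0 < θ ∧ θ < 1 := by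
    rw [ae_restrict_iff' measurableSet_Ioo]
    exact Eventually.of_forall fun θ hθ => hθ
  filter_upwards [(Γ.memLp_Pv (𝓕 φ)).coeFn_toLp, hm] with θ hθ h01
  rw [hθ, Pv]
  exact integral_inner (Γ.integrable_eps (𝓕 φ) θ h01.1.le h01.2.le) (G θ)

lemma memLp_Phi (g : 𝓢(Plane, ℂ)) (θ : ℝ) (h0 : 0 ≤ θ) (h1 : θ ≤ 1) : MemLp (fun s => Γ.Phi g θ s) 2 Γ.toFD.mu := by
  obtain ⟨C, _, hC⟩ := Γ.norm_Phi_le g
  exact MemLp.of_bound (Γ.sm_Phi_right g θ).aestronglyMeasurable C (Eventually.of_forall fun s => hC θ h0 h1 s)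

lemma Pv_eq (g : 𝓢(Plane, ℂ)) (θ : ℝ) (h0 : 0 ≤ θ) (h1 : θ ≤ 1) : Γ.Pv g θ = (Γ.memLp_Phi g θ h0 h1).toLp _ := by
  refine ext_inner_left ℂ (fun h => ?_)
  have hh : Integrable h Γ.toFD.mu := (Lp.memLp h).integrable (by norm_num)
  rw [Pv, ← integral_inner (Γ.integrable_eps g θ h0 h1) h, L2.inner_def]
  have e1 : ∀ x, ⟪h, g (Γ.T (θ, x)) • Γ.toFD.eps x⟫_ℂ = ∫ s, g (Γ.T (θ, x)) * conj (Γ.toFD.ph s x * h s) ∂Γ.toFD.mu := by
    intro x
    rw [inner_smul_right, ← inner_conj_symm h (Γ.toFD.eps x), Γ.toFD.inner_eps, FD.hat, ← integral_conj, ← integral_const_mul]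
  simp_rw [e1]
  rw [integral_integral_swap]
  · refine integral_congr_ae ?_
    filter_upwards [(Γ.memLp_Phi g θ h0 h1).coeFn_toLp] with s hs
    rw [hs, RCLike.inner_apply, Phi, mul_comm, ← integral_const_mul]
    refine integral_congr_ae (Eventually.of_forall fun x => ?_)
    simp only [map_mul]
    ring
  · have hc : Integrable (fun s => conj (h s)) Γ.toFD.mu := (LinearIsometryEquiv.integrable_comp_iff (Complex.conjLIE)).mpr hh
    have h2 : Integrable (fun q : (ℤ × ℝ) × ℝ => g (Γ.T (θ, q.1)) * conj (h q.2)) (nu.prod Γ.toFD.mu) :=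
      Integrable.mul_prod (Γ.integrable_gT g θ h0 h1) hc
    have m1 : Measurable (fun q : (ℤ × ℝ) × ℝ => (q.2, q.1)) := by fun_prop
    have hp1 := Γ.toFD.measurable_ph.comp m1
    have hp2 := Complex.continuous_conj.measurable.comp hp1
    have h3 := h2.bdd_mul (c := 1) hp2.aestronglyMeasurable (Eventually.of_forall fun q => by
      simp only [Function.comp_apply]
      rw [RCLike.norm_conj, FD.norm_ph])
    refine h3.congr (Eventually.of_forall fun q => ?_)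
    simp only [Function.uncurry, map_mul, Function.comp_apply]
    ring

/-- Fourier inversion along the curve. -/
lemma inversion (φ : 𝓢(Plane, ℂ)) (s : ℝ) :
    φ (Γ.γ s) = ∫ θ, Complex.exp (((2 * π * (θ * Γ.h1 s) : ℝ) : ℂ) * Complex.I) * Γ.Phi (𝓕 φ) θ s ∂m01 := by
  have h0 : φ (Γ.γ s) = ∫ ξ : Plane, Complex.exp (((2 * π * ⟪ξ, Γ.γ s⟫_ℝ : ℝ) : ℂ) * Complex.I) * (𝓕 φ) ξ := by
    have h1 : φ (Γ.γ s) = (𝓕⁻ (𝓕 φ)) (Γ.γ s) := by rw [FourierTransform.fourierInv_fourier_eq]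
    rw [h1, SchwartzMap.fourierInv_coe, Real.fourierInv_eq']
    rfl
  set Fn : Plane → ℂ := fun ξ => Complex.exp (((2 * π * ⟪ξ, Γ.γ s⟫_ℝ : ℝ) : ℂ) * Complex.I) * (𝓕 φ) ξ with hFn
  have hFc : Continuous Fn := by
    rw [hFn]
    have := (𝓕 φ).continuous
    fun_prop
  have h2 : ∫ ξ : Plane, Fn ξ = ∫ p, Fn (Γ.T p) ∂M3 := by
    conv_lhs => rw [← Γ.mpT.map_eq]
    rw [integral_map Γ.mpT.measurable.aemeasurable hFc.aestronglyMeasurable]
  have h3 : ∀ p, Fn (Γ.T p) = Complex.exp (((2 * π * (p.1 * Γ.h1 s) : ℝ) : ℂ) * Complex.I) * (conj (Γ.toFD.ph s p.2) * (𝓕 φ) (Γ.T p)) := by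
    intro p
    rw [hFn]
    simp only
    rw [← mul_assoc]
    congr 1
    unfold FD.ph
    rw [← Complex.exp_conj, ← Complex.exp_add]
    congr 1
    simp only [map_mul, Complex.conj_ofReal, Complex.conj_I]
    have h4 : ⟪Γ.T p, Γ.γ s⟫_ℝ = ((p.2.1 : ℝ) + p.1) * Γ.h1 s + p.2.2 * Γ.h2 s := by
      have hnl := Γ.nl_pos
      have e0 : Γ.T p 0 = Γ.ca / Γ.nl * ((p.2.1 : ℝ) + p.1) - Γ.cb * Γ.nl * p.2.2 := f2_zero _ _ _ _
      have e1 : Γ.T p 1 = Γ.cb / Γ.nl * ((p.2.1 : ℝ) + p.1) + Γ.ca * Γ.nl * p.2.2 := f2_one _ _ _ _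
      rw [PiLp.inner_apply, Fin.sum_univ_two, e0, e1]
      simp only [RCLike.inner_apply, conj_trivial]
      unfold PeriodicCurve.h1 PeriodicCurve.h2
      field_simp
      ring
    rw [h4]
    have e5 : Γ.toFD.g1 s = Γ.h1 s := rfl
    have e6 : Γ.toFD.g2 s = Γ.h2 s := rfl
    rw [e5, e6]
    push_cast
    ring
  rw [h0, h2]
  simp_rw [h3]
  have hint : Integrable (fun p : ℝ × (ℤ × ℝ) => Complex.exp (((2 * π * (p.1 * Γ.h1 s) : ℝ) : ℂ) * Complex.I) *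
      (conj (Γ.toFD.ph s p.2) * (𝓕 φ) (Γ.T p))) M3 := by
    have m1 : Measurable (fun p : ℝ × (ℤ × ℝ) => (s, p.2)) := by fun_prop
    have hp1 := Γ.toFD.measurable_ph.comp m1
    have hp2 := Complex.continuous_conj.measurable.comp hp1
    have hp3 : Measurable (fun p : ℝ × (ℤ × ℝ) => Complex.exp (((2 * π * (p.1 * Γ.h1 s) : ℝ) : ℂ) * Complex.I)) := by fun_prop
    have h5 := (Γ.integrable_gT_M3 (𝓕 φ)).bdd_mul (c := 1) hp2.aestronglyMeasurable (Eventually.of_forall fun q => by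
      simp only [Function.comp_apply]
      rw [RCLike.norm_conj, FD.norm_ph])
    exact h5.bdd_mul (c := 1) hp3.aestronglyMeasurable (Eventually.of_forall fun q => by
      rw [Complex.norm_exp_ofReal_mul_I])
  rw [integral_prod _ hint]
  refine integral_congr_ae (Eventually.of_forall fun θ => ?_)
  simp only
  rw [integral_const_mul]
  rfl

end PeriodicCurve

end

end Pool.Agent.Lib.Pdaec8e
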