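import Pool.Agent.Lib.Pdaec8e.Link4

set_option autoImplicit false

open MeasureTheory Filter Topology FourierTransform
open scoped ComplexConjugate ENNReal InnerProductSpace Real SchwartzMap

namespace Pool.Agent.Lib.Pdaec8e

noncomputable section

namespace PeriodicCurve

variable (Γ : PeriodicCurve)

lemma ph_add (s : ℝ) (k : ℤ) (x : ℤ × ℝ) : Γ.toFD.ph (s + k * Γ.L) x = Γ.toFD.ph s x := by
  have h1 := Γ.toFD.g1_add s k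
  have h2 := Γ.toFD.g2_add s k
  have hL : Γ.toFD.L = Γ.L := rfl
  rw [hL] at h1 h2
  unfold FD.ph
  rw [h1, h2]
  have e : (((-(2 * π * (x.1 * (Γ.toFD.g1 s + k) + x.2 * Γ.toFD.g2 s)) : ℝ) : ℂ) * Complex.I) =
      (((-(2 * π * (x.1 * Γ.toFD.g1 s + x.2 * Γ.toFD.g2 s)) : ℝ) : ℂ) * Complex.I) + ((-(x.1 * k) : ℤ) : ℂ) * (2 * π * Complex.I) := by
    push_cast
    ring
  rw [e, Complex.exp_add, Complex.exp_int_mul_two_pi_mul_I, mul_one]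

lemma Phi_add (g : 𝓢(Plane, ℂ)) (θ s : ℝ) (k : ℤ) : Γ.Phi g θ (s + k * Γ.L) = Γ.Phi g θ s := by
  unfold Phi
  simp_rw [Γ.ph_add]

lemma h1_add (s : ℝ) (k : ℤ) : Γ.h1 (s + k * Γ.L) = Γ.h1 s + k := Γ.toFD.g1_add s k

lemma parseval_curve (φ : 𝓢(Plane, ℂ)) (s : ℝ) :
    ∑' k : ℤ, ‖φ (Γ.γ (s + k * Γ.L))‖ₑ ^ 2 = ∫⁻ θ, ‖Γ.Phi (𝓕 φ) θ s‖ₑ ^ 2 ∂m01 := by
  set u : ℝ → ℂ := fun θ => Complex.exp (((2 * π * (θ * Γ.h1 s) : ℝ) : ℂ) * Complex.I) * Γ.Phi (𝓕 φ) θ s with hu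
  obtain ⟨C, hC0, hC⟩ := Γ.norm_Phi_le (𝓕 φ)
  have hun : ∀ θ, ‖u θ‖ = ‖Γ.Phi (𝓕 φ) θ s‖ := by
    intro θ
    rw [hu]
    simp only
    rw [norm_mul, Complex.norm_exp_ofReal_mul_I, one_mul]
  have hmem : MemLp u 2 m01 := by
    refine MemLp.of_bound ?_ C ?_
    · have hp3 : Measurable (fun θ : ℝ => Complex.exp (((2 * π * (θ * Γ.h1 s) : ℝ) : ℂ) * Complex.I)) := by fun_prop
      exact hp3.aestronglyMeasurable.mul (Γ.sm_Phi_left (𝓕 φ) s).aestronglyMeasurable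
    · rw [ae_restrict_iff' measurableSet_Ioo]
      refine Eventually.of_forall fun θ hθ => ?_
      rw [hun]
      exact hC θ hθ.1.le hθ.2.le s
  have h1 := parseval01 u hmem
  have h2 : ∀ k : ℤ, φ (Γ.γ (s + k * Γ.L)) = ∫ θ, Complex.exp (2 * π * Complex.I * k * θ) * u θ ∂m01 := by
    intro k
    rw [Γ.inversion]
    refine integral_congr_ae (Eventually.of_forall fun θ => ?_)
    simp only [hu]
    rw [Γ.Phi_add, Γ.h1_add, ← mul_assoc (Complex.exp (2 * π * Complex.I * k * θ)), ← Complex.exp_add]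
    congr 2
    push_cast
    ring
  simp_rw [h2]
  rw [h1]
  refine lintegral_congr fun θ => ?_
  rw [← ofReal_norm, ← ofReal_norm, hun]

lemma Pv_norm (g : 𝓢(Plane, ℂ)) (θ : ℝ) (h0 : 0 ≤ θ) (h1 : θ ≤ 1) :
    ‖Γ.Pv g θ‖ₑ ^ 2 = ∫⁻ s, ‖Γ.Phi g θ s‖ₑ ^ 2 ∂Γ.toFD.mu := by
  rw [Γ.Pv_eq g θ h0 h1, ← lintegral_sq_toLp _ (Γ.memLp_Phi g θ h0 h1), ENNReal.ofReal_pow (norm_nonneg _), ofReal_norm]

/-- The trace identity. -/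
theorem trace_norm (φ : 𝓢(Plane, ℂ)) : ∫⁻ s, ‖φ (Γ.γ s)‖ₑ ^ 2 = ∫⁻ θ, ‖Γ.Pv (𝓕 φ) θ‖ₑ ^ 2 ∂m01 := by
  have hL := Γ.L_pos
  have hmeas : Measurable (fun s => ‖φ (Γ.γ s)‖ₑ ^ 2) := by
    have h1 : Continuous (fun s => φ (Γ.γ s)) := φ.continuous.comp Γ.continuous_γ
    exact h1.measurable.enorm.pow_const 2
  rw [← FD.tsum_lintegral_Ioc (fun s => ‖φ (Γ.γ s)‖ₑ ^ 2) hmeas Γ.L hL]
  rw [← lintegral_tsum]
  · simp_rw [Γ.parseval_curve]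
    have hswap : ∫⁻ s, (∫⁻ θ, ‖Γ.Phi (𝓕 φ) θ s‖ₑ ^ 2 ∂m01) ∂(volume.restrict (Set.Ioc 0 Γ.L)) =
        ∫⁻ θ, (∫⁻ s, ‖Γ.Phi (𝓕 φ) θ s‖ₑ ^ 2 ∂(volume.restrict (Set.Ioc 0 Γ.L))) ∂m01 := by
      refine lintegral_lintegral_swap ?_
      have m : Measurable (fun q : ℝ × ℝ => (q.2, q.1)) := by fun_prop
      have h := ((Γ.sm_Phi (𝓕 φ)).comp_measurable m).measurable.enorm.pow_const 2
      exact h.aemeasurable
    rw [hswap]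
    refine lintegral_congr_ae ?_
    rw [EventuallyEq, ae_restrict_iff' measurableSet_Ioo]
    refine Eventually.of_forall fun θ hθ => ?_
    rw [Γ.Pv_norm _ θ hθ.1.le hθ.2.le]
    rfl
  · intro k
    have m : Measurable (fun s : ℝ => s + (k : ℝ) * Γ.L) := by fun_prop
    have h := hmeas.comp m
    exact h.aemeasurable

lemma memLp_trace (φ : 𝓢(Plane, ℂ)) : MemLp (fun s => φ (Γ.γ s)) 2 (volume : Measure ℝ) := by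
  refine memLp_two_of_lintegral _ (φ.continuous.comp Γ.continuous_γ).aestronglyMeasurable ?_
  rw [Γ.trace_norm, ← lintegral_sq_toLp _ (Γ.memLp_Pv (𝓕 φ))]
  exact ENNReal.ofReal_lt_top

/-- restriction of Schwartz functions to the curve -/
def tL : 𝓢(Plane, ℂ) →ₗ[ℂ] L2Line where
  toFun φ := (Γ.memLp_trace φ).toLp _
  map_add' φ χ := by
    rw [← MemLp.toLp_add]
    exact MemLp.toLp_congr _ _ (Eventually.of_forall fun s => rfl)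
  map_smul' c φ := by
    rw [RingHom.id_apply, ← MemLp.toLp_const_smul]
    exact MemLp.toLp_congr _ _ (Eventually.of_forall fun s => rfl)

lemma tL_coe (φ : 𝓢(Plane, ℂ)) : Γ.tL φ =ᵐ[volume] fun s => φ (Γ.γ s) := (Γ.memLp_trace φ).coeFn_toLp

lemma norm_tL (κ : ℝ) (hκ : 0 < κ) (φ : 𝓢(Plane, ℂ)) :
    ‖Γ.tL φ‖ = ‖ContinuousLinearMap.adjoint (Γ.toFD.SO κ hκ) (Γ.vL κ hκ φ)‖ := by
  have h1 : ENNReal.ofReal (‖Γ.tL φ‖ ^ 2) = ENNReal.ofReal (‖ContinuousLinearMap.adjoint (Γ.toFD.SO κ hκ) (Γ.vL κ hκ φ)‖ ^ 2) := by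
    rw [Γ.adj_vL κ hκ φ, lintegral_sq_toLp _ (Γ.memLp_Pv (𝓕 φ)), ← Γ.trace_norm]
    exact lintegral_sq_toLp _ (Γ.memLp_trace φ)
  rw [ENNReal.ofReal_eq_ofReal_iff (by positivity) (by positivity)] at h1
  exact (sq_eq_sq₀ (norm_nonneg _) (norm_nonneg _)).mp h1

lemma inner_tL (κ : ℝ) (hκ : 0 < κ) (φ χ : 𝓢(Plane, ℂ)) : ⟪Γ.tL φ, Γ.tL χ⟫_ℂ =
    ⟪ContinuousLinearMap.adjoint (Γ.toFD.SO κ hκ) (Γ.vL κ hκ φ), ContinuousLinearMap.adjoint (Γ.toFD.SO κ hκ) (Γ.vL κ hκ χ)⟫_ℂ := by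
  rw [inner_eq_sum_norm_sq_div_four (𝕜 := ℂ) (Γ.tL φ), inner_eq_sum_norm_sq_div_four (𝕜 := ℂ) (ContinuousLinearMap.adjoint (Γ.toFD.SO κ hκ) (Γ.vL κ hκ φ))]
  simp only [← map_add, ← map_sub, ← map_smul, Γ.norm_tL κ hκ]

/-- The form data of a periodic curve. -/
def data (α κ : ℝ) (hκ : 0 < κ) (hα : |α| * Γ.toFD.CS κ < 1) :
    FormData 𝓢(Plane, ℂ) L2Plane X L2Line Γ.toFD.Y where
  a := aL
  d := dL
  t := Γ.tL
  v := Γ.vL κ hκ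
  V := Γ.V
  J := Γ.toFD.MJ κ hκ
  S := Γ.toFD.SO κ hκ
  κ := κ
  α := α
  hκ := hκ
  denseV := Γ.dense_vL κ hκ
  hJ := Γ.toFD.MJ_selfAdjoint κ hκ
  hJinj := Γ.MJ_injective κ hκ
  Jv := Γ.Jv κ hκ
  inner_v := Γ.inner_v κ hκ
  inner_t := Γ.inner_tL κ hκ
  unitQ := Γ.toFD.QO_isUnit α κ hκ hα

end PeriodicCurve

end

end Pool.Agent.Lib.Pdaec8e
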