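import Pool.Agent.Lib.Pdaec8e.Link5

set_option autoImplicit false

open MeasureTheory Filter Topology FourierTransform
open scoped ComplexConjugate ENNReal InnerProductSpace Real SchwartzMap

namespace Pool.Agent.Lib.Pdaec8e

noncomputable section

lemma conv_iff {β : Type*} {mβ : MeasurableSpace β} {m : Measure β} (f : ℕ → β → ℂ) (F : ℕ → Lp ℂ 2 m)
    (hF : ∀ n, F n =ᵐ[m] f n) (g : Lp ℂ 2 m) :
    Tendsto (fun n => eLpNorm (fun x => f n x - g x) 2 m) atTop (𝓝 0) ↔ Tendsto F atTop (𝓝 g) := by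
  rw [Lp.tendsto_Lp_iff_tendsto_eLpNorm']
  have h : ∀ n, eLpNorm (fun x => f n x - g x) 2 m = eLpNorm ((F n : β → ℂ) - (g : β → ℂ)) 2 m := by
    intro n
    refine eLpNorm_congr_ae ?_
    filter_upwards [hF n] with x hx
    rw [Pi.sub_apply, hx]
  simp_rw [h]

namespace PeriodicCurve

variable (Γ : PeriodicCurve) (α κ : ℝ) (hκ : 0 < κ) (hα : |α| * Γ.toFD.CS κ < 1)

lemma aL_conv (φ : ℕ → 𝓢(Plane, ℂ)) (ψ : L2Plane) :
    Tendsto (fun n => eLpNorm (fun x => φ n x - ψ x) 2 volume) atTop (𝓝 0) ↔ Tendsto (fun n => aL (φ n)) atTop (𝓝 ψ) :=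
  conv_iff (fun n x => φ n x) (fun n => aL (φ n)) (fun n => (φ n).coeFn_toLp 2 volume) ψ

lemma dL_conv (j : Fin 2) (φ : ℕ → 𝓢(Plane, ℂ)) (G : L2Plane) :
    Tendsto (fun n => eLpNorm (fun x => fderiv ℝ (φ n) x (EuclideanSpace.single j 1) - G x) 2 volume) atTop (𝓝 0) ↔
      Tendsto (fun n => dL j (φ n)) atTop (𝓝 G) := by
  refine conv_iff (fun n x => fderiv ℝ (φ n) x (EuclideanSpace.single j 1)) (fun n => dL j (φ n)) (fun n => ?_) G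
  filter_upwards [(dS j (φ n)).coeFn_toLp 2 volume] with x hx
  rw [dL_apply, hx, dS_apply]

lemma tL_conv (φ : ℕ → 𝓢(Plane, ℂ)) (τ : L2Line) :
    Tendsto (fun n => eLpNorm (fun s => φ n (Γ.γ s) - τ s) 2 volume) atTop (𝓝 0) ↔ Tendsto (fun n => Γ.tL (φ n)) atTop (𝓝 τ) :=
  conv_iff (fun n s => φ n (Γ.γ s)) (fun n => Γ.tL (φ n)) (fun n => Γ.tL_coe (φ n)) τ

lemma isH1Trace_iff (ψ : L2Plane) (G : Fin 2 → L2Plane) (τ : L2Line) :
    IsH1Trace Γ ψ G τ ↔ (Γ.data α κ hκ hα).Tr ψ G τ := by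
  unfold IsH1Trace FormData.Tr
  refine exists_congr fun φ => ?_
  rw [aL_conv, Γ.tL_conv]
  simp_rw [dL_conv]
  rfl

lemma leakyGraph_iff (ψ f : L2Plane) : LeakyGraph Γ α ψ f ↔ (ψ, f) ∈ (Γ.data α κ hκ hα).gr := by
  rw [FormData.mem_gr, ← FormData.Rel_iff]
  unfold LeakyGraph FormData.Rel
  simp_rw [isH1Trace_iff Γ α κ hκ hα]
  rfl

lemma exists_unique_trace (ψ : L2Plane) (G : Fin 2 → L2Plane) (h : IsH1 ψ G) : ∃! τ : L2Line, IsH1Trace Γ ψ G τ := by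
  obtain ⟨κ, hκ, hα⟩ := Γ.toFD.exists_kappa 1
  set D := Γ.data 1 κ hκ hα with hD
  obtain ⟨φ, h1, h2⟩ := h
  rw [aL_conv] at h1
  simp_rw [dL_conv] at h2
  have hc : CauchySeq (fun n => D.v (φ n)) := by
    have c1 := h1.cauchySeq
    have c2 := fun j => (h2 j).cauchySeq
    rw [cauchySeq_iff_tendsto_dist_atTop_0] at c1 ⊢
    simp_rw [cauchySeq_iff_tendsto_dist_atTop_0] at c2
    have h4 := (c1.const_mul D.κ).add ((c2 0).add (c2 1))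
    rw [mul_zero, add_zero, zero_add] at h4
    refine squeeze_zero (fun _ => dist_nonneg) (fun p => ?_) h4
    rw [dist_eq_norm, dist_eq_norm, dist_eq_norm, dist_eq_norm, ← map_sub, ← map_sub, ← map_sub, ← map_sub]
    have := D.norm_v_le (φ p.1 - φ p.2)
    rw [Fin.sum_univ_two] at this
    exact this
  have h3 : ∃ τ, Tendsto (fun n => D.t (φ n)) atTop (𝓝 τ) := by
    refine cauchySeq_tendsto_of_complete (FormData.cauchy_of_bound (fun x => D.v x) (fun x => D.t x) ‖ContinuousLinearMap.adjoint D.S‖ (fun x y => ?_) φ hc)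
    rw [← map_sub, ← map_sub, D.norm_t]
    exact ContinuousLinearMap.le_opNorm _ _
  obtain ⟨τ, hτ⟩ := h3
  have hT : D.Tr ψ G τ := ⟨φ, h1, h2, hτ⟩
  refine ⟨τ, (Γ.isH1Trace_iff 1 κ hκ hα ψ G τ).mpr hT, fun τ' hτ' => ?_⟩
  have hT' : D.Tr ψ G τ' := (Γ.isH1Trace_iff 1 κ hκ hα ψ G τ').mp hτ'
  obtain ⟨w, hw⟩ := (D.Tr_iff ψ G τ).mp hT
  obtain ⟨w', hw'⟩ := (D.Tr_iff ψ G τ').mp hT'
  have e1 : w' = w := D.hJinj ((D.TrW_V hw').symm.trans (D.TrW_V hw))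
  subst e1
  have i1 := (D.TrW_inner hw hw).2
  have i2 := (D.TrW_inner hw hw').2
  have i3 := (D.TrW_inner hw' hw).2
  have i4 := (D.TrW_inner hw' hw').2
  have e2 : ⟪τ' - τ, τ' - τ⟫_ℂ = 0 := by
    rw [inner_sub_left, inner_sub_right, inner_sub_right, i1, i2, i3, i4]
    ring
  rw [inner_self_eq_zero, sub_eq_zero] at e2
  exact e2

/-- The main theorem. -/
theorem main (Γ : PeriodicCurve) (α : ℝ) (hα0 : 0 < α) :
    (∀ (ψ : L2Plane) (G : Fin 2 → L2Plane), IsH1 ψ G → ∃! τ : L2Line, IsH1Trace Γ ψ G τ) ∧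
    ∃ H : L2Plane →ₗ.[ℂ] L2Plane, IsSelfAdjoint H ∧
      (∀ ψ f : L2Plane, (ψ, f) ∈ H.graph ↔ LeakyGraph Γ α ψ f) ∧
      (∀ f : L2Plane, ∃ μ : Measure ℝ, IsSpectralMeasure H f μ) ∧
      ∀ (f : L2Plane) (μ : Measure ℝ), IsSpectralMeasure H f μ → μ ≪ volume := by
  refine ⟨fun ψ G h => Γ.exists_unique_trace ψ G h, ?_⟩
  obtain ⟨κ, hκ, hα⟩ := Γ.toFD.exists_kappa α
  set D := Γ.data α κ hκ hα with hD
  refine ⟨D.op, D.op_selfAdjoint, fun ψ f => ?_, fun f => ?_, fun f μ hμ => ?_⟩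
  · rw [D.op_graph]
    exact (Γ.leakyGraph_iff α κ hκ hα ψ f).symm
  · obtain ⟨μ, hfin, _, hμ⟩ := exists_spectral_measure D.R D.R_selfAdjoint (D.κ ^ 2) (D.V f)
    refine ⟨μ, hfin, fun z hz => ?_⟩
    exact (D.resolvent_iff f z hz _).mpr (hμ z hz)
  · obtain ⟨hfin, hμ⟩ := hμ
    have h1 : ∀ z : ℂ, z.im ≠ 0 → ⟪D.V f, res D.R (D.κ ^ 2) z (D.V f)⟫_ℂ = ∫ x : ℝ, ((x : ℂ) - z)⁻¹ ∂μ :=
      fun z hz => (D.resolvent_iff f z hz _).mp (hμ z hz)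
    exact Γ.toFD.ac_RO α κ hκ hα0.ne' hα (D.V f) μ h1

end PeriodicCurve

end

end Pool.Agent.Lib.Pdaec8e
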