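import Pool.Agent.Lib.Pdaec8e.Big4
import Pool.Agent.Lib.Pdaec8e.Defs

set_option autoImplicit false

open MeasureTheory Filter Topology
open scoped ComplexConjugate ENNReal InnerProductSpace Real

namespace Pool.Agent.Lib.Pdaec8e

noncomputable section




/-- unfolding of the quasimomentum -/
def f1 (p : ℝ × (ℤ × ℝ)) : ℝ × ℝ := ((p.2.1 : ℝ) + p.1, p.2.2)

lemma measurable_f1 : Measurable f1 := by
  unfold f1
  have := FD.measurable_cast3
  fun_prop

lemma mp_f1 : MeasurePreserving f1 M3 ((volume : Measure ℝ).prod (volume : Measure ℝ)) := by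
  refine ⟨measurable_f1, ?_⟩
  refine Measure.ext_of_lintegral _ (fun f hf => ?_)
  have hfm : Measurable (fun p => f (f1 p)) := hf.comp measurable_f1
  rw [lintegral_map hf measurable_f1, lintegral_prod _ hfm.aemeasurable, lintegral_prod _ hf.aemeasurable]
  have e1 : ∀ θ : ℝ, ∫⁻ x : ℤ × ℝ, f (f1 (θ, x)) ∂nu = ∑' n : ℤ, ∫⁻ y : ℝ, f ((n : ℝ) + θ, y) := by
    intro θ
    have hm : Measurable (fun x : ℤ × ℝ => f (f1 (θ, x))) := hf.comp (measurable_f1.comp measurable_prodMk_left)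
    rw [lintegral_prod _ hm.aemeasurable, lintegral_count]
    rfl
  simp_rw [e1]
  have hh : Measurable (fun t : ℝ => ∫⁻ y : ℝ, f (t, y)) := hf.lintegral_prod_right'
  rw [lintegral_tsum]
  · have h2 := FD.tsum_lintegral_Ioc (fun t : ℝ => ∫⁻ y : ℝ, f (t, y)) hh 1 one_pos
    rw [← h2]
    refine tsum_congr fun n => ?_
    rw [setLIntegral_congr Ioo_ae_eq_Ioc]
    refine lintegral_congr fun θ => ?_
    rw [mul_one, add_comm]
  · intro n
    have : Measurable (fun θ : ℝ => ∫⁻ y : ℝ, f ((n : ℝ) + θ, y)) := hh.comp (by fun_prop : Measurable (fun θ : ℝ => (n : ℝ) + θ))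
    exact this.aemeasurable

/-- inverse of `f1` -/
def f1i (q : ℝ × ℝ) : ℝ × (ℤ × ℝ) := (Int.fract q.1, (⌊q.1⌋, q.2))

lemma measurable_f1i : Measurable f1i := by
  unfold f1i
  exact (measurable_fract.comp measurable_fst).prodMk ((Int.measurable_floor.comp measurable_fst).prodMk measurable_snd)

lemma f1_f1i (q : ℝ × ℝ) : f1 (f1i q) = q := by
  unfold f1 f1i
  ext
  · simp only; rw [Int.floor_add_fract]
  · rfl

lemma f1i_f1 (p : ℝ × (ℤ × ℝ)) (h : 0 < p.1 ∧ p.1 < 1) : f1i (f1 p) = p := by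
  unfold f1 f1i
  have h1 : ⌊(p.2.1 : ℝ) + p.1⌋ = p.2.1 := by
    rw [Int.floor_eq_iff]
    constructor <;> linarith
  ext
  · simp only
    rw [Int.fract, h1]; ring
  · exact h1
  · rfl

/-- coordinates in the Fourier plane adapted to the period vector with direction `(a,b)` and length `nl` -/
def mat (a b nl : ℝ) : Matrix (Fin 2) (Fin 2) ℝ := !![a / nl, -(b * nl); b / nl, a * nl]

def f2 (a b nl : ℝ) (q : ℝ × ℝ) : Plane := WithLp.toLp 2 ((Matrix.toLin' (mat a b nl)) ![q.1, q.2])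

lemma f2_zero (a b nl : ℝ) (q : ℝ × ℝ) : f2 a b nl q 0 = a / nl * q.1 - b * nl * q.2 := by
  unfold f2 mat
  simp [Matrix.mulVec, dotProduct, Fin.sum_univ_two]
  ring

lemma f2_one (a b nl : ℝ) (q : ℝ × ℝ) : f2 a b nl q 1 = b / nl * q.1 + a * nl * q.2 := by
  unfold f2 mat
  simp [Matrix.mulVec, dotProduct, Fin.sum_univ_two]

lemma mp_f2 (a b nl : ℝ) (hab : a ^ 2 + b ^ 2 = 1) (hnl : nl ≠ 0) :
    MeasurePreserving (f2 a b nl) ((volume : Measure ℝ).prod (volume : Measure ℝ)) (volume : Measure Plane) := by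
  have hdet : (mat a b nl).det = 1 := by
    unfold mat
    rw [Matrix.det_fin_two_of]
    field_simp
    linarith
  have h1 : MeasurePreserving (MeasurableEquiv.finTwoArrow (α := ℝ)).symm ((volume : Measure ℝ).prod (volume : Measure ℝ))
      (volume : Measure (Fin 2 → ℝ)) := (volume_preserving_finTwoArrow ℝ).symm _
  have h2 : MeasurePreserving (Matrix.toLin' (mat a b nl) : (Fin 2 → ℝ) → (Fin 2 → ℝ)) volume volume := by
    refine ⟨(LinearMap.continuous_of_finiteDimensional (Matrix.toLin' (mat a b nl))).measurable, ?_⟩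
    have h3 := Real.map_matrix_volume_pi_eq_smul_volume_pi (M := mat a b nl) (by rw [hdet]; exact one_ne_zero)
    rw [h3, hdet]
    simp
  have h4 := ((PiLp.volume_preserving_toLp (Fin 2)).comp h2).comp h1
  exact h4

/-- inverse of `f2` -/
def f2i (a b nl : ℝ) (ξ : Plane) : ℝ × ℝ := (nl * (a * ξ 0 + b * ξ 1), (-(b * ξ 0) + a * ξ 1) / nl)

lemma f2_f2i (a b nl : ℝ) (hab : a ^ 2 + b ^ 2 = 1) (hnl : nl ≠ 0) (ξ : Plane) : f2 a b nl (f2i a b nl ξ) = ξ := by
  ext i
  fin_cases i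
  · change f2 a b nl _ 0 = ξ 0
    rw [f2_zero]
    unfold f2i
    simp only
    field_simp
    linear_combination (ξ 0) * hab
  · change f2 a b nl _ 1 = ξ 1
    rw [f2_one]
    unfold f2i
    simp only
    field_simp
    linear_combination (ξ 1) * hab

lemma f2i_f2 (a b nl : ℝ) (hab : a ^ 2 + b ^ 2 = 1) (hnl : nl ≠ 0) (q : ℝ × ℝ) : f2i a b nl (f2 a b nl q) = q := by
  unfold f2i
  rw [f2_zero, f2_one]
  ext
  · simp only
    field_simp
    linear_combination q.1 * hab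
  · simp only
    field_simp
    linear_combination (q.2 * nl ^ 2) * hab

lemma measurable_f2i (a b nl : ℝ) : Measurable (f2i a b nl) := by
  unfold f2i
  have h0 : Measurable (fun ξ : Plane => ξ 0) := (by fun_prop : Continuous (fun ξ : Plane => ξ 0)).measurable
  have h1 : Measurable (fun ξ : Plane => ξ 1) := (by fun_prop : Continuous (fun ξ : Plane => ξ 1)).measurable
  fun_prop

/-- the full change of variables -/
def TT (a b nl : ℝ) (p : ℝ × (ℤ × ℝ)) : Plane := f2 a b nl (f1 p)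
def TTi (a b nl : ℝ) (ξ : Plane) : ℝ × (ℤ × ℝ) := f1i (f2i a b nl ξ)

lemma mp_TT (a b nl : ℝ) (hab : a ^ 2 + b ^ 2 = 1) (hnl : nl ≠ 0) : MeasurePreserving (TT a b nl) M3 (volume : Measure Plane) :=
  (mp_f2 a b nl hab hnl).comp mp_f1

lemma TT_TTi (a b nl : ℝ) (hab : a ^ 2 + b ^ 2 = 1) (hnl : nl ≠ 0) (ξ : Plane) : TT a b nl (TTi a b nl ξ) = ξ := by
  unfold TT TTi
  rw [f1_f1i, f2_f2i a b nl hab hnl]

lemma ae_m01 : ∀ᵐ p : ℝ × (ℤ × ℝ) ∂M3, 0 < p.1 ∧ p.1 < 1 := by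
  have h1 : ∀ᵐ θ ∂m01, 0 < θ ∧ θ < 1 := by
    rw [ae_restrict_iff' measurableSet_Ioo]
    exact Eventually.of_forall fun θ hθ => hθ
  exact FD.ae_fst h1

lemma TTi_TT (a b nl : ℝ) (hab : a ^ 2 + b ^ 2 = 1) (hnl : nl ≠ 0) : ∀ᵐ p ∂M3, TTi a b nl (TT a b nl p) = p := by
  filter_upwards [ae_m01] with p hp
  unfold TT TTi
  rw [f2i_f2 a b nl hab hnl, f1i_f1 p hp]

lemma mp_TTi (a b nl : ℝ) (hab : a ^ 2 + b ^ 2 = 1) (hnl : nl ≠ 0) : MeasurePreserving (TTi a b nl) (volume : Measure Plane) M3 := by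
  have hm : Measurable (TTi a b nl) := measurable_f1i.comp (measurable_f2i a b nl)
  refine ⟨hm, ?_⟩
  rw [← (mp_TT a b nl hab hnl).map_eq, Measure.map_map hm (mp_TT a b nl hab hnl).measurable]
  have h1 : (TTi a b nl ∘ TT a b nl) =ᵐ[M3] id := TTi_TT a b nl hab hnl
  rw [Measure.map_congr h1, Measure.map_id]

end

end Pool.Agent.Lib.Pdaec8e
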