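import Mathlib

set_option autoImplicit false

open MeasureTheory Filter Topology
open scoped ComplexConjugate InnerProductSpace CompactlySupported ENNReal

namespace Pool.Agent.Lib.Pdaec8e

noncomputable section

variable {H : Type*} [NormedAddCommGroup H] [InnerProductSpace ℂ H] [CompleteSpace H]

/-- The positive functional `φ ↦ re ⟪f, φ(R) f⟫` on continuous functions on the spectrum. -/
def specFun (R : H →L[ℂ] H) (hR : IsSelfAdjoint R) (f : H) :
    C(spectrum ℝ R, ℝ) →ₗ[ℝ] ℝ where
  toFun φ := (⟪f, (cfcHom hR φ : H →L[ℂ] H) f⟫_ℂ).re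
  map_add' φ ψ := by
    simp [map_add]
  map_smul' c φ := by
    simp only [map_smul, RingHom.id_apply, smul_eq_mul]
    rw [smul_apply, inner_smul_right_eq_smul]
    simp

lemma specFun_nonneg (R : H →L[ℂ] H) (hR : IsSelfAdjoint R) (f : H)
    (φ : C(spectrum ℝ R, ℝ)) (hφ : 0 ≤ φ) : 0 ≤ specFun R hR f φ := by
  have h1 : (0 : H →L[ℂ] H) ≤ cfcHom hR φ := by
    have := cfcHom_mono (R := ℝ) hR hφ
    simpa using this
  rw [ContinuousLinearMap.nonneg_iff_isPositive] at h1
  have := h1.re_inner_nonneg_right f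
  simpa [specFun] using this

/-- the same functional as a positive linear map on compactly supported functions. -/
def specPos (R : H →L[ℂ] H) (hR : IsSelfAdjoint R) (f : H) :
    C_c(spectrum ℝ R, ℝ) →ₚ[ℝ] ℝ :=
  PositiveLinearMap.mk₀
    { toFun := fun φ => specFun R hR f φ.toContinuousMap
      map_add' := fun φ ψ => by
        rw [← map_add]; rfl
      map_smul' := fun c φ => by
        simp only [RingHom.id_apply]
        rw [← map_smul]; rfl }
    (fun φ hφ => specFun_nonneg R hR f _ hφ)

instance (R : H →L[ℂ] H) : CompactSpace (spectrum ℝ R) := by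
  infer_instance

lemma exists_spectral_measure_aux (R : H →L[ℂ] H) (hR : IsSelfAdjoint R) (f : H) :
    ∃ ν : Measure (spectrum ℝ R), IsFiniteMeasure ν ∧
      ∀ φ : C(spectrum ℝ R, ℝ), ∫ x, φ x ∂ν = (⟪f, (cfcHom hR φ : H →L[ℂ] H) f⟫_ℂ).re := by
  refine ⟨RealRMK.rieszMeasure (specPos R hR f), inferInstance, fun φ => ?_⟩
  have := RealRMK.integral_rieszMeasure (specPos R hR f)
    (CompactlySupportedContinuousMap.continuousMapEquiv φ)
  exact this

end

end Pool.Agent.Lib.Pdaec8e
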