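import Pool.Agent.Lib.Pdaec8e.Spectral

set_option autoImplicit false

open MeasureTheory Filter Topology
open scoped ComplexConjugate InnerProductSpace CompactlySupported ENNReal

namespace Pool.Agent.Lib.Pdaec8e

noncomputable section

variable {H : Type*} [NormedAddCommGroup H] [InnerProductSpace ℂ H] [CompleteSpace H]

/-- `(1 - w R)` is invertible for nonreal `w` and self-adjoint `R`. -/
lemma isUnit_one_sub (R : H →L[ℂ] H) (hR : IsSelfAdjoint R) (w : ℂ) (hw : w.im ≠ 0) :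
    IsUnit (1 - w • R) := by
  have hw0 : w ≠ 0 := by
    rintro rfl; simp at hw
  have h1 : w⁻¹ ∉ spectrum ℂ R := by
    intro h
    have := hR.mem_spectrum_eq_re h
    have h2 : (w⁻¹).im = 0 := by
      rw [this]; simp
    rw [Complex.inv_im] at h2
    have h3 : Complex.normSq w ≠ 0 := by simpa using hw0
    rw [div_eq_zero_iff] at h2
    rcases h2 with h2 | h2
    · exact hw (by linarith)
    · exact h3 h2
  rw [spectrum.notMem_iff] at h1
  have h3 : (1 - w • R) = (algebraMap ℂ (H →L[ℂ] H) w) * (algebraMap ℂ (H →L[ℂ] H) w⁻¹ - R) := by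
    rw [mul_sub, ← map_mul, mul_inv_cancel₀ hw0, map_one, Algebra.smul_def]
  rw [h3]
  refine IsUnit.mul ?_ h1
  exact (IsUnit.mk0 w hw0).map (algebraMap ℂ (H →L[ℂ] H))

/-- The resolvent `(A - z)⁻¹` of the self-adjoint operator `A` with `(A + κ)⁻¹ = R`. -/
def res (R : H →L[ℂ] H) (κ : ℝ) (z : ℂ) : H →L[ℂ] H :=
  Ring.inverse (1 - ((κ : ℂ) + z) • R) * R

lemma res_eq (R : H →L[ℂ] H) (hR : IsSelfAdjoint R) (κ : ℝ) (z : ℂ) (hz : z.im ≠ 0) (f : H) :
    res R κ z f = R (f + ((κ : ℂ) + z) • res R κ z f) := by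
  have hu : IsUnit (1 - ((κ : ℂ) + z) • R) := isUnit_one_sub R hR _ (by simpa using hz)
  have h1 : (1 - ((κ : ℂ) + z) • R) * res R κ z = R := by
    rw [res, ← mul_assoc, Ring.mul_inverse_cancel _ hu, one_mul]
  have h2 := congrArg (fun T : H →L[ℂ] H => T f) h1
  simp only [mul_apply_eq_comp, sub_apply, one_apply_eq_self, smul_apply] at h2
  rw [map_add, map_smul, ← h2]
  abel

lemma res_unique (R : H →L[ℂ] H) (hR : IsSelfAdjoint R) (κ : ℝ) (z : ℂ) (hz : z.im ≠ 0) (f u : H)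
    (h : u = R (f + ((κ : ℂ) + z) • u)) : u = res R κ z f := by
  have hu : IsUnit (1 - ((κ : ℂ) + z) • R) := isUnit_one_sub R hR _ (by simpa using hz)
  have h1 : (1 - ((κ : ℂ) + z) • R) u = R f := by
    simp only [sub_apply, one_apply_eq_self, smul_apply]
    rw [map_add, map_smul] at h
    rw [sub_eq_iff_eq_add]
    exact h
  have h2 := congrArg (fun v => Ring.inverse (1 - ((κ : ℂ) + z) • R) v) h1
  rw [← mul_apply_eq_comp, Ring.inverse_mul_cancel _ hu] at h2
  simpa [res, mul_apply_eq_comp] using h2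

lemma im_inner_res (R : H →L[ℂ] H) (hR : IsSelfAdjoint R) (κ : ℝ) (z : ℂ) (hz : z.im ≠ 0) (f : H) :
    (⟪f, res R κ z f⟫_ℂ).im = z.im * ‖res R κ z f‖ ^ 2 := by
  set u := res R κ z f with hu
  have h1 := res_eq R hR κ z hz f
  rw [← hu] at h1
  set h := f + ((κ : ℂ) + z) • u with hh
  have h2 : f = h - ((κ : ℂ) + z) • u := by rw [hh]; abel
  rw [h2, inner_sub_left, inner_smul_left]
  have h3 : (⟪h, u⟫_ℂ).im = 0 := by
    rw [h1]
    have := hR.isSymmetric h h
    have h4 : (starRingEnd ℂ) ⟪h, R h⟫_ℂ = ⟪h, R h⟫_ℂ := by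
      rw [inner_conj_symm]; exact this
    exact Complex.conj_eq_iff_im.mp h4
  rw [Complex.sub_im, h3, inner_self_eq_norm_sq_to_K]
  simp [← Complex.ofReal_pow]

end

end Pool.Agent.Lib.Pdaec8e
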