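import Pool.Agent.Lib.Pdaec8e.Spectral2

set_option autoImplicit false

open MeasureTheory Filter Topology
open scoped ComplexConjugate InnerProductSpace CompactlySupported ENNReal

namespace Pool.Agent.Lib.Pdaec8e

noncomputable section

variable {H : Type*} [NormedAddCommGroup H] [InnerProductSpace ℂ H] [CompleteSpace H]

lemma one_sub_ne (w : ℂ) (hw : w.im ≠ 0) (x : ℝ) : (1 - w * x : ℂ) ≠ 0 := by
  intro h
  have h1 := congrArg Complex.im h
  have h2 := congrArg Complex.re h
  simp at h1 h2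
  rcases h1 with h1 | h1
  · exact hw h1
  · rw [h1] at h2; simp at h2

/-- the complex function `x / (1 - w x)` -/
def gfun (w : ℂ) (x : ℝ) : ℂ := (x : ℂ) / (1 - w * x)

lemma gfun_continuous (w : ℂ) (hw : w.im ≠ 0) : Continuous (gfun w) := by
  unfold gfun
  refine Continuous.div (by fun_prop) (by fun_prop) (one_sub_ne w hw)

lemma gfun_eq (w : ℂ) (hw : w.im ≠ 0) (x : ℝ) : (1 - w * x) * gfun w x = x := by
  unfold gfun
  field_simp [one_sub_ne w hw x]

lemma stieltjes_spectrum (R : H →L[ℂ] H) (hR : IsSelfAdjoint R) (f : H)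
    (ν : Measure (spectrum ℝ R)) [IsFiniteMeasure ν]
    (hν : ∀ φ : C(spectrum ℝ R, ℝ), ∫ x, φ x ∂ν = (⟪f, (cfcHom hR φ : H →L[ℂ] H) f⟫_ℂ).re)
    (w : ℂ) (hw : w.im ≠ 0) :
    ⟪f, Ring.inverse (1 - w • R) (R f)⟫_ℂ = ∫ x, gfun w (x : ℝ) ∂ν := by
  let X : C(spectrum ℝ R, ℝ) := (ContinuousMap.id ℝ).restrict (spectrum ℝ R)
  let g1 : C(spectrum ℝ R, ℝ) :=
    ⟨fun x => (gfun w (x : ℝ)).re, Complex.continuous_re.comp ((gfun_continuous w hw).comp continuous_subtype_val)⟩
  let g2 : C(spectrum ℝ R, ℝ) :=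
    ⟨fun x => (gfun w (x : ℝ)).im, Complex.continuous_im.comp ((gfun_continuous w hw).comp continuous_subtype_val)⟩
  have e1 : g1 - w.re • (X * g1) + w.im • (X * g2) = X := by
    ext x
    have := congrArg Complex.re (gfun_eq w hw (x : ℝ))
    simp [X, g1, g2] at this ⊢
    linarith
  have e2 : g2 - w.re • (X * g2) - w.im • (X * g1) = 0 := by
    ext x
    have := congrArg Complex.im (gfun_eq w hw (x : ℝ))
    simp [X, g1, g2] at this ⊢
    linarith
  set G1 : H →L[ℂ] H := cfcHom hR g1 with hG1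
  set G2 : H →L[ℂ] H := cfcHom hR g2 with hG2
  have hX : cfcHom hR X = R := cfcHom_id hR
  have E1 : G1 - w.re • (R * G1) + w.im • (R * G2) = R := by
    have := congrArg (cfcHom hR) e1
    simpa [map_add, map_sub, map_smul, map_mul, hX] using this
  have E2 : G2 - w.re • (R * G2) - w.im • (R * G1) = 0 := by
    have := congrArg (cfcHom hR) e2
    simpa [map_add, map_sub, map_smul, map_mul, hX] using this
  have hu : IsUnit (1 - w • R) := isUnit_one_sub R hR w hw
  set T : H →L[ℂ] H := G1 + Complex.I • G2 with hT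
  have hTR : (1 - w • R) * T = R := by
    have h1 : (1 - w • R) * T = (G1 - w.re • (R * G1) + w.im • (R * G2)) +
        Complex.I • (G2 - w.re • (R * G2) - w.im • (R * G1)) := by
      ext v
      simp only [hT, mul_apply_eq_comp, sub_apply, one_apply_eq_self, smul_apply, add_apply, map_add, map_smul]
      simp only [← Complex.coe_smul, smul_sub, smul_smul]
      have hw' : w = w.re + w.im * Complex.I := (Complex.re_add_im w).symm
      have h2 : w • R (G1 v) = (w.re : ℂ) • R (G1 v) + (w.im * Complex.I) • R (G1 v) := by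
        rw [← add_smul, ← hw']
      have h3 : (Complex.I * w) • R (G2 v) = (Complex.I * w.re : ℂ) • R (G2 v) - (w.im : ℂ) • R (G2 v) := by
        rw [← sub_smul]
        congr 1
        conv_lhs => rw [hw']
        ring_nf
        rw [Complex.I_sq]; ring
      rw [h2, h3]
      have h4 : (Complex.I * (w.im : ℂ)) = w.im * Complex.I := mul_comm _ _
      rw [h4]
      abel
    rw [h1, E1, E2]; simp
  have hT2 : Ring.inverse (1 - w • R) (R f) = T f := by
    have h6 : Ring.inverse (1 - w • R) * R = T :=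
      calc Ring.inverse (1 - w • R) * R = Ring.inverse (1 - w • R) * ((1 - w • R) * T) := by rw [hTR]
        _ = T := by rw [← mul_assoc, Ring.inverse_mul_cancel _ hu, one_mul]
    rw [← mul_apply_eq_comp, h6]
  rw [hT2, hT]
  simp only [add_apply, smul_apply, inner_add_right, inner_smul_right]
  have s1 : ∀ g : C(spectrum ℝ R, ℝ), ⟪f, (cfcHom hR g : H →L[ℂ] H) f⟫_ℂ =
      ((∫ x, g x ∂ν : ℝ) : ℂ) := by
    intro g
    rw [hν g]
    have hsa : IsSelfAdjoint (cfcHom hR g : H →L[ℂ] H) := cfcHom_predicate hR g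
    have := hsa.isSymmetric f f
    have h4 : (starRingEnd ℂ) ⟪f, (cfcHom hR g : H →L[ℂ] H) f⟫_ℂ = ⟪f, (cfcHom hR g : H →L[ℂ] H) f⟫_ℂ := by
      rw [inner_conj_symm]; exact this
    exact (Complex.conj_eq_iff_re.mp h4).symm
  rw [hG1, hG2, s1, s1]
  have hint : Integrable (fun x : spectrum ℝ R => gfun w (x : ℝ)) ν := by
    have hc : Continuous (fun x : spectrum ℝ R => gfun w (x : ℝ)) :=
      (gfun_continuous w hw).comp continuous_subtype_val
    obtain ⟨C, hC⟩ := (isCompact_range hc).isBounded.exists_norm_le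
    exact Integrable.of_bound hc.aestronglyMeasurable C (Eventually.of_forall fun x => hC _ ⟨x, rfl⟩)
  rw [← integral_re_add_im hint]
  simp [g1, g2, mul_comm]

end

end Pool.Agent.Lib.Pdaec8e
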