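import Pool.Agent.Lib.Pdaec8e.Spectral3

set_option autoImplicit false

open MeasureTheory Filter Topology
open scoped ComplexConjugate InnerProductSpace CompactlySupported ENNReal

namespace Pool.Agent.Lib.Pdaec8e

noncomputable section

variable {H : Type*} [NormedAddCommGroup H] [InnerProductSpace ℂ H] [CompleteSpace H]

/-- Existence of spectral measures for the operator `A` with `(A + κ)⁻¹ = R`. -/
theorem exists_spectral_measure (R : H →L[ℂ] H) (hR : IsSelfAdjoint R) (κ : ℝ) (f : H) :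
    ∃ μ : Measure ℝ, IsFiniteMeasure μ ∧ μ Set.univ ≤ ENNReal.ofReal (‖f‖ ^ 2) ∧
      ∀ z : ℂ, z.im ≠ 0 → ⟪f, res R κ z f⟫_ℂ = ∫ x : ℝ, ((x : ℂ) - z)⁻¹ ∂μ := by
  obtain ⟨ν, hfin, hν⟩ := exists_spectral_measure_aux R hR f
  let s : Set (spectrum ℝ R) := {x | (x : ℝ) ≠ 0}
  have hs : MeasurableSet s := (measurable_subtype_coe (measurableSet_singleton (0:ℝ)).compl)
  let T : spectrum ℝ R → ℝ := fun x => (x : ℝ)⁻¹ - κ
  have hT : Measurable T := (measurable_subtype_coe.inv).sub_const κ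
  refine ⟨(ν.restrict s).map T, ?_, ?_, ?_⟩
  · exact Measure.isFiniteMeasure_map _ _
  · rw [Measure.map_apply hT MeasurableSet.univ, Set.preimage_univ]
    refine (Measure.restrict_apply_le _ _).trans ?_
    have h1 := hν 1
    have h2 : ∫ x, (1 : C(spectrum ℝ R, ℝ)) x ∂ν = (ν Set.univ).toReal := by
      simp [Measure.real]
    rw [h2, map_one] at h1
    simp only [one_apply_eq_self] at h1
    rw [inner_self_eq_norm_sq_to_K] at h1
    simp only [Complex.coe_algebraMap] at h1
    rw [← Complex.ofReal_pow, Complex.ofReal_re] at h1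
    rw [← h1, ENNReal.ofReal_toReal (measure_ne_top _ _)]
  · intro z hz
    have hw : ((κ : ℂ) + z).im ≠ 0 := by simpa using hz
    have h1 := stieltjes_spectrum R hR f ν hν ((κ : ℂ) + z) hw
    have h2 : res R κ z f = Ring.inverse (1 - ((κ : ℂ) + z) • R) (R f) := by
      rw [res, mul_apply_eq_comp]
    rw [h2, h1]
    rw [integral_map hT.aemeasurable]
    · rw [← integral_indicator hs]
      congr 1
      ext x
      by_cases hx : (x : ℝ) = 0
      · rw [Set.indicator_of_notMem (by simpa [s] using hx)]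
        simp [gfun, hx]
      · rw [Set.indicator_of_mem (by simpa [s] using hx)]
        have hx' : ((x : ℝ) : ℂ) ≠ 0 := by exact_mod_cast hx
        simp only [gfun, T]
        push_cast
        have h3 := one_sub_ne ((κ : ℂ) + z) hw (x : ℝ)
        have h4 : ((x : ℝ) : ℂ)⁻¹ - κ - z = (1 - ((κ : ℂ) + z) * (x : ℝ)) / (x : ℝ) := by
          field_simp
          ring
        rw [h4, inv_div]
    · refine (Measurable.aestronglyMeasurable ?_)
      fun_prop

lemma lintegral_poisson (ε x : ℝ) (hε : 0 < ε) :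
    ∫⁻ l : ℝ, ENNReal.ofReal (ε / ((x - l) ^ 2 + ε ^ 2)) = ENNReal.ofReal Real.pi := by
  have h0 : ∀ l : ℝ, ε / ((x - l) ^ 2 + ε ^ 2) = ε⁻¹ * (1 + ((l - x) / ε) ^ 2)⁻¹ := by
    intro l
    field_simp
    ring
  have hi : Integrable (fun l : ℝ => ε⁻¹ * (1 + ((l - x) / ε) ^ 2)⁻¹) := by
    have h1 : Integrable (fun l : ℝ => (1 + l ^ 2)⁻¹) := integrable_inv_one_add_sq
    have h2 := (h1.comp_div hε.ne').comp_sub_right x
    exact h2.const_mul _
  simp_rw [h0]
  rw [← ofReal_integral_eq_lintegral_ofReal hi (Eventually.of_forall fun l => by positivity)]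
  congr 1
  rw [integral_const_mul]
  rw [integral_sub_right_eq_self (fun l : ℝ => (1 + (l / ε) ^ 2)⁻¹) x]
  rw [Measure.integral_comp_div (fun l : ℝ => (1 + l ^ 2)⁻¹) ε]
  rw [integral_univ_inv_one_add_sq]
  simp [abs_of_pos hε]
  field_simp

lemma im_inv_sub (x l ε : ℝ) (hε : 0 < ε) :
    (((x : ℂ) - (⟨l, ε⟩ : ℂ))⁻¹).im = ε / ((x - l) ^ 2 + ε ^ 2) := by
  rw [Complex.inv_im, Complex.normSq_apply]
  simp
  ring_nf

end

end Pool.Agent.Lib.Pdaec8e
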