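import Pool.Agent.Lib.Pdaec8e.Channel

set_option autoImplicit false

open MeasureTheory Filter Topology
open scoped ComplexConjugate ENNReal InnerProductSpace Real BoundedContinuousFunction

namespace Pool.Agent.Lib.Pdaec8e

noncomputable section

namespace FD

variable (F : FD)

lemma integrable_formS (S : Finset ℤ) (θ z : ℂ) (hLB : F.LB S θ z) (h g : F.E) :
    Integrable (F.formS S θ z h g) nu := by
  set w : V := mulOp (F.dfun S θ z) (F.memLp_dfun S θ z hLB) (F.B g) with hw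
  have h0 := L2.integrable_inner (𝕜 := ℂ) (F.B h) (w - PiS S w)
  refine h0.congr ?_
  filter_upwards [F.B_coe h, F.B_coe g, mulOp_coe (F.dfun S θ z) (F.memLp_dfun S θ z hLB) (F.B g),
    Lp.coeFn_sub w (PiS S w), mulOp_coe (ind S) (memLp_ind S) w] with x h1 h2 h3 h4 h5
  have hom := om_pos x
  rw [h4, Pi.sub_apply]
  unfold PiS
  rw [h5, hw, h3, h1, h2, RCLike.inner_apply, ind, dfun, formS]
  split_ifs with hx
  · simp
  · unfold Bfun cfun
    rw [map_mul, Complex.conj_ofReal]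
    have h6 : ((om x : ℝ) : ℂ) ≠ 0 := by exact_mod_cast hom.ne'
    have h7 : (((Real.sqrt (om x))⁻¹ : ℝ) : ℂ) * (((Real.sqrt (om x))⁻¹ : ℝ) : ℂ) = ((om x : ℝ) : ℂ)⁻¹ := by
      rw [← Complex.ofReal_mul, ← mul_inv, Real.mul_self_sqrt hom.le, Complex.ofReal_inv]
    rw [zero_mul, sub_zero, inv_div]
    calc _ = ((((Real.sqrt (om x))⁻¹ : ℝ) : ℂ) * (((Real.sqrt (om x))⁻¹ : ℝ) : ℂ)) * ((om x : ℝ) : ℂ) *
          (conj (F.hat h x) * F.hat g x / (F.sig θ x - z)) := by ring
      _ = _ := by rw [h7, inv_mul_cancel₀ h6, one_mul]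

lemma LB_mono (S T : Finset ℤ) (hST : S ⊆ T) (θ z : ℂ) (h : F.LB S θ z) : F.LB T θ z := by
  obtain ⟨δ, hδ, h⟩ := h
  exact ⟨δ, hδ, fun x hx => h x (fun hxS => hx (hST hxS))⟩

/-- Splitting off finitely many channels. -/
theorem KS_split (S : Finset ℤ) (θ z : ℂ) (hLB : F.LB ∅ θ z) (κ : ℤ → ℂ)
    (hre : ∀ n ∈ S, 0 < (κ n).re) (hκ : ∀ n ∈ S, κ n ^ 2 = (F.A : ℂ) ^ 2 * ((n : ℂ) + θ) ^ 2 - z) :
    F.KS ∅ θ z = F.KS S θ z + ∑ n ∈ S, F.kop n (κ n) := by
  ext1 g
  refine ext_inner_left ℂ (fun h => ?_)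
  have hLBS : F.LB S θ z := F.LB_mono ∅ S (Finset.empty_subset S) θ z hLB
  rw [add_apply, ContinuousLinearMap.sum_apply, inner_add_right, inner_sum, F.inner_KS ∅ θ z hLB,
    F.inner_KS S θ z hLBS]
  have i0 := F.integrable_formS ∅ θ z hLB h g
  have iS := F.integrable_formS S θ z hLBS h g
  rw [integral_prod _ i0, integral_prod _ iS, integral_countable i0.integral_prod_left,
    integral_countable iS.integral_prod_left]
  simp only [Measure.real, Measure.count_singleton, ENNReal.toReal_one, one_smul]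
  set a : ℤ → ℂ := fun n => ∫ y : ℝ, conj (F.hat h (n, y)) * F.hat g (n, y) / (F.sig θ (n, y) - z) with ha
  have e0 : ∀ n : ℤ, ∫ y : ℝ, F.formS ∅ θ z h g (n, y) = a n := by
    intro n
    simp [formS, ha]
  have eS : ∀ n : ℤ, ∫ y : ℝ, F.formS S θ z h g (n, y) = if n ∈ S then 0 else a n := by
    intro n
    simp only [formS, ha]
    split_ifs with hn
    · simp
    · rfl
  simp_rw [e0, eS]
  have hs0 : Summable a := by
    have h1 := integrable_count_iff.mp i0.integral_prod_left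
    have h2 := h1.of_norm
    simpa [e0] using h2
  have hsS : Summable (fun n => if n ∈ S then 0 else a n) := by
    have h1 := integrable_count_iff.mp iS.integral_prod_left
    have h2 := h1.of_norm
    simpa [eS] using h2
  have hsum : ∀ n ∈ S, ⟪h, F.kop n (κ n) g⟫_ℂ = a n := by
    intro n hn
    rw [F.inner_kop n (κ n) (hre n hn), ha]
    congr 1
    ext y
    congr 1
    rw [hκ n hn, sig]
    ring
  rw [Finset.sum_congr rfl hsum]
  have h3 : ∀ n, a n = (if n ∈ S then 0 else a n) + (if n ∈ S then a n else 0) := by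
    intro n; split_ifs <;> simp
  have h4 : Summable (fun n => if n ∈ S then a n else 0) := by
    refine summable_of_ne_finset_zero (s := S) (fun n hn => ?_)
    simp [hn]
  have h5 : ∑' n, (if n ∈ S then a n else 0) = ∑ n ∈ S, a n := by
    rw [tsum_eq_sum (s := S)]
    · refine Finset.sum_congr rfl (fun n hn => by simp [hn])
    · intro n hn; simp [hn]
  conv_lhs => rw [tsum_congr h3]
  rw [hsS.tsum_add h4, h5]

/-- Analyticity of the truncated operators. -/
lemma analyticAt_KS (S : Finset ℤ) (θ0 z0 : ℂ) (hLB : F.LB S θ0 z0) :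
    AnalyticAt ℂ (fun p : ℂ × ℂ => F.KS S p.1 p.2) (θ0, z0) := by
  have h1 : AnalyticAt ℂ (fun p : ℂ × ℂ => F.CopS S p.1 p.2) (θ0, z0) := by
    unfold CopS Cop
    have e1 : AnalyticAt ℂ (fun p : ℂ × ℂ => p.1) (θ0, z0) := analyticAt_fst
    have e2 : AnalyticAt ℂ (fun p : ℂ × ℂ => p.2) (θ0, z0) := analyticAt_snd
    refine analyticAt_const.add (analyticAt_const.mul ?_)
    exact ((analyticAt_const.add (e1.smul analyticAt_const)).add ((e1.pow 2).smul analyticAt_const)).sub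
      (e2.smul analyticAt_const)
  have hu : IsUnit (F.CopS S θ0 z0) := (F.isUnit_CopS S θ0 z0 hLB).1
  have h2 : AnalyticAt ℂ (fun p : ℂ × ℂ => Ring.inverse (F.CopS S p.1 p.2)) (θ0, z0) := by
    have := analyticAt_inverse (𝕜 := ℂ) hu.unit
    exact AnalyticAt.comp (g := Ring.inverse) (f := fun p : ℂ × ℂ => F.CopS S p.1 p.2) this h1
  let Φ : (V →L[ℂ] V) →L[ℂ] (F.E →L[ℂ] F.E) :=
    (ContinuousLinearMap.compL ℂ F.E V F.E (ContinuousLinearMap.adjoint F.B)) ∘L
      (((ContinuousLinearMap.compL ℂ F.E V V).flip F.B) ∘L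
        (ContinuousLinearMap.mul ℂ (V →L[ℂ] V) (1 - PiS S)))
  have h3 : ∀ p : ℂ × ℂ, F.KS S p.1 p.2 = Φ (Ring.inverse (F.CopS S p.1 p.2)) := fun p => rfl
  simp_rw [h3]
  exact (Φ.analyticAt _).comp h2

end FD

end

end Pool.Agent.Lib.Pdaec8e
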