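import Pool.Agent.Lib.Pdaec8e.Weights

set_option autoImplicit false

open MeasureTheory Filter Topology
open scoped ComplexConjugate ENNReal Real

namespace Pool.Agent.Lib.Pdaec8e

noncomputable section

namespace FD

variable (F : FD)

/-- the symbol of the fibre Laplacian at (complex) quasi-momentum `θ` -/
def sig (θ : ℂ) (x : ℤ × ℝ) : ℂ := (F.A : ℂ) ^ 2 * ((x.1 : ℂ) + θ) ^ 2 + (F.D : ℂ) ^ 2 * (x.2 : ℂ) ^ 2

lemma thomas_pointwise (l S T m : ℝ) (hS : 1 ≤ S) (hT : T = S ^ 2) (hl : |l| ≤ T)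
    (hm : 0 < m) (hmA : m ≤ F.A) (hmD : m ≤ F.D) (x : ℤ × ℝ) :
    F.sig ((1 / 2 : ℝ) + ((T / F.A : ℝ) : ℂ) * Complex.I) x - l ≠ 0 ∧
    1 / ‖F.sig ((1 / 2 : ℝ) + ((T / F.A : ℝ) : ℂ) * Complex.I) x - l‖ ≤
      4 / m ^ 2 * (1 / ((2 * T / m) ^ 2 + rho2 (-(1/2)) 0 x)) +
      (Real.exp 1 / (T * S) * gw (m ^ 2 / (4 * T ^ 2)) (-(1/2)) 0 x +
      Real.exp 10 / (F.A * T) * (gw (m ^ 2 / S ^ 2) (-(1/2)) (T / F.D) x + gw (m ^ 2 / S ^ 2) (-(1/2)) (-(T / F.D)) x)) := by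
  have hA := F.hA
  have hD := F.hD
  have hS0 : 0 < S := by linarith
  have hT1 : 1 ≤ T := by rw [hT]; nlinarith
  have hT0 : 0 < T := by linarith
  set n : ℝ := (x.1 : ℝ) with hn
  set y : ℝ := x.2 with hy
  set P : ℝ := F.A * (n + 1 / 2) with hP
  set Q : ℝ := F.D * y with hQ
  set M : ℂ := F.sig ((1 / 2 : ℝ) + ((T / F.A : ℝ) : ℂ) * Complex.I) x - l with hM
  have hMform : M = ((P ^ 2 + Q ^ 2 - T ^ 2 - l : ℝ) : ℂ) + ((2 * P * T : ℝ) : ℂ) * Complex.I := by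
    rw [hM, sig, hP, hQ, hn, hy]
    have hA' : (F.A : ℂ) ≠ 0 := by exact_mod_cast hA.ne'
    push_cast
    field_simp
    ring_nf
    rw [Complex.I_sq]
    ring
  have hMre : M.re = P ^ 2 + Q ^ 2 - T ^ 2 - l := by
    rw [hMform, Complex.add_re, Complex.ofReal_re, Complex.re_ofReal_mul, Complex.I_re, mul_zero, add_zero]
  have hMim : M.im = 2 * P * T := by
    rw [hMform, Complex.add_im, Complex.ofReal_im, Complex.im_ofReal_mul, Complex.I_im, mul_one, zero_add]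
  have h1 : |P ^ 2 + Q ^ 2 - T ^ 2 - l| ≤ ‖M‖ := by rw [← hMre]; exact Complex.abs_re_le_norm M
  have h2 : |2 * P * T| ≤ ‖M‖ := by rw [← hMim]; exact Complex.abs_im_le_norm M
  have h2' : 2 * |P| * T ≤ ‖M‖ := by
    rw [abs_mul, abs_mul, abs_two, abs_of_pos hT0] at h2; exact h2
  have hPn : F.A / 2 ≤ |P| := by
    rw [hP, abs_mul, abs_of_pos hA]
    have : 1 / 2 ≤ |n + 1 / 2| := by
      rcases le_or_gt 0 x.1 with h | h
      · have h3 : (0 : ℝ) ≤ n := by rw [hn]; exact_mod_cast h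
        rw [abs_of_nonneg (by linarith)]; linarith
      · have h3 : n ≤ -1 := by rw [hn]; exact_mod_cast (by omega : x.1 ≤ -1)
        rw [abs_of_nonpos (by linarith)]; linarith
    nlinarith
  have h3 : F.A * T ≤ ‖M‖ := by nlinarith
  have hMpos : 0 < ‖M‖ := lt_of_lt_of_le (by positivity) h3
  refine ⟨norm_pos_iff.mp hMpos, ?_⟩
  have g1 := (gw_pos (m ^ 2 / (4 * T ^ 2)) (-(1/2)) 0 x).le
  have g2 := (gw_pos (m ^ 2 / S ^ 2) (-(1/2)) (T / F.D) x).le
  have g3 := (gw_pos (m ^ 2 / S ^ 2) (-(1/2)) (-(T / F.D)) x).le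
  have hr0 := rho2_nonneg (-(1/2)) 0 x
  have hmP : m ^ 2 * (n + 1 / 2) ^ 2 ≤ P ^ 2 := by
    rw [hP, mul_pow]
    exact mul_le_mul_of_nonneg_right (pow_le_pow_left₀ hm.le hmA 2) (sq_nonneg _)
  have hrho : m ^ 2 * rho2 (-(1/2)) 0 x ≤ P ^ 2 + Q ^ 2 := by
    rw [rho2, ← hn, ← hy]
    have h5 : m ^ 2 * y ^ 2 ≤ Q ^ 2 := by
      rw [hQ, mul_pow]
      exact mul_le_mul_of_nonneg_right (pow_le_pow_left₀ hm.le hmD 2) (sq_nonneg _)
    have h6 : (n - -(1 / 2)) = n + 1 / 2 := by ring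
    rw [h6, sub_zero]
    linarith
  have t1n : 0 ≤ 4 / m ^ 2 * (1 / ((2 * T / m) ^ 2 + rho2 (-(1/2)) 0 x)) := by positivity
  have t2n : 0 ≤ Real.exp 1 / (T * S) * gw (m ^ 2 / (4 * T ^ 2)) (-(1/2)) 0 x := by positivity
  have t3n : 0 ≤ Real.exp 10 / (F.A * T) * (gw (m ^ 2 / S ^ 2) (-(1/2)) (T / F.D) x + gw (m ^ 2 / S ^ 2) (-(1/2)) (-(T / F.D)) x) := by positivity
  have hTT : T ≤ T ^ 2 := by nlinarith
  rcases le_or_gt (4 * T ^ 2) (P ^ 2 + Q ^ 2) with hc1 | hc1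
  · -- far region
    have h4 : (P ^ 2 + Q ^ 2 + 4 * T ^ 2) / 4 ≤ ‖M‖ := by
      have h5 := (le_abs_self (P ^ 2 + Q ^ 2 - T ^ 2 - l)).trans h1
      have h6 := (le_abs_self l).trans hl
      linarith
    have h7 : m ^ 2 / 4 * ((2 * T / m) ^ 2 + rho2 (-(1/2)) 0 x) ≤ ‖M‖ := by
      have : m ^ 2 * (2 * T / m) ^ 2 = 4 * T ^ 2 := by field_simp; ring
      nlinarith
    have h8 : 1 / ‖M‖ ≤ 4 / m ^ 2 * (1 / ((2 * T / m) ^ 2 + rho2 (-(1/2)) 0 x)) := by
      have h9 : 4 / m ^ 2 * (1 / ((2 * T / m) ^ 2 + rho2 (-(1/2)) 0 x)) =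
        1 / (m ^ 2 / 4 * ((2 * T / m) ^ 2 + rho2 (-(1/2)) 0 x)) := by
        field_simp
      rw [h9]
      exact one_div_le_one_div_of_le (by positivity) h7
    linarith
  · rcases le_or_gt (T * S) ‖M‖ with hc2 | hc2
    · have h4 : 1 / ‖M‖ ≤ 1 / (T * S) := one_div_le_one_div_of_le (by positivity) hc2
      have h5 : Real.exp (-1) ≤ gw (m ^ 2 / (4 * T ^ 2)) (-(1/2)) 0 x := by
        rw [gw_eq]
        refine Real.exp_le_exp.mpr ?_
        rw [neg_le_neg_iff]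
        have h6 : m ^ 2 / (4 * T ^ 2) * rho2 (-(1/2)) 0 x = (m ^ 2 * rho2 (-(1/2)) 0 x) / (4 * T ^ 2) := by ring
        rw [h6, div_le_one (by positivity)]
        linarith
      have h6 : 1 / (T * S) ≤ Real.exp 1 / (T * S) * gw (m ^ 2 / (4 * T ^ 2)) (-(1/2)) 0 x := by
        have h7 : Real.exp 1 * Real.exp (-1) = 1 := by rw [← Real.exp_add]; simp
        calc 1 / (T * S) = Real.exp 1 / (T * S) * Real.exp (-1) := by
              rw [div_mul_eq_mul_div, h7]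
          _ ≤ _ := by
              refine mul_le_mul_of_nonneg_left h5 (by positivity)
      linarith
    · have hPS : |P| < S / 2 := by
        have h4 : 2 * |P| * T < T * S := lt_of_le_of_lt h2' hc2
        nlinarith
      have hP2 : P ^ 2 ≤ T / 4 := by
        rw [hT, ← sq_abs P]
        have : |P| ^ 2 ≤ (S / 2) ^ 2 := pow_le_pow_left₀ (abs_nonneg _) hPS.le 2
        nlinarith
      have hTS : T ≤ T * S := by nlinarith
      have hQ2 : |Q ^ 2 - T ^ 2| ≤ 3 * (T * S) := by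
        have h4 : |P ^ 2 + Q ^ 2 - T ^ 2 - l| < T * S := lt_of_le_of_lt h1 hc2
        rw [abs_lt] at h4
        rw [abs_le] at hl ⊢
        constructor <;> nlinarith [sq_nonneg P]
      have hQT : |(|Q| - T)| ≤ 3 * S := by
        have h4 : |Q ^ 2 - T ^ 2| = |(|Q| - T)| * (|Q| + T) := by
          rw [← sq_abs Q, sq_sub_sq, abs_mul, mul_comm, abs_of_nonneg (by positivity : (0:ℝ) ≤ |Q| + T)]
        rw [h4] at hQ2
        have h5 : |(|Q| - T)| * T ≤ |(|Q| - T)| * (|Q| + T) :=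
          mul_le_mul_of_nonneg_left (by linarith [abs_nonneg Q]) (abs_nonneg _)
        have h6 : |(|Q| - T)| * T ≤ (3 * S) * T := by linarith
        exact le_of_mul_le_mul_right h6 hT0
      have h4 : 1 / ‖M‖ ≤ 1 / (F.A * T) := one_div_le_one_div_of_le (by positivity) h3
      have hPS2 : P ^ 2 ≤ S ^ 2 / 4 := by rw [← hT]; exact hP2
      have key : Real.exp (-10) ≤ gw (m ^ 2 / S ^ 2) (-(1/2)) (T / F.D) x + gw (m ^ 2 / S ^ 2) (-(1/2)) (-(T / F.D)) x := by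
        have aux : ∀ b : ℝ, (Q - F.D * b) ^ 2 ≤ 9 * S ^ 2 → Real.exp (-10) ≤ gw (m ^ 2 / S ^ 2) (-(1/2)) b x := by
          intro b hb
          rw [gw_eq]
          refine Real.exp_le_exp.mpr ?_
          rw [neg_le_neg_iff]
          have h6 : m ^ 2 / S ^ 2 * rho2 (-(1/2)) b x = (m ^ 2 * rho2 (-(1/2)) b x) / (S ^ 2) := by ring
          rw [h6, div_le_iff₀ (by positivity), rho2, ← hn, ← hy]
          have h7 : (n - -(1 / 2)) = n + 1 / 2 := by ring
          rw [h7]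
          have h8 : m ^ 2 * (y - b) ^ 2 ≤ (Q - F.D * b) ^ 2 := by
            have : Q - F.D * b = F.D * (y - b) := by rw [hQ]; ring
            rw [this, mul_pow]
            exact mul_le_mul_of_nonneg_right (pow_le_pow_left₀ hm.le hmD 2) (sq_nonneg _)
          nlinarith
        rcases le_or_gt 0 Q with hq | hq
        · have h5 := aux (T / F.D) (by
            rw [mul_div_cancel₀ _ hD.ne']
            rw [abs_of_nonneg hq] at hQT
            rw [← sq_abs]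
            nlinarith [abs_nonneg (Q - T)])
          linarith
        · have h5 := aux (-(T / F.D)) (by
            have : F.D * -(T / F.D) = -T := by field_simp
            rw [this]
            rw [abs_of_neg hq] at hQT
            have h9 : (Q - -T) ^ 2 = |(-Q - T)| ^ 2 := by rw [sq_abs]; ring
            rw [h9]
            nlinarith [abs_nonneg (-Q - T)])
          linarith
      have h6 : 1 / (F.A * T) ≤ Real.exp 10 / (F.A * T) * (gw (m ^ 2 / S ^ 2) (-(1/2)) (T / F.D) x + gw (m ^ 2 / S ^ 2) (-(1/2)) (-(T / F.D)) x) := by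
        have h7 : Real.exp 10 * Real.exp (-10) = 1 := by rw [← Real.exp_add]; simp
        calc 1 / (F.A * T) = Real.exp 10 / (F.A * T) * Real.exp (-10) := by
              rw [div_mul_eq_mul_div, h7]
          _ ≤ _ := by
              refine mul_le_mul_of_nonneg_left key (by positivity)
      linarith

end FD

end

end Pool.Agent.Lib.Pdaec8e
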